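import Pool.Agent.N748.MJ.Stm

/-!
Project MJ, part BND: bound of the coefficients (helper99).
-/

set_option autoImplicit false

namespace Pool.Agent.N748.MJ.BND

open Finset Pool.Agent.N748.MG

/-- the coefficients of `(1 - x)^(-r)` -/
noncomputable def B (r k : ℕ) : ℝ := ∏ i ∈ range k, ((r : ℝ) + i) / ((i : ℝ) + 1)

theorem B_nonneg (r k : ℕ) : 0 ≤ B r k := prod_nonneg fun i _ => by positivity

theorem norm_succ (i : ℕ) : ‖(i : ℂ) + 1‖ = (i : ℝ) + 1 := by
  have : (i : ℂ) + 1 = ((i + 1 : ℕ) : ℂ) := by push_cast; ring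
  rw [this, Complex.norm_natCast]; push_cast; ring

theorem norm_lC_le (s : ℂ) (r : ℕ) (hs : ‖s‖ ≤ r) (k : ℕ) : ‖lC s k‖ ≤ B r k := by
  unfold lC B
  rw [norm_prod]
  refine prod_le_prod (fun _ _ => norm_nonneg _) fun i _ => ?_
  rw [norm_div, norm_succ]
  have h2 : ‖s + i‖ ≤ r + i := (norm_add_le _ _).trans (by rw [Complex.norm_natCast]; linarith)
  gcongr

theorem norm_lC_nat (r k : ℕ) : ‖lC (r : ℂ) k‖ = B r k := by
  unfold lC B
  rw [norm_prod]
  refine prod_congr rfl fun i _ => ?_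
  rw [norm_div, norm_succ]
  have h2 : ((r : ℂ) + i) = ((r + i : ℕ) : ℂ) := by push_cast; ring
  rw [h2, Complex.norm_natCast]
  push_cast
  ring

theorem B_succ (r k : ℕ) : B r (k + 1) = B r k * (((r : ℝ) + k) / ((k : ℝ) + 1)) := by
  unfold B
  rw [prod_range_succ]

theorem B_zero_succ (k : ℕ) : B 0 (k + 1) = 0 := by
  unfold B
  refine prod_eq_zero (mem_range.2 (Nat.succ_pos k)) ?_
  simp

theorem B_choose (d k : ℕ) : B (d + 1) k = ((d + k).choose d : ℕ) := by
  induction k with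
  | zero => simp [B]
  | succ k ih =>
    rw [B_succ, ih]
    have h1 : (d + (k + 1)).choose d * (k + 1) = (d + k).choose d * (d + k + 1) := by
      have e1 : (d + (k + 1)).choose d = (d + k + 1).choose (k + 1) :=
        Nat.choose_symm_add (a := d) (b := k + 1)
      have e2 : (d + k).choose d = (d + k).choose k := Nat.choose_symm_add
      rw [e1, e2]
      have := Nat.add_one_mul_choose_eq (d + k) k
      rw [← this]
      ring
    have h2 : (((d + (k + 1)).choose d : ℕ) : ℝ) * (k + 1) =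
        (((d + k).choose d : ℕ) : ℝ) * (d + k + 1) := by exact_mod_cast h1
    have h3 : (0 : ℝ) < (k : ℝ) + 1 := by positivity
    rw [mul_div_assoc', div_eq_iff h3.ne', h2]
    push_cast
    ring

theorem mk_B (r : ℕ) : (PowerSeries.mk (B r) : PowerSeries ℝ) = (PowerSeries.mk 1) ^ r := by
  cases r with
  | zero =>
    rw [pow_zero]
    ext k
    rw [PowerSeries.coeff_mk, PowerSeries.coeff_one]
    cases k with
    | zero => simp [B]
    | succ k => rw [B_zero_succ, if_neg (Nat.succ_ne_zero k)]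
  | succ d =>
    rw [PowerSeries.mk_one_pow_eq_mk_choose_add]
    ext k
    rw [PowerSeries.coeff_mk, PowerSeries.coeff_mk, B_choose]

theorem sum_anti (m : ℕ) (f : Fin m → ℕ → ℝ) (k : ℕ) :
    ∑ μ ∈ Finset.piAntidiag (Finset.univ : Finset (Fin m)) k, ∏ j, f j (μ j) =
      PowerSeries.coeff k (∏ j, PowerSeries.mk (f j)) := by
  rw [PowerSeries.coeff_prod]
  refine Finset.sum_bij' (fun μ _ => Finsupp.equivFunOnFinite.symm μ) (fun l _ => (l : Fin m → ℕ))
    ?_ ?_ ?_ ?_ ?_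
  · intro μ hμ
    rw [Finset.mem_piAntidiag] at hμ
    rw [Finset.mem_finsuppAntidiag]
    refine ⟨?_, Finset.subset_univ _⟩
    rw [← hμ.1]
    rfl
  · intro l hl
    rw [Finset.mem_finsuppAntidiag] at hl
    rw [Finset.mem_piAntidiag]
    exact ⟨hl.1, fun i _ => Finset.mem_univ i⟩
  · intro μ _
    rfl
  · intro l _
    ext j
    rfl
  · intro μ _
    refine prod_congr rfl fun j _ => ?_
    rw [PowerSeries.coeff_mk]
    rfl

theorem sum_B (m r k : ℕ) :
    ∑ μ ∈ Finset.piAntidiag (Finset.univ : Finset (Fin m)) k, ∏ j, B r (μ j) = B (m * r) k := by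
  rw [sum_anti m (fun _ => B r) k, prod_const, card_univ, Fintype.card_fin, mk_B, ← pow_mul,
    Nat.mul_comm, ← mk_B, PowerSeries.coeff_mk]

theorem norm_cpow (q : ℕ) (hq : 1 ≤ q) (x : ℝ) : ‖(q : ℂ) ^ (-((x : ℝ) * Complex.I))‖ = 1 := by
  rw [Complex.norm_natCast_cpow_of_pos (by omega)]
  have : (-((x : ℝ) * Complex.I) : ℂ).re = 0 := by simp
  rw [this, Real.rpow_zero]

/-- BND -/
theorem main : S_BND := by
  intro m R hR
  refine ⟨m * ⌈R⌉₊, fun s h hs => ?_⟩
  have hs' : ∀ j, ‖s j‖ ≤ (⌈R⌉₊ : ℕ) := fun j => (hs j).trans (Nat.le_ceil R)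
  have h1 : ∀ q k : ℕ, 1 ≤ q → ‖lV s h q k‖ ≤ ‖lC ((m * ⌈R⌉₊ : ℕ) : ℂ) k‖ := by
    intro q k hq
    rw [norm_lC_nat, ← sum_B]
    unfold lV
    refine (norm_sum_le _ _).trans (sum_le_sum fun μ _ => ?_)
    rw [norm_prod]
    refine prod_le_prod (fun _ _ => norm_nonneg _) fun j _ => ?_
    rw [norm_mul, norm_cpow q hq, mul_one]
    exact norm_lC_le (s j) _ (hs' j) _
  refine ⟨h1, fun n => ?_⟩
  unfold dV dS
  rw [norm_prod, norm_prod]
  refine prod_le_prod (fun _ _ => norm_nonneg _) fun p hp => ?_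
  exact h1 p _ (Nat.prime_of_mem_primeFactors hp).one_le

end Pool.Agent.N748.MJ.BND
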