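import Pool.Agent.N748.MJ.Stm
import Pool.Agent.N748.MG.CONT

/-!
# Project MJ (helper748), part GVB (helper296): the local factors
-/

set_option autoImplicit false

namespace Pool.Agent.N748.MJ.GVB

open Finset Filter MeasureTheory Topology Complex
open Pool.Agent.N748.MG Pool.Agent.N748.MG.CON

/-! ### logarithm and exponential -/

theorem one_sub_ne {z : ℂ} (hz : ‖z‖ ≤ 1 / 2) : (1 : ℂ) - z ≠ 0 := by
  intro h
  have : z = 1 := by linear_combination -h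
  rw [this] at hz
  norm_num at hz

theorem log_bd {z : ℂ} (hz : ‖z‖ ≤ 1 / 2) : ‖Complex.log (1 - z) + z‖ ≤ ‖z‖ ^ 2 := by
  have hxn : ‖-z‖ < 1 := by rw [norm_neg]; linarith
  have h2 := Complex.norm_log_one_add_sub_self_le hxn
  have h3 : Complex.log (1 + -z) - -z = Complex.log (1 - z) + z := by
    rw [← sub_eq_add_neg]; ring
  rw [h3, norm_neg] at h2
  refine h2.trans ?_
  have h4 : (1 - ‖z‖)⁻¹ ≤ 2 := by
    rw [inv_le_comm₀ (by linarith) (by norm_num)]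
    linarith
  have h5 : 0 ≤ ‖z‖ ^ 2 := by positivity
  nlinarith

theorem log_lip {z z' : ℂ} (hz : ‖z‖ ≤ 1 / 2) (hz' : ‖z'‖ ≤ 1 / 2) :
    ‖Complex.log (1 - z) - Complex.log (1 - z')‖ ≤ 2 * ‖z - z'‖ := by
  have hmem : ∀ w ∈ Metric.closedBall (0 : ℂ) (1 / 2), 1 - w ∈ Complex.slitPlane := by
    intro w hw
    rw [mem_closedBall_zero_iff] at hw
    left
    have h1 : w.re ≤ ‖w‖ := Complex.re_le_norm w
    simp only [Complex.sub_re, Complex.one_re]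
    linarith
  have hd : ∀ w ∈ Metric.closedBall (0 : ℂ) (1 / 2),
      HasDerivWithinAt (fun w => Complex.log (1 - w)) (-1 / (1 - w))
        (Metric.closedBall (0 : ℂ) (1 / 2)) w := by
    intro w hw
    exact (((hasDerivAt_id w).const_sub 1).clog (hmem w hw)).hasDerivWithinAt
  have hb : ∀ w ∈ Metric.closedBall (0 : ℂ) (1 / 2), ‖-1 / (1 - w)‖ ≤ 2 := by
    intro w hw
    rw [mem_closedBall_zero_iff] at hw
    rw [norm_div, norm_neg, norm_one]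
    have h1 : (1 : ℝ) / 2 ≤ ‖1 - w‖ := by
      have := norm_sub_norm_le (1 : ℂ) w
      rw [norm_one] at this
      linarith
    rw [div_le_iff₀ (by linarith)]
    linarith
  exact (convex_closedBall (0 : ℂ) (1 / 2)).norm_image_sub_le_of_norm_hasDerivWithin_le hd hb
    (mem_closedBall_zero_iff.2 hz') (mem_closedBall_zero_iff.2 hz)

theorem exp_bd (w : ℂ) : ‖Complex.exp w - (1 + w)‖ ≤ ‖w‖ ^ 2 * Real.exp ‖w‖ := by
  have h2 := Complex.norm_exp_sub_sum_le_norm_mul_exp w 2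
  rw [sum_range_succ, sum_range_succ, sum_range_zero] at h2
  norm_num at h2
  exact h2

theorem exp_lip (w w' : ℂ) (M : ℝ) (h : ‖w‖ ≤ M) (h' : ‖w'‖ ≤ M) :
    ‖Complex.exp w - Complex.exp w'‖ ≤ Real.exp (3 * M) * ‖w - w'‖ := by
  have h1 : Complex.exp w - Complex.exp w' = Complex.exp w' * (Complex.exp (w - w') - 1) := by
    rw [mul_sub, ← Complex.exp_add]
    congr 2 <;> ring
  have h2 := Complex.norm_exp_sub_sum_le_norm_mul_exp (w - w') 1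
  rw [sum_range_succ, sum_range_zero] at h2
  norm_num at h2
  rw [h1, norm_mul]
  have h3 : ‖Complex.exp w'‖ ≤ Real.exp M := by
    rw [Complex.norm_exp]
    exact Real.exp_le_exp.2 ((Complex.re_le_norm w').trans h')
  have h4 : Real.exp ‖w - w'‖ ≤ Real.exp (2 * M) := by
    refine Real.exp_le_exp.2 ((norm_sub_le _ _).trans ?_)
    linarith
  calc ‖Complex.exp w'‖ * ‖Complex.exp (w - w') - 1‖
      ≤ Real.exp M * (‖w - w'‖ * Real.exp (2 * M)) := by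
        refine mul_le_mul h3 (h2.trans ?_) (norm_nonneg _) (Real.exp_pos _).le
        exact mul_le_mul_of_nonneg_left h4 (norm_nonneg _)
    _ = Real.exp (3 * M) * ‖w - w'‖ := by
        rw [show (3 : ℝ) * M = M + 2 * M by ring, Real.exp_add]
        ring

theorem pow_lip {x x' : ℂ} (hx : ‖x‖ ≤ 1 / 2) (hx' : ‖x'‖ ≤ 1 / 2) (k : ℕ) :
    ‖x ^ k - x' ^ k‖ ≤ 2 * k * (1 / 2) ^ k * ‖x - x'‖ := by
  induction k with
  | zero => simp
  | succ k ih =>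
    have e : x ^ (k + 1) - x' ^ (k + 1) = x * (x ^ k - x' ^ k) + (x - x') * x' ^ k := by ring
    rw [e]
    refine (norm_add_le _ _).trans ?_
    rw [norm_mul, norm_mul, norm_pow]
    have h1 : ‖x'‖ ^ k ≤ (1 / 2) ^ k := pow_le_pow_left₀ (norm_nonneg _) hx' k
    calc ‖x‖ * ‖x ^ k - x' ^ k‖ + ‖x - x'‖ * ‖x'‖ ^ k
        ≤ 1 / 2 * (2 * k * (1 / 2) ^ k * ‖x - x'‖) + ‖x - x'‖ * (1 / 2) ^ k := by
          gcongr
      _ = 2 * ((k + 1 : ℕ) : ℝ) * (1 / 2) ^ (k + 1) * ‖x - x'‖ := by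
          push_cast
          ring

/-! ### the general local factor -/

section core

variable {ι : Type} [Fintype ι]

/-- the exponent -/
noncomputable def ww (c θ : ι → ℂ) (x : ℂ) : ℂ := ∑ i, c i * Complex.log (1 - x * θ i)

/-- the power series -/
noncomputable def SS (A : ℕ → ℂ) (x : ℂ) : ℂ := ∑' k : ℕ, A k * x ^ k

theorem ww_bd (c θ : ι → ℂ) (M : ℝ) (hc : ∑ i, ‖c i‖ ≤ M) (hθ : ∀ i, ‖θ i‖ = 1) {x : ℂ}
    (hx : ‖x‖ ≤ 1 / 2) : ‖ww c θ x + x * ∑ i, c i * θ i‖ ≤ M * ‖x‖ ^ 2 := by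
  have e : ww c θ x + x * ∑ i, c i * θ i = ∑ i, c i * (Complex.log (1 - x * θ i) + x * θ i) := by
    unfold ww
    rw [mul_sum, ← sum_add_distrib]
    exact sum_congr rfl fun i _ => by ring
  rw [e]
  refine (norm_sum_le _ _).trans ?_
  calc ∑ i, ‖c i * (Complex.log (1 - x * θ i) + x * θ i)‖ ≤ ∑ i, ‖c i‖ * ‖x‖ ^ 2 := by
        refine sum_le_sum fun i _ => ?_
        rw [norm_mul]
        have h1 : ‖x * θ i‖ = ‖x‖ := by rw [norm_mul, hθ, mul_one]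
        have h2 := log_bd (z := x * θ i) (by rw [h1]; exact hx)
        rw [h1] at h2
        exact mul_le_mul_of_nonneg_left h2 (norm_nonneg _)
    _ = (∑ i, ‖c i‖) * ‖x‖ ^ 2 := by rw [sum_mul]
    _ ≤ M * ‖x‖ ^ 2 := mul_le_mul_of_nonneg_right hc (by positivity)

theorem ww_lip (c θ : ι → ℂ) (M : ℝ) (hc : ∑ i, ‖c i‖ ≤ M) (hθ : ∀ i, ‖θ i‖ = 1) {x x' : ℂ}
    (hx : ‖x‖ ≤ 1 / 2) (hx' : ‖x'‖ ≤ 1 / 2) : ‖ww c θ x - ww c θ x'‖ ≤ 2 * M * ‖x - x'‖ := by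
  have e : ww c θ x - ww c θ x' =
      ∑ i, c i * (Complex.log (1 - x * θ i) - Complex.log (1 - x' * θ i)) := by
    unfold ww
    rw [← sum_sub_distrib]
    exact sum_congr rfl fun i _ => by ring
  rw [e]
  refine (norm_sum_le _ _).trans ?_
  calc ∑ i, ‖c i * (Complex.log (1 - x * θ i) - Complex.log (1 - x' * θ i))‖
      ≤ ∑ i, ‖c i‖ * (2 * ‖x - x'‖) := by
        refine sum_le_sum fun i _ => ?_
        rw [norm_mul]
        have h1 : ∀ y : ℂ, ‖y * θ i‖ = ‖y‖ := fun y => by rw [norm_mul, hθ, mul_one]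
        have h2 := log_lip (z := x * θ i) (z' := x' * θ i) (by rw [h1]; exact hx)
          (by rw [h1]; exact hx')
        rw [← sub_mul, h1] at h2
        exact mul_le_mul_of_nonneg_left h2 (norm_nonneg _)
    _ = (∑ i, ‖c i‖) * (2 * ‖x - x'‖) := by rw [sum_mul]
    _ ≤ M * (2 * ‖x - x'‖) := mul_le_mul_of_nonneg_right hc (by positivity)
    _ = _ := by ring

theorem lam_bd (c θ : ι → ℂ) (M : ℝ) (hc : ∑ i, ‖c i‖ ≤ M) (hθ : ∀ i, ‖θ i‖ = 1) :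
    ‖∑ i, c i * θ i‖ ≤ M := by
  refine (norm_sum_le _ _).trans (le_trans (le_of_eq ?_) hc)
  exact sum_congr rfl fun i _ => by rw [norm_mul, hθ, mul_one]

theorem A_bd (k c : ℕ) (A : ℕ → ℂ) (hA : ∀ n, ‖A n‖ ≤ ((n : ℝ) + 1) ^ (2 * k)) {x : ℂ}
    (hx : ‖x‖ ≤ 1 / 2) (n : ℕ) : ‖A (n + c) * x ^ n‖ ≤ bb k (c + 1) n := by
  rw [norm_mul, norm_pow]
  unfold bb
  refine mul_le_mul ?_ (pow_le_pow_left₀ (norm_nonneg _) hx n) (by positivity) (by positivity)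
  refine (hA (n + c)).trans (le_of_eq ?_)
  push_cast
  ring

theorem SS_exp (k : ℕ) (A : ℕ → ℂ) (hA : ∀ n, ‖A n‖ ≤ ((n : ℝ) + 1) ^ (2 * k)) (h0 : A 0 = 1)
    {x : ℂ} (hx : ‖x‖ ≤ 1 / 2) :
    ∃ q : ℂ, SS A x = 1 + A 1 * x + q ∧ ‖q‖ ≤ (∑' m, bb k 3 m) * ‖x‖ ^ 2 := by
  have hsum : Summable fun n : ℕ => A n * x ^ n :=
    Summable.of_norm_bounded (bb_sum k 1) fun n => A_bd k 0 A hA hx n
  refine ⟨x ^ 2 * ∑' m : ℕ, A (m + 2) * x ^ m, ?_, ?_⟩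
  · unfold SS
    rw [← hsum.sum_add_tsum_nat_add 2, sum_range_succ, sum_range_succ, sum_range_zero, h0,
      ← tsum_mul_left]
    congr 1
    · ring
    · congr 1
      funext m
      ring
  · rw [norm_mul, norm_pow, mul_comm]
    refine mul_le_mul_of_nonneg_right ?_ (by positivity)
    exact tsum_of_norm_bounded (bb_sum k 3).hasSum fun m => A_bd k 2 A hA hx m

theorem SS_bd (k : ℕ) (A : ℕ → ℂ) (hA : ∀ n, ‖A n‖ ≤ ((n : ℝ) + 1) ^ (2 * k))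
    {x : ℂ} (hx : ‖x‖ ≤ 1 / 2) : ‖SS A x‖ ≤ ∑' m, bb k 1 m :=
  tsum_of_norm_bounded (bb_sum k 1).hasSum fun n => A_bd k 0 A hA hx n

theorem SS_lip (k : ℕ) (A : ℕ → ℂ) (hA : ∀ n, ‖A n‖ ≤ ((n : ℝ) + 1) ^ (2 * k))
    {x x' : ℂ} (hx : ‖x‖ ≤ 1 / 2) (hx' : ‖x'‖ ≤ 1 / 2) :
    ‖SS A x - SS A x'‖ ≤ 2 * (∑' m, bb (k + 1) 1 m) * ‖x - x'‖ := by
  have hs : ∀ y : ℂ, ‖y‖ ≤ 1 / 2 → Summable fun n : ℕ => A n * y ^ n := fun y hy =>
    Summable.of_norm_bounded (bb_sum k 1) fun n => A_bd k 0 A hA hy n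
  unfold SS
  rw [← (hs x hx).tsum_sub (hs x' hx')]
  have h1 : ∀ n : ℕ, ‖A n * x ^ n - A n * x' ^ n‖ ≤ bb (k + 1) 1 n * (2 * ‖x - x'‖) := by
    intro n
    rw [← mul_sub, norm_mul]
    have h2 := pow_lip hx hx' n
    calc ‖A n‖ * ‖x ^ n - x' ^ n‖ ≤ ((n : ℝ) + 1) ^ (2 * k) * (2 * n * (1 / 2) ^ n * ‖x - x'‖) :=
          mul_le_mul (hA n) h2 (norm_nonneg _) (by positivity)
      _ ≤ ((n : ℝ) + 1) ^ (2 * k) * (2 * ((n : ℝ) + 1) ^ 2 * (1 / 2) ^ n * ‖x - x'‖) := by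
          gcongr
          nlinarith [Nat.cast_nonneg (α := ℝ) n]
      _ = bb (k + 1) 1 n * (2 * ‖x - x'‖) := by
          unfold bb
          push_cast
          ring
  have h3 := tsum_of_norm_bounded (((bb_sum (k + 1) 1).hasSum).mul_right (2 * ‖x - x'‖)) h1
  refine h3.trans (le_of_eq ?_)
  ring

/-- the two estimates -/
theorem core (M : ℝ) (hM : 0 ≤ M) (k : ℕ) : ∃ C : ℝ, 0 < C ∧ ∀ (c θ : ι → ℂ) (A : ℕ → ℂ),
    ∑ i, ‖c i‖ ≤ M → (∀ i, ‖θ i‖ = 1) → (∀ n, ‖A n‖ ≤ ((n : ℝ) + 1) ^ (2 * k)) → A 0 = 1 →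
    A 1 = ∑ i, c i * θ i → ∀ x x' : ℂ, ‖x‖ ≤ 1 / 2 → ‖x'‖ ≤ 1 / 2 →
    ‖Complex.exp (ww c θ x) * SS A x - 1‖ ≤ C * ‖x‖ ^ 2 ∧
    ‖Complex.exp (ww c θ x) * SS A x - Complex.exp (ww c θ x') * SS A x'‖ ≤ C * ‖x - x'‖ := by
  set a : ℝ := ∑' m, bb k 3 m with ha
  set a1 : ℝ := ∑' m, bb k 1 m with ha1
  set a2 : ℝ := ∑' m, bb (k + 1) 1 m with ha2
  have ha0 : 0 ≤ a := tsum_nonneg fun m => by unfold bb; positivity
  have ha10 : 0 ≤ a1 := tsum_nonneg fun m => by unfold bb; positivity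
  have ha20 : 0 ≤ a2 := tsum_nonneg fun m => by unfold bb; positivity
  set B : ℝ := M + (2 * M) ^ 2 * Real.exp (2 * M) with hB
  have hB0 : 0 ≤ B := by positivity
  have hwx : ∀ (c θ : ι → ℂ), ∑ i, ‖c i‖ ≤ M → (∀ i, ‖θ i‖ = 1) → ∀ x : ℂ, ‖x‖ ≤ 1 / 2 →
      ‖ww c θ x‖ ≤ 2 * M * ‖x‖ := by
    intro c θ hc hθ x hx
    have h1 := ww_bd c θ M hc hθ hx
    have h2 := lam_bd c θ M hc hθ
    have e : ww c θ x = (ww c θ x + x * ∑ i, c i * θ i) - x * ∑ i, c i * θ i := by ring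
    rw [e]
    refine (norm_sub_le _ _).trans ?_
    rw [norm_mul x]
    have h3 : ‖x‖ * ‖∑ i, c i * θ i‖ ≤ ‖x‖ * M := mul_le_mul_of_nonneg_left h2 (norm_nonneg _)
    have h4 : M * ‖x‖ ^ 2 ≤ M * ‖x‖ := by
      refine mul_le_mul_of_nonneg_left ?_ hM
      nlinarith [norm_nonneg x]
    linarith
  have hwM : ∀ (c θ : ι → ℂ), ∑ i, ‖c i‖ ≤ M → (∀ i, ‖θ i‖ = 1) → ∀ x : ℂ, ‖x‖ ≤ 1 / 2 →
      ‖ww c θ x‖ ≤ 2 * M := by
    intro c θ hc hθ x hx
    refine (hwx c θ hc hθ x hx).trans ?_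
    nlinarith
  refine ⟨(M ^ 2 + B * (1 + M + a) + a * (1 + M)) + (Real.exp (6 * M) * (2 * M) * a1 +
    Real.exp (2 * M) * (2 * a2)) + 1, by positivity, ?_⟩
  intro c θ A hc hθ hA h0 h1 x x' hx hx'
  have hE : ∀ y : ℂ, ‖y‖ ≤ 1 / 2 → ‖Complex.exp (ww c θ y)‖ ≤ Real.exp (2 * M) := by
    intro y hy
    rw [Complex.norm_exp]
    exact Real.exp_le_exp.2 ((Complex.re_le_norm _).trans (hwM c θ hc hθ y hy))
  constructor
  · obtain ⟨q, hq, hq'⟩ := SS_exp k A hA h0 hx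
    have hΛ := lam_bd c θ M hc hθ
    set Λ : ℂ := ∑ i, c i * θ i with hΛd
    set w : ℂ := ww c θ x with hw
    have hr : ∃ r : ℂ, Complex.exp w = 1 - x * Λ + r ∧ ‖r‖ ≤ B * ‖x‖ ^ 2 := by
      refine ⟨(w + x * Λ) + (Complex.exp w - (1 + w)), by ring, ?_⟩
      refine (norm_add_le _ _).trans ?_
      rw [hB, add_mul]
      refine add_le_add (ww_bd c θ M hc hθ hx) ((exp_bd w).trans ?_)
      have h3 : Real.exp ‖w‖ ≤ Real.exp (2 * M) := Real.exp_le_exp.2 (hwM c θ hc hθ x hx)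
      have h4 : ‖w‖ ^ 2 ≤ (2 * M) ^ 2 * ‖x‖ ^ 2 := by
        rw [← mul_pow]
        exact pow_le_pow_left₀ (norm_nonneg _) (hwx c θ hc hθ x hx) 2
      calc ‖w‖ ^ 2 * Real.exp ‖w‖ ≤ ((2 * M) ^ 2 * ‖x‖ ^ 2) * Real.exp (2 * M) :=
            mul_le_mul h4 h3 (Real.exp_pos _).le (by positivity)
        _ = _ := by ring
    obtain ⟨r, hr, hr'⟩ := hr
    have e : Complex.exp w * SS A x - 1 = -(Λ ^ 2 * x ^ 2) + r * (1 + Λ * x + q) +
        q * (1 - x * Λ) := by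
      rw [hq, hr, h1]
      ring
    have hx1 : ‖x‖ ≤ 1 := by linarith
    have hxx : ‖x‖ ^ 2 ≤ 1 := by nlinarith [norm_nonneg x]
    have hsx : ‖Λ * x‖ ≤ M := by
      rw [norm_mul]
      calc ‖Λ‖ * ‖x‖ ≤ M * 1 := mul_le_mul hΛ hx1 (norm_nonneg _) hM
        _ = _ := mul_one _
    have hqA : ‖q‖ ≤ a := hq'.trans (mul_le_of_le_one_right ha0 hxx)
    have n1 : ‖-(Λ ^ 2 * x ^ 2)‖ ≤ M ^ 2 * ‖x‖ ^ 2 := by
      rw [norm_neg, norm_mul, norm_pow, norm_pow]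
      exact mul_le_mul_of_nonneg_right (pow_le_pow_left₀ (norm_nonneg _) hΛ 2) (by positivity)
    have n2 : ‖r * (1 + Λ * x + q)‖ ≤ (B * ‖x‖ ^ 2) * (1 + M + a) := by
      rw [norm_mul]
      refine mul_le_mul hr' ?_ (norm_nonneg _) (by positivity)
      refine (norm_add_le _ _).trans (add_le_add ((norm_add_le _ _).trans ?_) hqA)
      rw [norm_one]
      linarith
    have n3 : ‖q * (1 - x * Λ)‖ ≤ (a * ‖x‖ ^ 2) * (1 + M) := by
      rw [norm_mul]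
      refine mul_le_mul hq' ?_ (norm_nonneg _) (by positivity)
      refine (norm_sub_le _ _).trans ?_
      rw [norm_one, mul_comm x]
      linarith
    rw [e]
    refine (norm_add_le _ _).trans ((add_le_add ((norm_add_le _ _).trans (add_le_add n1 n2)) n3).trans ?_)
    have h5 : 0 ≤ (Real.exp (6 * M) * (2 * M) * a1 + Real.exp (2 * M) * (2 * a2)) + 1 := by
      positivity
    have h6 : 0 ≤ ((Real.exp (6 * M) * (2 * M) * a1 + Real.exp (2 * M) * (2 * a2)) + 1) * ‖x‖ ^ 2 :=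
      mul_nonneg h5 (by positivity)
    linarith
  · have e : Complex.exp (ww c θ x) * SS A x - Complex.exp (ww c θ x') * SS A x' =
        (Complex.exp (ww c θ x) - Complex.exp (ww c θ x')) * SS A x +
          Complex.exp (ww c θ x') * (SS A x - SS A x') := by ring
    rw [e]
    refine (norm_add_le _ _).trans ?_
    rw [norm_mul, norm_mul]
    have h2 := exp_lip (ww c θ x) (ww c θ x') (2 * M) (hwM c θ hc hθ x hx) (hwM c θ hc hθ x' hx')
    have h3 := ww_lip c θ M hc hθ hx hx'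
    have h4 : ‖Complex.exp (ww c θ x) - Complex.exp (ww c θ x')‖ ≤
        Real.exp (6 * M) * (2 * M * ‖x - x'‖) := by
      refine h2.trans ?_
      rw [show (3 : ℝ) * (2 * M) = 6 * M by ring]
      exact mul_le_mul_of_nonneg_left h3 (Real.exp_pos _).le
    have h5 := SS_bd k A hA hx
    have h6 := SS_lip k A hA hx hx'
    have h7 := hE x' hx'
    have n1 : ‖Complex.exp (ww c θ x) - Complex.exp (ww c θ x')‖ * ‖SS A x‖ ≤
        Real.exp (6 * M) * (2 * M * ‖x - x'‖) * a1 :=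
      mul_le_mul h4 h5 (norm_nonneg _) (by positivity)
    have n2 : ‖Complex.exp (ww c θ x')‖ * ‖SS A x - SS A x'‖ ≤
        Real.exp (2 * M) * (2 * a2 * ‖x - x'‖) :=
      mul_le_mul h7 h6 (norm_nonneg _) (Real.exp_pos _).le
    have h8 : 0 ≤ ((M ^ 2 + B * (1 + M + a) + a * (1 + M)) + 1) * ‖x - x'‖ := by positivity
    nlinarith

end core

/-! ### the coefficients -/

theorem lV_zero {m : ℕ} (s : Fin m → ℂ) (h : Fin m → ℝ) (q : ℕ) : lV s h q 0 = 1 := by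
  unfold lV
  rw [Finset.piAntidiag_zero, Finset.sum_singleton]
  simp [lC]

theorem anti_one (m : ℕ) : Finset.piAntidiag (Finset.univ : Finset (Fin m)) 1 =
    Finset.univ.image (fun j : Fin m => (Pi.single j 1 : Fin m → ℕ)) := by
  ext μ
  rw [Finset.mem_piAntidiag, Finset.mem_image]
  constructor
  · rintro ⟨h1, -⟩
    have hex : ∃ j, μ j ≠ 0 := by
      by_contra hc
      push Not at hc
      rw [Finset.sum_eq_zero fun i _ => hc i] at h1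
      exact absurd h1 (by norm_num)
    obtain ⟨j, hj⟩ := hex
    refine ⟨j, Finset.mem_univ j, ?_⟩
    have h2 := Finset.add_sum_erase Finset.univ μ (Finset.mem_univ j)
    rw [h1] at h2
    have h3 : ∑ i ∈ Finset.univ.erase j, μ i = 0 := by omega
    have h4 := (Finset.sum_eq_zero_iff).1 h3
    funext i
    by_cases hij : i = j
    · subst hij
      rw [Pi.single_eq_same]
      omega
    · rw [Pi.single_eq_of_ne hij, h4 i (Finset.mem_erase.2 ⟨hij, Finset.mem_univ i⟩)]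
  · rintro ⟨j, -, rfl⟩
    refine ⟨?_, fun i _ => Finset.mem_univ i⟩
    rw [Finset.sum_pi_single']
    simp

theorem lV_one {m : ℕ} (s : Fin m → ℂ) (h : Fin m → ℝ) (q : ℕ) :
    lV s h q 1 = ∑ j, s j * (q : ℂ) ^ (-((h j : ℝ) * I)) := by
  unfold lV
  rw [anti_one, Finset.sum_image]
  · refine Finset.sum_congr rfl fun j _ => ?_
    rw [Finset.prod_eq_single j]
    · rw [Pi.single_eq_same, lC_one]
      simp
    · intro i _ hij
      rw [Pi.single_eq_of_ne hij, lC_zero]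
      simp
    · intro hj
      exact absurd (Finset.mem_univ j) hj
  · intro i _ j _ hij
    by_contra hne
    have := congrFun hij i
    simp only at this
    rw [Pi.single_eq_same, Pi.single_eq_of_ne hne] at this
    exact absurd this (by norm_num)

theorem norm_th (p : ℕ) (hp : 1 ≤ p) (u : ℝ) : ‖(p : ℂ) ^ (-((u : ℝ) * I))‖ = 1 := by
  rw [Complex.norm_natCast_cpow_of_pos (by omega)]
  simp

theorem conj_th (p : ℕ) (u : ℝ) :
    (starRingEnd ℂ) ((p : ℂ) ^ (-((u : ℝ) * I))) = (p : ℂ) ^ ((u : ℝ) * I) := by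
  have h1 : Complex.arg (p : ℂ) ≠ Real.pi := by
    rw [Complex.natCast_arg]
    exact Real.pi_pos.ne
  have h2 := Complex.cpow_conj (p : ℂ) (-((u : ℝ) * I)) h1
  rw [Complex.conj_natCast] at h2
  rw [← h2]
  congr 1
  simp

theorem th_mul (p : ℕ) (hp : 1 ≤ p) (u v : ℝ) :
    (p : ℂ) ^ (-((u : ℝ) * I)) * (starRingEnd ℂ) ((p : ℂ) ^ (-((v : ℝ) * I))) =
      (p : ℂ) ^ (-(((u - v : ℝ) : ℂ) * I)) := by
  have hp0 : (p : ℂ) ≠ 0 := by
    have : p ≠ 0 := by omega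
    exact_mod_cast this
  rw [conj_th, ← Complex.cpow_add _ _ hp0]
  congr 1
  push_cast
  ring

/-- the index set of the pairs -/
abbrev PP (m : ℕ) : Type := Fin m × Fin m

theorem x_bd (p : ℕ) (hp : 2 ≤ p) (δ : ℝ) (hδ : 0 ≤ δ) :
    0 < (p : ℝ) ^ (-(1 + 2 * δ)) ∧ (p : ℝ) ^ (-(1 + 2 * δ)) ≤ 1 / (p : ℝ) ∧
      (p : ℝ) ^ (-(1 + 2 * δ)) ≤ 1 / 2 := by
  have hp2 : (2 : ℝ) ≤ p := by exact_mod_cast hp
  have h1 : (p : ℝ) ^ (-(1 + 2 * δ)) ≤ 1 / (p : ℝ) := by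
    rw [one_div, ← Real.rpow_neg_one]
    exact Real.rpow_le_rpow_of_exponent_le (by linarith) (by linarith)
  refine ⟨Real.rpow_pos_of_pos (by linarith) _, h1, h1.trans ?_⟩
  exact one_div_le_one_div_of_le (by norm_num) hp2

theorem x_norm (p : ℕ) (hp : 2 ≤ p) (δ : ℝ) (hδ : 0 ≤ δ) :
    ‖(((p : ℝ) ^ (-(1 + 2 * δ)) : ℝ) : ℂ)‖ = (p : ℝ) ^ (-(1 + 2 * δ)) := by
  rw [Complex.norm_real, Real.norm_of_nonneg (x_bd p hp δ hδ).1.le]

theorem gV_eq {m : ℕ} (s r : Fin m → ℂ) (h : Fin m → ℝ) (δ : ℝ) (p : ℕ) (hp : 2 ≤ p) (hδ : 0 ≤ δ) :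
    gV s r h δ p = Complex.exp (ww (fun i : PP m => s i.1 * r i.2)
      (fun i : PP m => (p : ℂ) ^ (-(((h i.1 - h i.2 : ℝ) : ℂ) * I)))
        (((p : ℝ) ^ (-(1 + 2 * δ)) : ℝ) : ℂ)) *
      SS (fun k => lV s h p k * (starRingEnd ℂ) (lV (cj r) h p k))
        (((p : ℝ) ^ (-(1 + 2 * δ)) : ℝ) : ℂ) := by
  have hp0 : (p : ℂ) ≠ 0 := by
    have : p ≠ 0 := by omega
    exact_mod_cast this
  have hx : ∀ u : ℝ, (p : ℂ) ^ (-(((1 + 2 * δ : ℝ) : ℂ) + ((u : ℝ) : ℂ) * I)) =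
      (((p : ℝ) ^ (-(1 + 2 * δ)) : ℝ) : ℂ) * (p : ℂ) ^ (-(((u : ℝ) : ℂ) * I)) := by
    intro u
    rw [Complex.ofReal_cpow (by positivity), Complex.ofReal_natCast, ← Complex.cpow_add _ _ hp0]
    congr 1
    push_cast
    ring
  unfold gV SS ww
  congr 1
  rw [Complex.exp_sum, Fintype.prod_prod_type]
  refine Finset.prod_congr rfl fun j _ => Finset.prod_congr rfl fun l _ => ?_
  rw [hx]
  have hne : (1 : ℂ) - (((p : ℝ) ^ (-(1 + 2 * δ)) : ℝ) : ℂ) *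
      (p : ℂ) ^ (-(((h j - h l : ℝ) : ℂ) * I)) ≠ 0 := by
    apply one_sub_ne
    rw [norm_mul, x_norm p hp δ hδ, norm_th p (by omega), mul_one]
    exact (x_bd p hp δ hδ).2.2
  rw [Complex.cpow_def_of_ne_zero hne]
  congr 1
  ring

theorem main (hB : S_BND) : S_GVB := by
  intro m R hR
  obtain ⟨k0, hk0⟩ := hB m R hR
  obtain ⟨C, hC, hcore⟩ := core (ι := PP m) ((m : ℝ) ^ 2 * R ^ 2) (by positivity) k0
  refine ⟨C, hC, fun s r h hs hr p hp δ hδ hδ1 => ?_⟩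
  have hp2 := hp.two_le
  have hp1 : 1 ≤ p := by omega
  have hpr : (2 : ℝ) ≤ p := by exact_mod_cast hp2
  have hcr : ∀ j, ‖cj r j‖ ≤ R := fun j => by
    unfold cj
    rw [RCLike.norm_conj]
    exact hr j
  set c : PP m → ℂ := fun i => s i.1 * r i.2 with hcdef
  set θ : PP m → ℂ := fun i => (p : ℂ) ^ (-(((h i.1 - h i.2 : ℝ) : ℂ) * I)) with hθdef
  set A : ℕ → ℂ := fun k => lV s h p k * (starRingEnd ℂ) (lV (cj r) h p k) with hAdef
  have hc : ∑ i, ‖c i‖ ≤ (m : ℝ) ^ 2 * R ^ 2 := by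
    calc ∑ i, ‖c i‖ ≤ ∑ _i : PP m, R ^ 2 := by
          refine Finset.sum_le_sum fun i _ => ?_
          rw [hcdef]
          simp only
          rw [norm_mul, sq]
          exact mul_le_mul (hs i.1) (hr i.2) (norm_nonneg _) hR
      _ = (m : ℝ) ^ 2 * R ^ 2 := by
          rw [Finset.sum_const, nsmul_eq_mul, Finset.card_univ, Fintype.card_prod, Fintype.card_fin]
          push_cast
          ring
  have hθ : ∀ i, ‖θ i‖ = 1 := fun i => norm_th p hp1 _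
  have hA : ∀ n, ‖A n‖ ≤ ((n : ℝ) + 1) ^ (2 * k0) := by
    intro n
    have h1 := ((hk0 s h hs).1 p n hp1)
    have h2 := ((hk0 (cj r) h hcr).1 p n hp1)
    have h3 : ‖lC (k0 : ℂ) n‖ ≤ ((n : ℝ) + 1) ^ k0 := lC_bd k0 (by rw [Complex.norm_natCast]) n
    rw [hAdef]
    simp only
    rw [norm_mul, RCLike.norm_conj]
    calc ‖lV s h p n‖ * ‖lV (cj r) h p n‖ ≤ ((n : ℝ) + 1) ^ k0 * ((n : ℝ) + 1) ^ k0 :=
          mul_le_mul (h1.trans h3) (h2.trans h3) (norm_nonneg _) (by positivity)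
      _ = ((n : ℝ) + 1) ^ (2 * k0) := by ring
  have hA0 : A 0 = 1 := by
    rw [hAdef]
    simp only
    rw [lV_zero, lV_zero]
    simp
  have hA1 : A 1 = ∑ i, c i * θ i := by
    rw [hAdef, hcdef, hθdef]
    simp only
    rw [lV_one, lV_one, map_sum, Finset.sum_mul_sum, Fintype.sum_prod_type]
    refine Finset.sum_congr rfl fun j _ => Finset.sum_congr rfl fun l _ => ?_
    rw [map_mul, ← th_mul p hp1 (h j) (h l)]
    unfold cj
    rw [Complex.conj_conj]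
    ring
  have hn : ∀ d : ℝ, 0 ≤ d → ‖(((p : ℝ) ^ (-(1 + 2 * d)) : ℝ) : ℂ)‖ ≤ 1 / 2 := fun d hd => by
    rw [x_norm p hp2 d hd]
    exact (x_bd p hp2 d hd).2.2
  obtain ⟨e1, e2⟩ := hcore c θ A hc hθ hA hA0 hA1 _ _ (hn δ hδ) (hn 0 le_rfl)
  rw [← gV_eq s r h δ p hp2 hδ] at e1 e2
  rw [← gV_eq s r h 0 p hp2 le_rfl] at e2
  constructor
  · refine e1.trans ?_
    rw [x_norm p hp2 δ hδ, div_eq_mul_one_div]
    refine mul_le_mul_of_nonneg_left ?_ hC.le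
    have h1 := (x_bd p hp2 δ hδ)
    calc ((p : ℝ) ^ (-(1 + 2 * δ))) ^ 2 ≤ (1 / (p : ℝ)) ^ 2 :=
          pow_le_pow_left₀ h1.1.le h1.2.1 2
      _ = 1 / (p : ℝ) ^ 2 := by rw [div_pow, one_pow]
  · refine e2.trans ?_
    refine mul_le_mul_of_nonneg_left ?_ hC.le
    rw [← Complex.ofReal_sub, Complex.norm_real, Real.norm_eq_abs]
    have hl : 0 ≤ Real.log p := Real.log_nonneg (by linarith)
    have e3 : (p : ℝ) ^ (-(1 + 2 * δ)) = (1 / (p : ℝ)) * Real.exp (-(2 * δ * Real.log p)) := by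
      rw [show -(1 + 2 * δ) = -1 + -(2 * δ) by ring, Real.rpow_add (by linarith), Real.rpow_neg_one,
        one_div, Real.rpow_def_of_pos (by linarith)]
      congr 2
      ring
    have e4 : (p : ℝ) ^ (-(1 + 2 * (0 : ℝ))) = 1 / (p : ℝ) := by
      rw [mul_zero, add_zero, Real.rpow_neg_one, one_div]
    rw [e3, e4]
    have h5 := Real.add_one_le_exp (-(2 * δ * Real.log p))
    have h6 : Real.exp (-(2 * δ * Real.log p)) ≤ 1 := by
      rw [← Real.exp_zero]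
      refine Real.exp_le_exp.2 ?_
      have : 0 ≤ 2 * δ * Real.log p := by positivity
      linarith
    have h7 : 1 / (p : ℝ) ≤ 1 / 2 := one_div_le_one_div_of_le (by norm_num) hpr
    have h8 : 0 < 1 / (p : ℝ) := by positivity
    rw [abs_le]
    constructor
    · nlinarith
    · nlinarith [mul_nonneg hδ hl]

end Pool.Agent.N748.MJ.GVB
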