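import Pool.Agent.N748.MJ.Stm
import Pool.Agent.N748.MG.CONT

/-!
# Project MJ (helper748), parts POSV, CONV, AV0 (helper713): the arithmetic factor
-/

set_option autoImplicit false

namespace Pool.Agent.N748.MJ.POSV

open Finset Filter MeasureTheory Topology Complex
open Pool.Agent.N748.MG Pool.Agent.N748.MJ
open Pool.Agent.N748.MG.CON (lC_zero lC_succ lC_bd lC_cont bb bb_sum)

/-! ### the coefficients -/

theorem lC_step (s : ℂ) (k : ℕ) : ((k : ℂ) + 1) * lC s (k + 1) = (s + k) * lC s k := by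
  rw [lC_succ]
  have : ((k : ℂ) + 1) ≠ 0 := by exact_mod_cast Nat.succ_ne_zero k
  field_simp

theorem lC_add (s t : ℂ) (k : ℕ) :
    ∑ q ∈ antidiagonal k, lC s q.1 * lC t q.2 = lC (s + t) k := by
  induction k with
  | zero => simp [lC_zero]
  | succ k ih =>
    have hk : ((k : ℂ) + 1) ≠ 0 := by exact_mod_cast Nat.succ_ne_zero k
    apply mul_left_cancel₀ hk
    rw [lC_step, ← ih, mul_sum, mul_sum]
    have h1 : ∑ q ∈ antidiagonal (k + 1), ((k : ℂ) + 1) * (lC s q.1 * lC t q.2) =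
        ∑ q ∈ antidiagonal (k + 1), ((q.1 : ℂ) * lC s q.1) * lC t q.2 +
        ∑ q ∈ antidiagonal (k + 1), lC s q.1 * ((q.2 : ℂ) * lC t q.2) := by
      rw [← sum_add_distrib]
      refine sum_congr rfl fun q hq => ?_
      have h2 : q.1 + q.2 = k + 1 := mem_antidiagonal.1 hq
      have h3 : (q.1 : ℂ) + (q.2 : ℂ) = (k : ℂ) + 1 := by exact_mod_cast h2
      rw [← h3]
      ring
    rw [h1, Finset.Nat.sum_antidiagonal_succ, Finset.Nat.sum_antidiagonal_succ']
    simp only [Nat.cast_zero, zero_mul, mul_zero, zero_add]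
    rw [← sum_add_distrib]
    refine sum_congr rfl fun q hq => ?_
    have h2 : q.1 + q.2 = k := mem_antidiagonal.1 hq
    have h3 : (q.1 : ℂ) + (q.2 : ℂ) = (k : ℂ) := by exact_mod_cast h2
    push_cast
    rw [lC_step, lC_step, ← h3]
    ring

theorem mk_mul (s t : ℂ) : PowerSeries.mk (lC s) * PowerSeries.mk (lC t) =
    PowerSeries.mk (lC (s + t)) := by
  ext k
  rw [PowerSeries.coeff_mul, PowerSeries.coeff_mk, ← lC_add]
  refine sum_congr rfl fun q _ => ?_
  rw [PowerSeries.coeff_mk, PowerSeries.coeff_mk]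

theorem mk_zero : PowerSeries.mk (lC 0) = 1 := by
  ext k
  rw [PowerSeries.coeff_mk, PowerSeries.coeff_one]
  rcases k with _ | k
  · simp [lC_zero]
  · rw [if_neg (Nat.succ_ne_zero k)]
    unfold lC
    rw [prod_eq_zero (i := 0) (by simp)]
    simp

theorem mk_prod {m : ℕ} (s : Fin m → ℂ) (S : Finset (Fin m)) :
    ∏ j ∈ S, PowerSeries.mk (lC (s j)) = PowerSeries.mk (lC (∑ j ∈ S, s j)) := by
  classical
  induction S using Finset.induction_on with
  | empty => rw [prod_empty, sum_empty, mk_zero]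
  | insert a S ha ih => rw [prod_insert ha, sum_insert ha, ih, mk_mul]

theorem lC_sum {m : ℕ} (s : Fin m → ℂ) (k : ℕ) :
    ∑ μ ∈ piAntidiag (univ : Finset (Fin m)) k, ∏ j, lC (s j) (μ j) = lC (∑ j, s j) k := by
  have h := congrArg (PowerSeries.coeff k) (mk_prod s univ)
  rw [PowerSeries.coeff_prod, PowerSeries.coeff_mk] at h
  simp only [PowerSeries.coeff_mk] at h
  rw [← h]
  refine sum_nbij' (fun μ => Finsupp.equivFunOnFinite.symm μ) (fun l => ⇑l) ?_ ?_ ?_ ?_ ?_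
  · intro μ hμ
    rw [mem_piAntidiag] at hμ
    rw [mem_finsuppAntidiag]
    exact ⟨hμ.1, subset_univ _⟩
  · intro l hl
    rw [mem_finsuppAntidiag] at hl
    rw [mem_piAntidiag]
    exact ⟨hl.1, fun i _ => mem_univ i⟩
  · intro μ _
    rfl
  · intro l _
    ext i
    rfl
  · intro μ _
    rfl

variable {m : ℕ}

theorem lV_zero (s : Fin m → ℂ) (h : Fin m → ℝ) (q : ℕ) : lV s h q 0 = 1 := by
  unfold lV
  rw [piAntidiag_zero, sum_singleton]
  simp [lC_zero]

theorem lV_flat (s : Fin m → ℂ) (q k : ℕ) : lV s (fun _ => 0) q k = lC (∑ j, s j) k := by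
  unfold lV
  rw [← lC_sum]
  refine sum_congr rfl fun μ _ => prod_congr rfl fun j _ => ?_
  simp

theorem conj_lC (s : ℂ) (k : ℕ) : (starRingEnd ℂ) (lC s k) = lC ((starRingEnd ℂ) s) k := by
  unfold lC
  rw [map_prod]
  refine prod_congr rfl fun i _ => ?_
  rw [map_div₀, map_add, map_add, Complex.conj_natCast, map_one]

theorem lV_cont {X : Type*} [TopologicalSpace X] {f : X → Fin m → ℂ} {g : X → Fin m → ℝ}
    (hf : Continuous f) (hg : Continuous g) {q : ℕ} (hq : q ≠ 0) (k : ℕ) :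
    Continuous fun x => lV (f x) (g x) q k := by
  unfold lV
  refine continuous_finsetSum _ fun μ _ => continuous_finsetProd _ fun j _ => ?_
  have hfj : Continuous fun x => f x j := (continuous_apply j).comp hf
  have hgj : Continuous fun x => g x j := (continuous_apply j).comp hg
  have h0 : Continuous fun x => lC (f x j) (μ j) := (lC_cont (μ j)).comp hfj
  refine h0.mul ?_
  refine Continuous.const_cpow ?_ (Or.inl (by exact_mod_cast hq))
  exact ((Complex.continuous_ofReal.comp (continuous_const.mul hgj)).mul continuous_const).neg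

theorem cj_cont {X : Type*} [TopologicalSpace X] {f : X → Fin m → ℂ} (hf : Continuous f) :
    Continuous fun x => cj (f x) :=
  continuous_pi fun j => Complex.continuous_conj.comp ((continuous_apply j).comp hf)

theorem cj_bd {r : Fin m → ℂ} {R : ℝ} (h : ∀ j, ‖r j‖ ≤ R) : ∀ j, ‖cj r j‖ ≤ R := fun j => by
  unfold cj
  rw [RCLike.norm_conj]
  exact h j

/-! ### the base of the powers -/

/-- the power -/
noncomputable def pu (p : ℕ) (u : ℝ) : ℂ :=
  (p : ℂ) ^ (-(((1 + 2 * (0 : ℝ) : ℝ) : ℂ) + ((u : ℝ) : ℂ) * I))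

/-- the base -/
noncomputable def bs (p : ℕ) (u : ℝ) : ℂ := 1 - pu p u

theorem norm_pu {p : ℕ} (hp : p.Prime) (u : ℝ) : ‖pu p u‖ ≤ 1 / 2 := by
  unfold pu
  rw [Complex.norm_natCast_cpow_of_pos hp.pos]
  have e : (-(((1 + 2 * (0 : ℝ) : ℝ) : ℂ) + ((u : ℝ) : ℂ) * I)).re = -1 := by
    simp
  rw [e, Real.rpow_neg_one, ← one_div]
  have : (2 : ℝ) ≤ p := by exact_mod_cast hp.two_le
  exact one_div_le_one_div_of_le (by norm_num) this

theorem bs_re {p : ℕ} (hp : p.Prime) (u : ℝ) : 0 < (bs p u).re := by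
  unfold bs
  rw [Complex.sub_re, Complex.one_re]
  have h1 := (Complex.re_le_norm _).trans (norm_pu hp u)
  linarith

theorem bs_slit {p : ℕ} (hp : p.Prime) (u : ℝ) : bs p u ∈ slitPlane := Or.inl (bs_re hp u)

theorem bs_ne {p : ℕ} (hp : p.Prime) (u : ℝ) : bs p u ≠ 0 := slitPlane_ne_zero (bs_slit hp u)

theorem bs_conj (p : ℕ) (u : ℝ) : (starRingEnd ℂ) (bs p u) = bs p (-u) := by
  unfold bs pu
  rw [map_sub, map_one]
  congr 1
  have h := Complex.cpow_conj (p : ℂ) (-(((1 + 2 * (0 : ℝ) : ℝ) : ℂ) + ((u : ℝ) : ℂ) * I))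
    (by rw [Complex.natCast_arg]; exact Real.pi_ne_zero.symm)
  rw [Complex.conj_natCast] at h
  rw [← h]
  congr 1
  simp

theorem bs_log {p : ℕ} (hp : p.Prime) (u : ℝ) : ‖Complex.log (bs p u)‖ ≤ 1 := by
  have h1 := norm_pu hp u
  have h2 := Complex.norm_log_one_add_half_le_self
    (z := -(pu p u)) (by rwa [norm_neg])
  rw [norm_neg, ← sub_eq_add_neg] at h2
  unfold bs
  linarith

theorem bs_log_conj {p : ℕ} (hp : p.Prime) (u : ℝ) :
    (starRingEnd ℂ) (Complex.log (bs p u)) = Complex.log (bs p (-u)) := by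
  rw [← bs_conj, Complex.log_conj _ (slitPlane_arg_ne_pi (bs_slit hp u))]

theorem bs_cont {X : Type*} [TopologicalSpace X] {f : X → ℝ} (hf : Continuous f) {p : ℕ}
    (hp : p.Prime) : Continuous fun x => bs p (f x) := by
  unfold bs pu
  refine continuous_const.sub (Continuous.const_cpow ?_ (Or.inl ?_))
  · exact (continuous_const.add ((Complex.continuous_ofReal.comp hf).mul continuous_const)).neg
  · exact_mod_cast hp.ne_zero

/-! ### the local factors -/

/-- the sum -/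
noncomputable def SV (s r : Fin m → ℂ) (h : Fin m → ℝ) (p : ℕ) : ℂ :=
  ∑' k : ℕ, lV s h p k * (starRingEnd ℂ) (lV (cj r) h p k) *
    (((p : ℝ) ^ (-(1 + 2 * (0 : ℝ))) : ℝ) : ℂ) ^ k

theorem gV_eq (s r : Fin m → ℂ) (h : Fin m → ℝ) (p : ℕ) :
    gV s r h 0 p = (∏ j, ∏ l, (bs p (h j - h l)) ^ (s j * r l)) * SV s r h p := rfl

theorem xp {p : ℕ} : (p : ℝ) ^ (-(1 + 2 * (0 : ℝ))) = 1 / (p : ℝ) := by
  rw [show -(1 + 2 * (0 : ℝ)) = -1 by norm_num, Real.rpow_neg_one, one_div]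

theorem xp_bd {p : ℕ} (hp : p.Prime) : 0 ≤ (p : ℝ) ^ (-(1 + 2 * (0 : ℝ))) ∧
    (p : ℝ) ^ (-(1 + 2 * (0 : ℝ))) ≤ 1 / 2 := by
  rw [xp]
  have : (2 : ℝ) ≤ p := by exact_mod_cast hp.two_le
  exact ⟨by positivity, one_div_le_one_div_of_le (by norm_num) this⟩

theorem term_bd {R : ℝ} {k0 : ℕ} (hk0 : ∀ (s : Fin m → ℂ) (h : Fin m → ℝ), (∀ j, ‖s j‖ ≤ R) →
    ∀ q k : ℕ, 1 ≤ q → ‖lV s h q k‖ ≤ ‖lC (k0 : ℂ) k‖) {s r : Fin m → ℂ} (h : Fin m → ℝ)
    (hs : ∀ j, ‖s j‖ ≤ R) (hr : ∀ j, ‖r j‖ ≤ R) {p : ℕ} (hp : p.Prime) (k : ℕ) :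
    ‖lV s h p k * (starRingEnd ℂ) (lV (cj r) h p k) *
      (((p : ℝ) ^ (-(1 + 2 * (0 : ℝ))) : ℝ) : ℂ) ^ k‖ ≤ bb k0 1 k := by
  obtain ⟨x0, x1⟩ := xp_bd hp
  have h1 : ‖lC (k0 : ℂ) k‖ ≤ ((k : ℝ) + 1) ^ k0 := lC_bd k0 (by simp) k
  have h2 := (hk0 s h hs p k hp.one_le).trans h1
  have h3 := (hk0 (cj r) h (cj_bd hr) p k hp.one_le).trans h1
  rw [norm_mul, norm_mul, norm_pow, RCLike.norm_conj, Complex.norm_real, Real.norm_of_nonneg x0]
  unfold bb
  refine mul_le_mul ?_ (pow_le_pow_left₀ x0 x1 k) (by positivity) (by positivity)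
  calc ‖lV s h p k‖ * ‖lV (cj r) h p k‖ ≤ ((k : ℝ) + 1) ^ k0 * ((k : ℝ) + 1) ^ k0 :=
        mul_le_mul h2 h3 (norm_nonneg _) (by positivity)
    _ = ((k : ℝ) + ((1 : ℕ) : ℝ)) ^ (2 * k0) := by
        rw [← pow_add, two_mul]
        push_cast
        rfl

/-- real exponents -/
theorem real_loc {R : ℝ} (hR : 0 ≤ R) {k0 : ℕ} (hk0 : ∀ (s : Fin m → ℂ) (h : Fin m → ℝ),
    (∀ j, ‖s j‖ ≤ R) → ∀ q k : ℕ, 1 ≤ q → ‖lV s h q k‖ ≤ ‖lC (k0 : ℂ) k‖) (h : Fin m → ℝ)
    {v : Fin m → ℝ} (hv : ∀ j, |v j| ≤ R) {p : ℕ} (hp : p.Prime) :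
    ∃ g : ℝ, Real.exp (-((m : ℝ) ^ 2 * R ^ 2)) ≤ g ∧
      gV (fun j => (v j : ℂ)) (fun j => (v j : ℂ)) h 0 p = (g : ℂ) := by
  have hvn : ∀ j, ‖(v j : ℂ)‖ ≤ R := fun j => by
    rw [Complex.norm_real]
    exact hv j
  -- the product
  set S : ℂ := ∑ j, ∑ l, Complex.log (bs p (h j - h l)) * ((v j : ℂ) * (v l : ℂ)) with hS
  have hA : ∏ j, ∏ l, (bs p (h j - h l)) ^ ((v j : ℂ) * (v l : ℂ)) = Complex.exp S := by
    rw [hS, Complex.exp_sum]
    refine prod_congr rfl fun j _ => ?_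
    rw [Complex.exp_sum]
    refine prod_congr rfl fun l _ => ?_
    rw [Complex.cpow_def_of_ne_zero (bs_ne hp _)]
  have hconj : (starRingEnd ℂ) S = S := by
    rw [hS, map_sum]
    simp only [map_sum, map_mul, bs_log_conj hp, Complex.conj_ofReal, neg_sub]
    rw [sum_comm]
    refine sum_congr rfl fun j _ => sum_congr rfl fun l _ => ?_
    rw [mul_comm (v l : ℂ) (v j : ℂ)]
  have hSre : S = ((S.re : ℝ) : ℂ) := (Complex.conj_eq_iff_re.1 hconj).symm
  have hSn : ‖S‖ ≤ (m : ℝ) ^ 2 * R ^ 2 := by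
    rw [hS]
    refine (norm_sum_le _ _).trans ?_
    have h1 : ∀ j : Fin m, ‖∑ l, Complex.log (bs p (h j - h l)) * ((v j : ℂ) * (v l : ℂ))‖ ≤
        (m : ℝ) * R ^ 2 := by
      intro j
      refine (norm_sum_le _ _).trans ?_
      have h2 : ∀ l : Fin m, ‖Complex.log (bs p (h j - h l)) * ((v j : ℂ) * (v l : ℂ))‖ ≤ R ^ 2 := by
        intro l
        rw [norm_mul, norm_mul]
        have h3 : ‖(v j : ℂ)‖ * ‖(v l : ℂ)‖ ≤ R * R :=
          mul_le_mul (hvn j) (hvn l) (norm_nonneg _) hR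
        have h4 := bs_log hp (h j - h l)
        calc ‖Complex.log (bs p (h j - h l))‖ * (‖(v j : ℂ)‖ * ‖(v l : ℂ)‖) ≤ 1 * (R * R) :=
              mul_le_mul h4 h3 (by positivity) zero_le_one
          _ = R ^ 2 := by ring
      refine (sum_le_card_nsmul _ _ _ fun l _ => h2 l).trans ?_
      simp
    refine (sum_le_card_nsmul _ _ _ fun j _ => h1 j).trans ?_
    simp only [card_univ, Fintype.card_fin, nsmul_eq_mul]
    apply le_of_eq
    ring
  -- the sum
  obtain ⟨x0, x1⟩ := xp_bd hp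
  have hcj : cj (fun j => (v j : ℂ)) = fun j => (v j : ℂ) := by
    funext j
    unfold cj
    exact Complex.conj_ofReal _
  set x : ℝ := (p : ℝ) ^ (-(1 + 2 * (0 : ℝ))) with hx
  set B : ℕ → ℝ := fun k => ‖lV (fun j => (v j : ℂ)) h p k‖ ^ 2 * x ^ k with hB
  have hterm : ∀ k : ℕ, lV (fun j => (v j : ℂ)) h p k *
      (starRingEnd ℂ) (lV (cj fun j => (v j : ℂ)) h p k) * ((x : ℝ) : ℂ) ^ k = ((B k : ℝ) : ℂ) := by
    intro k
    rw [hcj, Complex.mul_conj']
    rw [hB]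
    push_cast
    rfl
  have hSV : SV (fun j => (v j : ℂ)) (fun j => (v j : ℂ)) h p = ((∑' k, B k : ℝ) : ℂ) := by
    unfold SV
    rw [Complex.ofReal_tsum]
    exact tsum_congr hterm
  have hBs : Summable B := by
    refine Summable.of_norm_bounded (bb_sum k0 1) fun k => ?_
    have h1 := term_bd hk0 h hvn hvn hp k
    rw [← hx, hterm k, Complex.norm_real] at h1
    exact h1
  have hB1 : 1 ≤ ∑' k, B k := by
    have h1 := hBs.le_tsum 0 fun k _ => by
      show 0 ≤ ‖lV (fun j => (v j : ℂ)) h p k‖ ^ 2 * x ^ k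
      positivity
    have h2 : B 0 = 1 := by
      rw [hB]
      simp only [lV_zero, pow_zero, norm_one, one_pow, mul_one]
    rw [h2] at h1
    exact h1
  refine ⟨Real.exp S.re * ∑' k, B k, ?_, ?_⟩
  · have h1 : -((m : ℝ) ^ 2 * R ^ 2) ≤ S.re := by
      have := (abs_le.1 (Complex.abs_re_le_norm S)).1
      linarith
    have h2 := Real.exp_le_exp.2 h1
    have h3 := Real.exp_pos S.re
    nlinarith
  · rw [gV_eq, hA, hSV, Complex.ofReal_mul, Complex.ofReal_exp, ← hSre]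

/-! ### the products -/

theorem sum_px (C : ℝ) : Summable fun p : Nat.Primes => C / (p : ℝ) ^ 2 := by
  refine (Pool.Agent.N748.MG.CON.sum_px C).congr fun p => ?_
  rw [div_pow, one_pow, mul_one_div]

theorem aV_eq (s r : Fin m → ℂ) (h : Fin m → ℝ) :
    aV s r h = ∏' p : Nat.Primes, (1 + (gV s r h 0 p - 1)) := by
  unfold aV
  congr 1
  funext p
  ring

theorem upper {C : ℝ} {s r : Fin m → ℂ} {h : Fin m → ℝ}
    (hC : ∀ p : Nat.Primes, ‖gV s r h 0 p - 1‖ ≤ C / (p : ℝ) ^ 2) :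
    ‖aV s r h‖ ≤ Real.exp (∑' p : Nat.Primes, C / (p : ℝ) ^ 2) := by
  have hs : Summable fun p : Nat.Primes => gV s r h 0 p - 1 :=
    Summable.of_norm_bounded (sum_px C) hC
  have hm := (Complex.multipliable_one_add_of_summable hs).hasProd
  rw [← aV_eq] at hm
  refine le_of_tendsto hm.norm (Eventually.of_forall fun I => ?_)
  calc ∏ p ∈ I, ‖1 + (gV s r h 0 p - 1)‖ ≤ ∏ p ∈ I, Real.exp (C / (p : ℝ) ^ 2) := by
        refine prod_le_prod (fun _ _ => norm_nonneg _) fun p _ => ?_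
        refine (norm_add_le _ _).trans ?_
        rw [norm_one]
        have h1 := Real.add_one_le_exp (C / (p : ℝ) ^ 2)
        linarith [hC p]
    _ = Real.exp (∑ p ∈ I, C / (p : ℝ) ^ 2) := (Real.exp_sum _ _).symm
    _ ≤ Real.exp (∑' p : Nat.Primes, C / (p : ℝ) ^ 2) := by
        apply Real.exp_le_exp.2
        refine (sum_px C).sum_le_tsum I fun p _ => ?_
        exact (norm_nonneg _).trans (hC p)

theorem log_lower {g c t : ℝ} (hc : 0 < c) (hg : c ≤ g) (hc1 : Real.log c ≤ 0)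
    (ht : |g - 1| ≤ t) : -((2 - 2 * Real.log c) * t) ≤ Real.log g := by
  have hg0 : 0 < g := lt_of_lt_of_le hc hg
  have ht0 : 0 ≤ t := (abs_nonneg _).trans ht
  by_cases h : t ≤ 1 / 2
  · have h1 := (abs_le.1 ht).1
    have h2 : 1 - 1 / g ≤ Real.log g := by
      have := Real.one_sub_inv_le_log_of_pos hg0
      rwa [one_div]
    have h3 : 1 / 2 ≤ g := by linarith
    have h4 : 1 / g ≤ 1 + 2 * t := by
      rw [div_le_iff₀ hg0]
      nlinarith
    have h5 : 0 ≤ -Real.log c * t := mul_nonneg (by linarith) ht0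
    nlinarith
  · push Not at h
    have h1 : Real.log c ≤ Real.log g := Real.log_le_log hc hg
    have h2 : 0 ≤ (-Real.log c) * (2 * t - 1) := mul_nonneg (by linarith) (by linarith)
    nlinarith

theorem main (hB : S_BND) (hG : S_GVB) : S_POSV := by
  intro m R hR
  obtain ⟨k0, hk0⟩ := hB m R hR
  obtain ⟨C, hC0, hC⟩ := hG m R hR
  set c0 : ℝ := Real.exp (-((m : ℝ) ^ 2 * R ^ 2)) with hc0
  have hc0p : 0 < c0 := Real.exp_pos _
  have hlc0 : Real.log c0 = -((m : ℝ) ^ 2 * R ^ 2) := Real.log_exp _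
  have hlc0' : Real.log c0 ≤ 0 := by
    rw [hlc0]
    have : 0 ≤ (m : ℝ) ^ 2 * R ^ 2 := by positivity
    linarith
  set D : ℝ := 2 - 2 * Real.log c0 with hD
  have hD0 : 0 ≤ D := by linarith
  refine ⟨Real.exp (-(∑' p : Nat.Primes, (D * C) / (p : ℝ) ^ 2)),
    Real.exp (∑' p : Nat.Primes, C / (p : ℝ) ^ 2), Real.exp_pos _, Real.exp_pos _, fun h => ?_⟩
  constructor
  · intro s r hs hr
    exact upper fun p => (hC s r h hs hr p p.2 0 le_rfl zero_le_one).1
  · intro v hv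
    have hvn : ∀ j, ‖(v j : ℂ)‖ ≤ R := fun j => by
      rw [Complex.norm_real]
      exact hv j
    have hloc : ∀ p : Nat.Primes, ∃ g : ℝ, c0 ≤ g ∧
        gV (fun j => (v j : ℂ)) (fun j => (v j : ℂ)) h 0 p = (g : ℂ) := fun p =>
      real_loc hR (fun s h hs => (hk0 s h hs).1) h hv p.2
    choose g hg1 hg2 using hloc
    have hgb : ∀ p : Nat.Primes, |g p - 1| ≤ C / (p : ℝ) ^ 2 := by
      intro p
      have h1 := (hC _ _ h hvn hvn p p.2 0 le_rfl zero_le_one).1
      rw [hg2 p] at h1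
      have h2 : ((g p : ℝ) : ℂ) - 1 = ((g p - 1 : ℝ) : ℂ) := by push_cast; rfl
      rw [h2, Complex.norm_real] at h1
      exact h1
    have hgpos : ∀ p, 0 < g p := fun p => lt_of_lt_of_le hc0p (hg1 p)
    have hgs : Summable fun p => g p - 1 := Summable.of_norm_bounded (sum_px C) hgb
    have hlog : Summable fun p => Real.log (g p) := by
      refine (Real.summable_log_one_add_of_summable hgs).congr fun p => ?_
      rw [add_sub_cancel]
    have hprod := Real.hasProd_of_hasSum_log hgpos hlog.hasSum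
    refine ⟨Real.exp (∑' p, Real.log (g p)), ?_, ?_⟩
    · apply Real.exp_le_exp.2
      rw [← tsum_neg]
      refine Summable.tsum_le_tsum (fun p => ?_) (sum_px (D * C)).neg hlog
      have h1 := log_lower hc0p (hg1 p) hlc0' (hgb p)
      rw [← hD, ← mul_div_assoc] at h1
      exact h1
    · have h1 := hprod.map Complex.ofRealHom Complex.continuous_ofReal
      unfold aV
      have h2 : (fun p : Nat.Primes => gV (fun j => (v j : ℂ)) (fun j => (v j : ℂ)) h 0 p) =
          Complex.ofRealHom ∘ g := by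
        funext p
        rw [hg2]
        rfl
      rw [h2]
      exact h1.tprod_eq

/-! ### continuity -/

/-- the compact sets -/
def KK (m k : ℕ) (h0 : Fin m → ℝ) : Set ((Fin m → ℂ) × (Fin m → ℂ) × (Fin m → ℝ)) :=
  Metric.closedBall 0 k ×ˢ (Metric.closedBall 0 k ×ˢ Metric.closedBall h0 1)

theorem gV_cont {k k0 : ℕ} (hk0 : ∀ (s : Fin m → ℂ) (h : Fin m → ℝ), (∀ j, ‖s j‖ ≤ (k : ℝ)) →
    ∀ q k : ℕ, 1 ≤ q → ‖lV s h q k‖ ≤ ‖lC (k0 : ℂ) k‖) (h0 : Fin m → ℝ) {p : ℕ} (hp : p.Prime) :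
    ContinuousOn (fun q : (Fin m → ℂ) × (Fin m → ℂ) × (Fin m → ℝ) => gV q.1 q.2.1 q.2.2 0 p)
      (KK m k h0) := by
  have c1 : Continuous fun q : (Fin m → ℂ) × (Fin m → ℂ) × (Fin m → ℝ) => q.1 := continuous_fst
  have c2 : Continuous fun q : (Fin m → ℂ) × (Fin m → ℂ) × (Fin m → ℝ) => q.2.1 :=
    continuous_fst.comp continuous_snd
  have c3 : Continuous fun q : (Fin m → ℂ) × (Fin m → ℂ) × (Fin m → ℝ) => q.2.2 :=
    continuous_snd.comp continuous_snd
  simp only [gV_eq]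
  refine ContinuousOn.mul (Continuous.continuousOn ?_) ?_
  · refine continuous_finsetProd _ fun j _ => continuous_finsetProd _ fun l _ => ?_
    have d1 : Continuous fun q : (Fin m → ℂ) × (Fin m → ℂ) × (Fin m → ℝ) => q.1 j :=
      (continuous_apply j).comp c1
    have d2 : Continuous fun q : (Fin m → ℂ) × (Fin m → ℂ) × (Fin m → ℝ) => q.2.1 l :=
      (continuous_apply l).comp c2
    have d3 : Continuous fun q : (Fin m → ℂ) × (Fin m → ℂ) × (Fin m → ℝ) => q.2.2 j :=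
      (continuous_apply j).comp c3
    have d4 : Continuous fun q : (Fin m → ℂ) × (Fin m → ℂ) × (Fin m → ℝ) => q.2.2 l :=
      (continuous_apply l).comp c3
    exact Continuous.cpow (bs_cont (d3.sub d4) hp) (d1.mul d2) fun q => bs_slit hp _
  · unfold SV
    refine continuousOn_tsum (u := bb k0 1) (fun n => Continuous.continuousOn ?_) (bb_sum k0 1)
      fun n q hq => ?_
    · have e1 := lV_cont c1 c3 hp.ne_zero n
      have e2 := lV_cont (cj_cont c2) c3 hp.ne_zero n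
      exact (e1.mul (Complex.continuous_conj.comp e2)).mul continuous_const
    · obtain ⟨h1, h2, -⟩ := hq
      rw [mem_closedBall_zero_iff] at h1 h2
      exact term_bd hk0 q.2.2 (fun j => (norm_le_pi_norm _ j).trans h1)
        (fun j => (norm_le_pi_norm _ j).trans h2) hp n

theorem conv (hB : S_BND) (hG : S_GVB) : S_CONV := by
  intro m
  rw [continuous_iff_continuousAt]
  rintro ⟨s0, r0, h0⟩
  obtain ⟨k, hk⟩ := exists_nat_gt (max ‖s0‖ ‖r0‖)
  obtain ⟨k0, hk0⟩ := hB m k (Nat.cast_nonneg k)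
  obtain ⟨C, hC0, hC⟩ := hG m k (Nat.cast_nonneg k)
  have hmem : KK m k h0 ∈ 𝓝 (s0, r0, h0) := by
    unfold KK
    refine prod_mem_nhds ?_ (prod_mem_nhds ?_ (Metric.closedBall_mem_nhds _ one_pos))
    · refine Filter.mem_of_superset (Metric.isOpen_ball.mem_nhds ?_) Metric.ball_subset_closedBall
      rw [mem_ball_zero_iff]
      exact lt_of_le_of_lt (le_max_left _ _) hk
    · refine Filter.mem_of_superset (Metric.isOpen_ball.mem_nhds ?_) Metric.ball_subset_closedBall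
      rw [mem_ball_zero_iff]
      exact lt_of_le_of_lt (le_max_right _ _) hk
  have hcomp : IsCompact (KK m k h0) := by
    unfold KK
    exact (isCompact_closedBall _ _).prod ((isCompact_closedBall _ _).prod (isCompact_closedBall _ _))
  have hcont : ∀ p : Nat.Primes, ContinuousOn
      (fun q : (Fin m → ℂ) × (Fin m → ℂ) × (Fin m → ℝ) => gV q.1 q.2.1 q.2.2 0 p - 1)
      (KK m k h0) := fun p =>
    (gV_cont (fun s h hs => (hk0 s h hs).1) h0 p.2).sub continuousOn_const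
  have h := Summable.hasProdUniformlyOn_one_add (f := fun (p : Nat.Primes)
    (q : (Fin m → ℂ) × (Fin m → ℂ) × (Fin m → ℝ)) => gV q.1 q.2.1 q.2.2 0 p - 1) hcomp (sum_px C)
    (Eventually.of_forall fun p q hq => by
      obtain ⟨h1, h2, -⟩ := hq
      rw [mem_closedBall_zero_iff] at h1 h2
      exact (hC q.1 q.2.1 q.2.2 (fun j => (norm_le_pi_norm _ j).trans h1)
        (fun j => (norm_le_pi_norm _ j).trans h2) p p.2 0 le_rfl zero_le_one).1) hcont
  have h2 := h.tendstoUniformlyOn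
  have h3 : ContinuousOn (fun q : (Fin m → ℂ) × (Fin m → ℂ) × (Fin m → ℝ) =>
      ∏' p : Nat.Primes, (1 + (gV q.1 q.2.1 q.2.2 0 p - 1))) (KK m k h0) := by
    refine h2.continuousOn (Eventually.of_forall fun I => ?_).frequently
    exact continuousOn_finsetProd I fun p _ => continuousOn_const.add (hcont p)
  have h4 : ContinuousOn (fun q : (Fin m → ℂ) × (Fin m → ℂ) × (Fin m → ℝ) => aV q.1 q.2.1 q.2.2)
      (KK m k h0) := h3.congr fun q _ => aV_eq q.1 q.2.1 q.2.2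
  exact h4.continuousAt hmem

/-! ### no shifts -/

theorem av0 (_hB : S_BND) (_hG : S_GVB) : S_AV0 := by
  intro m s r hsr
  unfold aV aC
  congr 1
  funext p
  rw [gV_eq]
  have hbs : bs p (0 - 0) = 1 - 1 / (p : ℂ) := by
    unfold bs pu
    simp [Complex.cpow_neg_one]
  congr 1
  · have hne : (1 - 1 / ((p : ℕ) : ℂ)) ≠ 0 := by
      rw [← hbs]
      exact bs_ne p.2 _
    rw [hbs]
    have h1 : ∀ j : Fin m, ∏ l, (1 - 1 / ((p : ℕ) : ℂ)) ^ (s j * r l) =
        Complex.exp (∑ l, Complex.log (1 - 1 / ((p : ℕ) : ℂ)) * (s j * r l)) := by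
      intro j
      rw [Complex.exp_sum]
      exact prod_congr rfl fun l _ => Complex.cpow_def_of_ne_zero hne _
    rw [prod_congr rfl fun j _ => h1 j, ← Complex.exp_sum, Complex.cpow_def_of_ne_zero hne]
    congr 1
    simp only [← mul_sum]
    rw [← sum_mul, ← hsr]
    ring
  · unfold SV
    refine tsum_congr fun k => ?_
    rw [lV_flat, lV_flat, conj_lC, map_sum]
    have h1 : ∑ j, (starRingEnd ℂ) (cj r j) = ∑ j, s j := by
      rw [hsr]
      exact sum_congr rfl fun j _ => Complex.conj_conj _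
    rw [h1, xp]
    push_cast
    ring

end Pool.Agent.N748.MJ.POSV
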