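import Pool.Agent.N748.MJ.Stm
import Pool.Agent.N748.MG.LLT

set_option autoImplicit false

namespace Pool.Agent.N748.MJ.LLT2

open Filter MeasureTheory Topology Complex
open Pool.Agent.N748.MG.LLT (k0 k0_cont k0_pos k0_ge k0_le k0_int Q sinc_sq_int)

section pm

variable {Ω : Type} [MetricSpace Ω] [MeasurableSpace Ω] [BorelSpace Ω]

/-- the portmanteau theorem for bounded functions which are continuous almost everywhere -/
lemma pm_nonneg (μ : ℕ → ProbabilityMeasure Ω) (μ' : ProbabilityMeasure Ω) (hμ : Tendsto μ atTop (𝓝 μ'))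
    (F : Ω → ℝ) (hF : Measurable F) (hF0 : ∀ x, 0 ≤ F x) (C : ℝ) (hC : ∀ x, F x ≤ C)
    (hc : ∀ᵐ x ∂(μ' : Measure Ω), ContinuousAt F x) :
    Tendsto (fun n => ∫ x, F x ∂(μ n : Measure Ω)) atTop (𝓝 (∫ x, F x ∂(μ' : Measure Ω))) := by
  have hint : ∀ κ : ProbabilityMeasure Ω, Integrable F (κ : Measure Ω) := fun κ =>
    Integrable.of_bound hF.aestronglyMeasurable C (Eventually.of_forall fun x => by
      rw [Real.norm_of_nonneg (hF0 x)]
      exact hC x)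
  have hlc : ∀ κ : ProbabilityMeasure Ω, ∫ x, F x ∂(κ : Measure Ω) =
      ∫ t in Set.Ioi (0:ℝ), (κ : Measure Ω).real {x | t < F x} := fun κ =>
    (hint κ).integral_eq_integral_meas_lt (Eventually.of_forall hF0)
  simp_rw [hlc]
  have hms : ∀ t : ℝ, MeasurableSet {x | t < F x} := fun t => measurableSet_lt measurable_const hF
  refine tendsto_integral_of_dominated_convergence ((Set.Iic C).indicator fun _ => (1:ℝ)) ?_ ?_ ?_ ?_
  · intro n
    have hanti : Antitone fun t : ℝ => (μ n : Measure Ω).real {x | t < F x} := by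
      intro s t hst
      exact measureReal_mono (fun x (hx : t < F x) => lt_of_le_of_lt hst hx)
    exact hanti.measurable.aestronglyMeasurable
  · rw [integrable_indicator_iff measurableSet_Iic, IntegrableOn, Measure.restrict_restrict measurableSet_Iic]
    refine integrable_const_iff.mpr (Or.inr ?_)
    refine isFiniteMeasure_iff _ |>.mpr ?_
    rw [Measure.restrict_apply_univ]
    refine lt_of_le_of_lt (measure_mono (t := Set.Icc 0 C) ?_) ?_
    · rintro t ⟨h1, h2⟩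
      exact ⟨le_of_lt h2, h1⟩
    · rw [Real.volume_Icc]
      exact ENNReal.ofReal_lt_top
  · intro n
    refine Eventually.of_forall fun t => ?_
    rw [Real.norm_of_nonneg measureReal_nonneg]
    by_cases ht : t ≤ C
    · rw [Set.indicator_of_mem (show t ∈ Set.Iic C from ht)]
      exact measureReal_le_one
    · have h1 : {x | t < F x} = ∅ := by
        ext x
        simp only [Set.mem_ofPred_eq, Set.mem_empty_iff_false, iff_false, not_lt]
        exact (hC x).trans (le_of_not_ge ht)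
      rw [h1, measureReal_empty]
      exact Set.indicator_nonneg (fun _ _ => zero_le_one) _
  · have hcount := Measure.countable_meas_level_set_pos (μ := (μ' : Measure Ω)) hF
    refine ae_restrict_of_ae ?_
    filter_upwards [hcount.ae_notMem volume] with t ht
    have h0 : (μ' : Measure Ω) {x | F x = t} = 0 := by
      by_contra h
      exact ht (pos_iff_ne_zero.mpr h)
    have hfr : (μ' : Measure Ω) (frontier {x | t < F x}) = 0 := by
      refine measure_mono_null (t := {x | ¬ ContinuousAt F x} ∪ {x | F x = t}) ?_ ?_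
      · intro x hx
        by_contra hcon
        rw [Set.mem_union, not_or] at hcon
        obtain ⟨h1, h2⟩ := hcon
        have h1 : ContinuousAt F x := not_not.mp h1
        have h2 : F x ≠ t := h2
        rcases lt_or_gt_of_ne h2 with h3 | h3
        · have h4 : ∀ᶠ y in 𝓝 x, F y < t := h1.eventually_lt_const h3
          have h5 := hx.1
          rw [mem_closure_iff_frequently] at h5
          exact h5 (h4.mono fun y hy hy2 => lt_asymm hy hy2)
        · have h4 : ∀ᶠ y in 𝓝 x, t < F y := h1.eventually_const_lt h3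
          exact hx.2 (mem_interior_iff_mem_nhds.mpr h4)
      · rw [measure_union_null_iff]
        exact ⟨hc, h0⟩
    have h6 := ProbabilityMeasure.tendsto_measure_of_null_frontier_of_tendsto' hμ hfr
    exact (ENNReal.tendsto_toReal (measure_ne_top _ _)).comp h6

/-- the same for finite measures and bounded functions -/
lemma fm_ae [Nonempty Ω] (μ : ℕ → FiniteMeasure Ω) (μ' : FiniteMeasure Ω) (hμ : Tendsto μ atTop (𝓝 μ')) (hμ' : μ' ≠ 0)
    (F : Ω → ℝ) (hF : Measurable F) (C : ℝ) (hC : ∀ x, |F x| ≤ C)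
    (hc : ∀ᵐ x ∂(μ' : Measure Ω), ContinuousAt F x) :
    Tendsto (fun n => ∫ x, F x ∂(μ n : Measure Ω)) atTop (𝓝 (∫ x, F x ∂(μ' : Measure Ω))) := by
  obtain ⟨hn, hm⟩ := (FiniteMeasure.tendsto_normalize_iff_tendsto hμ').mpr hμ
  have hac : ∀ᵐ x ∂(μ'.normalize : Measure Ω), ContinuousAt F x := by
    rw [FiniteMeasure.toMeasure_normalize_eq_of_nonzero μ' hμ']
    exact Measure.ae_smul_measure hc _
  have hint : ∀ κ : ProbabilityMeasure Ω, Integrable F (κ : Measure Ω) := fun κ =>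
    Integrable.of_bound hF.aestronglyMeasurable C (Eventually.of_forall hC)
  have h1 := pm_nonneg _ _ hn (fun x => F x + C) (hF.add_const C) (fun x => by linarith [(abs_le.mp (hC x)).1])
    (2 * C) (fun x => by linarith [(abs_le.mp (hC x)).2]) (hac.mono fun x hx => hx.add continuousAt_const)
  have h2 : ∀ κ : ProbabilityMeasure Ω, ∫ x, (F x + C) ∂(κ : Measure Ω) = (∫ x, F x ∂(κ : Measure Ω)) + C := by
    intro κ
    rw [integral_add (hint κ) (integrable_const _), integral_const]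
    simp
  simp_rw [h2] at h1
  have h3 : Tendsto (fun n => ∫ x, F x ∂((μ n).normalize : Measure Ω)) atTop
      (𝓝 (∫ x, F x ∂(μ'.normalize : Measure Ω))) := by
    have := h1.sub_const C
    simpa using this
  have h4 : ∀ κ : FiniteMeasure Ω, ∫ x, F x ∂(κ : Measure Ω) = (κ.mass : ℝ) * ∫ x, F x ∂(κ.normalize : Measure Ω) := by
    intro κ
    nth_rewrite 1 [FiniteMeasure.self_eq_mass_smul_normalize κ]
    rw [FiniteMeasure.toMeasure_smul, integral_smul_nnreal_measure]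
    rfl
  simp_rw [h4]
  exact (NNReal.tendsto_coe.mpr hm).mul h3

end pm

section levy

variable {E : Type} [NormedAddCommGroup E] [InnerProductSpace ℝ E] [FiniteDimensional ℝ E]
  [MeasurableSpace E] [BorelSpace E]

/-- the continuity theorem for finite measures -/
lemma fm_tendstoE (μ : ℕ → FiniteMeasure E) (μ' : FiniteMeasure E) (hμ' : μ' ≠ 0)
    (h : ∀ t : E, Tendsto (fun n => charFun (μ n : Measure E) t) atTop (𝓝 (charFun (μ' : Measure E) t))) :
    Tendsto μ atTop (𝓝 μ') := by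
  have hmass : Tendsto (fun n => (μ n).mass) atTop (𝓝 μ'.mass) := by
    have h0 := h 0
    have h1 : ∀ κ : FiniteMeasure E, charFun (κ : Measure E) 0 = ((κ.mass : ℝ) : ℂ) := by
      intro κ
      rw [charFun_zero]
      rfl
    simp_rw [h1] at h0
    have h2 := (Complex.continuous_re.tendsto _).comp h0
    simp only [Function.comp_def, Complex.ofReal_re] at h2
    exact NNReal.tendsto_coe.mp h2
  refine FiniteMeasure.tendsto_of_tendsto_normalize_testAgainstNN_of_tendsto_mass ?_ hmass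
  refine ProbabilityMeasure.tendsto_of_tendsto_charFun fun t => ?_
  have hm' : μ'.mass ≠ 0 := μ'.mass_nonzero_iff.mpr hμ'
  have hne : ∀ᶠ n in atTop, μ n ≠ 0 := by
    filter_upwards [hmass.eventually_ne hm'] with n hn
    exact (μ n).mass_nonzero_iff.mp hn
  have h3 : ∀ κ : FiniteMeasure E, κ ≠ 0 → charFun (κ.normalize : Measure E) t =
      κ.mass⁻¹ • charFun (κ : Measure E) t := by
    intro κ hκ
    rw [FiniteMeasure.toMeasure_normalize_eq_of_nonzero κ hκ, charFun_apply, integral_smul_nnreal_measure,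
      charFun_apply]
  rw [h3 μ' hμ']
  have h4 : Tendsto (fun n => (μ n).mass⁻¹ • charFun (μ n : Measure E) t) atTop
      (𝓝 (μ'.mass⁻¹ • charFun (μ' : Measure E) t)) :=
    (hmass.inv₀ hm').smul (h t)
  refine h4.congr' ?_
  filter_upwards [hne] with n hn
  rw [h3 (μ n) hn]

end levy

/-- logarithm and argument -/
noncomputable def ps (z : ℂ) : WithLp 2 (ℝ × ℂ) := WithLp.toLp 2 (Real.log ‖z‖, z / (‖z‖ : ℝ))

lemma ps_meas : Measurable ps := by
  unfold ps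
  refine (WithLp.measurable_toLp 2 (ℝ × ℂ)).comp ?_
  fun_prop

/-- coefficients of the expansion -/
noncomputable def cf (w : ℂ) (p : ℕ × ℕ) : ℂ :=
  ((I * w / 2) ^ p.1 / (p.1.factorial : ℂ)) * ((I * (starRingEnd ℂ) w / 2) ^ p.2 / (p.2.factorial : ℂ))

lemma cf_summable (w : ℂ) : Summable fun p => ‖cf w p‖ := by
  have h1 := NormedSpace.norm_expSeries_div_summable (I * w / 2 : ℂ)
  have h2 := NormedSpace.norm_expSeries_div_summable (I * (starRingEnd ℂ) w / 2 : ℂ)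
  have h3 := h1.mul_norm h2
  exact h3

lemma norm_unit {z : ℂ} (hz : z ≠ 0) : ‖z / (‖z‖ : ℝ)‖ = 1 := by
  rw [norm_div, Complex.norm_real, norm_norm, div_self (norm_ne_zero_iff.mpr hz)]

lemma exp_tsum (a b : ℂ) : Complex.exp (a + b) =
    ∑' p : ℕ × ℕ, (a ^ p.1 / (p.1.factorial : ℂ)) * (b ^ p.2 / (p.2.factorial : ℂ)) := by
  have ha : Complex.exp a = ∑' n : ℕ, a ^ n / (n.factorial : ℂ) := by
    rw [Complex.exp_eq_exp_ℂ, NormedSpace.exp_eq_tsum_div (𝔸 := ℂ)]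
  have hb : Complex.exp b = ∑' n : ℕ, b ^ n / (n.factorial : ℂ) := by
    rw [Complex.exp_eq_exp_ℂ, NormedSpace.exp_eq_tsum_div (𝔸 := ℂ)]
  have sa := NormedSpace.norm_expSeries_div_summable a
  have sb := NormedSpace.norm_expSeries_div_summable b
  rw [Complex.exp_add, ha, hb]
  exact tsum_mul_tsum_of_summable_norm sa sb

lemma exp_expand' {u : ℂ} (hu1 : ‖u‖ = 1) (w : ℂ) :
    Complex.exp ((((starRingEnd ℂ) u * w).re : ℂ) * I) =
      ∑' p : ℕ × ℕ, cf w p * u ^ ((p.2 : ℤ) - p.1) := by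
  have hu0 : u ≠ 0 := by
    rw [← norm_ne_zero_iff, hu1]
    exact one_ne_zero
  have hc : (starRingEnd ℂ) u = u⁻¹ := by
    rw [Complex.inv_def, Complex.normSq_eq_norm_sq, hu1]
    simp
  have h1 : (((starRingEnd ℂ) u * w).re : ℂ) * I = I * w / 2 * u⁻¹ + I * (starRingEnd ℂ) w / 2 * u := by
    rw [Complex.re_eq_add_conj, map_mul, Complex.conj_conj, hc]
    ring
  rw [h1, exp_tsum]
  refine tsum_congr fun p => ?_
  unfold cf
  rw [mul_pow, mul_pow, inv_pow, zpow_sub₀ hu0, zpow_natCast, zpow_natCast]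
  ring

lemma exp_expand {z : ℂ} (hz : z ≠ 0) (w : ℂ) :
    Complex.exp ((((starRingEnd ℂ) (z / (‖z‖ : ℝ)) * w).re : ℂ) * I) =
      ∑' p : ℕ × ℕ, cf w p * (z / (‖z‖ : ℝ)) ^ ((p.2 : ℤ) - p.1) :=
  exp_expand' (norm_unit hz) w

lemma cf_map (κ : Measure ℂ) [IsFiniteMeasure κ] (h0 : κ {0} = 0) (s : WithLp 2 (ℝ × ℂ)) :
    charFun (κ.map ps) s = ∑' p : ℕ × ℕ, cf s.snd p *
      ∫ z, Complex.exp ((s.fst : ℂ) * (Real.log ‖z‖ : ℝ) * I) * (z / (‖z‖ : ℝ)) ^ ((p.2 : ℤ) - p.1) ∂κ := by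
  have hae : ∀ᵐ z ∂κ, z ≠ 0 := by
    rw [ae_iff]
    simpa using h0
  rw [charFun_apply, integral_map ps_meas.aemeasurable (by fun_prop)]
  have h1 : ∫ z, Complex.exp ((inner ℝ (ps z) s : ℝ) * I) ∂κ =
      ∫ z, (∑' p : ℕ × ℕ, cf s.snd p * (Complex.exp ((s.fst : ℂ) * (Real.log ‖z‖ : ℝ) * I) *
        (z / (‖z‖ : ℝ)) ^ ((p.2 : ℤ) - p.1))) ∂κ := by
    refine integral_congr_ae ?_
    filter_upwards [hae] with z hz
    have h2 : (inner ℝ (ps z) s : ℝ) = Real.log ‖z‖ * s.fst + ((starRingEnd ℂ) (z / (‖z‖ : ℝ)) * s.snd).re := by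
      rw [WithLp.prod_inner_apply]
      have e1 : inner ℝ (ps z).fst s.fst = Real.log ‖z‖ * s.fst := by
        simp [ps, mul_comm]
      have e2 : inner ℝ (ps z).snd s.snd = ((starRingEnd ℂ) (z / (‖z‖ : ℝ)) * s.snd).re := by
        rw [Complex.inner, mul_comm]
        rfl
      rw [← e1, ← e2]
      rfl
    rw [h2, Complex.ofReal_add, add_mul, Complex.exp_add, exp_expand hz, ← tsum_mul_left]
    refine tsum_congr fun p => ?_
    rw [Complex.ofReal_mul, mul_comm ((Real.log ‖z‖ : ℝ) : ℂ)]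
    ring
  rw [h1]
  have hn : ∀ p : ℕ × ℕ, ∀ᵐ z ∂κ, ‖cf s.snd p * (Complex.exp ((s.fst : ℂ) * (Real.log ‖z‖ : ℝ) * I) *
        (z / (‖z‖ : ℝ)) ^ ((p.2 : ℤ) - p.1))‖ = ‖cf s.snd p‖ := by
    intro p
    filter_upwards [hae] with z hz
    rw [norm_mul, norm_mul, ← Complex.ofReal_mul, Complex.norm_exp_ofReal_mul_I, norm_zpow, norm_unit hz, one_zpow,
      mul_one, mul_one]
  rw [← integral_tsum_of_summable_integral_norm]
  · refine tsum_congr fun p => ?_
    rw [integral_const_mul]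
  · intro p
    refine Integrable.of_bound (C := ‖cf s.snd p‖) ?_ ((hn p).mono fun z hz => hz.le)
    apply Measurable.aestronglyMeasurable
    fun_prop
  · have h3 : ∀ p : ℕ × ℕ, ∫ z, ‖cf s.snd p * (Complex.exp ((s.fst : ℂ) * (Real.log ‖z‖ : ℝ) * I) *
        (z / (‖z‖ : ℝ)) ^ ((p.2 : ℤ) - p.1))‖ ∂κ = ‖cf s.snd p‖ * κ.real Set.univ := by
      intro p
      rw [integral_congr_ae (hn p), integral_const, smul_eq_mul, mul_comm]
    simp_rw [h3]
    exact (cf_summable _).mul_right _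

lemma map_ne (κ : FiniteMeasure ℂ) (h : κ ≠ 0) : κ.map ps ≠ 0 := by
  intro h1
  apply h
  have h2 : ((κ.map ps : FiniteMeasure (WithLp 2 (ℝ × ℂ))) : Measure (WithLp 2 (ℝ × ℂ))) Set.univ = 0 := by
    rw [h1]
    simp
  rw [FiniteMeasure.toMeasure_map, Measure.map_apply ps_meas MeasurableSet.univ, Set.preimage_univ] at h2
  apply Subtype.ext
  exact Measure.measure_univ_eq_zero.mp h2

/-- the transforms determine the limit -/
lemma weakE (μ : ℕ → FiniteMeasure ℂ) (μ' : FiniteMeasure ℂ) (hμ' : μ' ≠ 0) (h0 : ∀ k, (μ k : Measure ℂ) {0} = 0)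
    (h0' : (μ' : Measure ℂ) {0} = 0)
    (h : ∀ (t : ℝ) (n : ℤ), Tendsto (fun k => ∫ z, Complex.exp ((t : ℂ) * (Real.log ‖z‖ : ℝ) * I) *
      (z / (‖z‖ : ℝ)) ^ n ∂(μ k : Measure ℂ)) atTop
      (𝓝 (∫ z, Complex.exp ((t : ℂ) * (Real.log ‖z‖ : ℝ) * I) * (z / (‖z‖ : ℝ)) ^ n ∂(μ' : Measure ℂ)))) :
    Tendsto (fun k => (μ k).map ps) atTop (𝓝 (μ'.map ps)) := by
  have hmass : Tendsto (fun k => (μ k : Measure ℂ).real Set.univ) atTop (𝓝 ((μ' : Measure ℂ).real Set.univ)) := by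
    have h1 := h 0 0
    have h2 : ∀ κ : FiniteMeasure ℂ, ∫ z, Complex.exp (((0 : ℝ) : ℂ) * (Real.log ‖z‖ : ℝ) * I) *
      (z / (‖z‖ : ℝ)) ^ (0 : ℤ) ∂(κ : Measure ℂ) = (((κ : Measure ℂ).real Set.univ : ℝ) : ℂ) := by
      intro κ
      simp
    simp_rw [h2] at h1
    exact (Complex.continuous_re.tendsto _).comp h1
  refine fm_tendstoE _ _ (map_ne μ' hμ') fun s => ?_
  · have h2 : ∀ κ : FiniteMeasure ℂ, (κ : Measure ℂ) {0} = 0 → charFun (κ.map ps : Measure (WithLp 2 (ℝ × ℂ))) s =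
        ∑' p : ℕ × ℕ, cf s.snd p * ∫ z, Complex.exp ((s.fst : ℂ) * (Real.log ‖z‖ : ℝ) * I) *
          (z / (‖z‖ : ℝ)) ^ ((p.2 : ℤ) - p.1) ∂(κ : Measure ℂ) := by
      intro κ hκ
      rw [FiniteMeasure.toMeasure_map]
      exact cf_map _ hκ s
    rw [h2 μ' h0']
    simp_rw [h2 _ (h0 _)]
    refine tendsto_tsum_of_dominated_convergence (bound := fun p => ‖cf s.snd p‖ * ((μ' : Measure ℂ).real Set.univ + 1))
      ((cf_summable _).mul_right _) (fun p => (h _ _).const_mul _) ?_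
    filter_upwards [hmass.eventually_le_const (lt_add_one _)] with k hk p
    rw [norm_mul]
    refine mul_le_mul_of_nonneg_left ?_ (norm_nonneg _)
    refine le_trans ?_ hk
    have h3 : ∀ z : ℂ, ‖Complex.exp ((s.fst : ℂ) * (Real.log ‖z‖ : ℝ) * I) * (z / (‖z‖ : ℝ)) ^ ((p.2 : ℤ) - p.1)‖ ≤ 1 := by
      intro z
      rw [norm_mul, ← Complex.ofReal_mul, Complex.norm_exp_ofReal_mul_I, one_mul]
      by_cases hz : z = 0
      · rw [hz]
        rcases eq_or_ne ((p.2 : ℤ) - p.1) 0 with e | e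
        · rw [e]
          simp
        · rw [norm_zpow]
          simp [zero_zpow _ e]
      · rw [norm_zpow, norm_unit hz, one_zpow]
    have h4 := norm_integral_le_of_norm_le_const (μ := (μ k : Measure ℂ)) (Eventually.of_forall h3)
    rwa [one_mul] at h4

/-- convergence of integrals -/
lemma intE (μ : ℕ → FiniteMeasure ℂ) (μ' : FiniteMeasure ℂ) (hμ' : μ' ≠ 0) (h0 : ∀ k, (μ k : Measure ℂ) {0} = 0)
    (h0' : (μ' : Measure ℂ) {0} = 0)
    (h : ∀ (t : ℝ) (n : ℤ), Tendsto (fun k => ∫ z, Complex.exp ((t : ℂ) * (Real.log ‖z‖ : ℝ) * I) *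
      (z / (‖z‖ : ℝ)) ^ n ∂(μ k : Measure ℂ)) atTop
      (𝓝 (∫ z, Complex.exp ((t : ℂ) * (Real.log ‖z‖ : ℝ) * I) * (z / (‖z‖ : ℝ)) ^ n ∂(μ' : Measure ℂ))))
    (H : ℂ → ℝ) (hH : Measurable H) (C : ℝ) (hC : ∀ z, |H z| ≤ C) (hc : ∀ᵐ z ∂(μ' : Measure ℂ), ContinuousAt H z) :
    Tendsto (fun k => ∫ z, H z ∂(μ k : Measure ℂ)) atTop (𝓝 (∫ z, H z ∂(μ' : Measure ℂ))) := by
  have hw := weakE μ μ' hμ' h0 h0' h
  let e : WithLp 2 (ℝ × ℂ) → ℂ := fun s => (Real.exp s.fst : ℂ) * s.snd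
  have he : Continuous e := by
    show Continuous fun s : WithLp 2 (ℝ × ℂ) => (Real.exp s.fst : ℂ) * s.snd
    fun_prop
  have hep : ∀ z : ℂ, z ≠ 0 → e (ps z) = z := by
    intro z hz
    show (Real.exp (Real.log ‖z‖) : ℂ) * (z / (‖z‖ : ℝ)) = z
    have h1 : 0 < ‖z‖ := norm_pos_iff.mpr hz
    rw [Real.exp_log h1]
    have h2 : ((‖z‖ : ℝ) : ℂ) ≠ 0 := by exact_mod_cast h1.ne'
    field_simp
  have hF : Measurable fun s => H (e s) := hH.comp he.measurable
  have hne' : μ'.map ps ≠ 0 := map_ne μ' hμ'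
  have hae : ∀ κ : FiniteMeasure ℂ, (κ : Measure ℂ) {0} = 0 → ∀ᵐ z ∂(κ : Measure ℂ), z ≠ 0 := by
    intro κ hκ
    rw [ae_iff]
    simpa using hκ
  have h1 := fm_ae (fun k => (μ k).map ps) (μ'.map ps) hw hne' (fun s => H (e s)) hF C (fun s => hC _) (by
    rw [FiniteMeasure.toMeasure_map, ae_map_iff ps_meas.aemeasurable (measurableSet_of_continuousAt _)]
    filter_upwards [hc, hae μ' h0'] with z hz hz0
    have h2 : ContinuousAt H (e (ps z)) := by rwa [hep z hz0]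
    exact h2.comp he.continuousAt)
  have h2 : ∀ κ : FiniteMeasure ℂ, (κ : Measure ℂ) {0} = 0 →
      ∫ s, H (e s) ∂(κ.map ps : Measure (WithLp 2 (ℝ × ℂ))) = ∫ z, H z ∂(κ : Measure ℂ) := by
    intro κ hκ
    rw [FiniteMeasure.toMeasure_map, integral_map ps_meas.aemeasurable hF.aestronglyMeasurable]
    refine integral_congr_ae ?_
    filter_upwards [hae κ hκ] with z hz
    rw [hep z hz]
  rw [h2 μ' h0'] at h1
  refine h1.congr fun k => ?_
  exact h2 (μ k) (h0 k)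


/-! ### the transforms -/

/-- the Fubini identity -/
lemma fubG {α : Type} [MeasurableSpace α] (κ : Measure α) [IsFiniteMeasure κ] (X : α → ℝ) (hX : Measurable X)
    (b : α → ℂ) (hb : Measurable b) (hb1 : ∀ a, ‖b a‖ ≤ 1) (c η : ℝ) :
    ∫ a, ((Real.sinc (X a - c) ^ 2 : ℝ) : ℂ) * (Complex.exp (η * X a * I) * b a) ∂κ =
      (1 / 4) * ∫ p, Complex.exp (-((p.1 - p.2 : ℝ) * c * I)) *
        (∫ a, Complex.exp ((p.1 - p.2 + η : ℝ) * X a * I) * b a ∂κ) ∂Q := by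
  have h1 : ∀ a : α, ((Real.sinc (X a - c) ^ 2 : ℝ) : ℂ) * (Complex.exp (η * X a * I) * b a) =
      (1 / 4) * ∫ p, Complex.exp (-((p.1 - p.2 : ℝ) * c * I)) * (Complex.exp ((p.1 - p.2 + η : ℝ) * X a * I) * b a) ∂Q := by
    intro a
    rw [sinc_sq_int, mul_assoc, ← integral_mul_const]
    congr 1
    refine integral_congr_ae (Eventually.of_forall fun p => ?_)
    simp only
    rw [← mul_assoc, ← mul_assoc, ← Complex.exp_add, ← Complex.exp_add]
    congr 2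
    push_cast
    ring
  simp_rw [h1]
  rw [integral_const_mul]
  congr 1
  rw [integral_integral_swap]
  · refine integral_congr_ae (Eventually.of_forall fun p => ?_)
    simp only
    rw [integral_const_mul]
  · refine Integrable.of_bound (C := 1) ?_ (Eventually.of_forall fun q => ?_)
    · apply Measurable.aestronglyMeasurable
      simp only [Function.uncurry_def]
      fun_prop
    · simp only [Function.uncurry_def]
      have e1 : -(((q.2.1 - q.2.2 : ℝ) : ℂ) * (c:ℂ) * I) = (((-(q.2.1 - q.2.2) * c : ℝ)) : ℂ) * I := by push_cast; ring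
      have e2 : ((q.2.1 - q.2.2 + η : ℝ) : ℂ) * (X q.1:ℂ) * I = ((((q.2.1 - q.2.2 + η) * X q.1 : ℝ)) : ℂ) * I := by
        push_cast; ring
      rw [norm_mul, norm_mul, e1, e2, Complex.norm_exp_ofReal_mul_I, Complex.norm_exp_ofReal_mul_I, one_mul, one_mul]
      exact hb1 _

lemma Q_univ : Q.real Set.univ = 4 := by
  unfold Q
  rw [Measure.real, ← Set.univ_prod_univ, Measure.prod_prod]
  simp
  norm_num

lemma Q_supp : ∀ᵐ p ∂Q, |p.1 - p.2| ≤ 2 := by
  have h8 : ∀ᵐ p ∂Q, p ∈ Set.Icc (-1:ℝ) 1 ×ˢ Set.Icc (-1:ℝ) 1 := by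
    unfold Q
    rw [Measure.prod_restrict]
    exact ae_restrict_mem (measurableSet_Icc.prod measurableSet_Icc)
  filter_upwards [h8] with p hp
  obtain ⟨⟨q1, q2⟩, q3, q4⟩ := hp
  rw [abs_le]
  constructor <;> linarith

lemma k0_bound {α : Type} [MeasurableSpace α] (κ : Measure α) [IsFiniteMeasure κ] (X : α → ℝ) (hX : Measurable X)
    (b : α → ℂ) (hb : Measurable b) (hb1 : ∀ a, ‖b a‖ ≤ 1) (η M : ℝ)
    (hM : ∀ ξ : ℝ, |ξ| ≤ 2 + |η| → ‖∫ a, Complex.exp (ξ * X a * I) * b a ∂κ‖ ≤ M) :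
    ‖∫ a, ((k0 (X a) : ℝ) : ℂ) * (Complex.exp (η * X a * I) * b a) ∂κ‖ ≤ 2 * M := by
  have hi : ∀ c : ℝ, Integrable (fun a => ((Real.sinc (X a - c) ^ 2 : ℝ) : ℂ) * (Complex.exp (η * X a * I) * b a)) κ := by
    intro c
    refine Integrable.of_bound (C := 1) ?_ (Eventually.of_forall fun a => ?_)
    · apply Measurable.aestronglyMeasurable
      fun_prop
    · rw [norm_mul, norm_mul, ← Complex.ofReal_mul, Complex.norm_exp_ofReal_mul_I, one_mul, Complex.norm_real,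
        Real.norm_of_nonneg (sq_nonneg _)]
      have h1 : Real.sinc (X a - c) ^ 2 ≤ 1 := by
        rw [sq_le_one_iff_abs_le_one]
        exact Real.abs_sinc_le_one _
      exact mul_le_one₀ h1 (norm_nonneg _) (hb1 a)
  have hk : ∫ a, ((k0 (X a) : ℝ) : ℂ) * (Complex.exp (η * X a * I) * b a) ∂κ =
      (∫ a, ((Real.sinc (X a - 0) ^ 2 : ℝ) : ℂ) * (Complex.exp (η * X a * I) * b a) ∂κ) +
      ∫ a, ((Real.sinc (X a - Real.pi / 2) ^ 2 : ℝ) : ℂ) * (Complex.exp (η * X a * I) * b a) ∂κ := by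
    rw [← integral_add (hi 0) (hi _)]
    refine integral_congr_ae (Eventually.of_forall fun a => ?_)
    simp only [k0, sub_zero]
    push_cast
    ring
  have hc : ∀ c : ℝ, ‖∫ a, ((Real.sinc (X a - c) ^ 2 : ℝ) : ℂ) * (Complex.exp (η * X a * I) * b a) ∂κ‖ ≤ M := by
    intro c
    rw [fubG κ X hX b hb hb1 c η, norm_mul]
    have h1 : ‖∫ p, Complex.exp (-((p.1 - p.2 : ℝ) * c * I)) *
        (∫ a, Complex.exp ((p.1 - p.2 + η : ℝ) * X a * I) * b a ∂κ) ∂Q‖ ≤ M * Q.real Set.univ := by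
      refine norm_integral_le_of_norm_le_const ?_
      filter_upwards [Q_supp] with p hp
      have e1 : -(((p.1 - p.2 : ℝ) : ℂ) * (c:ℂ) * I) = (((-(p.1 - p.2) * c : ℝ)) : ℂ) * I := by push_cast; ring
      rw [norm_mul, e1, Complex.norm_exp_ofReal_mul_I, one_mul]
      apply hM
      have := abs_add_le (p.1 - p.2) η
      linarith
    rw [Q_univ] at h1
    have h2 : ‖(1 / 4 : ℂ)‖ = 1 / 4 := by simp
    rw [h2]
    linarith
  rw [hk]
  refine (norm_add_le _ _).trans ?_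
  linarith [hc 0, hc (Real.pi / 2)]

lemma cpow_exp {z : ℂ} (hz : z ≠ 0) (ξ : ℝ) :
    ((‖z‖ : ℝ) : ℂ) ^ ((ξ : ℂ) * I) = Complex.exp (ξ * (Real.log ‖z‖ : ℝ) * I) := by
  have h1 : 0 < ‖z‖ := norm_pos_iff.mpr hz
  have h2 : ((‖z‖ : ℝ) : ℂ) ≠ 0 := by exact_mod_cast h1.ne'
  rw [Complex.cpow_def_of_ne_zero h2, ← Complex.ofReal_log h1.le]
  congr 1
  ring

lemma b_meas (n : ℤ) : Measurable fun z : ℂ => (z / (‖z‖ : ℝ)) ^ n := by fun_prop

lemma b_norm (n : ℤ) (z : ℂ) : ‖(z / (‖z‖ : ℝ)) ^ n‖ ≤ 1 := by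
  by_cases hz : z = 0
  · rw [hz]
    rcases eq_or_ne n 0 with e | e
    · rw [e]
      simp
    · rw [norm_zpow]
      simp [zero_zpow _ e]
  · rw [norm_zpow, norm_unit hz, one_zpow]

/-- the transforms for `n ≠ 0` -/
lemma key_ne (ν : ℝ → Measure ℂ) (Λ : ℝ → ℝ) (g : ℝ → ℂ) (n : ℤ) (hn : n ≠ 0)
    (hν : ∀ᶠ T in atTop, IsFiniteMeasure (ν T) ∧ ν T {0} = 0)
    (hΛ : Tendsto Λ atTop atTop) (hg : Continuous g)
    (H : ∀ R : ℝ, 0 < R → ∀ ε : ℝ, 0 < ε → ∀ᶠ T in atTop, ∀ ξ : ℝ, |ξ| ≤ R →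
      ‖(∫ z, ((‖z‖ : ℝ) : ℂ) ^ ((ξ : ℂ) * I) * (z / (‖z‖ : ℝ)) ^ n ∂(ν T)) -
        g ξ * Real.exp (-((ξ ^ 2 + (n:ℝ) ^ 2) * Λ T / 4))‖ ≤ ε * Real.exp (-((ξ ^ 2 + (n:ℝ) ^ 2) * Λ T / 4))) (η : ℝ) :
    Tendsto (fun T => (Real.sqrt (Real.pi * Λ T) : ℂ) * ∫ z, ((k0 (Real.log ‖z‖) : ℝ) : ℂ) *
      (Complex.exp (η * (Real.log ‖z‖ : ℝ) * I) * (z / (‖z‖ : ℝ)) ^ n) ∂(ν T)) atTop (𝓝 0) := by
  set R : ℝ := 2 + |η| with hR
  have hRpos : 0 < R := by positivity
  obtain ⟨B, hB⟩ := (isCompact_Icc (a := -R) (b := R)).exists_bound_of_continuousOn (f := g) hg.continuousOn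
  have hB0 : 0 ≤ B := (norm_nonneg _).trans (hB 0 ⟨by linarith, hRpos.le⟩)
  have hlim : Tendsto (fun T => 2 * (B + 1) * (Real.sqrt (Real.pi * Λ T) * Real.exp (-(Λ T / 4)))) atTop (𝓝 0) := by
    have h3 := (tendsto_rpow_mul_exp_neg_mul_atTop_nhds_zero (1 / 2) (1 / 4) (by positivity)).comp hΛ
    have h4 := h3.const_mul (2 * (B + 1) * Real.sqrt Real.pi)
    rw [mul_zero] at h4
    refine h4.congr' ?_
    filter_upwards [hΛ.eventually_gt_atTop 0] with T hT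
    simp only [Function.comp]
    rw [← Real.sqrt_eq_rpow, Real.sqrt_mul Real.pi_pos.le]
    have : -(1 / 4 : ℝ) * Λ T = -(Λ T / 4) := by ring
    rw [this]
    ring
  refine squeeze_zero_norm' ?_ hlim
  filter_upwards [hν, hΛ.eventually_gt_atTop 0, H R hRpos 1 one_pos] with T f1 f2 f3
  have := f1.1
  rw [norm_mul, Complex.norm_real, Real.norm_of_nonneg (Real.sqrt_nonneg _)]
  have hae : ∀ᵐ z ∂(ν T), z ≠ 0 := by
    rw [ae_iff]
    simpa using f1.2
  have h1 := k0_bound (ν T) (fun z : ℂ => Real.log ‖z‖) (by fun_prop) (fun z => (z / (‖z‖ : ℝ)) ^ n) (b_meas n)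
    (b_norm n) η ((B + 1) * Real.exp (-(Λ T / 4))) (by
      intro ξ hξ
      have h2 := f3 ξ hξ
      have h3 : ∫ z, ((‖z‖ : ℝ) : ℂ) ^ ((ξ : ℂ) * I) * (z / (‖z‖ : ℝ)) ^ n ∂(ν T) =
          ∫ z, Complex.exp (ξ * (Real.log ‖z‖ : ℝ) * I) * (z / (‖z‖ : ℝ)) ^ n ∂(ν T) := by
        refine integral_congr_ae ?_
        filter_upwards [hae] with z hz
        rw [cpow_exp hz]
      rw [h3] at h2
      set J := ∫ z, Complex.exp (ξ * (Real.log ‖z‖ : ℝ) * I) * (z / (‖z‖ : ℝ)) ^ n ∂(ν T)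
      have h4 : ‖J‖ ≤ ‖J - g ξ * Real.exp (-((ξ ^ 2 + (n:ℝ) ^ 2) * Λ T / 4))‖ +
          ‖g ξ * (Real.exp (-((ξ ^ 2 + (n:ℝ) ^ 2) * Λ T / 4)) : ℂ)‖ := by
        have := norm_add_le (J - g ξ * Real.exp (-((ξ ^ 2 + (n:ℝ) ^ 2) * Λ T / 4)))
          (g ξ * (Real.exp (-((ξ ^ 2 + (n:ℝ) ^ 2) * Λ T / 4)) : ℂ))
        rwa [sub_add_cancel] at this
      have h5 : ‖g ξ * (Real.exp (-((ξ ^ 2 + (n:ℝ) ^ 2) * Λ T / 4)) : ℂ)‖ ≤
          B * Real.exp (-((ξ ^ 2 + (n:ℝ) ^ 2) * Λ T / 4)) := by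
        rw [norm_mul, Complex.norm_real, Real.norm_of_nonneg (Real.exp_pos _).le]
        exact mul_le_mul_of_nonneg_right (hB ξ (abs_le.mp hξ)) (Real.exp_pos _).le
      have h6 : Real.exp (-((ξ ^ 2 + (n:ℝ) ^ 2) * Λ T / 4)) ≤ Real.exp (-(Λ T / 4)) := by
        apply Real.exp_le_exp.mpr
        have h7 : (1:ℝ) ≤ (n:ℝ) ^ 2 := by
          have : (1:ℤ) ≤ n ^ 2 := by
            have := sq_nonneg n
            have h8 : n ^ 2 ≠ 0 := pow_ne_zero 2 hn
            omega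
          exact_mod_cast this
        have h8 : 1 ≤ ξ ^ 2 + (n:ℝ) ^ 2 := by nlinarith [sq_nonneg ξ]
        have := mul_le_mul_of_nonneg_right h8 f2.le
        linarith
      have h9 : (B + 1) * Real.exp (-((ξ ^ 2 + (n:ℝ) ^ 2) * Λ T / 4)) ≤ (B + 1) * Real.exp (-(Λ T / 4)) :=
        mul_le_mul_of_nonneg_left h6 (by linarith)
      linarith)
  calc Real.sqrt (Real.pi * Λ T) * ‖∫ z, ((k0 (Real.log ‖z‖) : ℝ) : ℂ) *
        (Complex.exp (η * (Real.log ‖z‖ : ℝ) * I) * (z / (‖z‖ : ℝ)) ^ n) ∂(ν T)‖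
      ≤ Real.sqrt (Real.pi * Λ T) * (2 * ((B + 1) * Real.exp (-(Λ T / 4)))) :=
        mul_le_mul_of_nonneg_left h1 (Real.sqrt_nonneg _)
    _ = _ := by ring

/-- the transforms for `n = 0` -/
lemma key_zero (ν : ℝ → Measure ℂ) (Λ : ℝ → ℝ) (g : ℝ → ℂ)
    (hν : ∀ᶠ T in atTop, IsFiniteMeasure (ν T) ∧ ν T {0} = 0)
    (hΛ : Tendsto Λ atTop atTop) (hg : Continuous g) (hg0 : g 0 = 1)
    (H : ∀ R : ℝ, 0 < R → ∀ ε : ℝ, 0 < ε → ∀ᶠ T in atTop, ∀ ξ : ℝ, |ξ| ≤ R →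
      ‖(∫ z, ((‖z‖ : ℝ) : ℂ) ^ ((ξ : ℂ) * I) * (z / (‖z‖ : ℝ)) ^ (0:ℤ) ∂(ν T)) -
        g ξ * Real.exp (-((ξ ^ 2 + ((0:ℤ):ℝ) ^ 2) * Λ T / 4))‖ ≤
          ε * Real.exp (-((ξ ^ 2 + ((0:ℤ):ℝ) ^ 2) * Λ T / 4))) (η : ℝ) :
    Tendsto (fun T => (Real.sqrt (Real.pi * Λ T) : ℂ) * ∫ z, ((k0 (Real.log ‖z‖) : ℝ) : ℂ) *
      (Complex.exp (η * (Real.log ‖z‖ : ℝ) * I) * (z / (‖z‖ : ℝ)) ^ (0:ℤ)) ∂(ν T)) atTop
      (𝓝 (∫ x, ((k0 x : ℝ) : ℂ) * Complex.exp (η * x * I))) := by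
  have hm : Measurable fun z : ℂ => Real.log ‖z‖ := by fun_prop
  have hk := Pool.Agent.N748.MG.LLT.key (fun T => (ν T).map fun z => Real.log ‖z‖) Λ g
    (hν.mono fun T hT => by have := hT.1; exact Measure.isFiniteMeasure_map _ _) hΛ hg hg0 (by
      intro R hR ε hε
      filter_upwards [H R hR ε hε, hν] with T hT hνT ξ hξ
      have h1 := hT ξ hξ
      have hae : ∀ᵐ z ∂(ν T), z ≠ 0 := by
        rw [ae_iff]
        simpa using hνT.2
      have h2 : ∫ x, Complex.exp (ξ * x * I) ∂((ν T).map fun z => Real.log ‖z‖) =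
          ∫ z, ((‖z‖ : ℝ) : ℂ) ^ ((ξ : ℂ) * I) * (z / (‖z‖ : ℝ)) ^ (0:ℤ) ∂(ν T) := by
        rw [integral_map hm.aemeasurable (by fun_prop)]
        refine integral_congr_ae ?_
        filter_upwards [hae] with z hz
        rw [cpow_exp hz, zpow_zero, mul_one]
      rw [h2]
      simpa using h1) η
  refine hk.congr fun T => ?_
  have hc := k0_cont
  rw [integral_map hm.aemeasurable (by fun_prop)]
  simp


/-! ### the limit measure -/

/-- the density -/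
noncomputable def dn (z : ℂ) : ℝ := 1 / (2 * Real.pi) * (‖z‖ ^ (-2 : ℝ) * k0 (Real.log ‖z‖))

lemma dn_nonneg (z : ℂ) : 0 ≤ dn z := by
  unfold dn
  have := (k0_pos (Real.log ‖z‖)).le
  positivity

lemma dn_meas : Measurable dn := by
  unfold dn
  have := k0_cont
  fun_prop

lemma exp_image : Real.exp '' Set.univ = Set.Ioi (0:ℝ) := by
  rw [Set.image_univ, Real.range_exp]

lemma sub_int {F : Type} [NormedAddCommGroup F] [NormedSpace ℝ F] (f : ℝ → F) :
    ∫ y in Set.Ioi (0:ℝ), f y = ∫ x, Real.exp x • f (Real.exp x) := by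
  rw [← exp_image, integral_image_eq_integral_abs_deriv_smul MeasurableSet.univ
    (fun x _ => (Real.hasDerivAt_exp x).hasDerivWithinAt) Real.exp_injective.injOn, Measure.restrict_univ]
  simp_rw [abs_of_pos (Real.exp_pos _)]

lemma sub_intble {F : Type} [NormedAddCommGroup F] [NormedSpace ℝ F] (f : ℝ → F) :
    IntegrableOn f (Set.Ioi (0:ℝ)) ↔ Integrable fun x => Real.exp x • f (Real.exp x) := by
  rw [← exp_image, integrableOn_image_iff_integrableOn_abs_deriv_smul MeasurableSet.univ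
    (fun x _ => (Real.hasDerivAt_exp x).hasDerivWithinAt) Real.exp_injective.injOn, integrableOn_univ]
  simp_rw [abs_of_pos (Real.exp_pos _)]

lemma exp_dn (x : ℝ) : Real.exp x * (Real.exp x ^ (2 - 1) * (1 / (2 * Real.pi) * (Real.exp x ^ (-2 : ℝ) *
    k0 (Real.log (Real.exp x))))) = 1 / (2 * Real.pi) * k0 x := by
  have h21 : (2 - 1 : ℕ) = 1 := rfl
  rw [h21, pow_one, Real.log_exp, Real.rpow_neg (Real.exp_pos x).le, Real.rpow_two]
  have := (Real.exp_pos x).ne'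
  field_simp

lemma dn_int : Integrable dn := by
  have h1 := integrable_fun_norm_addHaar (volume : Measure ℂ)
    (f := fun r : ℝ => 1 / (2 * Real.pi) * (r ^ (-2 : ℝ) * k0 (Real.log r)))
  rw [Complex.finrank_real_complex] at h1
  refine h1.mpr ?_
  rw [sub_intble]
  simp only [smul_eq_mul]
  simp_rw [exp_dn]
  exact k0_int.const_mul _

/-- the transform of the limit measure, `n = 0` -/
lemma dn_zero (t : ℝ) : ∫ z, dn z • (Complex.exp (t * (Real.log ‖z‖ : ℝ) * I) * (z / (‖z‖ : ℝ)) ^ (0:ℤ)) =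
    ∫ x, ((k0 x : ℝ) : ℂ) * Complex.exp (t * x * I) := by
  have h1 := integral_fun_norm_addHaar (volume : Measure ℂ)
    (fun r : ℝ => (1 / (2 * Real.pi) * (r ^ (-2 : ℝ) * k0 (Real.log r))) • Complex.exp (t * (Real.log r : ℝ) * I))
  rw [Complex.finrank_real_complex, sub_int] at h1
  have h2 : ∫ z, dn z • (Complex.exp (t * (Real.log ‖z‖ : ℝ) * I) * (z / (‖z‖ : ℝ)) ^ (0:ℤ)) =
      ∫ z : ℂ, (1 / (2 * Real.pi) * (‖z‖ ^ (-2 : ℝ) * k0 (Real.log ‖z‖))) • Complex.exp (t * (Real.log ‖z‖ : ℝ) * I) := by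
    refine integral_congr_ae (Eventually.of_forall fun z => ?_)
    simp only [dn, zpow_zero, mul_one]
  rw [h2, h1]
  have h3 : (volume : Measure ℂ).real (Metric.ball 0 1) = Real.pi := by
    rw [Measure.real, Complex.volume_ball]
    simp
  have h4 : ∀ x : ℝ, Real.exp x • (Real.exp x ^ (2 - 1) • ((1 / (2 * Real.pi) * (Real.exp x ^ (-2 : ℝ) *
      k0 (Real.log (Real.exp x)))) • Complex.exp (t * (Real.log (Real.exp x) : ℝ) * I))) =
      (1 / (2 * Real.pi) * k0 x) • Complex.exp (t * x * I) := by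
    intro x
    rw [smul_smul, smul_smul, mul_assoc, exp_dn, Real.log_exp]
  rw [h3]
  simp_rw [h4]
  rw [← integral_smul, nsmul_eq_mul, ← integral_const_mul]
  refine integral_congr_ae (Eventually.of_forall fun x => ?_)
  simp only [real_smul]
  have : (Real.pi : ℂ) ≠ 0 := by exact_mod_cast Real.pi_ne_zero
  push_cast
  field_simp

/-- the transform of the limit measure, `n ≠ 0` -/
lemma dn_ne (t : ℝ) (n : ℤ) (hn : n ≠ 0) :
    ∫ z, dn z • (Complex.exp (t * (Real.log ‖z‖ : ℝ) * I) * (z / (‖z‖ : ℝ)) ^ n) = 0 := by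
  let ω : Circle := Circle.exp (Real.pi / n)
  have hω : ((ω : ℂ)) ^ n = -1 := by
    have hn' : (n : ℂ) ≠ 0 := by exact_mod_cast hn
    show ((Circle.exp (Real.pi / n) : Circle) : ℂ) ^ n = -1
    rw [Circle.coe_exp, ← Complex.exp_int_mul]
    have : (n : ℂ) * (((Real.pi / n : ℝ) : ℂ) * I) = Real.pi * I := by
      push_cast
      field_simp
    rw [this, Complex.exp_pi_mul_I]
  have hmp : MeasurePreserving (rotation ω) (volume : Measure ℂ) volume := (rotation ω).measurePreserving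
  have h1 := hmp.integral_comp (rotation ω).toHomeomorph.measurableEmbedding
    (fun z : ℂ => dn z • (Complex.exp (t * (Real.log ‖z‖ : ℝ) * I) * (z / (‖z‖ : ℝ)) ^ n))
  have h2 : ∀ z : ℂ, dn (rotation ω z) • (Complex.exp (t * (Real.log ‖rotation ω z‖ : ℝ) * I) *
      (rotation ω z / (‖rotation ω z‖ : ℝ)) ^ n) =
      -(dn z • (Complex.exp (t * (Real.log ‖z‖ : ℝ) * I) * (z / (‖z‖ : ℝ)) ^ n)) := by
    intro z
    have e1 : ‖rotation ω z‖ = ‖z‖ := LinearIsometryEquiv.norm_map _ _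
    have e2 : dn (rotation ω z) = dn z := by
      unfold dn
      rw [e1]
    rw [e2, e1, rotation_apply, mul_div_assoc, mul_zpow, hω]
    simp only [real_smul]
    ring
  simp_rw [h2] at h1
  rw [integral_neg] at h1
  have h3 : ∀ w : ℂ, -w = w → w = 0 := by
    intro w hw
    have : (2:ℂ) * w = 0 := by linear_combination -hw
    simpa using this
  exact h3 _ h1

/-! ### assembly -/

lemma wd_int {F : Type} [NormedAddCommGroup F] [NormedSpace ℝ F] (κ : Measure ℂ) {D : ℂ → ℝ} (hD : Measurable D)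
    (hD0 : ∀ z, 0 ≤ D z) (f : ℂ → F) :
    ∫ z, f z ∂(κ.withDensity fun z => ENNReal.ofReal (D z)) = ∫ z, D z • f z ∂κ := by
  rw [integral_withDensity_eq_integral_toReal_smul]
  · refine integral_congr_ae (Eventually.of_forall fun z => ?_)
    simp only
    rw [ENNReal.toReal_ofReal (hD0 z)]
  · fun_prop
  · exact Eventually.of_forall fun z => ENNReal.ofReal_lt_top

/-- the sequential version -/
lemma seqv (ν : ℕ → Measure ℂ) (hf : ∀ k, IsFiniteMeasure (ν k)) (hf0 : ∀ k, ν k {0} = 0) (A : ℕ → ℝ) (hA : ∀ k, 0 ≤ A k)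
    (hk0 : ∀ η : ℝ, Tendsto (fun k => (A k : ℂ) * ∫ z, ((k0 (Real.log ‖z‖) : ℝ) : ℂ) *
      (Complex.exp (η * (Real.log ‖z‖ : ℝ) * I) * (z / (‖z‖ : ℝ)) ^ (0:ℤ)) ∂(ν k)) atTop
      (𝓝 (∫ x, ((k0 x : ℝ) : ℂ) * Complex.exp (η * x * I))))
    (hkn : ∀ (η : ℝ) (n : ℤ), n ≠ 0 → Tendsto (fun k => (A k : ℂ) * ∫ z, ((k0 (Real.log ‖z‖) : ℝ) : ℂ) *
      (Complex.exp (η * (Real.log ‖z‖ : ℝ) * I) * (z / (‖z‖ : ℝ)) ^ n) ∂(ν k)) atTop (𝓝 0))
    (h : ℂ → ℝ) (hh : Measurable h) (S : Set ℂ) (hS : volume S = 0) (hhc : ∀ z, z ≠ 0 → z ∉ S → ContinuousAt h z)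
    (C : ℝ) (hC : ∀ z, z ≠ 0 → |h z| * (1 + Real.log ‖z‖ ^ 2) ≤ C) :
    Tendsto (fun k => A k * ∫ z, h z ∂(ν k)) atTop (𝓝 (1 / (2 * Real.pi) * ∫ z : ℂ, ‖z‖ ^ (-2 : ℝ) * h z)) := by
  have hkc := k0_cont
  have hkm : ∀ a : ℝ, Measurable fun z : ℂ => a * k0 (Real.log ‖z‖) := fun a => by fun_prop
  have hkp : ∀ k z, 0 ≤ A k * k0 (Real.log ‖(z:ℂ)‖) := fun k z => mul_nonneg (hA k) (k0_pos _).le
  have hfin : ∀ k, IsFiniteMeasure ((ν k).withDensity fun z => ENNReal.ofReal (A k * k0 (Real.log ‖z‖))) := by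
    intro k
    have := hf k
    have h1 : Integrable (fun z : ℂ => A k * k0 (Real.log ‖z‖)) (ν k) := by
      refine Integrable.const_mul ?_ _
      refine Integrable.of_bound (hkc.measurable.comp
        (by fun_prop : Measurable fun z : ℂ => Real.log ‖z‖)).aestronglyMeasurable 14 (Eventually.of_forall fun z => ?_)
      rw [Real.norm_of_nonneg (k0_pos _).le]
      refine (k0_le _).trans ?_
      have h1 : (1 + Real.log ‖z‖ ^ 2)⁻¹ ≤ 1 := inv_le_one_of_one_le₀ (by nlinarith [sq_nonneg (Real.log ‖z‖)])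
      linarith
    exact isFiniteMeasure_withDensity_ofReal h1.2
  let μ : ℕ → FiniteMeasure ℂ := fun k => ⟨_, hfin k⟩
  let μ' : FiniteMeasure ℂ := ⟨volume.withDensity fun z => ENNReal.ofReal (dn z),
    isFiniteMeasure_withDensity_ofReal dn_int.2⟩
  have eμ : ∀ k, (μ k : Measure ℂ) = (ν k).withDensity fun z => ENNReal.ofReal (A k * k0 (Real.log ‖z‖)) := fun k => rfl
  have eμ' : (μ' : Measure ℂ) = volume.withDensity fun z => ENNReal.ofReal (dn z) := rfl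
  have h0 : ∀ k, (μ k : Measure ℂ) {0} = 0 := by
    intro k
    rw [eμ]
    exact withDensity_absolutelyContinuous _ _ (hf0 k)
  have hac : (μ' : Measure ℂ) ≪ volume := by
    rw [eμ']
    exact withDensity_absolutelyContinuous _ _
  have h0' : (μ' : Measure ℂ) {0} = 0 := hac (by simp)
  have ht0 : ∀ (t : ℝ) (n : ℤ), ∫ z, Complex.exp ((t : ℂ) * (Real.log ‖z‖ : ℝ) * I) *
      (z / (‖z‖ : ℝ)) ^ n ∂(μ' : Measure ℂ) =
      ∫ z, dn z • (Complex.exp (t * (Real.log ‖z‖ : ℝ) * I) * (z / (‖z‖ : ℝ)) ^ n) := by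
    intro t n
    rw [eμ', wd_int _ dn_meas dn_nonneg]
  have htk : ∀ (k : ℕ) (t : ℝ) (n : ℤ), ∫ z, Complex.exp ((t : ℂ) * (Real.log ‖z‖ : ℝ) * I) *
      (z / (‖z‖ : ℝ)) ^ n ∂(μ k : Measure ℂ) =
      (A k : ℂ) * ∫ z, ((k0 (Real.log ‖z‖) : ℝ) : ℂ) *
      (Complex.exp (t * (Real.log ‖z‖ : ℝ) * I) * (z / (‖z‖ : ℝ)) ^ n) ∂(ν k) := by
    intro k t n
    rw [eμ, wd_int _ (hkm _) (hkp k), ← integral_const_mul]
    refine integral_congr_ae (Eventually.of_forall fun z => ?_)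
    simp only [real_smul]
    push_cast
    ring
  have hμ'0 : μ' ≠ 0 := by
    intro h1
    have h2 := ht0 0 0
    rw [dn_zero, h1] at h2
    simp only [Complex.ofReal_zero, zero_mul, Complex.exp_zero, mul_one, zpow_zero] at h2
    have h3 : 0 < ∫ x, k0 x := by
      rw [integral_pos_iff_support_of_nonneg (fun x => (k0_pos x).le) k0_int]
      have : Function.support k0 = Set.univ := by
        ext x
        simp [(k0_pos x).ne']
      rw [this]
      simp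
    have h4 : ((∫ x, k0 x : ℝ) : ℂ) = 0 := by
      rw [← integral_complex_ofReal, ← h2]
      simp
    have h5 : ∫ x, k0 x = 0 := by exact_mod_cast h4
    linarith
  have htr : ∀ (t : ℝ) (n : ℤ), Tendsto (fun k => ∫ z, Complex.exp ((t : ℂ) * (Real.log ‖z‖ : ℝ) * I) *
      (z / (‖z‖ : ℝ)) ^ n ∂(μ k : Measure ℂ)) atTop
      (𝓝 (∫ z, Complex.exp ((t : ℂ) * (Real.log ‖z‖ : ℝ) * I) * (z / (‖z‖ : ℝ)) ^ n ∂(μ' : Measure ℂ))) := by
    intro t n
    simp_rw [htk]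
    rw [ht0]
    rcases eq_or_ne n 0 with rfl | hn
    · rw [dn_zero]
      exact hk0 t
    · rw [dn_ne t n hn]
      exact hkn t n hn
  have hHm : Measurable fun z => h z / k0 (Real.log ‖z‖) := by fun_prop
  have hHb : ∀ z, |h z / k0 (Real.log ‖z‖)| ≤ max (6 * C) (|h 0 / k0 (Real.log ‖(0:ℂ)‖)|) := by
    intro z
    rcases eq_or_ne z 0 with rfl | hz
    · exact le_max_right _ _
    · refine le_trans ?_ (le_max_left _ _)
      rw [abs_div, abs_of_pos (k0_pos _), div_le_iff₀ (k0_pos _)]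
      have h1 := k0_ge (Real.log ‖z‖)
      have h2 := hC z hz
      have h3 : 0 < 1 + Real.log ‖z‖ ^ 2 := by positivity
      have h4 : 0 ≤ C := le_trans (by positivity) h2
      have h5 : |h z| * (1 + Real.log ‖z‖ ^ 2) ≤ 6 * C * k0 (Real.log ‖z‖) * (1 + Real.log ‖z‖ ^ 2) := by nlinarith
      exact le_of_mul_le_mul_right h5 h3
  have hHc : ∀ᵐ z ∂(μ' : Measure ℂ), ContinuousAt (fun z => h z / k0 (Real.log ‖z‖)) z := by
    have h1 : ∀ᵐ z : ℂ ∂volume, z ∉ S := measure_eq_zero_iff_ae_notMem.mp hS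
    have h2 : ∀ᵐ z : ℂ ∂volume, z ≠ 0 := by
      rw [ae_iff]
      simp
    refine hac.ae_le ?_
    filter_upwards [h1, h2] with z hz1 hz2
    refine (hhc z hz2 hz1).div ?_ (k0_pos _).ne'
    have h3 : ContinuousAt (fun z : ℂ => Real.log ‖z‖) z :=
      ContinuousAt.log continuous_norm.continuousAt (norm_ne_zero_iff.mpr hz2)
    exact k0_cont.continuousAt.comp h3
  have h6 := intE μ μ' hμ'0 h0 h0' htr (fun z => h z / k0 (Real.log ‖z‖)) hHm _ hHb hHc
  have h7 : ∀ k, ∫ z, h z / k0 (Real.log ‖z‖) ∂(μ k : Measure ℂ) = A k * ∫ z, h z ∂(ν k) := by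
    intro k
    rw [eμ, wd_int _ (hkm _) (hkp k), ← integral_const_mul]
    refine integral_congr_ae (Eventually.of_forall fun z => ?_)
    have := (k0_pos (Real.log ‖z‖)).ne'
    simp only [smul_eq_mul]
    field_simp
  have h8 : ∫ z, h z / k0 (Real.log ‖z‖) ∂(μ' : Measure ℂ) = 1 / (2 * Real.pi) * ∫ z : ℂ, ‖z‖ ^ (-2 : ℝ) * h z := by
    rw [eμ', wd_int _ dn_meas dn_nonneg, ← integral_const_mul]
    refine integral_congr_ae (Eventually.of_forall fun z => ?_)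
    have := (k0_pos (Real.log ‖z‖)).ne'
    simp only [smul_eq_mul, dn]
    field_simp
  rw [h8] at h6
  exact h6.congr h7

theorem main : S_LLT2 := by
  intro ν Λ g hν hΛ hg hg0 H h hh hS hC
  obtain ⟨S, hS, hhc⟩ := hS
  obtain ⟨C, hC⟩ := hC
  refine tendsto_of_seq_tendsto fun u hu => ?_
  have hk0 := fun η : ℝ => (key_zero ν Λ (g 0) hν hΛ (hg 0) hg0 (H 0) η).comp hu
  have hkn := fun (η : ℝ) (n : ℤ) (hn : n ≠ 0) => (key_ne ν Λ (g n) n hn hν hΛ (hg n) (H n) η).comp hu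
  obtain ⟨N, hN⟩ := eventually_atTop.mp (hu.eventually hν)
  rw [← tendsto_add_atTop_iff_nat N]
  refine seqv (fun k => ν (u (k + N))) (fun k => (hN (k + N) (Nat.le_add_left _ _)).1)
    (fun k => (hN (k + N) (Nat.le_add_left _ _)).2) (fun k => Real.sqrt (Real.pi * Λ (u (k + N))))
    (fun k => Real.sqrt_nonneg _) (fun η => ?_) (fun η n hn => ?_) h hh S hS hhc C hC
  · exact (tendsto_add_atTop_iff_nat N).mpr (hk0 η)
  · exact (tendsto_add_atTop_iff_nat N).mpr (hkn η n hn)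

end Pool.Agent.N748.MJ.LLT2
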