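import Pool.Agent.N748.MJ.Stm
import Pool.Agent.N748.MG.TMA

set_option autoImplicit false

/-! (SM) shifted moments of all orders (helper803, for project MJ of helper748) -/

namespace Pool.Agent.N748.MJ.SM

open Finset Filter MeasureTheory Topology Complex
open Pool.Agent.N748.MG Pool.Agent.N748.MJ

/-- real exponents -/
noncomputable def cc {m : ℕ} (k : Fin m → ℝ) : Fin m → ℂ := fun j => (k j : ℂ)

/-- the real part of the logarithm of the main term -/
noncomputable def Lr {m : ℕ} (k h : Fin m → ℝ) (δ : ℝ) : ℝ :=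
  ∑ j, ∑ l, k j * k l * (LZ (1 + 2 * δ) (h j - h l)).re

lemma LM_re {m : ℕ} (k h : Fin m → ℝ) (δ : ℝ) : (LM (cc k) (cc k) h δ).re = Lr k h δ := by
  unfold LM Lr cc
  rw [Complex.re_sum]
  refine Finset.sum_congr rfl fun j _ => ?_
  rw [Complex.re_sum]
  refine Finset.sum_congr rfl fun l _ => ?_
  rw [← Complex.ofReal_mul, Complex.re_ofReal_mul]

/-- the product -/
noncomputable def G {m : ℕ} (k h : Fin m → ℝ) (δ t : ℝ) : ℝ := ∏ j, mz δ (t + h j) ^ (2 * k j)

lemma G_nn {m : ℕ} (k h : Fin m → ℝ) (δ t : ℝ) : 0 ≤ G k h δ t :=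
  Finset.prod_nonneg fun j _ => Real.rpow_nonneg (norm_nonneg _) _

lemma G_cont {m : ℕ} {k h : Fin m → ℝ} {δ : ℝ} (h0 : δ ≤ 1 / 16) (hk : ∀ j, 0 ≤ k j) :
    Continuous fun t => G k h δ t := by
  unfold G
  refine continuous_finsetProd _ fun j _ => ?_
  refine Continuous.rpow_const ((TMA.cont h0).comp (by fun_prop)) fun t => Or.inr ?_
  have := hk j
  linarith

lemma prod_ZZ {m : ℕ} (k h : Fin m → ℝ) (δ t : ℝ) :
    ∏ j, ZZ (riemannZeta (pw δ (t + h j))) (cc k j) ((fun _ => 0 : Fin m → ℤ) j) =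
      ((G k h δ t : ℝ) : ℂ) := by
  unfold G
  rw [Complex.ofReal_prod]
  refine Finset.prod_congr rfl fun j _ => ?_
  unfold ZZ cc mz
  rw [zpow_zero, mul_one, Complex.ofReal_cpow (norm_nonneg _)]
  push_cast
  rfl

lemma sp_zero {m : ℕ} (b : Fin m → ℂ) : sp b (fun _ => 0) = b := by
  funext j
  simp [sp]

lemma sm_zero {m : ℕ} (b : Fin m → ℂ) : sm b (fun _ => 0) = b := by
  funext j
  simp [sm]

/-- the real form of (JM) -/
lemma real_form {m : ℕ} {k h : Fin m → ℝ} {δ T a ε : ℝ} {N : Set ℝ} (hT : 0 < T) (ha : 0 ≤ a)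
    (haV : aV (cc k) (cc k) h = a)
    (H : ‖Complex.exp (-(LM (sp (cc k) (fun _ => 0)) (sm (cc k) (fun _ => 0)) h δ)) *
      (∫ t in N, ∏ j, ZZ (riemannZeta (pw δ (t + h j))) (cc k j) ((fun _ => 0 : Fin m → ℤ) j)) -
      T * aV (sp (cc k) (fun _ => 0)) (sm (cc k) (fun _ => 0)) h‖ ≤ ε * T) :
    |Real.exp (-(Lr k h δ)) * (∫ t in N, G k h δ t) - T * a| ≤ ε * T := by
  rw [sp_zero, sm_zero, haV] at H
  simp_rw [prod_ZZ] at H
  rw [integral_complex_ofReal] at H
  have h1 := abs_norm_sub_norm_le (Complex.exp (-(LM (cc k) (cc k) h δ)) *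
    ((∫ t in N, G k h δ t : ℝ) : ℂ)) ((T : ℂ) * (a : ℂ))
  have hI : 0 ≤ ∫ t in N, G k h δ t := integral_nonneg fun t => G_nn k h δ t
  rw [norm_mul, norm_mul, Complex.norm_exp, Complex.norm_real, Complex.norm_real, Complex.norm_real,
    Real.norm_of_nonneg hI, Real.norm_of_nonneg hT.le, Real.norm_of_nonneg ha, Complex.neg_re,
    LM_re] at h1
  exact h1.trans H

/-- sizes of `Lr` -/
lemma Lr_abs {m : ℕ} {k h : Fin m → ℝ} {δ L : ℝ} (hk : ∀ j, 0 ≤ k j)
    (hL : ∀ u, |(LZ (1 + 2 * δ) u).re| ≤ L) : |Lr k h δ| ≤ (∑ j, k j) ^ 2 * L := by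
  unfold Lr
  calc |∑ j, ∑ l, k j * k l * (LZ (1 + 2 * δ) (h j - h l)).re|
      ≤ ∑ j, ∑ l, k j * k l * L := by
        refine (Finset.abs_sum_le_sum_abs _ _).trans (Finset.sum_le_sum fun j _ => ?_)
        refine (Finset.abs_sum_le_sum_abs _ _).trans (Finset.sum_le_sum fun l _ => ?_)
        rw [abs_mul, abs_of_nonneg (mul_nonneg (hk j) (hk l))]
        exact mul_le_mul_of_nonneg_left (hL _) (mul_nonneg (hk j) (hk l))
    _ = (∑ j, k j) ^ 2 * L := by
        rw [sq, Finset.sum_mul_sum]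
        simp only [Finset.sum_mul]

lemma Lr_diff {m : ℕ} {k k' h : Fin m → ℝ} {δ L : ℝ} (hk : ∀ j, 0 ≤ k j) (hkk : ∀ j, k j ≤ k' j)
    (hL : ∀ u, |(LZ (1 + 2 * δ) u).re| ≤ L) :
    Lr k' h δ - Lr k h δ ≤ ((∑ j, k' j) ^ 2 - (∑ j, k j) ^ 2) * L := by
  unfold Lr
  rw [← Finset.sum_sub_distrib]
  calc ∑ j, (∑ l, k' j * k' l * (LZ (1 + 2 * δ) (h j - h l)).re -
        ∑ l, k j * k l * (LZ (1 + 2 * δ) (h j - h l)).re)
      ≤ ∑ j, ∑ l, (k' j * k' l - k j * k l) * L := by
        refine Finset.sum_le_sum fun j _ => ?_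
        rw [← Finset.sum_sub_distrib]
        refine Finset.sum_le_sum fun l _ => ?_
        rw [← sub_mul]
        have h1 : 0 ≤ k' j * k' l - k j * k l := by
          have := mul_le_mul (hkk j) (hkk l) (hk l) ((hk j).trans (hkk j))
          linarith
        exact mul_le_mul_of_nonneg_left ((le_abs_self _).trans (hL _)) h1
    _ = ((∑ j, k' j) ^ 2 - (∑ j, k j) ^ 2) * L := by
        rw [sq, sq, Finset.sum_mul_sum, Finset.sum_mul_sum, ← Finset.sum_sub_distrib, Finset.sum_mul]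
        refine Finset.sum_congr rfl fun j _ => ?_
        rw [← Finset.sum_sub_distrib, Finset.sum_mul]

/-- one exponent increased -/
noncomputable def kp {m : ℕ} (k : Fin m → ℝ) (η : ℝ) (i : Fin m) : Fin m → ℝ :=
  fun j => k j + if j = i then η else 0

lemma kp_sum {m : ℕ} (k : Fin m → ℝ) (η : ℝ) (i : Fin m) : ∑ j, kp k η i j = ∑ j, k j + η := by
  unfold kp
  rw [Finset.sum_add_distrib]
  simp

lemma G_kp {m : ℕ} {k h : Fin m → ℝ} {η δ t : ℝ} {i : Fin m} (ht : 0 < mz δ (t + h i)) :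
    G (kp k η i) h δ t = G k h δ t * mz δ (t + h i) ^ (2 * η) := by
  unfold G kp
  have h1 : ∀ j : Fin m, mz δ (t + h j) ^ (2 * (k j + if j = i then η else 0)) =
      mz δ (t + h j) ^ (2 * k j) * (if j = i then mz δ (t + h i) ^ (2 * η) else 1) := by
    intro j
    by_cases hj : j = i
    · subst hj
      rw [if_pos rfl, if_pos rfl, ← Real.rpow_add ht]
      congr 1
      ring
    · rw [if_neg hj, if_neg hj, add_zero, mul_one]
  simp_rw [h1]
  rw [Finset.prod_mul_distrib, Finset.prod_ite_eq' Finset.univ i, if_pos (Finset.mem_univ i)]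

theorem main (hJ : S_JM) (hP : S_POSV) (hL : S_LZB) : S_SM := by
  intro d hd m k V hk hKV h hh
  set K : ℝ := ∑ j, k j with hK
  have hK0 : 0 ≤ K := Finset.sum_nonneg fun j _ => (hk j).le
  have hV0 : 0 < V := lt_of_le_of_lt hK0 hKV
  set η : ℝ := V - K with hη
  have hη0 : 0 < η := sub_pos.2 hKV
  set R : ℝ := K + V + 1 with hR
  have hR0 : 0 < R := by positivity
  set D : ℝ := 2 * (V * K) + K ^ 2 + 1 with hD
  have hD0 : 0 < D := by positivity
  obtain ⟨c, C, hc, hC, hcC⟩ := hP m R hR0.le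
  have hkK : ∀ j, k j ≤ K := fun j =>
    Finset.single_le_sum (f := k) (fun i _ => (hk i).le) (Finset.mem_univ j)
  rw [Metric.tendsto_nhds]
  intro ε hε
  set ε0 : ℝ := min (c * ε / 4) 1 with hε0
  have hε0p : 0 < ε0 := lt_min (by positivity) one_pos
  have hε1 : ε0 ≤ c * ε / 4 := min_le_left _ _
  have hε2 : ε0 ≤ 1 := min_le_right _ _
  have g1 := (hJ m R D hR0 hD0 ε0 hε0p).app hd
  have g2 := (Ev.small (C := 2 ^ (2 * (η * V)) * (m * (C + 1))) (c := η ^ 2) (e := c * ε / 4)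
    (by positivity) (by positivity)).app hd
  have g3 := (Ev.small (C := 1) (c := 1) (e := c * ε / 4) one_pos (by positivity)).app hd
  have g4 := (Ev.of_le (d := 1 / 16) (by norm_num)).app hd
  filter_upwards [g1, g2, g3, g4, hd.pos, hh, eventually_gt_atTop 0] with T g1 g2 g3 g4 g5 g6 hT
  obtain ⟨N, n1, n2, n3, n4, n5⟩ := g1 (h T) g6
  set δ : ℝ := d T with hδ
  set H : Fin m → ℝ := h T with hH
  have h2δ : 0 < 2 * δ := by positivity
  have hδ1 : δ ≤ 1 := by linarith
  obtain ⟨hCu, hcl⟩ := hcC H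
  set L : ℝ := Real.log (1 / δ) with hLd
  have hLre : ∀ u, |(LZ (1 + 2 * δ) u).re| ≤ L := fun u =>
    (Complex.abs_re_le_norm _).trans (hL δ g5 g4 u).1
  have hexpL : ∀ x : ℝ, Real.exp (x * L) = δ ^ (-x) := by
    intro x
    rw [hLd, one_div, Real.log_inv, Real.rpow_def_of_pos g5]
    congr 1
    ring
  -- real forms
  have hform : ∀ k' : Fin m → ℝ, (∀ j, |k' j| ≤ R) → ∃ a, c ≤ a ∧ a ≤ C ∧
      aV (cc k') (cc k') H = a ∧
      |Real.exp (-(Lr k' H δ)) * (∫ t in N, G k' H δ t) - T * a| ≤ ε0 * T := by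
    intro k' hk'
    obtain ⟨a, ha1, ha2⟩ := hcl k' hk'
    have hn : ∀ j, ‖cc k' j‖ ≤ R := by
      intro j
      unfold cc
      rw [Complex.norm_real, Real.norm_eq_abs]
      exact hk' j
    have ha3 : a ≤ C := by
      have h1 := hCu (cc k') (cc k') hn hn
      have h2 : aV (cc k') (cc k') H = a := ha2
      rw [h2, Complex.norm_real, Real.norm_of_nonneg (hc.le.trans ha1)] at h1
      exact h1
    refine ⟨a, ha1, ha3, ha2, ?_⟩
    refine real_form hT (hc.le.trans ha1) ha2 ?_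
    exact n5 (cc k') (fun _ => 0) hn (fun j => by simpa using hR0.le)
  obtain ⟨a, ha1, ha3, ha2, haf⟩ := hform k (fun j => by
    rw [abs_of_pos (hk j)]
    have := hkK j
    rw [hR]
    linarith)
  have ha0 : 0 < a := lt_of_lt_of_le hc ha1
  -- the set
  set E : Set ℝ := {t : ℝ | t ∈ Set.Icc 0 T ∧ ∀ j, mz δ (t + H j) ≤ (2 * δ) ^ (-V)} with hE
  have hmzc : ∀ j, Continuous fun t : ℝ => mz δ (t + H j) := fun j =>
    (TMA.cont g4).comp (by fun_prop)
  have hEm : MeasurableSet E := by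
    have : E = Set.Icc 0 T ∩ ⋂ j, {t : ℝ | mz δ (t + H j) ≤ (2 * δ) ^ (-V)} := by
      ext t
      simp [hE]
    rw [this]
    exact measurableSet_Icc.inter (MeasurableSet.iInter fun j =>
      measurableSet_le (hmzc j).measurable measurable_const)
  have hET : E ⊆ Set.Icc 0 T := fun t ht => ht.1
  set c0 : ℝ := (2 * δ) ^ (-V) with hc0
  have hc00 : 0 < c0 := Real.rpow_pos_of_pos h2δ _
  have hGc : ∀ k' : Fin m → ℝ, (∀ j, 0 ≤ k' j) → IntegrableOn (fun t => G k' H δ t) N :=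
    fun k' hk' => ((G_cont g4 hk').integrableOn_Icc).mono_set n2
  have hkp0 : ∀ i j, 0 ≤ kp k η i j := by
    intro i j
    unfold kp
    have := (hk j).le
    split_ifs <;> linarith
  have hkpR : ∀ i j, |kp k η i j| ≤ R := by
    intro i j
    rw [abs_of_nonneg (hkp0 i j)]
    have h1 : kp k η i j ≤ k j + η := by
      unfold kp
      split_ifs <;> linarith
    have h2 := hkK j
    rw [hR]
    linarith
  -- comparison
  have hcmp := TMA.cmp (g := fun t => G k H δ t) (G := fun t => ∑ i, G (kp k η i) H δ t) (N := N)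
    (E := E) (T := T) (a := (2 * δ) ^ (2 * (η * V))) (b := (2 * δ) ^ (-(2 * (V * K))))
    (v := δ ^ D * T) n1 hEm hET
    (fun t => G_nn k H δ t) (fun t => Finset.sum_nonneg fun i _ => G_nn _ H δ t)
    (Real.rpow_pos_of_pos h2δ _).le (Real.rpow_pos_of_pos h2δ _).le (by positivity)
    ((G_cont g4 fun j => (hk j).le).measurable) (hGc k fun j => (hk j).le)
    (integrable_finsetSum _ fun i _ => hGc _ (hkp0 i))
    (by
      intro t ht
      calc G k H δ t ≤ ∏ j, c0 ^ (2 * k j) := by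
            unfold G
            refine Finset.prod_le_prod (fun j _ => Real.rpow_nonneg (norm_nonneg _) _) fun j _ => ?_
            exact Real.rpow_le_rpow (norm_nonneg _) (ht.2 j) (by have := hk j; linarith)
        _ = (2 * δ) ^ (-(2 * (V * K))) := by
            rw [← Real.rpow_sum_of_pos hc00, hc0, ← Real.rpow_mul h2δ.le, ← Finset.mul_sum, ← hK]
            congr 1
            ring)
    (by
      intro t ht
      have h1 : ∃ i, c0 < mz δ (t + H i) := by
        by_contra hcon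
        push Not at hcon
        exact ht.2 ⟨n2 ht.1, hcon⟩
      obtain ⟨i, hi⟩ := h1
      have hi0 : 0 < mz δ (t + H i) := hc00.trans hi
      have h2 : G k H δ t ≤ (2 * δ) ^ (2 * (η * V)) * G (kp k η i) H δ t := by
        rw [G_kp hi0]
        have h3 : 1 ≤ (2 * δ) ^ (2 * (η * V)) * mz δ (t + H i) ^ (2 * η) := by
          have h4 : c0 ^ (2 * η) ≤ mz δ (t + H i) ^ (2 * η) :=
            Real.rpow_le_rpow hc00.le hi.le (by linarith)
          have h5 : (2 * δ) ^ (2 * (η * V)) * c0 ^ (2 * η) = 1 := by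
            rw [hc0, ← Real.rpow_mul h2δ.le, ← Real.rpow_add h2δ]
            have : 2 * (η * V) + -V * (2 * η) = 0 := by ring
            rw [this, Real.rpow_zero]
          rw [← h5]
          exact mul_le_mul_of_nonneg_left h4 (Real.rpow_pos_of_pos h2δ _).le
        have h6 := G_nn k H δ t
        nlinarith
      refine h2.trans (mul_le_mul_of_nonneg_left ?_ (Real.rpow_pos_of_pos h2δ _).le)
      exact Finset.single_le_sum (f := fun i => G (kp k η i) H δ t)
        (fun i _ => G_nn _ H δ t) (Finset.mem_univ i))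
    n3
  -- the upper bound for the larger moments
  have hbig : ∀ i, Real.exp (-(Lr k H δ)) * (∫ t in N, G (kp k η i) H δ t) ≤
      δ ^ (-(2 * (η * K) + η ^ 2)) * ((C + 1) * T) := by
    intro i
    obtain ⟨ai, hai1, hai3, _, haif⟩ := hform (kp k η i) (hkpR i)
    have h1 : Real.exp (-(Lr (kp k η i) H δ)) * (∫ t in N, G (kp k η i) H δ t) ≤ (C + 1) * T := by
      have := (abs_le.1 haif).2
      nlinarith
    have h2 : Lr (kp k η i) H δ - Lr k H δ ≤ (2 * (η * K) + η ^ 2) * L := by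
      have h3 := Lr_diff (k := k) (k' := kp k η i) (h := H) (fun j => (hk j).le)
        (fun j => by
          unfold kp
          split_ifs <;> linarith) hLre
      rw [kp_sum, ← hK] at h3
      refine h3.trans (le_of_eq ?_)
      ring
    have h4 : Real.exp (-(Lr k H δ)) =
        Real.exp (Lr (kp k η i) H δ - Lr k H δ) * Real.exp (-(Lr (kp k η i) H δ)) := by
      rw [← Real.exp_add]
      congr 1
      ring
    have h5 : Real.exp (Lr (kp k η i) H δ - Lr k H δ) ≤ δ ^ (-(2 * (η * K) + η ^ 2)) := by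
      rw [← hexpL]
      exact Real.exp_le_exp.2 h2
    have h6 : 0 ≤ Real.exp (-(Lr (kp k η i) H δ)) * (∫ t in N, G (kp k η i) H δ t) :=
      mul_nonneg (Real.exp_pos _).le (integral_nonneg fun t => G_nn _ H δ t)
    rw [h4, mul_assoc]
    exact mul_le_mul h5 h1 h6 (Real.rpow_pos_of_pos g5 _).le
  have hsumI : ∫ t in N, ∑ i, G (kp k η i) H δ t = ∑ i, ∫ t in N, G (kp k η i) H δ t :=
    integral_finsetSum _ fun i _ => hGc _ (hkp0 i)
  have p1 : Real.exp (-(Lr k H δ)) * ((2 * δ) ^ (2 * (η * V)) *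
      ∫ t in N, ∑ i, G (kp k η i) H δ t) ≤ c * ε / 4 * T := by
    have q1 : Real.exp (-(Lr k H δ)) * (∫ t in N, ∑ i, G (kp k η i) H δ t) ≤
        m * (δ ^ (-(2 * (η * K) + η ^ 2)) * ((C + 1) * T)) := by
      rw [hsumI, Finset.mul_sum]
      calc ∑ i, Real.exp (-(Lr k H δ)) * ∫ t in N, G (kp k η i) H δ t
          ≤ ∑ _i : Fin m, δ ^ (-(2 * (η * K) + η ^ 2)) * ((C + 1) * T) :=
            Finset.sum_le_sum fun i _ => hbig i
        _ = _ := by
            rw [Finset.sum_const, Finset.card_univ, Fintype.card_fin, nsmul_eq_mul]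
    have q2 : δ ^ (2 * (η * V)) * δ ^ (-(2 * (η * K) + η ^ 2)) = δ ^ (η ^ 2) := by
      rw [← Real.rpow_add g5]
      congr 1
      rw [hη]
      ring
    calc Real.exp (-(Lr k H δ)) * ((2 * δ) ^ (2 * (η * V)) * ∫ t in N, ∑ i, G (kp k η i) H δ t)
        = (2 * δ) ^ (2 * (η * V)) * (Real.exp (-(Lr k H δ)) *
          ∫ t in N, ∑ i, G (kp k η i) H δ t) := by ring
      _ ≤ (2 * δ) ^ (2 * (η * V)) * (m * (δ ^ (-(2 * (η * K) + η ^ 2)) * ((C + 1) * T))) :=
          mul_le_mul_of_nonneg_left q1 (Real.rpow_pos_of_pos h2δ _).le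
      _ = (2 ^ (2 * (η * V)) * (m * (C + 1)) * (δ ^ (2 * (η * V)) *
          δ ^ (-(2 * (η * K) + η ^ 2)))) * T := by
          rw [Real.mul_rpow (by norm_num) g5.le]
          ring
      _ = (2 ^ (2 * (η * V)) * (m * (C + 1)) * δ ^ (η ^ 2)) * T := by rw [q2]
      _ ≤ c * ε / 4 * T := mul_le_mul_of_nonneg_right g2 hT.le
  have p2 : Real.exp (-(Lr k H δ)) * ((2 * δ) ^ (-(2 * (V * K))) * (δ ^ D * T)) ≤
      c * ε / 4 * T := by
    have q1 : Real.exp (-(Lr k H δ)) ≤ δ ^ (-(K ^ 2)) := by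
      rw [← hexpL]
      apply Real.exp_le_exp.2
      have := (abs_le.1 (Lr_abs (k := k) (h := H) (fun j => (hk j).le) hLre)).1
      rw [← hK] at this
      linarith
    have q2 : (2 * δ) ^ (-(2 * (V * K))) ≤ δ ^ (-(2 * (V * K))) := by
      apply Real.rpow_le_rpow_of_nonpos g5 (by linarith)
      have : 0 ≤ V * K := by positivity
      linarith
    calc Real.exp (-(Lr k H δ)) * ((2 * δ) ^ (-(2 * (V * K))) * (δ ^ D * T))
        ≤ δ ^ (-(K ^ 2)) * (δ ^ (-(2 * (V * K))) * (δ ^ D * T)) := by gcongr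
      _ = δ ^ (1 : ℝ) * T := by
          rw [← mul_assoc, ← mul_assoc, ← Real.rpow_add g5, ← Real.rpow_add g5]
          congr 2
          rw [hD]
          ring
      _ ≤ c * ε / 4 * T := by
          rw [one_mul] at g3
          exact mul_le_mul_of_nonneg_right g3 hT.le
  have p3 : |Real.exp (-(Lr k H δ)) * (∫ t in E, G k H δ t) - T * a| ≤ 3 * (c * ε / 4) * T := by
    have q1 : |Real.exp (-(Lr k H δ)) * ((∫ t in E, G k H δ t) - ∫ t in N, G k H δ t)| ≤
        c * ε / 4 * T + c * ε / 4 * T := by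
      rw [abs_mul, abs_of_pos (Real.exp_pos _)]
      refine (mul_le_mul_of_nonneg_left hcmp (Real.exp_pos _).le).trans ?_
      rw [mul_add]
      exact add_le_add p1 p2
    have q2 : Real.exp (-(Lr k H δ)) * (∫ t in E, G k H δ t) - T * a =
        Real.exp (-(Lr k H δ)) * ((∫ t in E, G k H δ t) - ∫ t in N, G k H δ t) +
        (Real.exp (-(Lr k H δ)) * (∫ t in N, G k H δ t) - T * a) := by ring
    rw [q2]
    refine (abs_add_le _ _).trans ?_
    have q3 : ε0 * T ≤ c * ε / 4 * T := mul_le_mul_of_nonneg_right hε1 hT.le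
    linarith
  -- the main term
  have hmain : ∏ j, ∏ l, ‖riemannZeta (((1 + 2 * δ : ℝ) : ℂ) + ((H j - H l : ℝ) : ℂ) * I)‖ ^
      (k j * k l) = Real.exp (Lr k H δ) := by
    unfold Lr
    rw [Real.exp_sum]
    refine Finset.prod_congr rfl fun j _ => ?_
    rw [Real.exp_sum]
    refine Finset.prod_congr rfl fun l _ => ?_
    rw [← (hL δ g5 g4 (H j - H l)).2, Complex.norm_exp, ← Real.exp_mul]
    congr 1
    ring
  have hare : (aV (fun j => (k j : ℂ)) (fun j => (k j : ℂ)) H).re = a := by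
    have h1 : aV (fun j => (k j : ℂ)) (fun j => (k j : ℂ)) H = a := ha2
    rw [h1, Complex.ofReal_re]
  have hfin : ((1 / T) * ∫ t in E, ∏ j, mz δ (t + H j) ^ (2 * k j)) /
      ((aV (fun j => (k j : ℂ)) (fun j => (k j : ℂ)) H).re *
        ∏ j, ∏ l, ‖riemannZeta (((1 + 2 * δ : ℝ) : ℂ) + ((H j - H l : ℝ) : ℂ) * I)‖ ^
          (k j * k l)) - 1 =
      1 / (T * a) * (Real.exp (-(Lr k H δ)) * (∫ t in E, G k H δ t) - T * a) := by
    rw [hmain, hare]
    have h1 : (∫ t in E, ∏ j, mz δ (t + H j) ^ (2 * k j)) = ∫ t in E, G k H δ t := rfl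
    rw [h1, Real.exp_neg]
    have h2 := (Real.exp_pos (Lr k H δ)).ne'
    field_simp
  rw [Real.dist_eq, hfin, abs_mul, abs_of_pos (by positivity : 0 < 1 / (T * a))]
  calc 1 / (T * a) * |Real.exp (-(Lr k H δ)) * (∫ t in E, G k H δ t) - T * a|
      ≤ 1 / (T * a) * (3 * (c * ε / 4) * T) := mul_le_mul_of_nonneg_left p3 (by positivity)
    _ = c / a * (3 * ε / 4) := by field_simp
    _ ≤ 1 * (3 * ε / 4) := by
        refine mul_le_mul_of_nonneg_right ?_ (by positivity)
        rw [div_le_one ha0]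
        exact ha1
    _ < ε := by linarith

end Pool.Agent.N748.MJ.SM
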