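import Pool.Agent.N748.MJ.Stm
import Pool.Agent.N748.MG.Ev
import Pool.Agent.N748.MG.LD

set_option autoImplicit false

/-!
# The law of zeta in the complex plane at the large deviation scales (helper50, for project MJ of helper748)
-/

namespace Pool.Agent.N748.MJ.LD2

open Finset Filter MeasureTheory Topology Complex
open Pool.Agent.N748.MG Pool.Agent.N748.MJ

/-- the exponents -/
noncomputable def sb (b : ℂ) (k : ℤ) : Fin 1 → ℂ := sp (fun _ => b) (fun _ => k)

/-- the exponents -/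
noncomputable def sc (b : ℂ) (k : ℤ) : Fin 1 → ℂ := sm (fun _ => b) (fun _ => k)

/-- the properties of the sets -/
structure Gd (d : ℝ → ℝ) (D : ℝ) (n : ℕ) (T : ℝ) (N : Set ℝ) : Prop where
  T0 : 0 ≤ T
  meas : MeasurableSet N
  sub : N ⊆ Set.Icc 0 T
  vol : volume (Set.Icc 0 T \ N) ≤ ENNReal.ofReal (d T ^ D * T)
  nz : ∀ t ∈ N, riemannZeta (pw (d T) t) ≠ 0
  est : ∀ (b : ℂ) (k : ℤ), ‖b‖ ≤ n + 1 → |(k : ℝ)| ≤ n + 1 →
    ‖cexp (-(LM (sb b k) (sc b k) (fun _ => 0) (d T))) *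
    (∫ t in N, ZZ (riemannZeta (pw (d T) t)) b k) - T * aV (sb b k) (sc b k) (fun _ => 0)‖ ≤
      1 / ((n : ℝ) + 1) * T

theorem Gd.mono {d : ℝ → ℝ} {D : ℝ} (m n : ℕ) (T : ℝ) (N : Set ℝ) (hmn : m ≤ n)
    (h : Gd d D n T N) : Gd d D m T N := by
  have h1 : (m : ℝ) ≤ n := by exact_mod_cast hmn
  refine ⟨h.T0, h.meas, h.sub, h.vol, h.nz, fun b k hb hk => (h.est b k (by linarith)
    (by linarith)).trans ?_⟩
  refine mul_le_mul_of_nonneg_right ?_ h.T0
  exact one_div_le_one_div_of_le (by positivity) (by linarith)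

theorem exists_sets (hM : S_JM) {d : ℝ → ℝ} (hd : Ad d) {D : ℝ} (hD : 0 < D) :
    ∃ N : ℝ → Set ℝ, ∀ n, ∀ᶠ T : ℝ in atTop, Gd d D n T (N T) := by
  refine LD.diag (Gd d D) (fun n => ?_) Gd.mono
  have h1 := (hM 1 (n + 1) D (by positivity) hD (1 / ((n : ℝ) + 1)) (by positivity)).app hd
  filter_upwards [h1, eventually_ge_atTop 0] with T h2 hT
  obtain ⟨N, a1, a2, a3, a4, a5⟩ := h2 (fun _ => 0) (fun _ => by
    rw [abs_zero]
    exact Real.rpow_nonneg hT _)
  refine ⟨N, hT, a1, a2, a3, ?_, ?_⟩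
  · intro t ht
    have := a4 t ht 0
    rwa [add_zero] at this
  · intro b k hb hk
    have h3 := a5 (fun _ => b) (fun _ => k) (fun _ => hb) (fun _ => hk)
    simp only [add_zero, Finset.prod_const, Finset.card_univ, Fintype.card_fin, pow_one] at h3
    exact h3

/-- the variable -/
noncomputable def X (δ V t : ℝ) : ℂ := (((2 * δ) ^ V : ℝ) : ℂ) * riemannZeta (pw δ t)

/-- the measure -/
noncomputable def nu (δ V r T : ℝ) (N : Set ℝ) : Measure ℂ :=
  ((volume.restrict N).withDensity (fun t => ENNReal.ofReal (LD.rho δ V r T t))).map (X δ V)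

theorem X_meas {δ : ℝ} (h0 : 0 < δ) (h1 : δ ≤ 1 / 16) (V : ℝ) : Measurable (X δ V) :=
  (LD.zc h0 h1).measurable.const_mul _

theorem int_nu {E : Type*} [NormedAddCommGroup E] [NormedSpace ℝ E] {δ r T : ℝ}
    (h0 : 0 < δ) (h1 : δ ≤ 1 / 16) (hr : 0 < r) (hT : 0 < T) (V : ℝ) (N : Set ℝ) {f : ℂ → E}
    (hf : StronglyMeasurable f) :
    ∫ x, f x ∂(nu δ V r T N) = ∫ t in N, LD.rho δ V r T t • f (X δ V t) := by
  unfold nu
  rw [integral_map (X_meas h0 h1 V).aemeasurable hf.aestronglyMeasurable]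
  have h2 : (fun t => ENNReal.ofReal (LD.rho δ V r T t)) =
      fun t => (((LD.rho δ V r T t).toNNReal : NNReal) : ENNReal) := rfl
  rw [h2, integral_withDensity_eq_integral_smul (LD.rho_meas h0 h1 V r T).real_toNNReal]
  refine integral_congr_ae (Eventually.of_forall fun t => ?_)
  show (LD.rho δ V r T t).toNNReal • f (X δ V t) = LD.rho δ V r T t • f (X δ V t)
  rw [NNReal.smul_def, Real.coe_toNNReal _ (LD.rho_nn hr hT V t)]

theorem four_meas (ξ : ℝ) (k : ℤ) :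
    StronglyMeasurable (fun z : ℂ => ((‖z‖ : ℝ) : ℂ) ^ ((ξ : ℂ) * I) * (z / (‖z‖ : ℝ)) ^ k) := by
  have h1 : Measurable fun z : ℂ => ((‖z‖ : ℝ) : ℂ) := Complex.measurable_ofReal.comp measurable_norm
  exact ((h1.pow_const _).mul ((measurable_id.div h1).pow_const k)).stronglyMeasurable

theorem four {δ r T : ℝ} (h0 : 0 < δ) (h1 : δ ≤ 1 / 16) (hr : 0 < r) (hT : 0 < T) (V ξ : ℝ) (k : ℤ)
    {N : Set ℝ} (hN : MeasurableSet N) (hnz : ∀ t ∈ N, riemannZeta (pw δ t) ≠ 0) :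
    ∫ z, ((‖z‖ : ℝ) : ℂ) ^ ((ξ : ℂ) * I) * (z / (‖z‖ : ℝ)) ^ k ∂(nu δ V r T N) =
      (1 / (T * r) : ℂ) * cexp (-((Real.log (1 / (2 * δ)) : ℂ) * (V ^ 2 + ξ * V * I))) *
          ∫ t in N, ZZ (riemannZeta (pw δ t)) (V + ξ / 2 * I) k := by
  rw [int_nu h0 h1 hr hT V N (four_meas ξ k), ← integral_const_mul]
  refine setIntegral_congr_fun hN fun t ht => ?_
  have hz : 0 < ‖riemannZeta (pw δ t)‖ := norm_pos_iff.2 (hnz t ht)
  have hz' : ((‖riemannZeta (pw δ t)‖ : ℝ) : ℂ) ≠ 0 := by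
    rw [Ne, Complex.ofReal_eq_zero]
    exact hz.ne'
  have hr' : (r : ℂ) ≠ 0 := by exact_mod_cast hr.ne'
  have hT' : (T : ℂ) ≠ 0 := by exact_mod_cast hT.ne'
  have hc : 0 < (2 * δ) ^ V := Real.rpow_pos_of_pos (by positivity) _
  have hc' : (((2 * δ) ^ V : ℝ) : ℂ) ≠ 0 := by
    rw [Ne, Complex.ofReal_eq_zero]
    exact hc.ne'
  have hX : ‖X δ V t‖ = (2 * δ) ^ V * ‖riemannZeta (pw δ t)‖ := by
    unfold X
    rw [norm_mul, Complex.norm_real, Real.norm_of_nonneg hc.le]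
  have hX0 : 0 < ‖X δ V t‖ := by rw [hX]; positivity
  have hX' : ((‖X δ V t‖ : ℝ) : ℂ) ≠ 0 := by
    rw [Ne, Complex.ofReal_eq_zero]
    exact hX0.ne'
  have hu : X δ V t / (‖X δ V t‖ : ℝ) = riemannZeta (pw δ t) / (‖riemannZeta (pw δ t)‖ : ℝ) := by
    rw [hX]
    unfold X
    push_cast
    rw [mul_div_mul_left]
    exact_mod_cast hc'
  have hlX : Real.log ‖X δ V t‖ = Real.log ‖riemannZeta (pw δ t)‖ - V * Real.log (1 / (2 * δ)) := by
    rw [hX, Real.log_mul hc.ne' hz.ne', Real.log_rpow (by positivity), LD.log_eq]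
    ring
  show LD.rho δ V r T t • (((‖X δ V t‖ : ℝ) : ℂ) ^ ((ξ : ℂ) * I) * (X δ V t / (‖X δ V t‖ : ℝ)) ^ k) = _
  rw [hu, Complex.cpow_def_of_ne_zero hX', ← Complex.ofReal_log hX0.le, hlX, Complex.real_smul]
  unfold ZZ
  rw [Complex.cpow_def_of_ne_zero hz', ← Complex.ofReal_log hz.le]
  unfold LD.rho
  rw [Real.rpow_def_of_pos hz]
  set l := Real.log ‖riemannZeta (pw δ t)‖ with hl
  set Λ := Real.log (1 / (2 * δ)) with hΛ
  set u := (riemannZeta (pw δ t) / (‖riemannZeta (pw δ t)‖ : ℝ)) ^ k with hu'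
  push_cast
  have e1 : (1 / (T : ℂ) * cexp (-((Λ : ℂ) * (V : ℂ) ^ 2)) / r * cexp ((l : ℂ) * (2 * V))) *
      (cexp (((l : ℂ) - V * Λ) * (ξ * I)) * u) = (1 / (T * r) : ℂ) *
        (cexp (-((Λ : ℂ) * (V : ℂ) ^ 2)) * cexp ((l : ℂ) * (2 * V)) *
          cexp (((l : ℂ) - V * Λ) * (ξ * I))) * u := by
    field_simp
  have e2 : (1 / ((T : ℂ) * r)) * cexp (-((Λ : ℂ) * (V ^ 2 + ξ * V * I))) *
      (cexp ((l : ℂ) * (2 * (V + ξ / 2 * I))) * u) =
      (1 / (T * r) : ℂ) * (cexp (-((Λ : ℂ) * (V ^ 2 + ξ * V * I))) *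
        cexp ((l : ℂ) * (2 * (V + ξ / 2 * I)))) * u := by
    ring
  rw [e1, e2]
  congr 2
  rw [← Complex.exp_add, ← Complex.exp_add, ← Complex.exp_add]
  congr 1
  ring

theorem fin {d : ℝ → ℝ} {D V r T : ℝ} {n : ℕ} {N : Set ℝ} (h : Gd d D n T N)
    (hr : 0 < r) (hT : 0 < T) (hV : |V| ≤ n + 1)
    (hrV : aV (sb V 0) (sc V 0) (fun _ => 0) = r)
    (hn : 1 / ((n : ℝ) + 1) < r) : IsFiniteMeasure (nu (d T) V r T N) := by
  have hc : IntegrableOn (fun t : ℝ => ZZ (riemannZeta (pw (d T) t)) (V : ℂ) 0) N volume := by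
    by_contra hni
    have h2 := h.est V 0 (by rw [Complex.norm_real]; exact hV) (by
      rw [Int.cast_zero, abs_zero]
      positivity)
    rw [integral_undef hni, mul_zero, zero_sub, norm_neg, hrV, norm_mul, Complex.norm_real,
      Complex.norm_real, Real.norm_of_nonneg hT.le, Real.norm_of_nonneg hr.le] at h2
    nlinarith
  have hre : IntegrableOn (LD.rho (d T) V r T) N volume := by
    have h3 := hc.norm.const_mul (1 / T * Real.exp (-(Real.log (1 / (2 * d T)) * V ^ 2)) / r)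
    refine h3.congr ?_
    filter_upwards [ae_restrict_mem h.meas] with t ht
    have hz : 0 < ‖riemannZeta (pw (d T) t)‖ := norm_pos_iff.2 (h.nz t ht)
    unfold LD.rho ZZ
    rw [zpow_zero, mul_one, Complex.norm_cpow_eq_rpow_re_of_pos hz]
    congr 2
    simp
  have h4 : IsFiniteMeasure ((volume.restrict N).withDensity
      (fun t => ENNReal.ofReal (LD.rho (d T) V r T t))) :=
    isFiniteMeasure_withDensity_ofReal hre.2
  unfold nu
  infer_instance

theorem nu_zero {δ : ℝ} (h0 : 0 < δ) (h1 : δ ≤ 1 / 16) (V r T : ℝ) {N : Set ℝ}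
    (_hN : MeasurableSet N) (hnz : ∀ t ∈ N, riemannZeta (pw δ t) ≠ 0) :
    nu δ V r T N {0} = 0 := by
  unfold nu
  rw [Measure.map_apply (X_meas h0 h1 V) (measurableSet_singleton 0)]
  refine (withDensity_absolutelyContinuous _ _) ?_
  rw [Measure.restrict_apply ((X_meas h0 h1 V) (measurableSet_singleton 0))]
  have h2 : X δ V ⁻¹' {0} ∩ N = ∅ := by
    ext t
    simp only [Set.mem_inter_iff, Set.mem_preimage, Set.mem_singleton_iff, Set.mem_empty_iff_false,
      iff_false, not_and]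
    intro h3 h4
    unfold X at h3
    rcases mul_eq_zero.1 h3 with h5 | h5
    · have hc : 0 < (2 * δ) ^ V := Real.rpow_pos_of_pos (by positivity) _
      rw [Complex.ofReal_eq_zero] at h5
      linarith
    · exact hnz t h4 h5
  rw [h2, measure_empty]

/-- the integral of `|z| ^ (-2 V) h(z)` -/
theorem int_h {δ r T : ℝ} (h0 : 0 < δ) (h1 : δ ≤ 1 / 16) (hr : 0 < r) (hT : 0 < T) (V : ℝ)
    {N : Set ℝ} (hN : MeasurableSet N) (hnz : ∀ t ∈ N, riemannZeta (pw δ t) ≠ 0) {h : ℂ → ℝ}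
    (hm : Measurable h) :
    r * ∫ z, ‖z‖ ^ (-(2 * V)) * h z ∂(nu δ V r T N) =
      (2 * δ) ^ (-(V ^ 2)) * ((1 / T) * ∫ t in N, h (X δ V t)) := by
  rw [int_nu h0 h1 hr hT V N (f := fun z => ‖z‖ ^ (-(2 * V)) * h z) (by
    have h2 : Measurable (fun z : ℂ => ‖z‖ ^ (-(2 * V))) := measurable_norm.pow_const _
    exact (h2.mul hm).stronglyMeasurable), ← integral_const_mul, ← integral_const_mul,
    ← integral_const_mul]
  refine setIntegral_congr_fun hN fun t ht => ?_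
  have hz : 0 < ‖riemannZeta (pw δ t)‖ := norm_pos_iff.2 (hnz t ht)
  have hc : 0 < (2 * δ) ^ V := Real.rpow_pos_of_pos (by positivity) _
  have hX : ‖X δ V t‖ = (2 * δ) ^ V * ‖riemannZeta (pw δ t)‖ := by
    unfold X
    rw [norm_mul, Complex.norm_real, Real.norm_of_nonneg hc.le]
  have hX0 : 0 < ‖X δ V t‖ := by rw [hX]; positivity
  simp only [smul_eq_mul]
  have e : LD.rho δ V r T t * ‖X δ V t‖ ^ (-(2 * V)) = 1 / r * ((2 * δ) ^ (-(V ^ 2)) * (1 / T)) := by
    unfold LD.rho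
    rw [Real.rpow_def_of_pos hz, Real.rpow_def_of_pos hX0, hX, Real.log_mul hc.ne' hz.ne',
      Real.log_rpow (by positivity), Real.rpow_def_of_pos (by positivity : 0 < 2 * δ), LD.log_eq]
    set l := Real.log ‖riemannZeta (pw δ t)‖ with hl
    have e1 : 1 / T * Real.exp (-(-Real.log (2 * δ) * V ^ 2)) / r * Real.exp (l * (2 * V)) *
        Real.exp ((V * Real.log (2 * δ) + l) * -(2 * V)) = 1 / T / r *
        (Real.exp (-(-Real.log (2 * δ) * V ^ 2)) * Real.exp (l * (2 * V)) *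
        Real.exp ((V * Real.log (2 * δ) + l) * -(2 * V))) := by ring
    rw [e1, ← Real.exp_add, ← Real.exp_add]
    have e2 : -(-Real.log (2 * δ) * V ^ 2) + l * (2 * V) + (V * Real.log (2 * δ) + l) * -(2 * V) =
        Real.log (2 * δ) * -V ^ 2 := by ring
    rw [e2]
    field_simp
  calc r * (LD.rho δ V r T t * (‖X δ V t‖ ^ (-(2 * V)) * h (X δ V t)))
      = r * ((LD.rho δ V r T t * ‖X δ V t‖ ^ (-(2 * V))) * h (X δ V t)) := by ring
    _ = _ := by
        rw [e]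
        field_simp

/-- the logarithm of zeta at real points is real -/
theorem LZ_real (δ : ℝ) (h0 : 0 < δ) : ∃ l : ℝ, LZ (1 + 2 * δ) 0 = l := by
  refine ⟨∑' p : Nat.Primes, -Real.log (1 - ((p : ℕ) : ℝ) ^ (-(1 + 2 * δ))), ?_⟩
  unfold LZ
  rw [Complex.ofReal_tsum]
  refine tsum_congr fun p => ?_
  have hp : (1 : ℝ) < ((p : ℕ) : ℝ) := by exact_mod_cast p.2.one_lt
  have h2 : (((p : ℕ) : ℝ)) ^ (-(1 + 2 * δ)) ≤ 1 :=
    Real.rpow_le_one_of_one_le_of_nonpos hp.le (by linarith)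
  have h3 : ((p : ℕ) : ℂ) ^ (-(((1 + 2 * δ : ℝ) : ℂ) + ((0 : ℝ) : ℂ) * I)) =
      ((((p : ℕ) : ℝ) ^ (-(1 + 2 * δ)) : ℝ) : ℂ) := by
    rw [Complex.ofReal_cpow (by positivity)]
    push_cast
    congr 1
    ring
  rw [h3, Complex.ofReal_neg, Complex.ofReal_log (by linarith)]
  push_cast
  rfl

theorem LZ_lim (hZ : S_LZB) {d : ℝ → ℝ} (hd : Ad d) :
    ∃ l : ℝ → ℝ, (∀ T, 0 < d T → LZ (1 + 2 * d T) 0 = l T) ∧
      Tendsto (fun T => l T - Real.log (1 / (2 * d T))) atTop (𝓝 0) := by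
  classical
  refine ⟨fun T => if h : 0 < d T then (LZ_real (d T) h).choose else 0, ?_, ?_⟩
  · intro T hT
    simp only [hT, dif_pos]
    exact (LZ_real (d T) hT).choose_spec
  have h1 : Tendsto (fun T : ℝ => ((1 + 2 * d T : ℝ) : ℂ)) atTop (𝓝[≠] 1) := by
    rw [tendsto_nhdsWithin_iff]
    refine ⟨?_, ?_⟩
    · have h2 : Tendsto (fun T : ℝ => 1 + 2 * d T) atTop (𝓝 1) := by
        have := (hd.t0.const_mul 2).const_add 1
        rwa [mul_zero, add_zero] at this
      have h3 := (Complex.continuous_ofReal.tendsto 1).comp h2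
      rwa [Complex.ofReal_one] at h3
    · filter_upwards [hd.pos] with T hT
      intro h4
      have h5 : ((1 + 2 * d T : ℝ) : ℂ) = ((1 : ℝ) : ℂ) := by
        rw [Complex.ofReal_one]
        exact h4
      have h6 := Complex.ofReal_injective h5
      linarith
  have h2 := (riemannZeta_residue_one.comp h1).norm
  rw [norm_one] at h2
  have h3 := (Real.continuousAt_log (one_ne_zero)).tendsto.comp h2
  rw [Real.log_one] at h3
  refine h3.congr' ?_
  filter_upwards [hd.pos, hd.t0.eventually_le_const (show (0 : ℝ) < 1 / 16 by norm_num)] with T hT hT2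
  simp only [Function.comp_apply, hT, dif_pos]
  have h4 := (LZ_real (d T) hT).choose_spec
  set l := (LZ_real (d T) hT).choose with hl
  have h5 := (hZ (d T) hT hT2 0).2
  rw [h4] at h5
  have h6 : riemannZeta ((1 + 2 * d T : ℝ) : ℂ) = cexp l := by
    rw [h5]
    congr 1
    push_cast
    ring
  rw [h6, norm_mul, Complex.norm_exp, Complex.ofReal_re]
  have h7 : ‖((1 + 2 * d T : ℝ) : ℂ) - 1‖ = 2 * d T := by
    have : ((1 + 2 * d T : ℝ) : ℂ) - 1 = ((2 * d T : ℝ) : ℂ) := by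
      push_cast
      ring
    rw [this, Complex.norm_real, Real.norm_of_nonneg (by positivity)]
  rw [h7, Real.log_mul (by positivity) (Real.exp_pos _).ne', Real.log_exp, LD.log_eq]
  ring

theorem LM_eq (b : ℂ) (k : ℤ) (δ : ℝ) :
    LM (sb b k) (sc b k) (fun _ => 0) δ = (b ^ 2 - (k : ℂ) ^ 2 / 4) * LZ (1 + 2 * δ) 0 := by
  unfold LM sb sc sp sm
  simp only [Finset.univ_unique, Fin.default_eq_zero, Fin.isValue, Finset.sum_singleton, sub_zero]
  ring

theorem main (hJ : S_JM) (hL : S_LLT2) (hCo : S_CONV) (hA : S_AV0) (hP : S_POSV) (hZ : S_LZB) :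
    S_LD2 := by
  intro d hd V h hm hcont hb1 hb2
  -- the constant
  obtain ⟨c0, C0, hc0, hC0, hPh⟩ := hP 1 |V| (abs_nonneg _)
  obtain ⟨r, hr0, hrV0⟩ := (hPh (fun _ => 0)).2 (fun _ => V) (fun _ => le_rfl)
  have hr : 0 < r := lt_of_lt_of_le hc0 hr0
  have hsb : sb V 0 = fun _ => (V : ℂ) := by
    unfold sb sp
    simp
  have hsc : sc V 0 = fun _ => (V : ℂ) := by
    unfold sc sm
    simp
  have hrV : aV (sb V 0) (sc V 0) (fun _ => 0) = r := by
    rw [hsb, hsc]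
    exact hrV0
  have haC : aC V = r := by
    have h1 := hA 1 (fun _ => (V : ℂ)) (fun _ => (V : ℂ)) rfl
    rw [hrV0] at h1
    rw [h1]
    simp
  obtain ⟨C1, hC1⟩ := hb1
  obtain ⟨C2, hC2⟩ := hb2
  have hD : 0 < V ^ 2 + 2 := by positivity
  obtain ⟨N, hN⟩ := exists_sets hJ hd hD
  obtain ⟨l, hl1, hl2⟩ := LZ_lim hZ hd
  have hsm : ∀ᶠ T : ℝ in atTop, 0 < d T ∧ d T ≤ 1 / 16 ∧ 1 ≤ T := by
    filter_upwards [hd.pos, hd.t0.eventually_le_const (show (0 : ℝ) < 1 / 16 by norm_num),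
      eventually_ge_atTop 1] with T a b c
    exact ⟨a, b, c⟩
  have hC1' : 0 ≤ C1 := (abs_nonneg _).trans (hC1 0)
  -- the parameter tends to infinity
  have hΛ : Tendsto (fun T : ℝ => Real.log (1 / (2 * d T))) atTop atTop := by
    have h1 : Tendsto (fun T : ℝ => 2 * d T) atTop (𝓝[>] 0) := by
      rw [tendsto_nhdsWithin_iff]
      refine ⟨?_, ?_⟩
      · have := hd.t0.const_mul 2
        rwa [mul_zero] at this
      · filter_upwards [hd.pos] with T hT
        show 0 < 2 * d T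
        linarith
    have h2 := Real.tendsto_log_nhdsGT_zero.comp h1
    have h3 := tendsto_neg_atBot_atTop.comp h2
    refine h3.congr fun T => ?_
    simp only [Function.comp_apply]
    rw [LD.log_eq]
  -- the local limit lemma
  have key := hL (fun T => nu (d T) V r T (N T)) (fun T => Real.log (1 / (2 * d T)))
    (fun k ξ => aV (sb (V + ξ / 2 * I) k) (sc (V + ξ / 2 * I) k) (fun _ => 0) / r) ?_ hΛ ?_ ?_ ?_
    (fun z => ‖z‖ ^ (-(2 * V)) * h z) ?_ ?_ ?_
  rotate_left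
  · obtain ⟨n, hn⟩ := exists_nat_gt (max |V| (1 / r))
    filter_upwards [hN n, hsm] with T hT hT2
    have h1 : |V| ≤ (n : ℝ) + 1 := by linarith [le_max_left |V| (1 / r)]
    refine ⟨fin hT hr (by linarith [hT2.2.2]) h1 hrV ?_, nu_zero hT2.1 hT2.2.1 V r T hT.meas hT.nz⟩
    have h2 : 1 / r < (n : ℝ) + 1 := by linarith [le_max_right |V| (1 / r)]
    rw [div_lt_iff₀ hr] at h2
    rw [div_lt_iff₀ (by positivity)]
    linarith
  · intro k
    have h1 : Continuous (fun ξ : ℝ => ((sb (V + ξ / 2 * I) k, sc (V + ξ / 2 * I) k, fun _ => 0) :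
        (Fin 1 → ℂ) × (Fin 1 → ℂ) × (Fin 1 → ℝ))) := by
      unfold sb sc sp sm
      fun_prop
    exact ((hCo 1).comp h1).div_const _
  · simp only [Complex.ofReal_zero, zero_div, zero_mul, add_zero]
    rw [hrV]
    exact div_self (by exact_mod_cast hr.ne')
  · intro k R hR ε hε
    obtain ⟨c3, C3, hc3, hC3, hPh3⟩ := hP 1 (|V| + R + |(k : ℝ)|) (by positivity)
    obtain ⟨n, hn⟩ := exists_nat_gt (max (|V| + R + |(k : ℝ)|) (2 / (ε * r)))
    obtain ⟨Bb, hBb⟩ : ∃ Bb : ℝ, Bb = (|V| + R) ^ 2 + (k : ℝ) ^ 2 + 1 := ⟨_, rfl⟩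
    have hBb0 : 0 < Bb := by rw [hBb]; positivity
    obtain ⟨η, hη⟩ : ∃ η : ℝ, η = min (1 / Bb) (ε * r / (4 * Bb * (C3 + 1))) := ⟨_, rfl⟩
    have hη0 : 0 < η := by
      rw [hη]
      exact lt_min (by positivity) (by positivity)
    have hom : ∀ᶠ T : ℝ in atTop, |l T - Real.log (1 / (2 * d T))| ≤ η := by
      have h1 := hl2.norm
      rw [norm_zero] at h1
      filter_upwards [h1.eventually_le_const hη0] with T hT
      exact hT
    filter_upwards [hN n, hsm, hom] with T hT hT2 hom ξ hξ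
    obtain ⟨h0, h1, hT1⟩ := hT2
    have hT0 : 0 < T := by linarith
    rw [four h0 h1 hr hT0 V ξ k hT.meas hT.nz]
    have hmx := le_max_left (|V| + R + |(k : ℝ)|) (2 / (ε * r))
    have hk0 := abs_nonneg (k : ℝ)
    have hV0 := abs_nonneg V
    have h3 : ‖(V : ℂ) + ξ / 2 * I‖ ≤ |V| + |ξ| / 2 := by
      refine (norm_add_le _ _).trans ?_
      rw [Complex.norm_real, norm_mul, Complex.norm_I, mul_one, norm_div, Complex.norm_real,
        Real.norm_eq_abs, Real.norm_eq_abs]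
      norm_num
    have h2 : ‖(V : ℂ) + ξ / 2 * I‖ ≤ (n : ℝ) + 1 := by
      have := abs_nonneg ξ
      linarith
    have h4 := hT.est _ k h2 (by linarith)
    have h5 : 1 / ((n : ℝ) + 1) ≤ ε * r / 2 := by
      have h6 := le_max_right (|V| + R + |(k : ℝ)|) (2 / (ε * r))
      have h7 : 2 / (ε * r) < (n : ℝ) + 1 := by linarith
      rw [div_lt_iff₀ (by positivity)] at h7
      rw [div_le_iff₀ (by positivity)]
      linarith
    obtain ⟨b, hb⟩ : ∃ b : ℂ, b = (V : ℂ) + ξ / 2 * I := ⟨_, rfl⟩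
    rw [← hb] at h2 h3 h4
    obtain ⟨J, hJd⟩ : ∃ J : ℂ, J = ∫ t in N T, ZZ (riemannZeta (pw (d T) t)) b k := ⟨_, rfl⟩
    rw [← hb, ← hJd]
    rw [← hJd] at h4
    obtain ⟨a, ha⟩ : ∃ a : ℂ, a = aV (sb b k) (sc b k) (fun _ => 0) := ⟨_, rfl⟩
    rw [← ha] at h4 ⊢
    have haC3 : ‖a‖ ≤ C3 := by
      rw [ha]
      have h8 : ‖b‖ + |(k : ℝ)| / 2 ≤ |V| + R + |(k : ℝ)| := by
        have := abs_nonneg ξ
        linarith
      refine (hPh3 (fun _ => 0)).1 _ _ (fun j => ?_) (fun j => ?_)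
      · unfold sb sp
        refine (norm_add_le _ _).trans ?_
        rw [norm_div, Complex.norm_intCast]
        norm_num
        linarith
      · unfold sc sm
        refine (norm_sub_le _ _).trans ?_
        rw [norm_div, Complex.norm_intCast]
        norm_num
        linarith
    obtain ⟨W, hW⟩ : ∃ W : ℂ, W = cexp (-(LM (sb b k) (sc b k) (fun _ => 0) (d T))) * J := ⟨_, rfl⟩
    rw [← hW] at h4
    obtain ⟨Λ, hΛd⟩ : ∃ Λ : ℝ, Λ = Real.log (1 / (2 * d T)) := ⟨_, rfl⟩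
    rw [← hΛd] at hom ⊢
    obtain ⟨om, homd⟩ : ∃ om : ℝ, om = l T - Λ := ⟨_, rfl⟩
    rw [← homd] at hom
    obtain ⟨β, hβ⟩ : ∃ β : ℂ, β = b ^ 2 - (k : ℂ) ^ 2 / 4 := ⟨_, rfl⟩
    have hLM : LM (sb b k) (sc b k) (fun _ => 0) (d T) = β * (Λ + om) := by
      rw [LM_eq, hl1 T h0, ← hβ, homd]
      push_cast
      ring
    have hJW : J = cexp (β * (Λ + om)) * W := by
      rw [hW, hLM, ← mul_assoc, ← Complex.exp_add, add_neg_cancel, Complex.exp_zero, one_mul]
    obtain ⟨ex, hex⟩ : ∃ ex : ℝ, ex = Real.exp (-((ξ ^ 2 + (k:ℝ) ^ 2) * Λ / 4)) := ⟨_, rfl⟩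
    have hex0 : 0 < ex := by rw [hex]; exact Real.exp_pos _
    rw [← hex]
    have hr' : (r : ℂ) ≠ 0 := by exact_mod_cast hr.ne'
    have hT' : (T : ℂ) ≠ 0 := by exact_mod_cast hT0.ne'
    have hexp : cexp (-((Λ : ℂ) * (V ^ 2 + ξ * V * I))) * cexp (β * (Λ + om)) =
        (ex : ℂ) * cexp (β * om) := by
      rw [hex]
      push_cast
      rw [← Complex.exp_add, ← Complex.exp_add]
      congr 1
      rw [hβ, hb]
      linear_combination ((Λ : ℂ) * ξ ^ 2 / 4) * Complex.I_sq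
    have e : (1 / (T * r) : ℂ) * cexp (-((Λ : ℂ) * (V ^ 2 + ξ * V * I))) * J - a / r * (ex : ℂ) =
        (ex : ℂ) * ((cexp (β * om) - 1) * (W / (T * r)) + (W - T * a) / (T * r)) := by
      rw [hJW]
      calc _ = (1 / (T * r) : ℂ) * (cexp (-((Λ : ℂ) * (V ^ 2 + ξ * V * I))) * cexp (β * (Λ + om))) * W -
            a / r * (ex : ℂ) := by ring
        _ = _ := by
            rw [hexp]
            field_simp
            ring
    rw [e, norm_mul, Complex.norm_real, Real.norm_of_nonneg hex0.le, mul_comm ε]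
    refine mul_le_mul_of_nonneg_left ?_ hex0.le
    have e2 : ‖(T * r : ℂ)‖ = T * r := by
      rw [norm_mul, Complex.norm_real, Complex.norm_real,
        Real.norm_of_nonneg hT0.le, Real.norm_of_nonneg hr.le]
    have hβn : ‖β‖ ≤ Bb := by
      rw [hβ, hBb]
      refine (norm_sub_le _ _).trans ?_
      rw [norm_div, norm_pow, norm_pow, Complex.norm_intCast, sq_abs]
      have h8 : ‖b‖ ^ 2 ≤ (|V| + R) ^ 2 := by
        refine pow_le_pow_left₀ (norm_nonneg _) ?_ 2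
        have := abs_nonneg ξ
        linarith
      have h9 : ‖(4 : ℂ)‖ = 4 := by norm_num
      rw [h9]
      nlinarith [sq_nonneg (k : ℝ)]
    have hom0 := abs_nonneg om
    have hbo : ‖β * om‖ ≤ Bb * η := by
      rw [norm_mul, Complex.norm_real, Real.norm_eq_abs]
      exact mul_le_mul hβn hom hom0 hBb0.le
    have hbo1 : ‖β * om‖ ≤ 1 := by
      refine hbo.trans ?_
      have : η ≤ 1 / Bb := by rw [hη]; exact min_le_left _ _
      calc Bb * η ≤ Bb * (1 / Bb) := mul_le_mul_of_nonneg_left this hBb0.le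
        _ = 1 := by field_simp
    have hex1 : ‖cexp (β * om) - 1‖ ≤ 2 * (Bb * η) :=
      (Complex.norm_exp_sub_one_le hbo1).trans (by linarith)
    have hWn : ‖W / (T * r)‖ ≤ (C3 + 1) / r := by
      rw [norm_div, e2]
      have h8 : ‖W‖ ≤ T * C3 + 1 / ((n : ℝ) + 1) * T := by
        have h9 : W = (W - T * a) + T * a := by ring
        rw [h9]
        refine (norm_add_le _ _).trans ?_
        rw [norm_mul, Complex.norm_real, Real.norm_of_nonneg hT0.le]
        have := mul_le_mul_of_nonneg_left haC3 hT0.le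
        linarith
      have h10 : 1 / ((n : ℝ) + 1) ≤ 1 := by
        rw [div_le_one (by positivity)]
        have : (0 : ℝ) ≤ n := Nat.cast_nonneg n
        linarith
      rw [div_le_div_iff₀ (by positivity) hr]
      have h11 : 1 / ((n : ℝ) + 1) * T ≤ 1 * T := mul_le_mul_of_nonneg_right h10 hT0.le
      have h12 : ‖W‖ ≤ (C3 + 1) * T := by linarith
      calc ‖W‖ * r ≤ (C3 + 1) * T * r := mul_le_mul_of_nonneg_right h12 hr.le
        _ = (C3 + 1) * (T * r) := by ring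
    have hη2 : η ≤ ε * r / (4 * Bb * (C3 + 1)) := by rw [hη]; exact min_le_right _ _
    calc ‖(cexp (β * om) - 1) * (W / (T * r)) + (W - T * a) / (T * r)‖
        ≤ ‖cexp (β * om) - 1‖ * ‖W / (T * r)‖ + ‖W - T * a‖ / (T * r) := by
          refine (norm_add_le _ _).trans ?_
          rw [norm_mul, norm_div (W - T * a), e2]
      _ ≤ 2 * (Bb * η) * ((C3 + 1) / r) + (ε * r / 2 * T) / (T * r) := by
          have h13 : ‖W - T * a‖ ≤ ε * r / 2 * T :=
            h4.trans (mul_le_mul_of_nonneg_right h5 hT0.le)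
          gcongr
      _ ≤ 2 * (Bb * (ε * r / (4 * Bb * (C3 + 1)))) * ((C3 + 1) / r) + (ε * r / 2 * T) / (T * r) := by
          gcongr
      _ = ε := by
          field_simp
          ring
  · have h2 : Measurable (fun z : ℂ => ‖z‖ ^ (-(2 * V))) := measurable_norm.pow_const _
    exact h2.mul hm
  · obtain ⟨S, hS0, hS⟩ := hcont
    refine ⟨S, hS0, fun z hz hzS => ?_⟩
    have h2 : ContinuousAt (fun z : ℂ => ‖z‖ ^ (-(2 * V))) z :=
      (continuous_norm.continuousAt).rpow_const (Or.inl (norm_ne_zero_iff.2 hz))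
    exact h2.mul (hS z hz hzS)
  · refine ⟨C2, fun z hz => ?_⟩
    have hz0 : 0 < ‖z‖ := norm_pos_iff.2 hz
    rw [abs_mul, abs_of_nonneg (Real.rpow_nonneg hz0.le _), mul_assoc]
    calc ‖z‖ ^ (-(2 * V)) * (|h z| * (1 + Real.log ‖z‖ ^ 2)) ≤
          ‖z‖ ^ (-(2 * V)) * (C2 * ‖z‖ ^ (2 * V)) :=
          mul_le_mul_of_nonneg_left (hC2 z hz) (Real.rpow_nonneg hz0.le _)
      _ = C2 * (‖z‖ ^ (-(2 * V)) * ‖z‖ ^ (2 * V)) := by ring
      _ = C2 := by rw [← Real.rpow_add hz0, neg_add_cancel, Real.rpow_zero, mul_one]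
  -- the rest
  set E : ℝ → ℝ := fun T => Real.sqrt (Real.pi * Real.log (1 / (2 * d T))) *
    (2 * d T) ^ (-(V ^ 2)) * ((1 / T) * ∫ t in Set.Icc 0 T \ N T, h (X (d T) V t)) with hE
  have hE0 : Tendsto E atTop (𝓝 0) := by
    have hb : ∀ᶠ T : ℝ in atTop, ‖E T‖ ≤ C1 * (d T ^ 2 + 2 * d T) := by
      filter_upwards [hN 0, hsm] with T hT hT2
      obtain ⟨h0, h1, hT1⟩ := hT2
      have hT0 : 0 < T := by linarith
      have h2 : ‖∫ t in Set.Icc 0 T \ N T, h (X (d T) V t)‖ ≤ C1 * (d T ^ (V ^ 2 + 2) * T) := by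
        have hfin : volume (Set.Icc 0 T \ N T) < ⊤ := lt_of_le_of_lt hT.vol ENNReal.ofReal_lt_top
        refine (norm_setIntegral_le_of_norm_le_const (C := C1) hfin fun t _ => ?_).trans ?_
        · exact hC1 _
        · refine mul_le_mul_of_nonneg_left ?_ hC1'
          have h3 := ENNReal.toReal_mono ENNReal.ofReal_ne_top hT.vol
          rw [ENNReal.toReal_ofReal (by positivity)] at h3
          exact h3
      have h5 : 0 ≤ Real.log (1 / (2 * d T)) := by
        apply Real.log_nonneg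
        rw [le_div_iff₀ (by positivity)]
        linarith
      have h3 : Real.sqrt (Real.pi * Real.log (1 / (2 * d T))) ≤ 1 + 2 / d T := by
        have h4 : Real.log (1 / (2 * d T)) ≤ 1 / (2 * d T) := Real.log_le_self (by positivity)
        have h6 : Real.pi * Real.log (1 / (2 * d T)) ≤ 2 / d T := by
          calc Real.pi * Real.log (1 / (2 * d T)) ≤ 4 * (1 / (2 * d T)) :=
                mul_le_mul Real.pi_le_four h4 h5 (by norm_num)
            _ = 2 / d T := by field_simp; norm_num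
        have h7 : 0 ≤ 2 / d T := by positivity
        rw [Real.sqrt_le_left (by positivity)]
        nlinarith
      have h8 : (2 * d T) ^ (-(V ^ 2)) * d T ^ (V ^ 2 + 2) ≤ d T ^ 2 := by
        rw [Real.mul_rpow (by norm_num) h0.le, mul_assoc, ← Real.rpow_add h0]
        have h9 : (2 : ℝ) ^ (-(V ^ 2)) ≤ 1 :=
          Real.rpow_le_one_of_one_le_of_nonpos (by norm_num) (by nlinarith [sq_nonneg V])
        have h10 : d T ^ (-(V ^ 2) + (V ^ 2 + 2)) = d T ^ 2 := by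
          rw [show -(V ^ 2) + (V ^ 2 + 2) = ((2 : ℕ) : ℝ) by push_cast; ring, Real.rpow_natCast]
        rw [h10]
        calc (2 : ℝ) ^ (-(V ^ 2)) * d T ^ 2 ≤ 1 * d T ^ 2 :=
              mul_le_mul_of_nonneg_right h9 (by positivity)
          _ = d T ^ 2 := one_mul _
      rw [hE]
      simp only
      rw [norm_mul, norm_mul, norm_mul, Real.norm_of_nonneg (Real.sqrt_nonneg _),
        Real.norm_of_nonneg (by positivity : (0 : ℝ) ≤ (2 * d T) ^ (-(V ^ 2))),
        Real.norm_of_nonneg (by positivity : (0 : ℝ) ≤ 1 / T)]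
      calc Real.sqrt (Real.pi * Real.log (1 / (2 * d T))) * (2 * d T) ^ (-(V ^ 2)) *
            (1 / T * ‖∫ t in Set.Icc 0 T \ N T, h (X (d T) V t)‖)
          ≤ (1 + 2 / d T) * (2 * d T) ^ (-(V ^ 2)) * (1 / T * (C1 * (d T ^ (V ^ 2 + 2) * T))) := by
            gcongr
        _ = C1 * (1 + 2 / d T) * ((2 * d T) ^ (-(V ^ 2)) * d T ^ (V ^ 2 + 2)) := by
            field_simp
        _ ≤ C1 * (1 + 2 / d T) * d T ^ 2 := mul_le_mul_of_nonneg_left h8 (by positivity)
        _ = C1 * (d T ^ 2 + 2 * d T) := by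
            field_simp
    have h0 : Tendsto (fun T : ℝ => C1 * (d T ^ 2 + 2 * d T)) atTop (𝓝 0) := by
      have h1 := ((hd.t0.pow 2).add (hd.t0.const_mul 2)).const_mul C1
      simpa using h1
    exact squeeze_zero_norm' hb h0
  have hlim := (key.const_mul r).add hE0
  rw [add_zero] at hlim
  have hre : (aC V).re = r := by rw [haC, Complex.ofReal_re]
  have hint2 : ∫ z : ℂ, ‖z‖ ^ (-2 : ℝ) * (‖z‖ ^ (-(2 * V)) * h z) =
      ∫ z : ℂ, ‖z‖ ^ (-(2 * V) - 2) * h z := by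
    refine integral_congr_ae ?_
    have h0 : ∀ᵐ z : ℂ, z ≠ 0 := by
      rw [ae_iff]
      simp
    filter_upwards [h0] with z hz
    have hz0 : 0 < ‖z‖ := norm_pos_iff.2 hz
    rw [← mul_assoc, ← Real.rpow_add hz0]
    congr 2
    ring
  rw [hint2, ← mul_assoc] at hlim
  have e0 : r * (1 / (2 * Real.pi)) = (aC V).re / (2 * Real.pi) := by
    rw [hre]
    ring
  rw [e0] at hlim
  refine hlim.congr' ?_
  filter_upwards [hN 0, hsm] with T hT hT2
  obtain ⟨h0, h1, hT1⟩ := hT2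
  have hT0 : 0 < T := by linarith
  have hint : IntegrableOn (fun t => h (X (d T) V t)) (Set.Icc 0 T) volume := by
    refine Measure.integrableOn_of_bounded (M := C1) ?_ ?_ ?_
    · rw [Real.volume_Icc]
      exact ENNReal.ofReal_ne_top
    · exact (hm.comp (X_meas h0 h1 V)).aestronglyMeasurable
    · exact Eventually.of_forall fun t => hC1 _
  have hsplit : ∫ t in (0 : ℝ)..T, h (X (d T) V t) =
      (∫ t in N T, h (X (d T) V t)) + ∫ t in Set.Icc 0 T \ N T, h (X (d T) V t) := by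
    rw [intervalIntegral.integral_of_le hT0.le, ← integral_Icc_eq_integral_Ioc]
    have h2 := setIntegral_union (μ := volume) (f := fun t => h (X (d T) V t))
      (Set.disjoint_sdiff_right (s := N T) (t := Set.Icc 0 T))
      (measurableSet_Icc.diff hT.meas) (hint.mono_set hT.sub) (hint.mono_set Set.sdiff_subset)
    rw [Set.union_sdiff_cancel hT.sub] at h2
    exact h2
  have hX : (∫ t in (0 : ℝ)..T, h ((((2 * d T) ^ V : ℝ) : ℂ) * riemannZeta (pw (d T) t))) =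
      ∫ t in (0 : ℝ)..T, h (X (d T) V t) := rfl
  have h3 := int_h h0 h1 hr hT0 V hT.meas hT.nz hm
  rw [hX, hsplit, hE]
  simp only
  rw [mul_left_comm, h3]
  ring

end Pool.Agent.N748.MJ.LD2
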