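import Pool.Agent.N748.MJ.Stm
import Pool.Agent.N748.MG.CMP

/-!
# Project MJ (CMPV): pointwise comparison with phases (helper225)
-/

set_option autoImplicit false

namespace Pool.Agent.N748.MJ.CMPV

open Finset Filter MeasureTheory Topology Complex
open Pool.Agent.N748.MG Pool.Agent.N748.MJ
open Pool.Agent.N748.MG.CMP (Lam norm_Lam prod_eq)

/-- `Z exp Λ` is near 1 -/
theorem stepZ {T e d : ℝ} (hT : 1 ≤ T) (he : 0 < e) (Z A Λ : ℂ) (hΛ : ‖Λ‖ ≤ 2 * T)
    (hZ : ‖Z * A - 1‖ ≤ e) (hde : d * Real.exp (10 * T) ≤ e) (he10 : e * Real.exp (10 * T) ≤ 1)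
    (hA : ‖A - Complex.exp Λ‖ ≤ d) : ∃ l : ℂ, Z = Complex.exp (l - Λ) ∧ ‖l‖ ≤ 3 * e := by
  have hT0 : 0 < T := by linarith
  have hd0 : 0 ≤ d := (norm_nonneg _).trans hA
  have hexp10 : Real.exp (10 * T) = Real.exp (2 * T) * Real.exp (8 * T) := by
    rw [← Real.exp_add]; congr 1; ring
  have hx8 : 9 ≤ Real.exp (8 * T) := by
    have := Real.add_one_le_exp (8 * T); linarith
  have hx2 : 3 ≤ Real.exp (2 * T) := by
    have := Real.add_one_le_exp (2 * T); linarith
  have hx10 : 27 ≤ Real.exp (10 * T) := by rw [hexp10]; nlinarith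
  have he1 : e ≤ 1 / 27 := by
    by_contra h
    push Not at h
    nlinarith
  have hFlo : Real.exp (-(2 * T)) ≤ ‖Complex.exp Λ‖ := by
    rw [Complex.norm_exp]
    refine Real.exp_le_exp.mpr ?_
    have := (abs_le.mp ((Complex.abs_re_le_norm Λ).trans hΛ)).1
    linarith
  have hx2' : Real.exp (-(2 * T)) * Real.exp (2 * T) = 1 := by
    rw [← Real.exp_add]; simp
  have hAlo : Real.exp (-(2 * T)) / 2 ≤ ‖A‖ := by
    have h1 : ‖Complex.exp Λ‖ ≤ ‖A‖ + d := by
      have : Complex.exp Λ = A - (A - Complex.exp Λ) := by ring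
      rw [this]
      exact (norm_sub_le _ _).trans (by linarith)
    have h2 : d ≤ Real.exp (-(2 * T)) / 2 := by
      have h3 : d * Real.exp (2 * T) * 9 ≤ 1 := by
        have h4 : d * Real.exp (2 * T) * Real.exp (8 * T) ≤ 1 := by
          rw [mul_assoc, ← hexp10]; linarith
        have h5 : 0 ≤ d * Real.exp (2 * T) := by positivity
        nlinarith
      have h6 : 0 < Real.exp (-(2 * T)) := Real.exp_pos _
      have h7 : d = d * Real.exp (2 * T) * Real.exp (-(2 * T)) := by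
        rw [mul_assoc, mul_comm (Real.exp (2 * T)), hx2', mul_one]
      rw [h7]
      nlinarith
    linarith
  have hZup : ‖Z‖ ≤ 4 * Real.exp (2 * T) := by
    have h1 : ‖Z‖ * ‖A‖ ≤ 1 + e := by
      rw [← norm_mul]
      have : Z * A = 1 + (Z * A - 1) := by ring
      rw [this]
      exact (norm_add_le _ _).trans (by rw [norm_one]; linarith)
    have h2 : ‖Z‖ * (Real.exp (-(2 * T)) / 2) ≤ 2 :=
      (mul_le_mul_of_nonneg_left hAlo (norm_nonneg _)).trans (by linarith)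
    have h3 : ‖Z‖ = ‖Z‖ * (Real.exp (-(2 * T)) / 2) * (2 * Real.exp (2 * T)) := by
      have : ‖Z‖ * (Real.exp (-(2 * T)) / 2) * (2 * Real.exp (2 * T)) =
        ‖Z‖ * (Real.exp (-(2 * T)) * Real.exp (2 * T)) := by ring
      rw [this, hx2', mul_one]
    rw [h3]
    have h4 : 0 < Real.exp (2 * T) := Real.exp_pos _
    nlinarith
  have hη : ‖Z * Complex.exp Λ - 1‖ ≤ 2 * e := by
    have h1 : Z * Complex.exp Λ - 1 = (Z * A - 1) - Z * (A - Complex.exp Λ) := by ring
    rw [h1]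
    refine (norm_sub_le _ _).trans ?_
    rw [norm_mul]
    have h2 : ‖Z‖ * ‖A - Complex.exp Λ‖ ≤ 4 * Real.exp (2 * T) * d :=
      mul_le_mul hZup hA (norm_nonneg _) (by positivity)
    have h3 : 4 * Real.exp (2 * T) * d ≤ e := by
      refine le_trans ?_ hde
      rw [hexp10]
      have : 0 ≤ Real.exp (2 * T) * d := by positivity
      nlinarith
    linarith
  refine ⟨Complex.log (1 + (Z * Complex.exp Λ - 1)), ?_, ?_⟩
  · have hne : 1 + (Z * Complex.exp Λ - 1) ≠ 0 := by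
      intro h
      have h1 : Z * Complex.exp Λ - 1 = -1 := by linear_combination h
      rw [h1, norm_neg, norm_one] at hη
      linarith
    rw [Complex.exp_sub, Complex.exp_log hne, eq_div_iff (Complex.exp_ne_zero _)]
    ring
  · refine (Complex.norm_log_one_add_half_le_self (by linarith)).trans ?_
    linarith

/-- the powers with phases of an exponential -/
theorem ZZ_exp (z b : ℂ) (n : ℤ) : ZZ (Complex.exp z) b n =
    Complex.exp ((b + (n : ℂ) / 2) * z + (b - (n : ℂ) / 2) * (starRingEnd ℂ) z) := by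
  have h1 : ((‖Complex.exp z‖ : ℝ) : ℂ) = Complex.exp ((z.re : ℝ) : ℂ) := by
    rw [Complex.norm_exp, Complex.ofReal_exp]
  have h2 : ((‖Complex.exp z‖ : ℝ) : ℂ) ^ (2 * b) = Complex.exp ((z.re : ℂ) * (2 * b)) := by
    rw [Complex.norm_exp, Complex.cpow_def_of_ne_zero (by exact_mod_cast (Real.exp_pos _).ne'),
      ← Complex.ofReal_log (Real.exp_pos _).le, Real.log_exp]
  have h3 : z = (z.re : ℂ) + (z.im : ℂ) * I := (Complex.re_add_im z).symm
  have h4 : (starRingEnd ℂ) z = (z.re : ℂ) - (z.im : ℂ) * I := by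
    apply Complex.ext <;> simp
  unfold ZZ
  rw [h2, h1, ← Complex.exp_sub, ← Complex.exp_int_mul, ← Complex.exp_add]
  congr 1
  rw [h4]
  generalize z.re = x at *
  generalize z.im = y at *
  rw [h3]
  ring

/-- the sum of the errors -/
theorem fin_bd {N C₀ T e d : ℝ} (hN : 0 ≤ N) (hC₀ : 0 < C₀) (hT : 1 ≤ T) (he : 0 < e)
    (hd0 : 0 ≤ d) (hde : d ≤ e)
    (he2 : e * Real.exp ((C₀ + 24 * N + 10) * T) ≤ 1) (E₁ E₂ V A₁ A₂ : ℂ)
    (hE₁ : ‖E₁‖ ≤ Real.exp (3 * N * T)) (hE₂ : ‖E₂‖ ≤ Real.exp (3 * N * T))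
    (hV : ‖V‖ ≤ 9 * N * e) (hA₁ : ‖A₁ - E₁‖ ≤ d) (hA₂ : ‖A₂ - E₂‖ ≤ d) :
    ‖E₁ * E₂ * Complex.exp V - A₁ * A₂‖ ≤ e * Real.exp ((C₀ + 24 * N + 10) * T) := by
  have hT0 : 0 < T := by linarith
  have hNT : N ≤ N * T := le_mul_of_one_le_right hN hT
  have hCT : 0 < C₀ * T := mul_pos hC₀ hT0
  have hbig : 24 * N + 10 ≤ Real.exp ((C₀ + 24 * N + 10) * T) := by
    have h4 := Real.add_one_le_exp ((C₀ + 24 * N + 10) * T)
    nlinarith
  have he1 : e ≤ 1 := by nlinarith
  have hNe : 9 * N * e ≤ 1 := by nlinarith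
  have hlast : ‖Complex.exp V - 1‖ ≤ 18 * N * e := by
    have := Complex.norm_exp_sub_one_le (hV.trans hNe)
    linarith
  set M := Real.exp (3 * N * T) with hM
  have hM1 : 1 ≤ M := Real.one_le_exp (by positivity)
  have hfin : ‖E₁ * E₂ * Complex.exp V - A₁ * A₂‖ ≤ e * ((18 * N + 3) * (M * M)) := by
    have h1 : E₁ * E₂ * Complex.exp V - A₁ * A₂ =
        E₁ * E₂ * (Complex.exp V - 1) -
        ((A₁ - E₁) * (A₂ - E₂) + (A₁ - E₁) * E₂ + E₁ * (A₂ - E₂)) := by
      ring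
    rw [h1]
    refine (norm_sub_le _ _).trans ?_
    have h2 : ‖E₁ * E₂ * (Complex.exp V - 1)‖ ≤ M * M * (18 * N * e) := by
      rw [norm_mul, norm_mul]
      exact mul_le_mul (mul_le_mul hE₁ hE₂ (norm_nonneg _) (by linarith)) hlast (norm_nonneg _)
        (by positivity)
    have h3 : ‖(A₁ - E₁) * (A₂ - E₂) + (A₁ - E₁) * E₂ + E₁ * (A₂ - E₂)‖ ≤
        d * d + d * M + M * d := by
      refine (norm_add_le _ _).trans (add_le_add ((norm_add_le _ _).trans (add_le_add ?_ ?_)) ?_)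
      · rw [norm_mul]; exact mul_le_mul hA₁ hA₂ (norm_nonneg _) hd0
      · rw [norm_mul]; exact mul_le_mul hA₁ hE₂ (norm_nonneg _) hd0
      · rw [norm_mul]; exact mul_le_mul hE₁ hA₂ (norm_nonneg _) (by linarith)
    have h4 : d * d + d * M + M * d ≤ 3 * e * (M * M) := by
      have h5 : d * d ≤ e * (M * M) := by
        have : d ≤ 1 := by linarith
        have : 1 ≤ M * M := by nlinarith
        nlinarith
      have h6 : d * M ≤ e * (M * M) := by
        have : M ≤ M * M := by nlinarith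
        exact mul_le_mul hde this (by linarith) he.le
      linarith
    linarith
  refine hfin.trans (mul_le_mul_of_nonneg_left ?_ he.le)
  have h1 : 18 * N + 3 ≤ Real.exp (18 * N + 2) := by
    have := Real.add_one_le_exp (18 * N + 2); linarith
  have h2 : M * M = Real.exp (6 * N * T) := by
    rw [hM, ← Real.exp_add]; congr 1; ring
  rw [h2]
  calc (18 * N + 3) * Real.exp (6 * N * T) ≤ Real.exp (18 * N + 2) * Real.exp (6 * N * T) :=
        mul_le_mul_of_nonneg_right h1 (Real.exp_pos _).le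
    _ = Real.exp (18 * N + 2 + 6 * N * T) := (Real.exp_add _ _).symm
    _ ≤ Real.exp ((C₀ + 24 * N + 10) * T) := by
        refine Real.exp_le_exp.mpr ?_
        nlinarith

theorem norm_sp {m : ℕ} {R : ℝ} {b : Fin m → ℂ} {n : Fin m → ℤ} (hb : ∀ j, ‖b j‖ ≤ R)
    (hn : ∀ j, |((n j : ℤ) : ℝ)| ≤ R) (j : Fin m) :
    ‖sp b n j‖ ≤ 3 / 2 * R ∧ ‖sm b n j‖ ≤ 3 / 2 * R := by
  have h1 : ‖(n j : ℂ) / 2‖ ≤ R / 2 := by
    rw [norm_div, Complex.norm_intCast, Complex.norm_ofNat]
    linarith [hn j]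
  have h2 := hb j
  constructor
  · exact (norm_add_le _ _).trans (by linarith)
  · exact (norm_sub_le _ _).trans (by linarith)

theorem norm_sum_exp {m : ℕ} {R T : ℝ} (hR : 0 ≤ R) (s L : Fin m → ℂ)
    (hs : ∀ j, ‖s j‖ ≤ 3 / 2 * R) (hL : ∀ j, ‖L j‖ ≤ 2 * T) :
    ‖Complex.exp (-∑ j, s j * L j)‖ ≤ Real.exp (3 * (m * R) * T) := by
  rw [Complex.norm_exp]
  refine Real.exp_le_exp.mpr ((Complex.re_le_norm _).trans ?_)
  rw [norm_neg]
  have h1 : ‖∑ j, s j * L j‖ ≤ ∑ _j : Fin m, 3 / 2 * R * (2 * T) := by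
    refine norm_sum_le_of_le _ fun j _ => ?_
    rw [norm_mul]
    exact mul_le_mul (hs j) (hL j) (norm_nonneg _) (by positivity)
  rw [Finset.sum_const, Finset.card_univ, Fintype.card_fin, nsmul_eq_mul] at h1
  linarith

theorem prod_AV {m : ℕ} (y : ℝ) (w : ℂ) (h : Fin m → ℝ) (hw : 1 / 2 ≤ w.re) (s : Fin m → ℂ) :
    ∏ p ∈ PA y, ∏ j, (1 - (p:ℂ) ^ (-(w + h j * I))) ^ (-(s j)) =
      Complex.exp (-∑ j, s j * Lam y (w + h j * I)) := by
  rw [Finset.prod_comm, ← Finset.sum_neg_distrib, Complex.exp_sum]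
  refine Finset.prod_congr rfl fun j _ => ?_
  have hw' : 1 / 2 ≤ (w + h j * I).re := by simpa using hw
  rw [prod_eq hw', neg_mul]

theorem main (hE : S_EULV) (hE1 : S_EUL) : S_CMPV := by
  intro m R hR
  obtain ⟨C₁, hC₁, h₁⟩ := hE1 1 zero_le_one
  obtain ⟨C₂, hC₂, h₂⟩ := hE m (3 / 2 * R) (by positivity)
  set N : ℝ := m * R with hN
  have hN0 : 0 ≤ N := by positivity
  refine ⟨(C₁ + C₂) + 24 * N + 10, by positivity, ?_⟩
  intro y K w h a v e hy hw ha0 ha hv he hZ hκ he2 b n hb hn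
  have hv0 : 0 ≤ v := le_trans (Finset.sum_nonneg fun p _ => by positivity) hv
  set T : ℝ := a + v + 1 with hTdef
  have hT : 1 ≤ T := by linarith
  have hT0 : 0 < T := by linarith
  set C₀ : ℝ := C₁ + C₂ with hC₀
  have hC₀p : 0 < C₀ := by positivity
  set κ : ℝ := (4 / 5) ^ K with hκd
  have hκ0 : 0 ≤ κ := by positivity
  have hw' : ∀ j, 1 / 2 ≤ (w + h j * I).re := fun j => by simpa using hw
  set L : Fin m → ℂ := fun j => Lam y (w + h j * I) with hL
  have hΛ : ∀ j, ‖L j‖ ≤ 2 * T := fun j => (norm_Lam (hw' j) (ha j) hv).trans (by linarith)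
  set d : ℝ := κ * Real.exp (C₀ * T) with hd
  have hd0 : 0 ≤ d := by positivity
  have hd1 : κ * Real.exp (C₁ * T) ≤ d :=
    mul_le_mul_of_nonneg_left (Real.exp_le_exp.mpr (by nlinarith)) hκ0
  have hd2 : κ * Real.exp (C₂ * T) ≤ d :=
    mul_le_mul_of_nonneg_left (Real.exp_le_exp.mpr (by nlinarith)) hκ0
  have hde : d * Real.exp (10 * T) ≤ e := by
    refine le_trans ?_ hκ
    have h1 : Real.exp ((C₀ + 24 * N + 10) * T) =
        Real.exp (C₀ * T) * Real.exp (10 * T) * Real.exp (24 * N * T) := by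
      rw [← Real.exp_add, ← Real.exp_add]; congr 1; ring
    rw [h1, ← mul_assoc, ← mul_assoc]
    have h2 : 1 ≤ Real.exp (24 * N * T) := Real.one_le_exp (by positivity)
    have h3 : 0 ≤ d * Real.exp (10 * T) := by positivity
    nlinarith
  have he10 : e * Real.exp (10 * T) ≤ 1 := by
    refine le_trans ?_ he2
    refine mul_le_mul_of_nonneg_left (Real.exp_le_exp.mpr ?_) he.le
    nlinarith [mul_nonneg hN0 hT0.le, mul_pos hC₀p hT0]
  have hde1 : d ≤ e := by
    refine le_trans ?_ hde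
    have : 1 ≤ Real.exp (10 * T) := Real.one_le_exp (by positivity)
    nlinarith
  have hl : ∀ j, ∃ l : ℂ, riemannZeta (w + h j * I) = Complex.exp (l - L j) ∧ ‖l‖ ≤ 3 * e := by
    intro j
    refine stepZ hT he _ (AS (-1) y K (w + h j * I)) (L j) (hΛ j) (hZ j) hde he10 ?_
    have := h₁ y K (w + h j * I) (-1) a v hy (hw' j) (by rw [norm_neg, norm_one]) (ha j) hv
    rw [prod_eq (hw' j), neg_neg, one_mul] at this
    exact this.trans hd1
  choose l hl1 hl2 using hl
  -- the product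
  have hprod : ∏ j, ZZ (riemannZeta (w + h j * I)) (b j) (n j) =
      Complex.exp (-∑ j, sp b n j * L j) *
        Complex.exp (-∑ j, sm b n j * (starRingEnd ℂ) (L j)) *
        Complex.exp (∑ j, (sp b n j * l j + sm b n j * (starRingEnd ℂ) (l j))) := by
    rw [← Complex.exp_add, ← Complex.exp_add, ← Finset.sum_neg_distrib,
      ← Finset.sum_neg_distrib, ← Finset.sum_add_distrib, ← Finset.sum_add_distrib,
      Complex.exp_sum]
    refine Finset.prod_congr rfl fun j _ => ?_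
    rw [hl1 j, ZZ_exp]
    congr 1
    rw [map_sub]
    show (b j + (n j : ℂ) / 2) * (l j - L j) +
      (b j - (n j : ℂ) / 2) * ((starRingEnd ℂ) (l j) - (starRingEnd ℂ) (L j)) =
      -((b j + (n j : ℂ) / 2) * L j) + -((b j - (n j : ℂ) / 2) * (starRingEnd ℂ) (L j)) +
      ((b j + (n j : ℂ) / 2) * l j + (b j - (n j : ℂ) / 2) * (starRingEnd ℂ) (l j))
    ring
  rw [hprod]
  refine fin_bd hN0 hC₀p hT he hd0 hde1 he2 _ _ _ _ _ ?_ ?_ ?_ ?_ ?_
  · exact norm_sum_exp hR _ _ (fun j => (norm_sp hb hn j).1) hΛ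
  · exact norm_sum_exp hR _ _ (fun j => (norm_sp hb hn j).2)
      (fun j => by rw [Complex.norm_conj]; exact hΛ j)
  · have h3 : ‖∑ j, (sp b n j * l j + sm b n j * (starRingEnd ℂ) (l j))‖ ≤
        ∑ _j : Fin m, (3 / 2 * R * (3 * e) + 3 / 2 * R * (3 * e)) := by
      refine norm_sum_le_of_le _ fun j _ => ?_
      refine (norm_add_le _ _).trans (add_le_add ?_ ?_)
      · rw [norm_mul]
        exact mul_le_mul (norm_sp hb hn j).1 (hl2 j) (norm_nonneg _) (by positivity)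
      · rw [norm_mul, Complex.norm_conj]
        exact mul_le_mul (norm_sp hb hn j).2 (hl2 j) (norm_nonneg _) (by positivity)
    rw [Finset.sum_const, Finset.card_univ, Fintype.card_fin, nsmul_eq_mul] at h3
    rw [hN]
    linarith
  · have := h₂ y K w (sp b n) h a v hy hw ha0 (fun j => (norm_sp hb hn j).1) ha hv
    rw [prod_AV y w h hw] at this
    exact this.trans hd2
  · have h4 : Complex.exp (-∑ j, sm b n j * (starRingEnd ℂ) (L j)) =
        (starRingEnd ℂ) (Complex.exp (-∑ j, cj (sm b n) j * L j)) := by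
      rw [← Complex.exp_conj, map_neg, map_sum]
      congr 2
      refine Finset.sum_congr rfl fun j _ => ?_
      rw [map_mul, cj, Complex.conj_conj]
    rw [h4, ← map_sub, Complex.norm_conj]
    have := h₂ y K w (cj (sm b n)) h a v hy hw ha0
      (fun j => by rw [cj, Complex.norm_conj]; exact (norm_sp hb hn j).2) ha hv
    rw [prod_AV y w h hw] at this
    exact this.trans hd2

end Pool.Agent.N748.MJ.CMPV
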