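import Pool.Agent.N748.MJ.Stm
import Pool.Agent.N748.MG.DIA1

set_option autoImplicit false

/-! Project MJ: sizes of the coefficients and tails of the diagonal sums, from the one-point case. -/

namespace Pool.Agent.N748.MJ.DIA1V

open Finset Filter Topology Complex
open Pool.Agent.N748.MG Pool.Agent.N748.MJ

theorem sizv (hB : S_BND) (hS : S_SIZ) : S_SIZV := by
  intro m R hR
  obtain ⟨k0, hk0⟩ := hB m R hR
  obtain ⟨C, hC, h⟩ := hS (k0 : ℝ) (Nat.cast_nonneg k0)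
  refine ⟨C, hC, fun y hy K s h' hs => ?_⟩
  refine le_trans (sum_le_sum fun n _ => (hk0 s h' hs).2 n) ?_
  exact (h y hy K).2 (k0 : ℂ) (by rw [Complex.norm_natCast])

/-- the coefficients of a natural power are nonnegative reals -/
lemma lC_nat (k m : ℕ) : ∃ r : ℝ, 0 ≤ r ∧ lC (k : ℂ) m = (r : ℂ) := by
  refine ⟨∏ i ∈ range m, ((k : ℝ) + i) / ((i : ℝ) + 1), prod_nonneg fun i _ => by positivity, ?_⟩
  unfold lC
  push_cast
  rfl

lemma dS_nat (k n : ℕ) : dS (k : ℂ) n = ((‖dS (k : ℂ) n‖ : ℝ) : ℂ) := by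
  have h : ∃ r : ℝ, 0 ≤ r ∧ dS (k : ℂ) n = (r : ℂ) := by
    choose r hr0 hr using lC_nat k
    refine ⟨∏ p ∈ n.primeFactors, r (n.factorization p), prod_nonneg fun p _ => hr0 _, ?_⟩
    unfold dS
    push_cast
    exact prod_congr rfl fun p _ => hr _
  obtain ⟨r, hr0, hr⟩ := h
  rw [hr, Complex.norm_real, Real.norm_of_nonneg hr0]

lemma split {E : Type} [NormedAddCommGroup E] (f : ℕ → E) (hf : Summable f) (S : Finset ℕ) :
    HasSum (fun n => if n ∈ S then 0 else f n) ((∑' n, f n) - ∑ n ∈ S, f n) := by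
  have h1 : HasSum (fun n => if n ∈ S then f n else 0) (∑ n ∈ S, f n) := by
    have h0 : HasSum (fun n => if n ∈ S then f n else 0)
        (∑ n ∈ S, (if n ∈ S then f n else 0)) :=
      hasSum_sum_of_ne_finset_zero (fun n hn => by simp [hn])
    have h00 : ∑ n ∈ S, (if n ∈ S then f n else 0) = ∑ n ∈ S, f n :=
      sum_congr rfl fun n hn => by simp [hn]
    rwa [h00] at h0
  have h2 := hf.hasSum.sub h1
  have h3 : (fun n => f n - if n ∈ S then f n else 0) =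
      fun n => if n ∈ S then 0 else f n := by
    funext n
    split_ifs <;> simp
  rwa [h3] at h2

theorem main (hB : S_BND) (h1 : S_DIA1) : S_DIA1V := by
  intro m R D hR hD
  obtain ⟨k0, hk0⟩ := hB m R hR
  obtain ⟨C, δ0, hC, hδ0, h⟩ := h1 (k0 : ℝ) D (Nat.cast_nonneg k0) hD
  refine ⟨C, min δ0 (1 / 2), hC, lt_min hδ0 (by norm_num), ?_⟩
  intro δ hδ hδle y K hy hyl hK s r h' hs hr
  have hδ1 : δ ≤ 1 / 2 := hδle.trans (min_le_right _ _)
  have hcr : ∀ j, ‖cj r j‖ ≤ R := by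
    intro j
    unfold cj
    rw [RCLike.norm_conj]
    exact hr j
  -- the majorant
  set rr : ℕ → ℝ := fun n => ‖dS (k0 : ℂ) n‖ ^ 2 * (n : ℝ) ^ (-(1 + 2 * δ)) with hrr
  have hrr0 : ∀ n, 0 ≤ rr n := fun n => by rw [hrr]; positivity
  have hk : ‖(k0 : ℂ)‖ ≤ k0 := by rw [Complex.norm_natCast]
  have hg := (DIA1.gg_series hk (η := 2 * δ) (by linarith) (by linarith)).1
  have hrrS : Summable rr := by
    refine Summable.of_nonneg_of_le hrr0 (fun n => ?_) hg
    have := DIA1.ff_le_gg (k0 : ℂ) δ n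
    rwa [DIA1.ff_norm] at this
  have hff : ∀ n, dS (k0 : ℂ) n ^ 2 * (((n:ℝ) ^ (-(1 + 2 * δ)) : ℝ) : ℂ) = ((rr n : ℝ) : ℂ) := by
    intro n
    rw [hrr, dS_nat k0 n]
    push_cast
    rfl
  have hT := h δ hδ (hδle.trans (min_le_left _ _)) y K hy hyl hK (k0 : ℂ) hk
  simp only [hff] at hT
  rw [← Complex.ofReal_sum, ← Complex.ofReal_tsum, ← Complex.ofReal_sub, Complex.norm_real,
    Real.norm_eq_abs, abs_sub_comm] at hT
  -- the terms
  set u : ℕ → ℂ := fun n =>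
    dV s h' n * (starRingEnd ℂ) (dV (cj r) h' n) * (((n:ℝ) ^ (-(1 + 2 * δ)) : ℝ) : ℂ) with hu
  have hur : ∀ n, ‖u n‖ ≤ rr n := by
    intro n
    rw [hu, hrr]
    simp only
    rw [norm_mul, norm_mul, RCLike.norm_conj, Complex.norm_real,
      Real.norm_of_nonneg (by positivity : (0:ℝ) ≤ (n:ℝ) ^ (-(1 + 2 * δ))), pow_two]
    have h2 := (hk0 s h' hs).2 n
    have h3 := (hk0 (cj r) h' hcr).2 n
    gcongr
  have huS : Summable u := Summable.of_norm_bounded hrrS hur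
  change ‖(∑ n ∈ FS y K, u n) - ∑' n, u n‖ ≤ δ ^ D
  rw [norm_sub_rev, ← (split u huS (FS y K)).tsum_eq]
  refine (tsum_of_norm_bounded (split rr hrrS (FS y K)) ?_).trans ((le_abs_self _).trans hT)
  intro n
  split_ifs with hn
  · rw [norm_zero]
  · exact hur n

end Pool.Agent.N748.MJ.DIA1V
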