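import Pool.Agent.N748.MJ.Stm
import Pool.Agent.N748.MG.DIA2

set_option autoImplicit false

/-!
# The diagonal sums, asymptotics, for several shifts (helper707)
-/

namespace Pool.Agent.N748.MJ.DIA2V

open Finset Filter MeasureTheory Topology Complex
open Pool.Agent.N748.MG Pool.Agent.N748.MG.L4 Pool.Agent.N748.MG.DIA2

variable {m : ℕ}

theorem lV_zero (s : Fin m → ℂ) (h : Fin m → ℝ) (q : ℕ) : lV s h q 0 = 1 := by
  unfold lV
  rw [Finset.piAntidiag_zero, Finset.sum_singleton]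
  refine Finset.prod_eq_one fun j _ => ?_
  simp [MG.DIA2.lC_zero]

theorem dV_one (s : Fin m → ℂ) (h : Fin m → ℝ) : dV s h 1 = 1 := by simp [dV]

theorem dV_mul (s : Fin m → ℂ) (h : Fin m → ℝ) {a b : ℕ} (hab : Nat.Coprime a b) :
    dV s h (a * b) = dV s h a * dV s h b := by
  unfold dV
  rw [Nat.Coprime.primeFactors_mul hab, Finset.prod_union hab.disjoint_primeFactors]
  congr 1
  · refine Finset.prod_congr rfl fun p hp => ?_
    rw [Nat.factorization_eq_of_coprime_left hab (Nat.mem_primeFactors_iff_mem_primeFactorsList.1 hp)]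
  · refine Finset.prod_congr rfl fun p hp => ?_
    rw [Nat.factorization_eq_of_coprime_right hab (Nat.mem_primeFactors_iff_mem_primeFactorsList.1 hp)]

theorem dV_prime_pow (s : Fin m → ℂ) (h : Fin m → ℝ) {p : ℕ} (hp : p.Prime) (k : ℕ) :
    dV s h (p ^ k) = lV s h p k := by
  unfold dV
  rcases Nat.eq_zero_or_pos k with rfl | hk
  · simp [lV_zero]
  · rw [Nat.primeFactors_prime_pow hk.ne' hp, Finset.prod_singleton, hp.factorization_pow]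
    simp

/-- the terms of the diagonal sum -/
noncomputable def fV (s r : Fin m → ℂ) (h : Fin m → ℝ) (δ : ℝ) (n : ℕ) : ℂ :=
  dV s h n * (starRingEnd ℂ) (dV (cj r) h n) * (((n:ℝ) ^ (-(1 + 2 * δ)) : ℝ) : ℂ)

theorem fV_zero (s r : Fin m → ℂ) (h : Fin m → ℝ) {δ : ℝ} (hδ : 0 < δ) : fV s r h δ 0 = 0 := by
  unfold fV
  rw [Nat.cast_zero, Real.zero_rpow (by linarith)]
  simp

theorem fV_one (s r : Fin m → ℂ) (h : Fin m → ℝ) (δ : ℝ) : fV s r h δ 1 = 1 := by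
  unfold fV
  rw [dV_one, dV_one]
  simp

theorem fV_mul (s r : Fin m → ℂ) (h : Fin m → ℝ) (δ : ℝ) {a b : ℕ} (hab : Nat.Coprime a b) :
    fV s r h δ (a * b) = fV s r h δ a * fV s r h δ b := by
  unfold fV
  rw [dV_mul _ _ hab, dV_mul _ _ hab]
  push_cast
  rw [Real.mul_rpow (Nat.cast_nonneg _) (Nat.cast_nonneg _), map_mul]
  push_cast
  ring

theorem fV_pow (s r : Fin m → ℂ) (h : Fin m → ℝ) (δ : ℝ) {p : ℕ} (hp : p.Prime) (k : ℕ) :
    fV s r h δ (p ^ k) = lV s h p k * (starRingEnd ℂ) (lV (cj r) h p k) *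
      (((p:ℝ) ^ (-(1 + 2 * δ)) : ℝ) : ℂ) ^ k := by
  unfold fV
  rw [dV_prime_pow _ _ hp, dV_prime_pow _ _ hp, ← Complex.ofReal_pow]
  congr 2
  have h1 := map_pow (ph (1 + 2 * δ)) p k
  rw [ph_apply, ph_apply] at h1
  exact h1

theorem fV_summable (s r : Fin m → ℂ) (h : Fin m → ℝ) (k0 : ℕ)
    (hs : ∀ n : ℕ, ‖dV s h n‖ ≤ ‖dS (k0 : ℂ) n‖) (hr : ∀ n : ℕ, ‖dV (cj r) h n‖ ≤ ‖dS (k0 : ℂ) n‖)
    {δ : ℝ} (hδ : 0 < δ) : Summable fun n => ‖fV s r h δ n‖ := by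
  have h1 := ft_summable (k0 : ℂ) k0 (by simp) hδ
  refine Summable.of_nonneg_of_le (fun n => norm_nonneg _) (fun n => ?_) h1
  unfold fV ft
  rw [norm_mul, norm_mul, norm_mul, norm_pow, RCLike.norm_conj, sq]
  exact mul_le_mul_of_nonneg_right (mul_le_mul (hs n) (hr n) (norm_nonneg _) (norm_nonneg _))
    (norm_nonneg _)

theorem fV_euler (s r : Fin m → ℂ) (h : Fin m → ℝ) (k0 : ℕ)
    (hs : ∀ n : ℕ, ‖dV s h n‖ ≤ ‖dS (k0 : ℂ) n‖) (hr : ∀ n : ℕ, ‖dV (cj r) h n‖ ≤ ‖dS (k0 : ℂ) n‖)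
    {δ : ℝ} (hδ : 0 < δ) :
    HasProd (fun p : Nat.Primes => ∑' k : ℕ, lV s h p k * (starRingEnd ℂ) (lV (cj r) h p k) *
      ((((p : ℕ):ℝ) ^ (-(1 + 2 * δ)) : ℝ) : ℂ) ^ k) (∑' n : ℕ, fV s r h δ n) := by
  have h1 := EulerProduct.eulerProduct_hasProd (f := fV s r h δ) (fV_one s r h δ)
    (fun hab => fV_mul s r h δ hab) (fV_summable s r h k0 hs hr hδ) (fV_zero s r h hδ)
  have h2 : (fun p : Nat.Primes => ∑' k : ℕ, fV s r h δ ((p : ℕ) ^ k)) =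
      fun p : Nat.Primes => ∑' k : ℕ, lV s h p k * (starRingEnd ℂ) (lV (cj r) h p k) *
      ((((p : ℕ):ℝ) ^ (-(1 + 2 * δ)) : ℝ) : ℂ) ^ k := by
    funext p
    exact tsum_congr fun k => fV_pow s r h δ p.2 k
  rw [← h2]
  exact h1

/-! ### the logarithm -/

/-- the terms -/
noncomputable def zp (δ u : ℝ) (p : ℕ) : ℂ := (p:ℂ) ^ (-(((1 + 2 * δ : ℝ) : ℂ) + (u : ℂ) * I))

theorem norm_zp (δ u : ℝ) {p : ℕ} (hp : p.Prime) : ‖zp δ u p‖ = ph (1 + 2 * δ) p := by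
  unfold zp
  rw [Complex.norm_natCast_cpow_of_pos hp.pos, ph_apply]
  congr 1
  simp

theorem zp_ne {δ : ℝ} (hδ : 0 ≤ δ) (u : ℝ) {p : ℕ} (hp : p.Prime) : 1 - zp δ u p ≠ 0 := by
  intro h
  have h1 : zp δ u p = 1 := by linear_combination -h
  have h2 := norm_zp δ u hp
  have h3 := ph_le_half (σ := 1 + 2 * δ) (by linarith) hp
  rw [h1, norm_one] at h2
  linarith

theorem log_summable {δ : ℝ} (hδ : 0 < δ) (u : ℝ) :
    Summable fun p : Nat.Primes => -Complex.log (1 - zp δ u (p : ℕ)) := by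
  refine Summable.of_norm_bounded ((ph_summable hδ).mul_left (3 / 2)) fun p => ?_
  have h1 := ph_le_half (σ := 1 + 2 * δ) (by linarith) p.2
  have h2 := Complex.norm_log_one_add_half_le_self (z := -zp δ u (p : ℕ)) (by
    rw [norm_neg, norm_zp _ _ p.2]; exact h1)
  rw [norm_neg, norm_zp _ _ p.2, ← sub_eq_add_neg] at h2
  rw [norm_neg]
  exact h2

theorem LZ_hasSum {δ : ℝ} (hδ : 0 < δ) (u : ℝ) :
    HasSum (fun p : Nat.Primes => -Complex.log (1 - zp δ u (p : ℕ))) (LZ (1 + 2 * δ) u) :=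
  (log_summable hδ u).hasSum

theorem LM_hasProd (s r : Fin m → ℂ) (h : Fin m → ℝ) {δ : ℝ} (hδ : 0 < δ) :
    HasProd (fun p : Nat.Primes => ∏ j, ∏ l, (1 - zp δ (h j - h l) (p : ℕ)) ^ (s j * r l))
      (Complex.exp (-(LM s r h δ))) := by
  have h1 : HasSum (fun p : Nat.Primes => -∑ j, ∑ l, s j * r l *
      -Complex.log (1 - zp δ (h j - h l) (p : ℕ))) (-(LM s r h δ)) := by
    unfold LM
    exact (hasSum_sum fun j _ => hasSum_sum fun l _ =>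
      (LZ_hasSum hδ (h j - h l)).mul_left (s j * r l)).neg
  have h2 := h1.cexp
  convert h2 using 2 with p
  simp only [Function.comp_apply]
  have h3 : -∑ j, ∑ l, s j * r l * -Complex.log (1 - zp δ (h j - h l) (p : ℕ)) =
      ∑ j, ∑ l, Complex.log (1 - zp δ (h j - h l) (p : ℕ)) * (s j * r l) := by
    rw [← Finset.sum_neg_distrib]
    refine Finset.sum_congr rfl fun j _ => ?_
    rw [← Finset.sum_neg_distrib]
    refine Finset.sum_congr rfl fun l _ => ?_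
    ring
  rw [h3, Complex.exp_sum]
  refine Finset.prod_congr rfl fun j _ => ?_
  rw [Complex.exp_sum]
  refine Finset.prod_congr rfl fun l _ => ?_
  rw [Complex.cpow_def_of_ne_zero (zp_ne hδ.le _ p.2)]

theorem gV_hasProd (s r : Fin m → ℂ) (h : Fin m → ℝ) (k0 : ℕ)
    (hs : ∀ n : ℕ, ‖dV s h n‖ ≤ ‖dS (k0 : ℂ) n‖) (hr : ∀ n : ℕ, ‖dV (cj r) h n‖ ≤ ‖dS (k0 : ℂ) n‖)
    {δ : ℝ} (hδ : 0 < δ) :
    HasProd (fun p : Nat.Primes => gV s r h δ (p : ℕ))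
      (Complex.exp (-(LM s r h δ)) * ∑' n : ℕ, fV s r h δ n) :=
  (LM_hasProd s r h hδ).mul (fV_euler s r h k0 hs hr hδ)

theorem inv_sq (p : Nat.Primes) : ((p : ℕ) : ℝ) ^ (-(1 + 1 : ℝ)) = 1 / ((p : ℕ) : ℝ) ^ 2 := by
  have hp0 : (0 : ℝ) < (p : ℕ) := by exact_mod_cast p.2.pos
  rw [Real.rpow_neg hp0.le, one_div]
  congr 1
  norm_num

/-- (DIA2V) the diagonal terms, asymptotics -/
theorem main (hB : S_BND) (hG : S_GVB) (_hL : S_LZB) : S_DIA2V := by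
  intro m R hR ε hε
  obtain ⟨k0, hk0⟩ := hB m R hR
  obtain ⟨C, hC, hGV⟩ := hG m R hR
  set W1 : ℝ := ∑' p : Nat.Primes, C * ((p : ℕ) : ℝ) ^ (-(1 + 1 : ℝ)) with hW1
  set W2 : ℝ := ∑' p : Nat.Primes, 2 * C * ((p : ℕ) : ℝ) ^ (-(1 + 1 / 4 : ℝ)) with hW2
  have s1 : Summable fun p : Nat.Primes => C * ((p : ℕ) : ℝ) ^ (-(1 + 1 : ℝ)) :=
    ((summ one_pos).comp_injective Nat.Primes.coe_nat_injective).mul_left C
  have s2 : Summable fun p : Nat.Primes => 2 * C * ((p : ℕ) : ℝ) ^ (-(1 + 1 / 4 : ℝ)) :=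
    ((summ (by norm_num : (0 : ℝ) < 1 / 4)).comp_injective Nat.Primes.coe_nat_injective).mul_left
      (2 * C)
  have hW2nn : 0 ≤ W2 := tsum_nonneg fun p => by positivity
  set M : ℝ := Real.exp W1 with hM
  have hM0 : 0 < M := Real.exp_pos _
  refine ⟨min 1 ((ε / (M * W2 + 1)) ^ 4), by positivity, ?_⟩
  intro δ hδ hδ2 s r h hs hr
  have hδ1 : δ ≤ 1 := hδ2.trans (min_le_left _ _)
  have hδe : δ ≤ (ε / (M * W2 + 1)) ^ 4 := hδ2.trans (min_le_right _ _)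
  have hrc : ∀ j, ‖cj r j‖ ≤ R := by
    intro j
    unfold cj
    rw [RCLike.norm_conj]
    exact hr j
  have hP := gV_hasProd s r h k0 (hk0 s h hs).2 (hk0 (cj r) h hrc).2 hδ
  have hb := hGV s r h hs hr
  have hA : HasProd (fun p : Nat.Primes => gV s r h 0 (p : ℕ)) (aV s r h) := by
    have h1 : Summable fun p : Nat.Primes => ‖gV s r h 0 (p : ℕ) - 1‖ := by
      refine Summable.of_nonneg_of_le (fun p => norm_nonneg _) (fun p => ?_) s1
      rw [inv_sq, mul_one_div]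
      exact (hb p p.2 0 le_rfl zero_le_one).1
    have h2 := (multipliable_one_add_of_summable h1).hasProd
    have h3 : (fun p : Nat.Primes => 1 + (gV s r h 0 (p : ℕ) - 1)) =
        fun p : Nat.Primes => gV s r h 0 (p : ℕ) := by
      funext p; ring
    rw [h3] at h2
    exact h2
  have hnn : ∀ p : Nat.Primes, 0 ≤ C * ((p : ℕ) : ℝ) ^ (-(1 + 1 : ℝ)) := fun p => by positivity
  have hbd : ∀ δ' : ℝ, 0 ≤ δ' → δ' ≤ 1 → ∀ p : Nat.Primes,
      ‖gV s r h δ' (p : ℕ)‖ ≤ 1 + C * ((p : ℕ) : ℝ) ^ (-(1 + 1 : ℝ)) := by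
    intro δ' h0 h1 p
    have h2 := (hb p p.2 δ' h0 h1).1
    rw [inv_sq, mul_one_div]
    have h3 := norm_add_le (gV s r h δ' (p : ℕ) - 1) 1
    rw [sub_add_cancel, norm_one] at h3
    linarith
  have hdf : ∀ p : Nat.Primes, ‖gV s r h δ (p : ℕ) - gV s r h 0 (p : ℕ)‖ ≤
      δ ^ (1 / 4 : ℝ) * (2 * C * ((p : ℕ) : ℝ) ^ (-(1 + 1 / 4 : ℝ))) := by
    intro p
    have hp0 : (0 : ℝ) < (p : ℕ) := by exact_mod_cast p.2.pos
    have h1 := (hb p p.2 δ hδ.le hδ1).1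
    have h2 := (hb p p.2 0 le_rfl zero_le_one).1
    have h3 := (hb p p.2 δ hδ.le hδ1).2
    set x : ℝ := ‖gV s r h δ (p : ℕ) - gV s r h 0 (p : ℕ)‖ with hx
    have hx0 : 0 ≤ x := norm_nonneg _
    have h4 : x ≤ 2 * C / ((p : ℕ) : ℝ) ^ 2 := by
      have h5 : gV s r h δ (p : ℕ) - gV s r h 0 (p : ℕ) =
          (gV s r h δ (p : ℕ) - 1) - (gV s r h 0 (p : ℕ) - 1) := by ring
      rw [hx, h5]
      refine (norm_sub_le _ _).trans ?_
      rw [mul_div_assoc, two_mul]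
      exact add_le_add h1 h2
    have h6 : x ≤ C * (δ * ((p : ℕ) : ℝ)) := by
      refine h3.trans ?_
      have := Real.log_le_self hp0.le
      gcongr
    have h7 : x ^ 4 ≤ (δ ^ (1 / 4 : ℝ) * (2 * C * ((p : ℕ) : ℝ) ^ (-(1 + 1 / 4 : ℝ)))) ^ 4 := by
      have e1 : (δ ^ (1 / 4 : ℝ)) ^ 4 = δ := by
        rw [← Real.rpow_natCast, ← Real.rpow_mul hδ.le]
        norm_num
      have e2 : (((p : ℕ) : ℝ) ^ (-(1 + 1 / 4 : ℝ))) ^ 4 = 1 / ((p : ℕ) : ℝ) ^ 5 := by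
        rw [← Real.rpow_natCast, ← Real.rpow_mul hp0.le]
        have e3 : (-(1 + 1 / 4 : ℝ)) * ((4 : ℕ) : ℝ) = -((5 : ℕ) : ℝ) := by norm_num
        rw [e3, Real.rpow_neg hp0.le, Real.rpow_natCast, one_div]
      rw [mul_pow, mul_pow, e1, e2]
      calc x ^ 4 = x ^ 3 * x := by ring
        _ ≤ (2 * C / ((p : ℕ) : ℝ) ^ 2) ^ 3 * (C * (δ * ((p : ℕ) : ℝ))) :=
            mul_le_mul (pow_le_pow_left₀ hx0 h4 3) h6 hx0 (by positivity)
        _ = 8 * (δ * (C ^ 4 * (1 / ((p : ℕ) : ℝ) ^ 5))) := by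
            field_simp
            ring
        _ ≤ 16 * (δ * (C ^ 4 * (1 / ((p : ℕ) : ℝ) ^ 5))) := by
            have : 0 ≤ δ * (C ^ 4 * (1 / ((p : ℕ) : ℝ) ^ 5)) := by positivity
            linarith
        _ = _ := by ring
    exact (pow_le_pow_iff_left₀ hx0 (by positivity) (by norm_num)).1 h7
  have key := tprod_diff _ _ (fun p : Nat.Primes => C * ((p : ℕ) : ℝ) ^ (-(1 + 1 : ℝ)))
    (fun p : Nat.Primes => δ ^ (1 / 4 : ℝ) * (2 * C * ((p : ℕ) : ℝ) ^ (-(1 + 1 / 4 : ℝ)))) hnn s1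
    (hbd δ hδ.le hδ1) (hbd 0 le_rfl zero_le_one) hdf (s2.mul_left _) hP hA
  have e0 : ∑' p : Nat.Primes, δ ^ (1 / 4 : ℝ) * (2 * C * ((p : ℕ) : ℝ) ^ (-(1 + 1 / 4 : ℝ))) =
      δ ^ (1 / 4 : ℝ) * W2 := tsum_mul_left
  rw [e0] at key
  refine key.trans ?_
  have h8 : δ ^ (1 / 4 : ℝ) ≤ ε / (M * W2 + 1) := by
    have e1 : (δ ^ (1 / 4 : ℝ)) ^ 4 = δ := by
      rw [← Real.rpow_natCast, ← Real.rpow_mul hδ.le]
      norm_num
    rw [← e1] at hδe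
    exact (pow_le_pow_iff_left₀ (by positivity) (by positivity) (by norm_num)).1 hδe
  have h9 : 0 < M * W2 + 1 := by positivity
  calc M * (δ ^ (1 / 4 : ℝ) * W2) = δ ^ (1 / 4 : ℝ) * (M * W2) := by ring
    _ ≤ ε / (M * W2 + 1) * (M * W2 + 1) := by
        apply mul_le_mul h8 (by linarith) (by positivity) (by positivity)
    _ = ε := by field_simp

end Pool.Agent.N748.MJ.DIA2V
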