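import Pool.Agent.N748.MJ.Stm
import Pool.Agent.N748.MG.EUL

/-!
# Project MJ (helper748): EULV, truncation of products of powers of Euler products (helper767)
-/

set_option autoImplicit false

namespace Pool.Agent.N748.MJ.EULV

open Finset Filter Topology Complex
open Pool.Agent.N748.MG Pool.Agent.N748.MG.EUL

/-! ### products of power series -/

theorem cv_prod {ι : Type} (u : ℂ) (F : ι → PowerSeries ℂ) (a : ι → ℂ) (Q : Finset ι)
    (h : ∀ p ∈ Q, Cv (F p) u (a p)) : Cv (∏ p ∈ Q, F p) u (∏ p ∈ Q, a p) := by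
  classical
  induction Q using Finset.induction_on with
  | empty =>
    rw [prod_empty, prod_empty]
    exact Cv.one u
  | insert p Q hp ih =>
    rw [prod_insert hp, prod_insert hp]
    exact (h p (mem_insert_self _ _)).mul (ih fun q hq => h q (mem_insert_of_mem hq))

/-- the local factor -/
noncomputable def FV {m : ℕ} (s : Fin m → ℂ) (X : Fin m → ℂ) : PowerSeries ℂ := ∏ j, Fp (s j) (X j)

theorem coeff_FV {m : ℕ} (s : Fin m → ℂ) (X : Fin m → ℂ) (k : ℕ) :
    PowerSeries.coeff k (FV s X) =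
      ∑ μ ∈ Finset.piAntidiag (Finset.univ : Finset (Fin m)) k,
        ∏ j, lC (s j) (μ j) * X j ^ μ j := by
  unfold FV
  rw [PowerSeries.coeff_prod]
  refine sum_bij' (fun l _ => (l : Fin m → ℕ)) (fun μ _ => Finsupp.equivFunOnFinite.symm μ)
    ?_ ?_ ?_ ?_ ?_
  · intro l hl
    rw [mem_finsuppAntidiag] at hl
    rw [mem_piAntidiag]
    exact ⟨hl.1, fun _ _ => mem_univ _⟩
  · intro μ hμ
    rw [mem_piAntidiag] at hμ
    rw [mem_finsuppAntidiag]
    exact ⟨hμ.1, subset_univ _⟩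
  · intro l _
    ext j
    rfl
  · intro μ _
    rfl
  · intro l _
    refine prod_congr rfl fun j _ => ?_
    rw [Fp, PowerSeries.coeff_mk]

/-! ### the coefficients -/

theorem cpow_split {p : ℕ} (hp : p.Prime) (w : ℂ) (x : ℝ) :
    (p : ℂ) ^ (-(w + x * I)) = (p : ℂ) ^ (-w) * (p : ℂ) ^ (-(x * I)) := by
  rw [← Complex.cpow_add _ _ (by exact_mod_cast hp.ne_zero)]
  congr 1
  ring

theorem lV_zero {m : ℕ} (s : Fin m → ℂ) (h : Fin m → ℝ) (q : ℕ) : lV s h q 0 = 1 := by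
  unfold lV
  rw [piAntidiag_zero, sum_singleton]
  refine prod_eq_one fun j _ => ?_
  simp [lC_zero]

theorem lV_eq {m : ℕ} (s : Fin m → ℂ) (h : Fin m → ℝ) {p : ℕ} (hp : p.Prime) (w : ℂ) (k : ℕ) :
    lV s h p k * ((p : ℂ) ^ (-w)) ^ k =
      PowerSeries.coeff k (FV s fun j => (p : ℂ) ^ (-(w + h j * I))) := by
  rw [coeff_FV]
  unfold lV
  rw [sum_mul]
  refine sum_congr rfl fun μ hμ => ?_
  rw [mem_piAntidiag] at hμ
  rw [← hμ.1, ← prod_pow_eq_pow_sum, ← prod_mul_distrib]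
  refine prod_congr rfl fun j _ => ?_
  have h1 : (p : ℂ) ^ (-(((μ j * h j : ℝ) : ℂ) * I)) = ((p : ℂ) ^ (-(h j * I))) ^ μ j := by
    rw [← Complex.cpow_nat_mul]
    congr 1
    push_cast
    ring
  rw [h1, cpow_split hp, mul_pow]
  ring

theorem term_eqV {m : ℕ} (s : Fin m → ℂ) (h : Fin m → ℝ) (w : ℂ) {Q : Finset ℕ} {n : ℕ}
    (hn : n ≠ 0) (hQ : n.primeFactors ⊆ Q) :
    dV s h n * (n : ℂ) ^ (-w) =
      ∏ p ∈ Q, lV s h p (n.factorization p) * ((p : ℂ) ^ (-w)) ^ n.factorization p := by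
  rw [prod_mul_distrib]
  congr 1
  · unfold dV
    apply prod_subset hQ
    intro p _ hp
    rw [← Nat.support_factorization, Finsupp.notMem_support_iff] at hp
    rw [hp, lV_zero]
  · rw [← cpow_prod_nat]
    congr 2
    conv_lhs => rw [← Nat.prod_factorization_pow_eq_self hn]
    rw [Finsupp.prod]
    apply prod_subset
    · rw [Nat.support_factorization]; exact hQ
    · intro p _ hp
      rw [Finsupp.notMem_support_iff] at hp
      rw [hp, pow_zero]

theorem AV_eq {m : ℕ} (s : Fin m → ℂ) (h : Fin m → ℝ) {y : ℝ} (hy : 2 ≤ y) (K : ℕ) (w : ℂ) :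
    AV s h y K w = ∑ k ∈ range (K + 1),
      PowerSeries.coeff k (∏ p ∈ PA y, FV s fun j => (p : ℂ) ^ (-(w + h j * I))) := by
  classical
  have hy2 : 1 ≤ ⌊y⌋₊ := by
    rw [Nat.one_le_floor_iff]
    linarith
  unfold AV
  rw [← sum_fiberwise_of_maps_to (s := FS y K) (t := range (K + 1))
    (g := fun n => n.primeFactorsList.length)]
  swap
  · intro n hn
    unfold FS at hn
    rw [mem_filter] at hn
    rw [mem_range]
    have := hn.2.2.2
    omega
  refine sum_congr rfl fun k hk => ?_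
  rw [mem_range] at hk
  rw [PowerSeries.coeff_prod]
  refine sum_bij' (fun n _ => n.factorization) (fun l _ => l.prod (· ^ ·)) ?_ ?_ ?_ ?_ ?_
  · intro n hn
    unfold FS at hn
    rw [mem_filter, mem_filter] at hn
    rw [mem_finsuppAntidiag, Nat.support_factorization]
    exact ⟨by rw [← omega_eq hn.1.2.2.1]; exact hn.2, hn.1.2.2.1⟩
  · intro l hl
    rw [mem_finsuppAntidiag] at hl
    have hpr : ∀ p ∈ l.support, p.Prime := fun p hp => (PA_prime (hl.2 hp)).1
    have hf : (l.prod (· ^ ·)).factorization = l := Nat.prod_pow_factorization_eq_self hpr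
    have h0 : l.prod (· ^ ·) ≠ 0 := by
      rw [Finsupp.prod]
      exact prod_ne_zero_iff.2 fun p hp => pow_ne_zero _ (hpr p hp).ne_zero
    have hsub : (l.prod (· ^ ·)).primeFactors ⊆ PA y := by
      rw [← Nat.support_factorization, hf]
      exact hl.2
    have hom : (l.prod (· ^ ·)).primeFactorsList.length = k := by
      rw [omega_eq hsub, hf]
      exact hl.1
    unfold FS
    rw [mem_filter, mem_filter, mem_range]
    refine ⟨⟨?_, h0, hsub, by rw [hom]; omega⟩, hom⟩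
    rw [Nat.lt_succ_iff]
    calc l.prod (· ^ ·) ≤ ∏ p ∈ l.support, ⌊y⌋₊ ^ l p := by
          rw [Finsupp.prod]
          exact prod_le_prod' fun p hp => Nat.pow_le_pow_left (PA_prime (hl.2 hp)).2 _
      _ = ⌊y⌋₊ ^ (∑ p ∈ l.support, l p) := prod_pow_eq_pow_sum _ _ _
      _ ≤ ⌊y⌋₊ ^ K := by
          apply Nat.pow_le_pow_right hy2
          have h1 : ∑ p ∈ l.support, l p ≤ (PA y).sum l := sum_le_sum_of_subset hl.2
          rw [hl.1] at h1
          omega
  · intro n hn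
    unfold FS at hn
    rw [mem_filter, mem_filter] at hn
    exact Nat.prod_factorization_pow_eq_self hn.1.2.1
  · intro l hl
    rw [mem_finsuppAntidiag] at hl
    have hpr : ∀ p ∈ l.support, p.Prime := fun p hp => (PA_prime (hl.2 hp)).1
    exact Nat.prod_pow_factorization_eq_self hpr
  · intro n hn
    unfold FS at hn
    rw [mem_filter, mem_filter] at hn
    rw [term_eqV s h w hn.1.2.1 hn.1.2.2.1]
    exact prod_congr rfl fun p hp => lV_eq s h (PA_prime hp).1 w _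

/-! ### the size of the product -/

theorem P_boundV {m : ℕ} {y : ℝ} {w u : ℂ} {s : Fin m → ℂ} {h : Fin m → ℝ} {R a v : ℝ}
    (hw : 1 / 2 ≤ w.re) (hs : ∀ j, ‖s j‖ ≤ R)
    (ha : ∀ j, ‖∑ p ∈ PA y, (p : ℂ) ^ (-(w + h j * I))‖ ≤ a)
    (hv : ∑ p ∈ PA y, 1 / (p : ℝ) ≤ v) (hu : ‖u‖ = 5 / 4) :
    ‖∏ p ∈ PA y, ∏ j, (1 - u * (p : ℂ) ^ (-(w + h j * I))) ^ (-(s j))‖ ≤
      Real.exp (m * (R * (5 / 4 * a + 7 * v))) := by
  rw [Finset.prod_comm, norm_prod]
  calc ∏ j, ‖∏ p ∈ PA y, (1 - u * (p : ℂ) ^ (-(w + h j * I))) ^ (-(s j))‖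
      ≤ ∏ _j : Fin m, Real.exp (R * (5 / 4 * a + 7 * v)) := by
        refine prod_le_prod (fun _ _ => norm_nonneg _) fun j _ => ?_
        refine P_bound ?_ (hs j) (ha j) hv hu
        simpa using hw
    _ = Real.exp (m * (R * (5 / 4 * a + 7 * v))) := by
        rw [prod_const, card_univ, Fintype.card_fin, ← Real.exp_nat_mul]

theorem main : S_EULV := by
  intro m R hR
  have hmR : 0 ≤ (m : ℝ) * R := by positivity
  refine ⟨7 * (m * R) + 2, by positivity, fun y K w s h a v hy hw ha0 hs ha hv => ?_⟩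
  set c : ℕ → ℂ := fun k =>
    PowerSeries.coeff k (∏ p ∈ PA y, FV s fun j => (p : ℂ) ^ (-(w + h j * I))) with hc
  set M : ℝ := Real.exp (m * (R * (5 / 4 * a + 7 * v))) with hM
  have hlt : ∀ u : ℂ, ‖u‖ ≤ 4 / 3 → ∀ p ∈ PA y, ∀ j, ‖u * (p : ℂ) ^ (-(w + h j * I))‖ < 1 := by
    intro u hu p hp j
    obtain ⟨n1, n2⟩ := norm_x (w := w + h j * I) (PA_prime hp).1 (by simpa using hw)
    rw [norm_mul]
    have h1 : 0 ≤ ‖(p : ℂ) ^ (-(w + h j * I))‖ := norm_nonneg _
    have h2 : ‖(p : ℂ) ^ (-(w + h j * I))‖ ≤ 0.7072 := by nlinarith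
    have h3 : 0 ≤ ‖u‖ := norm_nonneg _
    nlinarith
  have hCv : ∀ u : ℂ, ‖u‖ ≤ 4 / 3 →
      Cv (∏ p ∈ PA y, FV s fun j => (p : ℂ) ^ (-(w + h j * I))) u
        (∏ p ∈ PA y, ∏ j, (1 - u * (p : ℂ) ^ (-(w + h j * I))) ^ (-(s j))) := fun u hu =>
    cv_prod u _ _ _ fun p hp => cv_prod u _ _ _ fun j _ => Cv.fp _ _ _ (hlt u hu p hp j)
  have hb : ∀ k, ‖c k‖ ≤ M * (4 / 5) ^ k := by
    intro k
    have h1 := cauchy_bound c
      (fun u => ∏ p ∈ PA y, ∏ j, (1 - u * (p : ℂ) ^ (-(w + h j * I))) ^ (-(s j))) (5 / 4)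
      (4 / 3) M (by norm_num) (by norm_num) (fun u hu => (hCv u hu).1) (by
        have := (hCv ((4 / 3 : ℝ) : ℂ) (by
          rw [Complex.norm_real, Real.norm_of_nonneg (by norm_num)])).2
        exact this) (fun u hu => P_boundV hw hs ha hv hu) k
    refine h1.trans (le_of_eq ?_)
    rw [div_eq_mul_inv, ← inv_pow]
    norm_num
  have h1 := (hCv 1 (by norm_num)).1
  simp only [one_pow, mul_one, one_mul] at h1
  have h2 := norm_sub_le_of_geometric_bound_of_hasSum (r := 4 / 5) (C := M) (by norm_num) hb h1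
    (K + 1)
  rw [AV_eq s h hy K w]
  refine h2.trans ?_
  have hM4 : M * 4 ≤ Real.exp ((7 * (m * R) + 2) * (a + v + 1)) := by
    have hv0 : 0 ≤ v := le_trans (sum_nonneg fun p _ => by positivity) hv
    have h4 : (4 : ℝ) ≤ Real.exp 2 := by
      have h5 := Real.exp_one_gt_d9
      have h6 : Real.exp 2 = Real.exp 1 * Real.exp 1 := by rw [← Real.exp_add]; norm_num
      rw [h6]
      nlinarith
    calc M * 4 ≤ M * Real.exp 2 := by
          apply mul_le_mul_of_nonneg_left h4 (Real.exp_pos _).le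
      _ = Real.exp (m * (R * (5 / 4 * a + 7 * v)) + 2) := by rw [hM, Real.exp_add]
      _ ≤ Real.exp ((7 * (m * R) + 2) * (a + v + 1)) := by
          apply Real.exp_le_exp.2
          have e1 := mul_nonneg hmR ha0
          have e2 := mul_nonneg hmR hv0
          nlinarith
  calc M * (4 / 5) ^ (K + 1) / (1 - 4 / 5) = (4 / 5) ^ K * (M * 4) := by
        rw [pow_succ]
        ring
    _ ≤ _ := mul_le_mul_of_nonneg_left hM4 (by positivity)

end Pool.Agent.N748.MJ.EULV
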