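import Pool.Agent.N748.MJ.Stm
import Pool.Agent.N748.MG.Ev
import Pool.Agent.N748.MG.CM

set_option autoImplicit false

/-! (JM) joint complex moments outside tiny sets (helper50, for project MJ of helper748) -/

namespace Pool.Agent.N748.MJ.JM

open Finset Filter MeasureTheory Topology Complex
open Pool.Agent.N748.MG Pool.Agent.N748.MJ

lemma pw_add (δ t u : ℝ) : pw δ t + (u : ℂ) * I = pw δ (t + u) := by
  unfold pw
  push_cast
  ring

lemma AV_cont {m : ℕ} (s : Fin m → ℂ) (h : Fin m → ℝ) (y : ℝ) (K : ℕ) (δ : ℝ) :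
    Continuous fun t : ℝ => AV s h y K (pw δ t) := by
  unfold AV
  refine continuous_finsetSum _ fun n hn => ?_
  refine Continuous.mul continuous_const (Continuous.const_cpow ?_ (Or.inl ?_))
  · unfold pw
    fun_prop
  · unfold FS at hn
    rw [Finset.mem_filter] at hn
    exact_mod_cast hn.2.1

lemma zc (δ : ℝ) (hδ : 0 < δ) (hδ1 : δ ≤ 1 / 16) : Continuous fun t : ℝ => riemannZeta (pw δ t) := by
  rw [continuous_iff_continuousAt]
  intro t
  have hne : pw δ t ≠ 1 := by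
    intro h
    have h1 := congrArg Complex.re h
    unfold pw at h1
    simp at h1
    linarith
  have h1 : ContinuousAt riemannZeta (pw δ t) := (differentiableAt_riemannZeta hne).continuousAt
  have h2 : Continuous fun t : ℝ => pw δ t := by
    unfold pw
    fun_prop
  exact ContinuousAt.comp (f := fun t : ℝ => pw δ t) h1 h2.continuousAt

lemma ZZ_meas (b : ℂ) (n : ℤ) : Measurable fun z : ℂ => ZZ z b n := by
  unfold ZZ
  have h1 : Measurable fun z : ℂ => ((‖z‖ : ℝ) : ℂ) := Complex.measurable_ofReal.comp measurable_norm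
  exact (h1.pow_const _).mul ((measurable_id.div h1).pow_const n)

lemma prod_meas {m : ℕ} (δ : ℝ) (hδ : 0 < δ) (hδ1 : δ ≤ 1 / 16) (h : Fin m → ℝ) (b : Fin m → ℂ)
    (n : Fin m → ℤ) :
    Measurable fun t : ℝ => ∏ j, ZZ (riemannZeta (pw δ (t + h j))) (b j) (n j) := by
  refine Finset.measurable_prod _ fun j _ => ?_
  have h1 : Measurable fun t : ℝ => riemannZeta (pw δ (t + h j)) :=
    ((zc δ hδ hδ1).comp (by fun_prop : Continuous fun t : ℝ => t + h j)).measurable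
  exact (ZZ_meas (b j) (n j)).comp h1

/-- the main term -/
lemma LM_norm {m : ℕ} {δ R : ℝ} (hδ : 0 < δ) (hδ1 : δ ≤ 1 / 16) (hR : 0 ≤ R) (hL : S_LZB)
    (s r : Fin m → ℂ) (h : Fin m → ℝ) (hs : ∀ j, ‖s j‖ ≤ R) (hr : ∀ j, ‖r j‖ ≤ R) :
    ‖Complex.exp (-(LM s r h δ))‖ ≤ δ ^ (-((m * R) ^ 2)) := by
  rw [Complex.norm_exp, CM.rpow_eq hδ]
  refine Real.exp_le_exp.2 ?_
  have h1 : ‖LM s r h δ‖ ≤ (m * R) ^ 2 * Real.log (1 / δ) := by
    unfold LM
    have hl0 : 0 ≤ Real.log (1 / δ) := by linarith [log_inv_ge hδ hδ1]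
    have hj : ∀ j l, ‖s j * r l * LZ (1 + 2 * δ) (h j - h l)‖ ≤ R * R * Real.log (1 / δ) := by
      intro j l
      rw [norm_mul, norm_mul]
      have k1 := (hL δ hδ hδ1 (h j - h l)).1
      have k2 := hs j
      have k3 := hr l
      have k4 := norm_nonneg (s j)
      have k5 := norm_nonneg (r l)
      have k6 := norm_nonneg (LZ (1 + 2 * δ) (h j - h l))
      gcongr
    calc ‖∑ j, ∑ l, s j * r l * LZ (1 + 2 * δ) (h j - h l)‖
        ≤ ∑ _j : Fin m, ∑ _l : Fin m, R * R * Real.log (1 / δ) :=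
          norm_sum_le_of_le _ fun j _ => norm_sum_le_of_le _ fun l _ => hj j l
      _ = (m * R) ^ 2 * Real.log (1 / δ) := by
          simp only [Finset.sum_const, Finset.card_univ, Fintype.card_fin, nsmul_eq_mul]
          ring
  have h2 : |(-(LM s r h δ)).re| ≤ ‖-(LM s r h δ)‖ := Complex.abs_re_le_norm _
  rw [norm_neg] at h2
  have h3 := (abs_le.1 h2).2
  linarith

/-- the set of the points all of whose shifts are good -/
lemma setN {m : ℕ} (h : Fin m → ℝ) (X A B : ℝ) (hB : 0 ≤ B) (N0 : Set ℝ)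
    (hN0 : MeasurableSet N0) (hv : volume (Set.Icc 0 X \ N0) ≤ ENNReal.ofReal B) (hA : ∀ j, |h j| ≤ A) :
    ∃ N : Set ℝ, MeasurableSet N ∧ N ⊆ Set.Icc 0 X ∧ (∀ t ∈ N, ∀ j, t + h j ∈ N0) ∧
      volume (Set.Icc 0 X \ N) ≤ ENNReal.ofReal (m * (A + B)) := by
  refine ⟨Set.Icc 0 X ∩ ⋂ j, (fun t => t + h j) ⁻¹' N0, ?_, Set.inter_subset_left, ?_, ?_⟩
  · refine measurableSet_Icc.inter (MeasurableSet.iInter fun j => ?_)
    exact (measurable_id.add_const _) hN0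
  · intro t ht j
    exact Set.mem_iInter.1 ht.2 j
  have h1 : Set.Icc 0 X \ (Set.Icc 0 X ∩ ⋂ j, (fun t => t + h j) ⁻¹' N0) ⊆
      ⋃ j, ((Set.Ico 0 (-(h j)) ∪ Set.Ioc (X - h j) X) ∪ (fun t => t + h j) ⁻¹' (Set.Icc 0 X \ N0)) := by
    rintro t ⟨ht, ht2⟩
    have h3 : ∃ j, t + h j ∉ N0 := by
      by_contra hcon
      push Not at hcon
      exact ht2 ⟨ht, Set.mem_iInter.2 hcon⟩
    obtain ⟨j, hj⟩ := h3
    refine Set.mem_iUnion.2 ⟨j, ?_⟩
    by_cases h4 : t + h j ∈ Set.Icc 0 X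
    · exact Or.inr ⟨h4, hj⟩
    · left
      rw [Set.mem_Icc, not_and_or, not_le, not_le] at h4
      rcases h4 with h4 | h4
      · left
        exact ⟨ht.1, by linarith⟩
      · right
        exact ⟨by linarith, ht.2⟩
  refine (measure_mono h1).trans ((measure_iUnion_le _).trans ?_)
  have h5 : ∀ j, volume ((Set.Ico 0 (-(h j)) ∪ Set.Ioc (X - h j) X) ∪
      (fun t => t + h j) ⁻¹' (Set.Icc 0 X \ N0)) ≤ ENNReal.ofReal (A + B) := by
    intro j
    have hA0 : 0 ≤ A := (abs_nonneg _).trans (hA j)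
    refine (measure_union_le _ _).trans ?_
    rw [measure_preimage_add_right]
    rw [ENNReal.ofReal_add hA0 hB]
    refine add_le_add ?_ hv
    refine (measure_union_le _ _).trans ?_
    rw [Real.volume_Ico, Real.volume_Ioc]
    rcases le_total 0 (h j) with h6 | h6
    · rw [ENNReal.ofReal_of_nonpos (by linarith : -(h j) - 0 ≤ 0), zero_add]
      refine ENNReal.ofReal_le_ofReal ?_
      have := hA j
      rw [abs_of_nonneg h6] at this
      linarith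
    · rw [ENNReal.ofReal_of_nonpos (by linarith : X - (X - h j) ≤ 0), add_zero]
      refine ENNReal.ofReal_le_ofReal ?_
      have := hA j
      rw [abs_of_nonpos h6] at this
      linarith
  calc ∑' j, volume ((Set.Ico 0 (-(h j)) ∪ Set.Ioc (X - h j) X) ∪
      (fun t => t + h j) ⁻¹' (Set.Icc 0 X \ N0)) ≤ ∑' _j : Fin m, ENNReal.ofReal (A + B) :=
        ENNReal.tsum_le_tsum h5
    _ = ENNReal.ofReal (m * (A + B)) := by
      rw [tsum_fintype, Finset.sum_const, Finset.card_univ, Fintype.card_fin, nsmul_eq_mul,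
        ENNReal.ofReal_mul (by positivity), ENNReal.ofReal_natCast]

theorem main (hC : S_CMPV) (hV : S_MVS) (hS : S_SIZV) (hS0 : S_SIZ) (h4 : S_L4V) (h1 : S_DIA1V)
    (h2 : S_DIA2V) (hL : S_LZB) (hN : S_NIC) : S_JM := by
  intro m R0 D hR0 hD ε hε
  obtain ⟨R, hRd⟩ : ∃ R : ℝ, R = 3 * R0 / 2 + 1 := ⟨_, rfl⟩
  have hR : 0 < R := by rw [hRd]; positivity
  have hR0R : R0 ≤ R := by rw [hRd]; linarith
  obtain ⟨E, hE⟩ : ∃ E : ℝ, E = (m * R) ^ 2 := ⟨_, rfl⟩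
  have hE0 : 0 ≤ E := by rw [hE]; positivity
  obtain ⟨C4, hC40, hC4⟩ := h4 m R hR.le
  obtain ⟨D1, hD1⟩ : ∃ D1, D1 = max D (C4 + 2 * E + 4) := ⟨_, rfl⟩
  have hD1D : D ≤ D1 := by rw [hD1]; exact le_max_left _ _
  have hD1C : C4 + 2 * E + 4 ≤ D1 := by rw [hD1]; exact le_max_right _ _
  obtain ⟨ca, hca, hN'⟩ := hN (D1 + 1) (by linarith)
  obtain ⟨Cc, hCc0, hCc⟩ := hC m R hR.le
  obtain ⟨C0, hC00, hC0⟩ := hS m R hR.le
  obtain ⟨C0', hC00', hC0'⟩ := hS0 R hR.le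
  obtain ⟨C1, δ1, hC10, hδ10, hC1⟩ := h1 m R (E + 2) hR.le (by positivity)
  obtain ⟨δ2, hδ20, hδ2⟩ := h2 m R hR.le (ε / 2) (by positivity)
  obtain ⟨B, hB⟩ : ∃ B, B = Cc * (ca + 3) := ⟨_, rfl⟩
  have hB0 : 0 < B := by rw [hB]; positivity
  obtain ⟨A, hA⟩ : ∃ A, A = B + E + 2 := ⟨_, rfl⟩
  have hA0 : 0 < A := by rw [hA]; positivity
  obtain ⟨C, hCd⟩ : ∃ C, C = 5 * (A + B) + C4 + C1 + 2 * (1 + 2 * C0) := ⟨_, rfl⟩
  have hCA : 5 * (A + B) ≤ C := by rw [hCd]; linarith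
  have hCC4 : C4 ≤ C := by rw [hCd]; linarith
  have hCC1 : C1 ≤ C := by rw [hCd]; linarith
  have hCC0 : 2 * (1 + 2 * C0) ≤ C := by rw [hCd]; linarith
  have hC0p : 0 < C := by linarith
  have hEv := ((((((hN' C hC0p).and (Ev.win (D := E + 2) (c := 1 / 4) (e := 1 / 2) (by norm_num)
    (by norm_num))).and (Ev.of_le hδ10)).and (Ev.of_le hδ20)).and
    (Ev.small (C := 4) (c := 2) (e := ε / 2) (by norm_num) (by positivity))).and
    (Ev.win (D := D1 + 1) (c := 1) (e := 1 / 2) (by norm_num) (by norm_num))).and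
    (Ev.small (C := 2 * (m : ℝ)) (c := 1) (e := 1) (by norm_num) (by norm_num))
  refine hEv.mono ?_
  rintro X δ hX hδ hδ16 ⟨⟨⟨⟨⟨⟨⟨y, K, N0, hy, hy1, hK1, hKX, hv, hNm0, hNX0, hNv0, hNt⟩, hwin⟩, hd1⟩, hd2⟩,
    hsm⟩, hwin2⟩, hsm2⟩
  intro h hh
  obtain ⟨L, hLd⟩ : ∃ L, L = Real.log (1 / δ) := ⟨_, rfl⟩
  have hL1 : 1 ≤ L := by rw [hLd]; exact log_inv_ge hδ hδ16
  have hL0 : 0 < L := by linarith
  have hX0 : (0 : ℝ) < X := by linarith
  have hδ1' : δ ≤ 1 := by linarith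
  have hrp : ∀ a : ℝ, δ ^ a = Real.exp (-(a * L)) := fun a => by rw [hLd]; exact CM.rpow_eq hδ a
  have hly : 0 < Real.log y := Real.log_pos (by linarith)
  rw [← hLd] at hy1 hK1 hv hNt
  have hKly : 0 ≤ (K + 1) * Real.log y := by positivity
  have hexpE : ∀ s : ℝ, s = Cc * (ca * L + 2 * L + 1) → Real.exp s ≤ Real.exp (B * L) := by
    intro s hs
    rw [hs, hB]
    apply Real.exp_le_exp.2
    nlinarith
  have hK45 : ((4 : ℝ) / 5) ^ K ≤ Real.exp (-((A + B) * L)) := by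
    have g1 : (4 : ℝ) / 5 ≤ Real.exp (-(1 / 5)) := by
      have := Real.add_one_le_exp (-(1 / 5 : ℝ))
      linarith
    calc ((4 : ℝ) / 5) ^ K ≤ Real.exp (-(1 / 5)) ^ K := pow_le_pow_left₀ (by norm_num) g1 K
      _ = Real.exp (-(K / 5)) := by
        rw [← Real.exp_nat_mul]
        congr 1
        ring
      _ ≤ _ := by
        apply Real.exp_le_exp.2
        nlinarith
  -- the set
  obtain ⟨N, hNm, hNX, hNj, hNv⟩ := setN h X (X ^ ((1:ℝ) / 2)) (δ ^ (D1 + 1) * X)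
    (by positivity) N0 hNm0 hNv0 hh
  have hNv' : volume (Set.Icc 0 X \ N) ≤ ENNReal.ofReal (δ ^ D1 * X) := by
    refine hNv.trans (ENNReal.ofReal_le_ofReal ?_)
    have k1 : X ^ ((1:ℝ) / 2) ≤ δ ^ (D1 + 1) * X := by
      have g7 : X ^ ((1 : ℝ) / 2) * X ^ ((1 : ℝ) / 2) = X := by
        rw [← Real.rpow_add hX0]
        norm_num
      have g8 : 0 < X ^ ((1 : ℝ) / 2) := Real.rpow_pos_of_pos hX0 _
      have g9 : δ ^ (D1 + 1) * δ ^ (-(D1 + 1)) = 1 := by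
        rw [← Real.rpow_add hδ, add_neg_cancel, Real.rpow_zero]
      have g10 : 0 < δ ^ (D1 + 1) := Real.rpow_pos_of_pos hδ _
      have g11 : 1 ≤ δ ^ (D1 + 1) * (1 * X ^ ((1 : ℝ) / 2)) :=
        g9.symm.le.trans (mul_le_mul_of_nonneg_left hwin2 g10.le)
      nlinarith
    have k2 : δ ^ (D1 + 1) = δ ^ D1 * δ := by
      rw [Real.rpow_add hδ, Real.rpow_one]
    have k3 : 2 * (m : ℝ) * δ ≤ 1 := by simpa using hsm2
    have k4 : 0 < δ ^ D1 := Real.rpow_pos_of_pos hδ _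
    have k5 : (0 : ℝ) ≤ m := Nat.cast_nonneg m
    calc (m : ℝ) * (X ^ ((1:ℝ) / 2) + δ ^ (D1 + 1) * X) ≤ m * (δ ^ (D1 + 1) * X + δ ^ (D1 + 1) * X) := by
          gcongr
      _ = (2 * m * δ) * (δ ^ D1 * X) := by rw [k2]; ring
      _ ≤ 1 * (δ ^ D1 * X) := mul_le_mul_of_nonneg_right k3 (by positivity)
      _ = δ ^ D1 * X := one_mul _
  -- pointwise comparison
  have hpt : ∀ t ∈ N, ∀ (b : Fin m → ℂ) (n : Fin m → ℤ), (∀ j, ‖b j‖ ≤ R) →
      (∀ j, |((n j : ℤ) : ℝ)| ≤ R) →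
      ‖(∏ j, ZZ (riemannZeta (pw δ (t + h j))) (b j) (n j)) - AV (sp b n) h y K (pw δ t) *
        (starRingEnd ℂ) (AV (cj (sm b n)) h y K (pw δ t))‖ ≤ δ ^ (E + 2) := by
    intro t ht b n hb hn
    have hre : 1 / 2 ≤ (pw δ t).re := by
      unfold pw
      simp
      linarith
    have g1 : ∀ j, ‖∑ p ∈ PA y, (p:ℂ) ^ (-(pw δ t + h j * I))‖ ≤ ca * L := by
      intro j
      rw [pw_add]
      exact (hNt _ (hNj t ht j)).1
    have k1 : ∀ j, ‖riemannZeta (pw δ t + h j * I) * AS (-1) y K (pw δ t + h j * I) - 1‖ ≤ δ ^ A := by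
      intro j
      rw [pw_add]
      exact (hNt _ (hNj t ht j)).2.trans (Real.rpow_le_rpow_of_exponent_ge hδ hδ1' (by linarith))
    have k2 : (4 / 5 : ℝ) ^ K * Real.exp (Cc * (ca * L + 2 * L + 1)) ≤ δ ^ A := by
      rw [hrp]
      calc _ ≤ Real.exp (-((A + B) * L)) * Real.exp (B * L) :=
            mul_le_mul hK45 (hexpE _ rfl) (Real.exp_pos _).le (Real.exp_pos _).le
        _ = Real.exp (-(A * L)) := by
          rw [← Real.exp_add]
          congr 1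
          ring
    have k3 : δ ^ A * Real.exp (Cc * (ca * L + 2 * L + 1)) ≤ δ ^ (E + 2) := by
      rw [hrp, hrp]
      calc _ ≤ Real.exp (-(A * L)) * Real.exp (B * L) :=
            mul_le_mul_of_nonneg_left (hexpE _ rfl) (Real.exp_pos _).le
        _ = _ := by
          rw [← Real.exp_add, hA]
          congr 1
          ring
    have k4 : δ ^ (E + 2) ≤ 1 := Real.rpow_le_one hδ.le hδ1' (by positivity)
    have k5 := (hCc y K (pw δ t) h (ca * L) (2 * L) (δ ^ A) hy hre (by positivity) g1 hv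
      (Real.rpow_pos_of_pos hδ _) k1 k2 (k3.trans k4) b n hb hn).trans k3
    simp only [pw_add] at k5
    exact k5
  refine ⟨N, hNm, hNX, hNv'.trans (ENNReal.ofReal_le_ofReal (mul_le_mul_of_nonneg_right
    (Real.rpow_le_rpow_of_exponent_ge hδ hδ1' hD1D) hX0.le)), ?_, ?_⟩
  · intro t ht j h0
    have g2 := (hNt _ (hNj t ht j)).2
    rw [h0, zero_mul, zero_sub, norm_neg, norm_one] at g2
    have : δ ^ C < 1 := Real.rpow_lt_one hδ.le (by linarith) hC0p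
    linarith
  intro b n hb hn
  obtain ⟨s, hsd⟩ : ∃ s : Fin m → ℂ, s = sp b n := ⟨_, rfl⟩
  obtain ⟨r, hrd⟩ : ∃ r : Fin m → ℂ, r = sm b n := ⟨_, rfl⟩
  have hs : ∀ j, ‖s j‖ ≤ R := by
    intro j
    rw [hsd]
    unfold sp
    refine (norm_add_le _ _).trans ?_
    rw [norm_div, Complex.norm_intCast]
    have := hb j
    have := hn j
    norm_num
    linarith
  have hr : ∀ j, ‖r j‖ ≤ R := by
    intro j
    rw [hrd]
    unfold sm
    refine (norm_sub_le _ _).trans ?_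
    rw [norm_div, Complex.norm_intCast]
    have := hb j
    have := hn j
    norm_num
    linarith
  have hr' : ∀ j, ‖cj r j‖ ≤ R := by
    intro j
    unfold cj
    rw [RCLike.norm_conj]
    exact hr j
  have hcj : cj (cj r) = r := by
    funext j
    unfold cj
    rw [Complex.conj_conj]
  obtain ⟨P, hP⟩ : ∃ P : ℝ → ℂ, P = fun t => AV s h y K (pw δ t) := ⟨_, rfl⟩
  obtain ⟨Q, hQ⟩ : ∃ Q : ℝ → ℂ, Q = fun t => AV (cj r) h y K (pw δ t) := ⟨_, rfl⟩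
  have hPc : Continuous P := by rw [hP]; exact AV_cont s h y K δ
  have hQc : Continuous Q := by rw [hQ]; exact AV_cont _ h y K δ
  have hKC4 : C4 * ((K + 1) * Real.log y) ≤ Real.log X :=
    (mul_le_mul_of_nonneg_right hCC4 hKly).trans hKX
  obtain ⟨Z, hZ⟩ : ∃ Z : ℂ, Z = ∫ t in N, ∏ j, ZZ (riemannZeta (pw δ (t + h j))) (b j) (n j) := ⟨_, rfl⟩
  obtain ⟨I1, hI1⟩ : ∃ I1 : ℂ, I1 = ∫ t in N, P t * (starRingEnd ℂ) (Q t) := ⟨_, rfl⟩
  obtain ⟨I2, hI2⟩ : ∃ I2 : ℂ, I2 = ∫ t in (0:ℝ)..X, P t * (starRingEnd ℂ) (Q t) := ⟨_, rfl⟩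
  obtain ⟨S1, hS1⟩ : ∃ S1 : ℂ, S1 = ∑ n ∈ FS y K, dV s h n * (starRingEnd ℂ) (dV (cj r) h n) *
    (((n:ℝ) ^ (-(1 + 2 * δ)) : ℝ) : ℂ) := ⟨_, rfl⟩
  obtain ⟨S2, hS2⟩ : ∃ S2 : ℂ, S2 = ∑' n : ℕ, dV s h n * (starRingEnd ℂ) (dV (cj r) h n) *
    (((n:ℝ) ^ (-(1 + 2 * δ)) : ℝ) : ℂ) := ⟨_, rfl⟩
  obtain ⟨q, hq⟩ : ∃ q : ℝ, q = δ ^ (E + 2) := ⟨_, rfl⟩
  have hq0 : 0 < q := by rw [hq]; exact Real.rpow_pos_of_pos hδ _
  have t1 : ‖Z - I1‖ ≤ q * X := by
    rw [hZ, hI1]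
    refine CM.cmpN _ _ (prod_meas δ hδ hδ16 h b n) (hPc.mul (Complex.continuous_conj.comp hQc)) X hX0.le N
      hNm hNX q hq0.le ?_
    intro t ht
    rw [hP, hQ, hq, hsd, hrd]
    exact hpt t ht b n (fun j => (hb j).trans hR0R) (fun j => (hn j).trans hR0R)
  have t2 : ‖I1 - I2‖ ≤ q * X := by
    rw [hI1, hI2]
    have hl0 : 0 < δ ^ ((D1 + C4) / 2) := Real.rpow_pos_of_pos hδ _
    have g1 := CM.bad P Q hPc hQc X hX0.le N hNm hNX (X * δ ^ (-C4)) (δ ^ D1 * X)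
      (δ ^ ((D1 + C4) / 2)) hl0 (by positivity)
      (by rw [hP]; exact hC4 y K δ X hy hδ hδ16 hX0 hKC4 s h hs)
      (by rw [hQ]; exact hC4 y K δ X hy hδ hδ16 hX0 hKC4 _ h hr') hNv'
    refine g1.trans ?_
    have g2 : δ ^ ((D1 + C4) / 2) * δ ^ (-C4) = δ ^ ((D1 - C4) / 2) := by
      rw [← Real.rpow_add hδ]
      congr 1
      ring
    have g3 : δ ^ D1 / δ ^ ((D1 + C4) / 2) = δ ^ ((D1 - C4) / 2) := by
      rw [← Real.rpow_sub hδ]
      congr 1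
      ring
    have g4 : δ ^ ((D1 - C4) / 2) ≤ q := by
      rw [hq]
      exact Real.rpow_le_rpow_of_exponent_ge hδ hδ1' (by linarith)
    have e : δ ^ ((D1 + C4) / 2) / 2 * (X * δ ^ (-C4)) + δ ^ D1 * X / (2 * δ ^ ((D1 + C4) / 2)) =
        (δ ^ ((D1 + C4) / 2) * δ ^ (-C4)) * X / 2 + (δ ^ D1 / δ ^ ((D1 + C4) / 2)) * X / 2 := by
      field_simp
    rw [e, g2, g3]
    nlinarith
  have t3 : ‖I2 - X * S1‖ ≤ q * X := by
    have g1 := hV (FS y K) (Real.exp (K * Real.log y)) (dV s h) (dV (cj r) h)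
      (hC0' y hy K).1 δ X hδ.le hX0.le
    rw [← hS1] at g1
    have e2 : (∫ t in (0:ℝ)..X, (∑ n ∈ FS y K, dV s h n * (n:ℂ) ^ (-(pw δ t))) *
      (starRingEnd ℂ) (∑ n ∈ FS y K, dV (cj r) h n * (n:ℂ) ^ (-(pw δ t)))) = I2 := by
      rw [hI2, hP, hQ]
      rfl
    rw [e2] at g1
    refine g1.trans ?_
    have g2 := hC0 y hy K s h hs
    have g3 := hC0 y hy K _ h hr'
    have g4 : 4 * Real.exp (K * Real.log y) * (∑ n ∈ FS y K, ‖dV s h n‖) *
        (∑ n ∈ FS y K, ‖dV (cj r) h n‖) ≤ 4 * Real.exp (K * Real.log y) *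
        Real.exp (C0 * ((K + 1) * Real.log y)) * Real.exp (C0 * ((K + 1) * Real.log y)) := by
      have k1 : 0 ≤ ∑ n ∈ FS y K, ‖dV (cj r) h n‖ :=
        Finset.sum_nonneg fun _ _ => norm_nonneg _
      have k2 : 0 ≤ ∑ n ∈ FS y K, ‖dV s h n‖ := Finset.sum_nonneg fun _ _ => norm_nonneg _
      gcongr
    refine g4.trans ?_
    have g5 : 4 * Real.exp (K * Real.log y) *
        Real.exp (C0 * ((K + 1) * Real.log y)) * Real.exp (C0 * ((K + 1) * Real.log y)) ≤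
        4 * X ^ ((1 : ℝ) / 2) := by
      rw [mul_assoc, mul_assoc, ← Real.exp_add, ← Real.exp_add, Real.rpow_def_of_pos hX0]
      refine mul_le_mul_of_nonneg_left (Real.exp_le_exp.2 ?_) (by norm_num)
      have k1 := (mul_le_mul_of_nonneg_right hCC0 hKly).trans hKX
      nlinarith
    refine g5.trans ?_
    have g6 : q * δ ^ (-(E + 2)) = 1 := by
      rw [hq, ← Real.rpow_add hδ, add_neg_cancel, Real.rpow_zero]
    have g7 : X ^ ((1 : ℝ) / 2) * X ^ ((1 : ℝ) / 2) = X := by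
      rw [← Real.rpow_add hX0]
      norm_num
    have g8 : 0 < X ^ ((1 : ℝ) / 2) := Real.rpow_pos_of_pos hX0 _
    have g9 : 1 ≤ q * (1 / 4 * X ^ ((1 : ℝ) / 2)) :=
      g6.symm.le.trans (mul_le_mul_of_nonneg_left hwin hq0.le)
    nlinarith
  have t4 : ‖S1 - S2‖ ≤ q := by
    rw [hS1, hS2, hq]
    exact hC1 δ hδ hd1 y K hy ((mul_le_mul_of_nonneg_right hCC1 (by rw [← hLd]; exact hL0.le)).trans
      (by rw [← hLd]; exact hy1)) ((mul_le_mul_of_nonneg_right hCC1 (by rw [← hLd]; exact hL0.le)).trans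
      (by rw [← hLd]; exact hK1)) s r h hs hr
  have t5 : ‖Complex.exp (-(LM s r h δ)) * S2 - aV s r h‖ ≤ ε / 2 := by
    rw [hS2]
    exact hδ2 δ hδ hd2 s r h hs hr
  have t6 : ‖Complex.exp (-(LM s r h δ))‖ ≤ δ ^ (-E) := by
    rw [hE]
    exact LM_norm hδ hδ16 hR.le hL s r h hs hr
  rw [← hsd, ← hrd]
  obtain ⟨u, hu⟩ : ∃ u : ℂ, u = Complex.exp (-(LM s r h δ)) := ⟨_, rfl⟩
  rw [← hZ, ← hu]
  rw [← hu] at t5 t6
  have e : u * Z - X * aV s r h = u * ((Z - I1) + (I1 - I2) + (I2 - X * S1) + X * (S1 - S2)) +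
      X * (u * S2 - aV s r h) := by ring
  rw [e]
  have n1 : ‖(Z - I1) + (I1 - I2) + (I2 - X * S1) + X * (S1 - S2)‖ ≤ 4 * (q * X) := by
    have k1 := norm_add_le ((Z - I1) + (I1 - I2) + (I2 - X * S1)) (X * (S1 - S2))
    have k2 := norm_add_le ((Z - I1) + (I1 - I2)) (I2 - X * S1)
    have k3 := norm_add_le (Z - I1) (I1 - I2)
    have k4 : ‖(X : ℂ) * (S1 - S2)‖ ≤ q * X := by
      rw [norm_mul, Complex.norm_real, Real.norm_eq_abs, abs_of_pos hX0, mul_comm]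
      exact mul_le_mul_of_nonneg_right t4 hX0.le
    linarith
  have n2 : ‖u * ((Z - I1) + (I1 - I2) + (I2 - X * S1) + X * (S1 - S2))‖ ≤ ε / 2 * X := by
    rw [norm_mul]
    refine (mul_le_mul t6 n1 (norm_nonneg _) (Real.rpow_pos_of_pos hδ _).le).trans ?_
    have k1 : δ ^ (-E) * q = δ ^ (2 : ℝ) := by
      rw [hq, ← Real.rpow_add hδ]
      congr 1
      ring
    calc δ ^ (-E) * (4 * (q * X)) = (4 * (δ ^ (-E) * q)) * X := by ring
      _ = (4 * δ ^ (2 : ℝ)) * X := by rw [k1]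
      _ ≤ ε / 2 * X := mul_le_mul_of_nonneg_right hsm hX0.le
  have n3 : ‖(X : ℂ) * (u * S2 - aV s r h)‖ ≤ ε / 2 * X := by
    rw [norm_mul, Complex.norm_real, Real.norm_eq_abs, abs_of_pos hX0, mul_comm]
    exact mul_le_mul_of_nonneg_right t5 hX0.le
  refine (norm_add_le _ _).trans ?_
  linarith

end Pool.Agent.N748.MJ.JM
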