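import Pool.Agent.N748.MJ.Stm

set_option autoImplicit false

/-! (KO): shifts of the order of the distance to the critical line. -/

namespace Pool.Agent.N748.MJ.KO

open Finset Filter MeasureTheory Topology Complex
open Pool.Agent.N748.MG

theorem zeta_lim {d : ℝ → ℝ} (hd : Ad d) (u : ℝ) :
    Tendsto (fun T : ℝ => (2 * d T) *
      ‖riemannZeta (((1 + 2 * d T : ℝ) : ℂ) + ((d T * u : ℝ) : ℂ) * I)‖) atTop
      (𝓝 ((1 + (u / 2) ^ 2) ^ (-(1 / 2 : ℝ)))) := by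
  have hs1 : ∀ T : ℝ, (((1 + 2 * d T : ℝ) : ℂ) + ((d T * u : ℝ) : ℂ) * I) - 1 =
      ((2 * d T : ℝ) : ℂ) * (((1 : ℝ) : ℂ) + ((u / 2 : ℝ) : ℂ) * I) := by
    intro T
    push_cast
    ring
  have hcn : ‖(((1 : ℝ) : ℂ) + ((u / 2 : ℝ) : ℂ) * I)‖ = Real.sqrt (1 + (u / 2) ^ 2) := by
    rw [Complex.norm_add_mul_I]
    simp
  have hpos : 0 < 1 + (u / 2) ^ 2 := by positivity
  have ht : Tendsto (fun T : ℝ => (((1 + 2 * d T : ℝ) : ℂ) + ((d T * u : ℝ) : ℂ) * I)) atTop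
      (𝓝[≠] 1) := by
    rw [tendsto_nhdsWithin_iff]
    constructor
    · have h1 : Tendsto (fun T : ℝ => (((1 + 2 * d T : ℝ) : ℂ) + ((d T * u : ℝ) : ℂ) * I)) atTop
          (𝓝 (((1 + 2 * 0 : ℝ) : ℂ) + ((0 * u : ℝ) : ℂ) * I)) := by
        have hc : Continuous fun y : ℝ => (((1 + 2 * y : ℝ) : ℂ) + ((y * u : ℝ) : ℂ) * I) := by
          fun_prop
        exact (hc.tendsto 0).comp hd.t0
      simpa using h1
    · filter_upwards [hd.pos] with T hT
      intro h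
      have h1 : (((1 + 2 * d T : ℝ) : ℂ) + ((d T * u : ℝ) : ℂ) * I).re = (1 : ℂ).re :=
        congrArg Complex.re h
      simp at h1
      linarith
  have h2 := (riemannZeta_residue_one.comp ht).norm
  have h3 := h2.div_const (Real.sqrt (1 + (u / 2) ^ 2))
  rw [norm_one] at h3
  have e1 : (1 + (u / 2) ^ 2) ^ (-(1 / 2 : ℝ)) = 1 / Real.sqrt (1 + (u / 2) ^ 2) := by
    rw [Real.rpow_neg hpos.le, ← Real.sqrt_eq_rpow, one_div]
  rw [e1]
  refine h3.congr' ?_
  filter_upwards [hd.pos] with T hT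
  have hq : Real.sqrt (1 + (u / 2) ^ 2) ≠ 0 := (Real.sqrt_pos.2 hpos).ne'
  show ‖((((1 + 2 * d T : ℝ) : ℂ) + ((d T * u : ℝ) : ℂ) * I) - 1) *
    riemannZeta (((1 + 2 * d T : ℝ) : ℂ) + ((d T * u : ℝ) : ℂ) * I)‖ /
      Real.sqrt (1 + (u / 2) ^ 2) = _
  rw [hs1, norm_mul, norm_mul, hcn, Complex.norm_real, Real.norm_of_nonneg (by positivity)]
  field_simp

theorem alg (J a z w : ℝ) (h : a * z ≠ 0) : J / (a * z) * (a * (w * z)) = w * J := by
  calc J / (a * z) * (a * (w * z)) = (J / (a * z) * (a * z)) * w := by ring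
    _ = w * J := by rw [div_mul_cancel₀ _ h, mul_comm]

theorem main (hS : S_SM) (hA : S_AV0) (hC : S_CONV) (_hP : S_POSV) : S_KO := by
  intro d hd m k x V hk hkV
  have hh : ∀ᶠ T : ℝ in atTop, ∀ j, |(fun (T : ℝ) (j : Fin m) => d T * x j) T j| ≤
      T ^ ((1:ℝ) / 2) := by
    rw [eventually_all]
    intro j
    have h1 : Tendsto (fun T : ℝ => |d T * x j|) atTop (𝓝 0) := by
      have := (hd.t0.mul_const (x j)).abs
      simpa using this
    filter_upwards [h1.eventually_le_const zero_lt_one, eventually_ge_atTop 1] with T h2 h3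
    exact h2.trans (Real.one_le_rpow h3 (by norm_num))
  have hI := hS d hd m k V hk hkV (fun T j => d T * x j) hh
  have hpi : Tendsto (fun (T : ℝ) (j : Fin m) => d T * x j) atTop (𝓝 (fun _ => 0)) := by
    rw [tendsto_pi_nhds]
    intro j
    simpa using hd.t0.mul_const (x j)
  have ha : Tendsto (fun T : ℝ => (aV (fun j => (k j : ℂ)) (fun j => (k j : ℂ))
      (fun j : Fin m => d T * x j)).re) atTop (𝓝 (aC ((∑ j, k j : ℝ) : ℂ)).re) := by
    have h1 := ((hC m).tendsto ((fun j => (k j : ℂ)), (fun j => (k j : ℂ)), (fun _ => 0)))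
    have h2 : Tendsto (fun T : ℝ => (((fun j => (k j : ℂ)), (fun j => (k j : ℂ)),
        (fun j : Fin m => d T * x j)) : (Fin m → ℂ) × (Fin m → ℂ) × (Fin m → ℝ))) atTop
        (𝓝 ((fun j => (k j : ℂ)), (fun j => (k j : ℂ)), (fun _ => 0))) :=
      tendsto_const_nhds.prodMk_nhds (tendsto_const_nhds.prodMk_nhds hpi)
    have h3 := (Complex.continuous_re.tendsto _).comp (h1.comp h2)
    have h4 : aV (fun j => (k j : ℂ)) (fun j => (k j : ℂ)) (fun _ : Fin m => 0) =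
        aC ((∑ j, k j : ℝ) : ℂ) := by
      rw [hA m _ _ rfl]
      push_cast
      rfl
    simp only [h4] at h3
    exact h3
  have hz : Tendsto (fun T : ℝ => ∏ j, ∏ l, ((2 * d T) *
      ‖riemannZeta (((1 + 2 * d T : ℝ) : ℂ) + ((d T * x j - d T * x l : ℝ) : ℂ) * I)‖) ^
        (k j * k l)) atTop
      (𝓝 (∏ j, ∏ l, (1 + ((x j - x l) / 2) ^ 2) ^ (-(k j * k l / 2)))) := by
    refine tendsto_finsetProd _ fun j _ => tendsto_finsetProd _ fun l _ => ?_
    have hpos : 0 < 1 + ((x j - x l) / 2) ^ 2 := by positivity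
    have h1 := zeta_lim hd (x j - x l)
    have h2 := h1.rpow_const (p := k j * k l) (Or.inr (mul_pos (hk j) (hk l)).le)
    rw [← Real.rpow_mul hpos.le] at h2
    have e : -(1 / 2 : ℝ) * (k j * k l) = -(k j * k l / 2) := by ring
    rw [e] at h2
    refine h2.congr fun T => ?_
    rw [mul_sub]
  have hD := ha.mul hz
  have hfin := hI.mul hD
  rw [one_mul] at hfin
  refine hfin.congr' ?_
  filter_upwards [hI.eventually_ne one_ne_zero, hd.pos] with T hT hT2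
  have hp : 0 < 2 * d T := by positivity
  have e1 : ∀ j l : Fin m, ((2 * d T) *
      ‖riemannZeta (((1 + 2 * d T : ℝ) : ℂ) + ((d T * x j - d T * x l : ℝ) : ℂ) * I)‖) ^
        (k j * k l) = (2 * d T) ^ (k j * k l) *
      ‖riemannZeta (((1 + 2 * d T : ℝ) : ℂ) + ((d T * x j - d T * x l : ℝ) : ℂ) * I)‖ ^
        (k j * k l) := fun j l => Real.mul_rpow hp.le (norm_nonneg _)
  have e2 : ∏ j : Fin m, ∏ l : Fin m, (2 * d T) ^ (k j * k l) = (2 * d T) ^ ((∑ j, k j) ^ 2) := by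
    have e3 : ∀ j : Fin m, ∏ l : Fin m, (2 * d T) ^ (k j * k l) =
        (2 * d T) ^ (∑ l, k j * k l) := fun j => (Real.rpow_sum_of_pos hp _ _).symm
    rw [Finset.prod_congr rfl fun j _ => e3 j, ← Real.rpow_sum_of_pos hp]
    congr 1
    rw [sq, Finset.sum_mul_sum]
  have e4 : ∏ j : Fin m, ∏ l : Fin m, ((2 * d T) *
      ‖riemannZeta (((1 + 2 * d T : ℝ) : ℂ) + ((d T * x j - d T * x l : ℝ) : ℂ) * I)‖) ^
        (k j * k l) = (2 * d T) ^ ((∑ j, k j) ^ 2) * ∏ j : Fin m, ∏ l : Fin m,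
      ‖riemannZeta (((1 + 2 * d T : ℝ) : ℂ) + ((d T * x j - d T * x l : ℝ) : ℂ) * I)‖ ^
        (k j * k l) := by
    rw [← e2, ← Finset.prod_mul_distrib]
    refine Finset.prod_congr rfl fun j _ => ?_
    rw [← Finset.prod_mul_distrib]
    exact Finset.prod_congr rfl fun l _ => e1 j l
  rw [e4]
  rw [div_ne_zero_iff] at hT
  obtain ⟨-, hT3⟩ := hT
  exact alg _ _ _ _ hT3

end Pool.Agent.N748.MJ.KO
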