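import Pool.Agent.N748.MJ.Stm
import Pool.Agent.N748.MG.L4

set_option autoImplicit false

/-!
# The fourth moments of the polynomials with vectors of exponents (helper314, adapted from MG/L4
of helper130)
-/

namespace Pool.Agent.N748.MJ.L4V

open Finset Filter MeasureTheory Topology Complex
open Pool.Agent.N748.MG Pool.Agent.N748.MG.L4

/-- the coefficients of the square -/
noncomputable def cv (D : ℕ → ℂ) (y : ℝ) (K : ℕ) (n : ℕ) : ℂ :=
  ∑ q ∈ QQp y K with q.1 * q.2 = n, D q.1 * D q.2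

theorem sq_eq (D : ℕ → ℂ) (y : ℝ) (K : ℕ) (w : ℂ) :
    (∑ n ∈ FS y K, D n * (n:ℂ) ^ (-w)) ^ 2 = ∑ n ∈ F2 y K, cv D y K n * (n : ℂ) ^ (-w) := by
  classical
  rw [sq, Finset.sum_mul_sum, ← Finset.sum_product']
  have h1 : ∀ q ∈ QQp y K, (fun q : ℕ × ℕ => q.1 * q.2) q ∈ F2 y K := fun q hq =>
    Finset.mem_image_of_mem _ hq
  have h2 := Finset.sum_fiberwise_of_maps_to h1
    (fun q : ℕ × ℕ => D q.1 * (q.1 : ℂ) ^ (-w) * (D q.2 * (q.2 : ℂ) ^ (-w)))
  have h3 : ∑ q ∈ FS y K ×ˢ FS y K, D q.1 * (q.1 : ℂ) ^ (-w) * (D q.2 * (q.2 : ℂ) ^ (-w)) =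
    ∑ q ∈ QQp y K, D q.1 * (q.1 : ℂ) ^ (-w) * (D q.2 * (q.2 : ℂ) ^ (-w)) := rfl
  rw [h3, ← h2]
  refine Finset.sum_congr rfl fun n _ => ?_
  unfold cv
  rw [Finset.sum_mul]
  refine Finset.sum_congr rfl fun q hq => ?_
  have h4 : q.1 * q.2 = n := (Finset.mem_filter.1 hq).2
  have h5 : (n : ℂ) ^ (-w) = (q.1 : ℂ) ^ (-w) * (q.2 : ℂ) ^ (-w) := by
    rw [← natCast_mul_natCast_cpow, ← h4]
    push_cast
    rfl
  rw [h5]
  ring

theorem sum_cv_le (D : ℕ → ℂ) (y : ℝ) (K : ℕ) :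
    ∑ n ∈ F2 y K, ‖cv D y K n‖ ≤ (∑ n ∈ FS y K, ‖D n‖) ^ 2 := by
  classical
  have h1 : ∀ q ∈ QQp y K, (fun q : ℕ × ℕ => q.1 * q.2) q ∈ F2 y K := fun q hq =>
    Finset.mem_image_of_mem _ hq
  have h2 := Finset.sum_fiberwise_of_maps_to h1 (fun q : ℕ × ℕ => ‖D q.1‖ * ‖D q.2‖)
  have h3 : ∑ q ∈ QQp y K, ‖D q.1‖ * ‖D q.2‖ = (∑ n ∈ FS y K, ‖D n‖) ^ 2 := by
    rw [sq, Finset.sum_mul_sum, ← Finset.sum_product']
    rfl
  rw [← h3, ← h2]
  refine Finset.sum_le_sum fun n _ => ?_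
  unfold cv
  refine (norm_sum_le _ _).trans (Finset.sum_le_sum fun q _ => ?_)
  rw [norm_mul]

theorem norm_cv_sq (D : ℕ → ℂ) (k : ℕ) (hk : 1 ≤ k) (hD : ∀ n, ‖D n‖ ≤ mf (B k) n) (y : ℝ) (K : ℕ) {n : ℕ} (hn : n ≠ 0) :
    ‖cv D y K n‖ ^ 2 ≤ mf (gg k) n := by
  classical
  have h1 : ‖cv D y K n‖ ≤ n.divisors.card * mf (B k) n ^ 2 := by
    unfold cv
    calc ‖∑ q ∈ QQp y K with q.1 * q.2 = n, D q.1 * D q.2‖
        ≤ ∑ q ∈ QQp y K with q.1 * q.2 = n, ‖D q.1 * D q.2‖ := norm_sum_le _ _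
      _ ≤ ∑ q ∈ QQp y K with q.1 * q.2 = n, mf (B k) n ^ 2 := by
          refine Finset.sum_le_sum fun q hq => ?_
          have h2 : q.1 * q.2 = n := (Finset.mem_filter.1 hq).2
          rw [norm_mul, sq]
          have h3 := (hD q.1).trans (mfB_dvd k hk (Dvd.intro _ h2) hn)
          have h4 := (hD q.2).trans (mfB_dvd k hk (Dvd.intro_left _ h2) hn)
          exact mul_le_mul h3 h4 (norm_nonneg _) (mf_nonneg _ (B_nonneg k) _)
      _ = (((QQp y K).filter fun q => q.1 * q.2 = n).card : ℝ) * mf (B k) n ^ 2 := by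
          rw [Finset.sum_const, nsmul_eq_mul]
      _ ≤ _ := by
          apply mul_le_mul_of_nonneg_right _ (by positivity)
          have h6 : ((QQp y K).filter fun q => q.1 * q.2 = n).card ≤ n.divisors.card := by
            apply Finset.card_le_card_of_injOn (fun q : ℕ × ℕ => q.1)
            · intro q hq
              have h5 : q.1 * q.2 = n := (Finset.mem_filter.1 hq).2
              exact Nat.mem_divisors.2 ⟨Dvd.intro _ h5, hn⟩
            · intro q hq q' hq' h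
              have h5 : q.1 * q.2 = n := (Finset.mem_filter.1 hq).2
              have h5' : q'.1 * q'.2 = n := (Finset.mem_filter.1 hq').2
              have h7 : q.1 = q'.1 := h
              have h8 : q.1 ≠ 0 := by
                intro h0
                rw [h0, zero_mul] at h5
                exact hn h5.symm
              rw [← h7, ← h5] at h5'
              exact Prod.ext h7 (Nat.eq_of_mul_eq_mul_left (Nat.pos_of_ne_zero h8) h5'.symm)
          exact_mod_cast h6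
  have h2 : ((n.divisors.card : ℝ) * mf (B k) n ^ 2) ^ 2 = mf (gg k) n := by
    rw [Nat.card_divisors hn]
    unfold mf gg
    push_cast
    rw [Finset.prod_mul_distrib, Finset.prod_pow, Finset.prod_pow]
    ring
  rw [← h2]
  exact pow_le_pow_left₀ (norm_nonneg _) h1 2

/-- (L4V) the fourth moments -/
theorem main (hB : S_BND) (hV : S_MVS) (hS : S_SIZ) (h4 : S_L4) : S_L4V := by
  intro m R hR
  obtain ⟨k0, hk0⟩ := hB m R hR
  obtain ⟨k, hk⟩ := exists_nat_ge (max (k0 : ℝ) 1)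
  have hkR : (k0 : ℝ) ≤ k := (le_max_left _ _).trans hk
  have hk1 : 1 ≤ k := by exact_mod_cast (le_max_right _ _).trans hk
  obtain ⟨C1, hC1, hsiz⟩ := hS k0 (Nat.cast_nonneg k0)
  set Cg : ℝ := ∑' m, gg k (m+1) * (1 / 2 : ℝ) ^ m with hCg
  have hCg0 : 0 ≤ Cg := tsum_nonneg fun m => by have := gg_nonneg k (m+1); positivity
  refine ⟨max (4 + 4 * C1) (Cg + 1), lt_max_of_lt_right (by linarith), ?_⟩
  intro y K δ X hy hδ hδ2 hX hlog s h hs
  set C : ℝ := max (4 + 4 * C1) (Cg + 1) with hC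
  obtain ⟨hN, hsum0⟩ := hsiz y hy K
  have hk0n : ‖(k0 : ℂ)‖ ≤ (k0 : ℝ) := by rw [Complex.norm_natCast]
  have hDk0 := (hk0 s h hs).2
  have hD : ∀ n, ‖dV s h n‖ ≤ mf (B k) n := fun n =>
    (hDk0 n).trans (norm_dS (k0 : ℂ) k (hk0n.trans hkR) n)
  have hsum : ∑ n ∈ FS y K, ‖dV s h n‖ ≤ Real.exp (C1 * ((K + 1) * Real.log y)) :=
    (Finset.sum_le_sum fun n _ => hDk0 n).trans (hsum0 (k0 : ℂ) hk0n)
  have hly : 0 < Real.log y := Real.log_pos (by linarith)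
  set E : ℝ := (K + 1) * Real.log y with hE
  have hE0 : 0 < E := by positivity
  have hlog2 : Real.log 2 ≤ E := by
    have h1 : Real.log 2 ≤ Real.log y := Real.log_le_log (by norm_num) hy
    have h2 : (1 : ℝ) ≤ (K : ℝ) + 1 := by
      have : (0 : ℝ) ≤ K := Nat.cast_nonneg _
      linarith
    rw [hE]
    nlinarith
  have hKE : K * Real.log y ≤ E := by rw [hE]; nlinarith
  -- the sizes
  have hF2 : ∀ n ∈ F2 y K, 1 ≤ n ∧ (n : ℝ) ≤ Real.exp (2 * E) := by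
    intro n hn
    refine ⟨Nat.one_le_iff_ne_zero.2 (F2_ne hn), ?_⟩
    unfold F2 QQp at hn
    obtain ⟨q, hq, rfl⟩ := Finset.mem_image.1 hn
    obtain ⟨h1, h2⟩ := Finset.mem_product.1 hq
    push_cast
    calc (q.1 : ℝ) * q.2 ≤ Real.exp (K * Real.log y) * Real.exp (K * Real.log y) :=
          mul_le_mul (hN q.1 h1).2 (hN q.2 h2).2 (Nat.cast_nonneg _) (Real.exp_pos _).le
      _ = Real.exp (2 * (K * Real.log y)) := by rw [← Real.exp_add]; congr 1; ring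
      _ ≤ _ := Real.exp_le_exp.2 (by linarith)
  have hmv := hV (F2 y K) (Real.exp (2 * E)) (cv (dV s h) y K) (cv (dV s h) y K) hF2 δ X hδ.le hX.le
  -- the integrals
  have hint : (∫ t in (0:ℝ)..X, (∑ n ∈ F2 y K, cv (dV s h) y K n * (n:ℂ) ^ (-(pw δ t))) *
      (starRingEnd ℂ) (∑ n ∈ F2 y K, cv (dV s h) y K n * (n:ℂ) ^ (-(pw δ t)))) =
      ((∫ t in (0:ℝ)..X, ‖AV s h y K (pw δ t)‖ ^ 4 : ℝ) : ℂ) := by
    rw [← intervalIntegral.integral_ofReal]
    apply intervalIntegral.integral_congr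
    intro t _
    simp only
    unfold AV
    rw [← sq_eq, Complex.mul_conj, Complex.normSq_eq_norm_sq, norm_pow]
    push_cast
    ring
  have hdiag : ∑ n ∈ F2 y K, cv (dV s h) y K n * (starRingEnd ℂ) (cv (dV s h) y K n) *
      (((n:ℝ) ^ (-(1 + 2 * δ)) : ℝ) : ℂ) =
      ((∑ n ∈ F2 y K, ‖cv (dV s h) y K n‖ ^ 2 * (n:ℝ) ^ (-(1 + 2 * δ)) : ℝ) : ℂ) := by
    rw [Complex.ofReal_sum]
    refine Finset.sum_congr rfl fun n _ => ?_
    rw [Complex.mul_conj, Complex.normSq_eq_norm_sq]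
    push_cast
    ring
  rw [hint, hdiag, ← Complex.ofReal_mul, ← Complex.ofReal_sub, Complex.norm_real, Real.norm_eq_abs] at hmv
  have h1 := (abs_le.1 hmv).2
  -- the diagonal
  have hd1 : ∑ n ∈ F2 y K, ‖cv (dV s h) y K n‖ ^ 2 * (n:ℝ) ^ (-(1 + 2 * δ)) ≤ δ ^ (-Cg) := by
    calc ∑ n ∈ F2 y K, ‖cv (dV s h) y K n‖ ^ 2 * (n:ℝ) ^ (-(1 + 2 * δ))
        ≤ ∑ n ∈ F2 y K, mf (gg k) n * (n:ℝ) ^ (-(1 + 2 * δ)) := by
          refine Finset.sum_le_sum fun n hn => ?_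
          apply mul_le_mul_of_nonneg_right _ (Real.rpow_nonneg (Nat.cast_nonneg _) _)
          exact norm_cv_sq (dV s h) k hk1 hD y K (F2_ne hn)
      _ ≤ (1 + 1 / (2 * δ)) ^ Cg :=
          sum_mf_le (gg k) (gg_zero k) (gg_nonneg k) (summ_poly _ (gg_nonneg k) _ (gg_le k))
            (by positivity) _
      _ ≤ (1 / δ) ^ Cg := by
          apply Real.rpow_le_rpow (by positivity) _ hCg0
          rw [le_div_iff₀ hδ]
          field_simp
          linarith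
      _ = δ ^ (-Cg) := by
          rw [one_div, Real.inv_rpow hδ.le, Real.rpow_neg hδ.le]
  -- the error
  have hs2 : ∑ n ∈ F2 y K, ‖cv (dV s h) y K n‖ ≤ Real.exp (2 * (C1 * E)) := by
    calc ∑ n ∈ F2 y K, ‖cv (dV s h) y K n‖ ≤ (∑ n ∈ FS y K, ‖dV s h n‖) ^ 2 := sum_cv_le (dV s h) y K
      _ ≤ (Real.exp (C1 * E)) ^ 2 := by
          apply pow_le_pow_left₀ (Finset.sum_nonneg fun _ _ => norm_nonneg _)
          exact hsum
      _ = _ := by rw [← Real.exp_nat_mul]; congr 1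
  have hs0 : 0 ≤ ∑ n ∈ F2 y K, ‖cv (dV s h) y K n‖ := Finset.sum_nonneg fun _ _ => norm_nonneg _
  have herr : 4 * Real.exp (2 * E) * (∑ n ∈ F2 y K, ‖cv (dV s h) y K n‖) * (∑ n ∈ F2 y K, ‖cv (dV s h) y K n‖) ≤ X := by
    calc 4 * Real.exp (2 * E) * (∑ n ∈ F2 y K, ‖cv (dV s h) y K n‖) * (∑ n ∈ F2 y K, ‖cv (dV s h) y K n‖)
        ≤ 4 * Real.exp (2 * E) * Real.exp (2 * (C1 * E)) * Real.exp (2 * (C1 * E)) := by gcongr
      _ ≤ Real.exp (2 * E) * Real.exp (2 * E) * Real.exp (2 * (C1 * E)) * Real.exp (2 * (C1 * E)) := by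
          have h4 : (4 : ℝ) ≤ Real.exp (2 * E) := by
            have h5 : (4 : ℝ) = Real.exp (2 * Real.log 2) := by
              rw [mul_comm, Real.exp_mul, Real.exp_log (by norm_num)]; norm_num
            rw [h5]
            exact Real.exp_le_exp.2 (by linarith)
          gcongr
      _ = Real.exp ((4 + 4 * C1) * E) := by
          rw [← Real.exp_add, ← Real.exp_add, ← Real.exp_add]; congr 1; ring
      _ ≤ Real.exp (Real.log X) := by
          apply Real.exp_le_exp.2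
          refine le_trans ?_ hlog
          exact mul_le_mul_of_nonneg_right (le_max_left _ _) hE0.le
      _ = X := Real.exp_log hX
  have hfin : X * δ ^ (-Cg) + X ≤ X * δ ^ (-C) := by
    have h6 : 1 ≤ δ ^ (-Cg) := by
      rw [Real.rpow_neg hδ.le]
      rw [← one_div, le_div_iff₀ (Real.rpow_pos_of_pos hδ _), one_mul]
      exact Real.rpow_le_one hδ.le (by linarith) hCg0
    have h7 : 2 * δ ^ (-Cg) ≤ δ ^ (-(Cg + 1)) := by
      have h8 : δ ^ (-(Cg + 1)) = δ ^ (-Cg) / δ := by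
        rw [show -(Cg + 1) = -Cg - 1 by ring, Real.rpow_sub_one hδ.ne']
      rw [h8, le_div_iff₀ hδ]
      nlinarith
    have h9 : δ ^ (-(Cg + 1)) ≤ δ ^ (-C) :=
      Real.rpow_le_rpow_of_exponent_ge hδ (by linarith) (by
        have := le_max_right (4 + 4 * C1) (Cg + 1)
        linarith)
    nlinarith
  have h10 : X * ∑ n ∈ F2 y K, ‖cv (dV s h) y K n‖ ^ 2 * (n:ℝ) ^ (-(1 + 2 * δ)) ≤ X * δ ^ (-Cg) :=
    mul_le_mul_of_nonneg_left hd1 hX.le
  linarith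

end Pool.Agent.N748.MJ.L4V
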