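import Pool.Agent.N748.MJ.Stm
import Pool.Agent.N748.MG.DIA1

set_option autoImplicit false

/-! The logarithm of zeta to the right of 1. -/

namespace Pool.Agent.N748.MJ.LZB

open Finset Filter Topology Complex
open Pool.Agent.N748.MG Pool.Agent.N748.MG.DIA1

lemma norm_neg_log_le {z : ℂ} (hz : ‖z‖ < 1) : ‖-Complex.log (1 - z)‖ ≤ -Real.log (1 - ‖z‖) := by
  have h1 := Complex.hasSum_taylorSeries_neg_log' hz
  have h2 := Real.hasSum_pow_div_log_of_abs_lt_one (x := ‖z‖) (by rwa [abs_of_nonneg (norm_nonneg z)])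
  rw [← h1.tsum_eq, ← h2.tsum_eq]
  have hn : ∀ n : ℕ, ‖z ^ (n + 1) / ((n : ℂ) + 1)‖ = ‖z‖ ^ (n + 1) / ((n : ℝ) + 1) := by
    intro n
    rw [norm_div, norm_pow]
    congr 1
    have : ((n : ℂ) + 1) = (((n : ℝ) + 1 : ℝ) : ℂ) := by push_cast; rfl
    rw [this, Complex.norm_real, Real.norm_of_nonneg (by positivity)]
  calc ‖∑' n : ℕ, z ^ (n + 1) / ((n : ℂ) + 1)‖ ≤ ∑' n : ℕ, ‖z ^ (n + 1) / ((n : ℂ) + 1)‖ := by
        apply norm_tsum_le_tsum_norm
        simp only [hn]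
        exact h2.summable
    _ = _ := tsum_congr hn

lemma logs_sum_nat {η : ℝ} (hη : 0 < η) (N : ℕ) :
    ∑ p ∈ N.primesBelow, -Real.log (1 - (p : ℝ) ^ (-(1 + η))) ≤ Real.log (1 + 1 / η) := by
  have hS := zeta_summable hη
  have hE := EulerProduct.prod_primesBelow_tsum_eq_tsum_smoothNumbers
    (f := fun n : ℕ => (n : ℝ) ^ (-(1 + η))) (by simp)
    (by intro m n _; push_cast; rw [Real.mul_rpow (by positivity) (by positivity)])
    hS.norm N
  have h1 : ∑' m : N.smoothNumbers, ((m : ℕ) : ℝ) ^ (-(1 + η)) ≤ 1 + 1 / η := by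
    refine le_trans ?_ (zeta_tsum hη)
    exact hS.tsum_subtype_le (fun n : ℕ => (n : ℝ) ^ (-(1 + η))) _ (fun n => by positivity)
  rw [← hE] at h1
  rw [Real.le_log_iff_exp_le (by positivity), Real.exp_sum]
  refine le_trans (le_of_eq ?_) h1
  apply Finset.prod_congr rfl
  intro p hp
  have hpp := Nat.prime_of_mem_primesBelow hp
  have hx0 : 0 ≤ (p : ℝ) ^ (-(1 + η)) := by positivity
  have hx1 : (p : ℝ) ^ (-(1 + η)) < 1 := by
    have := x_lt hpp hη
    have := inv_le_half hpp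
    linarith
  have h2 : ∑' n : ℕ, ((p ^ n : ℕ) : ℝ) ^ (-(1 + η)) = (1 - (p : ℝ) ^ (-(1 + η)))⁻¹ := by
    rw [← tsum_geometric_of_lt_one hx0 hx1]
    exact tsum_congr fun n => pow_rpow p n _
  rw [h2, Real.exp_neg, Real.exp_log (by linarith)]

lemma term_nonneg {η : ℝ} (hη : 0 < η) {p : ℕ} (hp : p.Prime) : 0 ≤ -Real.log (1 - (p : ℝ) ^ (-(1 + η))) := by
  have hx0 : 0 ≤ (p : ℝ) ^ (-(1 + η)) := by positivity
  have hx1 : (p : ℝ) ^ (-(1 + η)) < 1 := by
    have := x_lt hp hη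
    have := inv_le_half hp
    linarith
  have := Real.log_nonpos (by linarith : 0 ≤ 1 - (p : ℝ) ^ (-(1 + η))) (by linarith)
  linarith

lemma logs_sum {η : ℝ} (hη : 0 < η) (S : Finset Nat.Primes) :
    ∑ p ∈ S, -Real.log (1 - ((p : ℕ) : ℝ) ^ (-(1 + η))) ≤ Real.log (1 + 1 / η) := by
  classical
  obtain ⟨N, hN⟩ : ∃ N : ℕ, ∀ p ∈ S, (p : ℕ) < N :=
    ⟨S.sup (fun p => (p : ℕ)) + 1, fun p hp =>
      Nat.lt_succ_of_le (Finset.le_sup (f := fun p : Nat.Primes => (p : ℕ)) hp)⟩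
  refine le_trans ?_ (logs_sum_nat hη N)
  rw [← Finset.sum_image (s := S) (g := fun p : Nat.Primes => (p : ℕ))
    (f := fun p : ℕ => -Real.log (1 - (p : ℝ) ^ (-(1 + η)))) (fun a _ b _ h => Subtype.ext h)]
  apply Finset.sum_le_sum_of_subset_of_nonneg
  · intro q hq
    obtain ⟨p, hp, rfl⟩ := Finset.mem_image.1 hq
    exact Nat.mem_primesBelow.2 ⟨hN p hp, p.2⟩
  · intro p hp _
    exact term_nonneg hη (Nat.prime_of_mem_primesBelow hp)

theorem main : S_LZB := by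
  intro δ hδ hδ' u
  have hη : 0 < 2 * δ := by linarith
  constructor
  · have hsum : Summable fun p : Nat.Primes => -Real.log (1 - ((p : ℕ) : ℝ) ^ (-(1 + 2 * δ))) :=
      summable_of_sum_le (fun p => term_nonneg hη p.2) (logs_sum hη)
    have hb : ∀ p : Nat.Primes, ‖-Complex.log (1 - ((p : ℕ) : ℂ) ^ (-(((1 + 2 * δ : ℝ) : ℂ) + u * I)))‖ ≤
        -Real.log (1 - ((p : ℕ) : ℝ) ^ (-(1 + 2 * δ))) := by
      intro p
      have hn : ‖((p : ℕ) : ℂ) ^ (-(((1 + 2 * δ : ℝ) : ℂ) + u * I))‖ = ((p : ℕ) : ℝ) ^ (-(1 + 2 * δ)) := by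
        rw [Complex.norm_natCast_cpow_of_pos p.2.pos]
        congr 1
        simp
      have h1 := norm_neg_log_le (z := ((p : ℕ) : ℂ) ^ (-(((1 + 2 * δ : ℝ) : ℂ) + u * I))) (by
        rw [hn]
        have := x_lt p.2 hη
        have := inv_le_half p.2
        linarith)
      rwa [hn] at h1
    have h2 : ‖LZ (1 + 2 * δ) u‖ ≤ ∑' p : Nat.Primes, -Real.log (1 - ((p : ℕ) : ℝ) ^ (-(1 + 2 * δ))) :=
      tsum_of_norm_bounded hsum.hasSum hb
    refine h2.trans ((hsum.tsum_le_of_sum_le (logs_sum hη)).trans ?_)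
    apply Real.log_le_log (by positivity)
    have h3 : 1 / δ = 1 / (2 * δ) + 1 / (2 * δ) := by field_simp; norm_num
    have h4 : 1 ≤ 1 / (2 * δ) := by
      rw [le_div_iff₀ hη]; linarith
    linarith
  · have h1 : (1:ℝ) < (((1 + 2 * δ : ℝ) : ℂ) + u * I).re := by
      simp; linarith
    have h2 := riemannZeta_eulerProduct_exp_log h1
    unfold LZ
    exact h2

end Pool.Agent.N748.MJ.LZB
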