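import Pool.Agent.N748.MG.Res
import Pool.Agent.N748.MJ.BND
import Pool.Agent.N748.MJ.CMPV
import Pool.Agent.N748.MJ.DIA1V
import Pool.Agent.N748.MJ.DIA2V
import Pool.Agent.N748.MJ.EULV
import Pool.Agent.N748.MJ.GVB
import Pool.Agent.N748.MJ.JM
import Pool.Agent.N748.MJ.KO
import Pool.Agent.N748.MJ.L4V
import Pool.Agent.N748.MJ.LD2
import Pool.Agent.N748.MJ.LLT2
import Pool.Agent.N748.MJ.LZB
import Pool.Agent.N748.MJ.POSV
import Pool.Agent.N748.MJ.SM

set_option autoImplicit false

/-! Joint complex moments of shifts near the critical line: the theorems. -/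

namespace Pool.Agent.N748.MJ

open Pool.Agent.N748.MG

theorem bndF : S_BND := BND.main

theorem gvbF : S_GVB := GVB.main bndF

theorem cmpvF : S_CMPV := CMPV.main EULV.main EUL.main

theorem nicF : S_NIC := NIC.main Inp.zm2 Inp.xsa Inp.mea

theorem jmF : S_JM :=
  JM.main cmpvF MVS.main (DIA1V.sizv bndF SIZ.main) SIZ.main
    (L4V.main bndF MVS.main SIZ.main (L4.main MVS.main SIZ.main)) (DIA1V.main bndF DIA1.main)
    (DIA2V.main bndF gvbF LZB.main) LZB.main nicF

theorem posF : S_POSV := POSV.main bndF gvbF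

theorem conF : S_CONV := POSV.conv bndF gvbF

theorem av0F : S_AV0 := POSV.av0 bndF gvbF

theorem smF : S_SM := SM.main jmF posF LZB.main

theorem koF : S_KO := KO.main smF av0F conF posF

theorem ld2F : S_LD2 := LD2.main jmF LLT2.main conF av0F posF LZB.main

end Pool.Agent.N748.MJ
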