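import Pool.Agent.N748.MJ.Stm2
import Pool.Agent.N748.MJ.JM

set_option autoImplicit false

/-! Part JMF: joint complex moments outside tiny sets, the full main term (after helper50's JM). -/

namespace Pool.Agent.N748.MJ.JMF

open Finset Filter MeasureTheory Topology Complex
open Pool.Agent.N748.MG
open Pool.Agent.N748.MJ.JM

theorem main (hC : S_CMPV) (hV : S_MVS) (hS : S_SIZV) (hS0 : S_SIZ) (h4 : S_L4V) (h1 : S_DIA1V)
    (hN : S_NIC) : S_JMF := by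
  intro m R0 D hR0 hD
  obtain ⟨R, hRd⟩ : ∃ R : ℝ, R = 3 * R0 / 2 + 1 := ⟨_, rfl⟩
  have hR : 0 < R := by rw [hRd]; positivity
  have hR0R : R0 ≤ R := by rw [hRd]; linarith
  obtain ⟨E, hE⟩ : ∃ E : ℝ, E = D := ⟨_, rfl⟩
  have hE0 : 0 ≤ E := by rw [hE]; exact hD.le
  obtain ⟨C4, hC40, hC4⟩ := h4 m R hR.le
  obtain ⟨D1, hD1⟩ : ∃ D1, D1 = max D (C4 + 2 * E + 4) := ⟨_, rfl⟩
  have hD1D : D ≤ D1 := by rw [hD1]; exact le_max_left _ _
  have hD1C : C4 + 2 * E + 4 ≤ D1 := by rw [hD1]; exact le_max_right _ _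
  obtain ⟨ca, hca, hN'⟩ := hN (D1 + 1) (by linarith)
  obtain ⟨Cc, hCc0, hCc⟩ := hC m R hR.le
  obtain ⟨C0, hC00, hC0⟩ := hS m R hR.le
  obtain ⟨C0', hC00', hC0'⟩ := hS0 R hR.le
  obtain ⟨C1, δ1, hC10, hδ10, hC1⟩ := h1 m R (E + 2) hR.le (by positivity)
  obtain ⟨B, hB⟩ : ∃ B, B = Cc * (ca + 3) := ⟨_, rfl⟩
  have hB0 : 0 < B := by rw [hB]; positivity
  obtain ⟨A, hA⟩ : ∃ A, A = B + E + 2 := ⟨_, rfl⟩
  have hA0 : 0 < A := by rw [hA]; positivity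
  obtain ⟨C, hCd⟩ : ∃ C, C = 5 * (A + B) + C4 + C1 + 2 * (1 + 2 * C0) := ⟨_, rfl⟩
  have hCA : 5 * (A + B) ≤ C := by rw [hCd]; linarith
  have hCC4 : C4 ≤ C := by rw [hCd]; linarith
  have hCC1 : C1 ≤ C := by rw [hCd]; linarith
  have hCC0 : 2 * (1 + 2 * C0) ≤ C := by rw [hCd]; linarith
  have hC0p : 0 < C := by linarith
  have hEv := (((((hN' C hC0p).and (Ev.win (D := E + 2) (c := 1 / 4) (e := 1 / 2) (by norm_num)
    (by norm_num))).and (Ev.of_le hδ10))).and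
    (Ev.win (D := D1 + 1) (c := 1) (e := 1 / 2) (by norm_num) (by norm_num))).and
    (Ev.small (C := 2 * (m : ℝ)) (c := 1) (e := 1) (by norm_num) (by norm_num))
  refine hEv.mono ?_
  rintro X δ hX hδ hδ16 ⟨⟨⟨⟨⟨y, K, N0, hy, hy1, hK1, hKX, hv, hNm0, hNX0, hNv0, hNt⟩, hwin⟩, hd1⟩,
    hwin2⟩, hsm2⟩
  intro h hh
  obtain ⟨L, hLd⟩ : ∃ L, L = Real.log (1 / δ) := ⟨_, rfl⟩
  have hL1 : 1 ≤ L := by rw [hLd]; exact log_inv_ge hδ hδ16
  have hL0 : 0 < L := by linarith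
  have hX0 : (0 : ℝ) < X := by linarith
  have hδ1' : δ ≤ 1 := by linarith
  have hrp : ∀ a : ℝ, δ ^ a = Real.exp (-(a * L)) := fun a => by rw [hLd]; exact CM.rpow_eq hδ a
  have hly : 0 < Real.log y := Real.log_pos (by linarith)
  rw [← hLd] at hy1 hK1 hv hNt
  have hKly : 0 ≤ (K + 1) * Real.log y := by positivity
  have hexpE : ∀ s : ℝ, s = Cc * (ca * L + 2 * L + 1) → Real.exp s ≤ Real.exp (B * L) := by
    intro s hs
    rw [hs, hB]
    apply Real.exp_le_exp.2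
    nlinarith
  have hK45 : ((4 : ℝ) / 5) ^ K ≤ Real.exp (-((A + B) * L)) := by
    have g1 : (4 : ℝ) / 5 ≤ Real.exp (-(1 / 5)) := by
      have := Real.add_one_le_exp (-(1 / 5 : ℝ))
      linarith
    calc ((4 : ℝ) / 5) ^ K ≤ Real.exp (-(1 / 5)) ^ K := pow_le_pow_left₀ (by norm_num) g1 K
      _ = Real.exp (-(K / 5)) := by
        rw [← Real.exp_nat_mul]
        congr 1
        ring
      _ ≤ _ := by
        apply Real.exp_le_exp.2
        nlinarith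
  -- the set
  obtain ⟨N, hNm, hNX, hNj, hNv⟩ := setN h X (X ^ ((1:ℝ) / 2)) (δ ^ (D1 + 1) * X)
    (by positivity) N0 hNm0 hNv0 hh
  have hNv' : volume (Set.Icc 0 X \ N) ≤ ENNReal.ofReal (δ ^ D1 * X) := by
    refine hNv.trans (ENNReal.ofReal_le_ofReal ?_)
    have k1 : X ^ ((1:ℝ) / 2) ≤ δ ^ (D1 + 1) * X := by
      have g7 : X ^ ((1 : ℝ) / 2) * X ^ ((1 : ℝ) / 2) = X := by
        rw [← Real.rpow_add hX0]
        norm_num
      have g8 : 0 < X ^ ((1 : ℝ) / 2) := Real.rpow_pos_of_pos hX0 _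
      have g9 : δ ^ (D1 + 1) * δ ^ (-(D1 + 1)) = 1 := by
        rw [← Real.rpow_add hδ, add_neg_cancel, Real.rpow_zero]
      have g10 : 0 < δ ^ (D1 + 1) := Real.rpow_pos_of_pos hδ _
      have g11 : 1 ≤ δ ^ (D1 + 1) * (1 * X ^ ((1 : ℝ) / 2)) :=
        g9.symm.le.trans (mul_le_mul_of_nonneg_left hwin2 g10.le)
      nlinarith
    have k2 : δ ^ (D1 + 1) = δ ^ D1 * δ := by
      rw [Real.rpow_add hδ, Real.rpow_one]
    have k3 : 2 * (m : ℝ) * δ ≤ 1 := by simpa using hsm2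
    have k4 : 0 < δ ^ D1 := Real.rpow_pos_of_pos hδ _
    have k5 : (0 : ℝ) ≤ m := Nat.cast_nonneg m
    calc (m : ℝ) * (X ^ ((1:ℝ) / 2) + δ ^ (D1 + 1) * X) ≤ m * (δ ^ (D1 + 1) * X + δ ^ (D1 + 1) * X) := by
          gcongr
      _ = (2 * m * δ) * (δ ^ D1 * X) := by rw [k2]; ring
      _ ≤ 1 * (δ ^ D1 * X) := mul_le_mul_of_nonneg_right k3 (by positivity)
      _ = δ ^ D1 * X := one_mul _
  -- pointwise comparison
  have hpt : ∀ t ∈ N, ∀ (b : Fin m → ℂ) (n : Fin m → ℤ), (∀ j, ‖b j‖ ≤ R) →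
      (∀ j, |((n j : ℤ) : ℝ)| ≤ R) →
      ‖(∏ j, ZZ (riemannZeta (pw δ (t + h j))) (b j) (n j)) - AV (sp b n) h y K (pw δ t) *
        (starRingEnd ℂ) (AV (cj (sm b n)) h y K (pw δ t))‖ ≤ δ ^ (E + 2) := by
    intro t ht b n hb hn
    have hre : 1 / 2 ≤ (pw δ t).re := by
      unfold pw
      simp
      linarith
    have g1 : ∀ j, ‖∑ p ∈ PA y, (p:ℂ) ^ (-(pw δ t + h j * I))‖ ≤ ca * L := by
      intro j
      rw [pw_add]
      exact (hNt _ (hNj t ht j)).1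
    have k1 : ∀ j, ‖riemannZeta (pw δ t + h j * I) * AS (-1) y K (pw δ t + h j * I) - 1‖ ≤ δ ^ A := by
      intro j
      rw [pw_add]
      exact (hNt _ (hNj t ht j)).2.trans (Real.rpow_le_rpow_of_exponent_ge hδ hδ1' (by linarith))
    have k2 : (4 / 5 : ℝ) ^ K * Real.exp (Cc * (ca * L + 2 * L + 1)) ≤ δ ^ A := by
      rw [hrp]
      calc _ ≤ Real.exp (-((A + B) * L)) * Real.exp (B * L) :=
            mul_le_mul hK45 (hexpE _ rfl) (Real.exp_pos _).le (Real.exp_pos _).le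
        _ = Real.exp (-(A * L)) := by
          rw [← Real.exp_add]
          congr 1
          ring
    have k3 : δ ^ A * Real.exp (Cc * (ca * L + 2 * L + 1)) ≤ δ ^ (E + 2) := by
      rw [hrp, hrp]
      calc _ ≤ Real.exp (-(A * L)) * Real.exp (B * L) :=
            mul_le_mul_of_nonneg_left (hexpE _ rfl) (Real.exp_pos _).le
        _ = _ := by
          rw [← Real.exp_add, hA]
          congr 1
          ring
    have k4 : δ ^ (E + 2) ≤ 1 := Real.rpow_le_one hδ.le hδ1' (by positivity)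
    have k5 := (hCc y K (pw δ t) h (ca * L) (2 * L) (δ ^ A) hy hre (by positivity) g1 hv
      (Real.rpow_pos_of_pos hδ _) k1 k2 (k3.trans k4) b n hb hn).trans k3
    simp only [pw_add] at k5
    exact k5
  refine ⟨N, hNm, hNX, hNv'.trans (ENNReal.ofReal_le_ofReal (mul_le_mul_of_nonneg_right
    (Real.rpow_le_rpow_of_exponent_ge hδ hδ1' hD1D) hX0.le)), ?_, ?_⟩
  · intro t ht j h0
    have g2 := (hNt _ (hNj t ht j)).2
    rw [h0, zero_mul, zero_sub, norm_neg, norm_one] at g2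
    have : δ ^ C < 1 := Real.rpow_lt_one hδ.le (by linarith) hC0p
    linarith
  intro b n hb hn
  obtain ⟨s, hsd⟩ : ∃ s : Fin m → ℂ, s = sp b n := ⟨_, rfl⟩
  obtain ⟨r, hrd⟩ : ∃ r : Fin m → ℂ, r = sm b n := ⟨_, rfl⟩
  have hs : ∀ j, ‖s j‖ ≤ R := by
    intro j
    rw [hsd]
    unfold sp
    refine (norm_add_le _ _).trans ?_
    rw [norm_div, Complex.norm_intCast]
    have := hb j
    have := hn j
    norm_num
    linarith
  have hr : ∀ j, ‖r j‖ ≤ R := by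
    intro j
    rw [hrd]
    unfold sm
    refine (norm_sub_le _ _).trans ?_
    rw [norm_div, Complex.norm_intCast]
    have := hb j
    have := hn j
    norm_num
    linarith
  have hr' : ∀ j, ‖cj r j‖ ≤ R := by
    intro j
    unfold cj
    rw [RCLike.norm_conj]
    exact hr j
  have hcj : cj (cj r) = r := by
    funext j
    unfold cj
    rw [Complex.conj_conj]
  obtain ⟨P, hP⟩ : ∃ P : ℝ → ℂ, P = fun t => AV s h y K (pw δ t) := ⟨_, rfl⟩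
  obtain ⟨Q, hQ⟩ : ∃ Q : ℝ → ℂ, Q = fun t => AV (cj r) h y K (pw δ t) := ⟨_, rfl⟩
  have hPc : Continuous P := by rw [hP]; exact AV_cont s h y K δ
  have hQc : Continuous Q := by rw [hQ]; exact AV_cont _ h y K δ
  have hKC4 : C4 * ((K + 1) * Real.log y) ≤ Real.log X :=
    (mul_le_mul_of_nonneg_right hCC4 hKly).trans hKX
  obtain ⟨Z, hZ⟩ : ∃ Z : ℂ, Z = ∫ t in N, ∏ j, ZZ (riemannZeta (pw δ (t + h j))) (b j) (n j) := ⟨_, rfl⟩
  obtain ⟨I1, hI1⟩ : ∃ I1 : ℂ, I1 = ∫ t in N, P t * (starRingEnd ℂ) (Q t) := ⟨_, rfl⟩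
  obtain ⟨I2, hI2⟩ : ∃ I2 : ℂ, I2 = ∫ t in (0:ℝ)..X, P t * (starRingEnd ℂ) (Q t) := ⟨_, rfl⟩
  obtain ⟨S1, hS1⟩ : ∃ S1 : ℂ, S1 = ∑ n ∈ FS y K, dV s h n * (starRingEnd ℂ) (dV (cj r) h n) *
    (((n:ℝ) ^ (-(1 + 2 * δ)) : ℝ) : ℂ) := ⟨_, rfl⟩
  obtain ⟨S2, hS2⟩ : ∃ S2 : ℂ, S2 = ∑' n : ℕ, dV s h n * (starRingEnd ℂ) (dV (cj r) h n) *
    (((n:ℝ) ^ (-(1 + 2 * δ)) : ℝ) : ℂ) := ⟨_, rfl⟩
  obtain ⟨q, hq⟩ : ∃ q : ℝ, q = δ ^ (E + 2) := ⟨_, rfl⟩
  have hq0 : 0 < q := by rw [hq]; exact Real.rpow_pos_of_pos hδ _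
  have t1 : ‖Z - I1‖ ≤ q * X := by
    rw [hZ, hI1]
    refine CM.cmpN _ _ (prod_meas δ hδ hδ16 h b n) (hPc.mul (Complex.continuous_conj.comp hQc)) X hX0.le N
      hNm hNX q hq0.le ?_
    intro t ht
    rw [hP, hQ, hq, hsd, hrd]
    exact hpt t ht b n (fun j => (hb j).trans hR0R) (fun j => (hn j).trans hR0R)
  have t2 : ‖I1 - I2‖ ≤ q * X := by
    rw [hI1, hI2]
    have hl0 : 0 < δ ^ ((D1 + C4) / 2) := Real.rpow_pos_of_pos hδ _
    have g1 := CM.bad P Q hPc hQc X hX0.le N hNm hNX (X * δ ^ (-C4)) (δ ^ D1 * X)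
      (δ ^ ((D1 + C4) / 2)) hl0 (by positivity)
      (by rw [hP]; exact hC4 y K δ X hy hδ hδ16 hX0 hKC4 s h hs)
      (by rw [hQ]; exact hC4 y K δ X hy hδ hδ16 hX0 hKC4 _ h hr') hNv'
    refine g1.trans ?_
    have g2 : δ ^ ((D1 + C4) / 2) * δ ^ (-C4) = δ ^ ((D1 - C4) / 2) := by
      rw [← Real.rpow_add hδ]
      congr 1
      ring
    have g3 : δ ^ D1 / δ ^ ((D1 + C4) / 2) = δ ^ ((D1 - C4) / 2) := by
      rw [← Real.rpow_sub hδ]
      congr 1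
      ring
    have g4 : δ ^ ((D1 - C4) / 2) ≤ q := by
      rw [hq]
      exact Real.rpow_le_rpow_of_exponent_ge hδ hδ1' (by linarith)
    have e : δ ^ ((D1 + C4) / 2) / 2 * (X * δ ^ (-C4)) + δ ^ D1 * X / (2 * δ ^ ((D1 + C4) / 2)) =
        (δ ^ ((D1 + C4) / 2) * δ ^ (-C4)) * X / 2 + (δ ^ D1 / δ ^ ((D1 + C4) / 2)) * X / 2 := by
      field_simp
    rw [e, g2, g3]
    nlinarith
  have t3 : ‖I2 - X * S1‖ ≤ q * X := by
    have g1 := hV (FS y K) (Real.exp (K * Real.log y)) (dV s h) (dV (cj r) h)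
      (hC0' y hy K).1 δ X hδ.le hX0.le
    rw [← hS1] at g1
    have e2 : (∫ t in (0:ℝ)..X, (∑ n ∈ FS y K, dV s h n * (n:ℂ) ^ (-(pw δ t))) *
      (starRingEnd ℂ) (∑ n ∈ FS y K, dV (cj r) h n * (n:ℂ) ^ (-(pw δ t)))) = I2 := by
      rw [hI2, hP, hQ]
      rfl
    rw [e2] at g1
    refine g1.trans ?_
    have g2 := hC0 y hy K s h hs
    have g3 := hC0 y hy K _ h hr'
    have g4 : 4 * Real.exp (K * Real.log y) * (∑ n ∈ FS y K, ‖dV s h n‖) *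
        (∑ n ∈ FS y K, ‖dV (cj r) h n‖) ≤ 4 * Real.exp (K * Real.log y) *
        Real.exp (C0 * ((K + 1) * Real.log y)) * Real.exp (C0 * ((K + 1) * Real.log y)) := by
      have k1 : 0 ≤ ∑ n ∈ FS y K, ‖dV (cj r) h n‖ :=
        Finset.sum_nonneg fun _ _ => norm_nonneg _
      have k2 : 0 ≤ ∑ n ∈ FS y K, ‖dV s h n‖ := Finset.sum_nonneg fun _ _ => norm_nonneg _
      gcongr
    refine g4.trans ?_
    have g5 : 4 * Real.exp (K * Real.log y) *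
        Real.exp (C0 * ((K + 1) * Real.log y)) * Real.exp (C0 * ((K + 1) * Real.log y)) ≤
        4 * X ^ ((1 : ℝ) / 2) := by
      rw [mul_assoc, mul_assoc, ← Real.exp_add, ← Real.exp_add, Real.rpow_def_of_pos hX0]
      refine mul_le_mul_of_nonneg_left (Real.exp_le_exp.2 ?_) (by norm_num)
      have k1 := (mul_le_mul_of_nonneg_right hCC0 hKly).trans hKX
      nlinarith
    refine g5.trans ?_
    have g6 : q * δ ^ (-(E + 2)) = 1 := by
      rw [hq, ← Real.rpow_add hδ, add_neg_cancel, Real.rpow_zero]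
    have g7 : X ^ ((1 : ℝ) / 2) * X ^ ((1 : ℝ) / 2) = X := by
      rw [← Real.rpow_add hX0]
      norm_num
    have g8 : 0 < X ^ ((1 : ℝ) / 2) := Real.rpow_pos_of_pos hX0 _
    have g9 : 1 ≤ q * (1 / 4 * X ^ ((1 : ℝ) / 2)) :=
      g6.symm.le.trans (mul_le_mul_of_nonneg_left hwin hq0.le)
    nlinarith
  have t4 : ‖S1 - S2‖ ≤ q := by
    rw [hS1, hS2, hq]
    exact hC1 δ hδ hd1 y K hy ((mul_le_mul_of_nonneg_right hCC1 (by rw [← hLd]; exact hL0.le)).trans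
      (by rw [← hLd]; exact hy1)) ((mul_le_mul_of_nonneg_right hCC1 (by rw [← hLd]; exact hL0.le)).trans
      (by rw [← hLd]; exact hK1)) s r h hs hr
  rw [← hsd, ← hrd, ← hZ, ← hS2]
  have e : Z - X * S2 = ((Z - I1) + (I1 - I2) + (I2 - X * S1) + X * (S1 - S2)) := by ring
  have n1 : ‖(Z - I1) + (I1 - I2) + (I2 - X * S1) + X * (S1 - S2)‖ ≤ 4 * (q * X) := by
    have k1 := norm_add_le ((Z - I1) + (I1 - I2) + (I2 - X * S1)) (X * (S1 - S2))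
    have k2 := norm_add_le ((Z - I1) + (I1 - I2)) (I2 - X * S1)
    have k3 := norm_add_le (Z - I1) (I1 - I2)
    have k4 : ‖(X : ℂ) * (S1 - S2)‖ ≤ q * X := by
      rw [norm_mul, Complex.norm_real, Real.norm_eq_abs, abs_of_pos hX0, mul_comm]
      exact mul_le_mul_of_nonneg_right t4 hX0.le
    linarith
  rw [e]
  refine n1.trans ?_
  have k1 : q = δ ^ D * δ ^ (2 : ℝ) := by
    rw [hq, hE, ← Real.rpow_add hδ]
  have k2 : 4 * δ ^ (2 : ℝ) ≤ 1 := by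
    rw [show ((2:ℝ)) = ((2:ℕ):ℝ) by norm_num, Real.rpow_natCast]
    nlinarith
  have k3 : 0 < δ ^ D := Real.rpow_pos_of_pos hδ _
  calc 4 * (q * X) = (4 * δ ^ (2:ℝ)) * (δ ^ D * X) := by rw [k1]; ring
    _ ≤ 1 * (δ ^ D * X) := mul_le_mul_of_nonneg_right k2 (by positivity)
    _ = δ ^ D * X := one_mul _

end Pool.Agent.N748.MJ.JMF
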