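import Pool.Agent.N438.MJ.Tr

set_option autoImplicit false

/-! Project MJ, part KS: two shifts proportional to the distance to the line. Author: helper438. -/

namespace Pool.Agent.N748.MJ.KS

open Finset Filter MeasureTheory Topology Complex
open Pool.Agent.N748.MG Pool.Agent.N748.MJ
open Pool.Agent.N438.MJ.Tr

/-- the shifts -/
def hs (y : ℝ) : Fin 2 → ℝ := ![y, -y]

/-- the exponents -/
def ns (k : ℕ) : Fin 2 → ℤ := ![(k : ℤ), -(k : ℤ)]

lemma sp_eq (k : ℕ) : sp (fun _ => (k : ℂ) / 2) (ns k) = ![(k : ℂ), 0] := by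
  funext j
  fin_cases j
  · simp [sp, ns]
  · simp [sp, ns]
    ring

lemma sm_eq (k : ℕ) : sm (fun _ => (k : ℂ) / 2) (ns k) = ![0, (k : ℂ)] := by
  funext j
  fin_cases j
  · simp [sm, ns]
  · simp [sm, ns]
    ring

lemma LM_eq (k : ℕ) (y δ : ℝ) : LM ![(k : ℂ), 0] ![0, (k : ℂ)] (hs y) δ =
    ((k ^ 2 : ℕ) : ℂ) * LZ (1 + 2 * δ) (2 * y) := by
  unfold LM
  have e : y - -y = 2 * y := by ring
  simp [Fin.sum_univ_two, hs]
  rw [← e, pow_two]
  simp

lemma conj_r (δ y t : ℝ) : riemannZeta (1 / 2 + δ + I * y - I * t) =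
    (starRingEnd ℂ) (riemannZeta (pw δ (t + -y))) := by
  rw [← riemannZeta_conj]
  congr 1
  unfold pw
  simp [Complex.ext_iff]
  ring

lemma eq_l (δ y t : ℝ) : riemannZeta (1 / 2 + δ + I * y + I * t) =
    riemannZeta (pw δ (t + y)) := by
  congr 1
  unfold pw
  push_cast
  ring

lemma F_eq (k : ℕ) (δ y t : ℝ) :
    riemannZeta (1 / 2 + δ + I * y + I * t) ^ k * riemannZeta (1 / 2 + δ + I * y - I * t) ^ k =
    ∏ j, ZZ (riemannZeta (pw δ (t + hs y j))) ((k : ℂ) / 2) (ns k j) := by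
  rw [Fin.prod_univ_two, conj_r, eq_l]
  have e1 : hs y 0 = y := rfl
  have e2 : hs y 1 = -y := rfl
  have e3 : ns k 0 = (k : ℤ) := rfl
  have e4 : ns k 1 = -(k : ℤ) := rfl
  rw [e1, e2, e3, e4, ZZ_pos, ZZ_neg]

/-- the size of the main term -/
lemma LM_le (hL : S_LZB) {m : ℕ} {c : Fin m → ℝ} (hc : ∀ j, 0 ≤ c j) (h : Fin m → ℝ) {δ : ℝ}
    (hδ : 0 < δ) (hδ1 : δ ≤ 1 / 16) :
    ‖Complex.exp (LM (fun j => (c j : ℂ)) (fun j => (c j : ℂ)) h δ)‖ ≤ δ ^ (-((∑ j, c j) ^ 2)) := by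
  refine (Complex.norm_exp_le_exp_norm _).trans ?_
  rw [Real.rpow_def_of_pos hδ]
  apply Real.exp_le_exp.2
  have h1 : ‖LM (fun j => (c j : ℂ)) (fun j => (c j : ℂ)) h δ‖ ≤
      ∑ j, ∑ l, c j * c l * Real.log (1 / δ) := by
    unfold LM
    refine norm_sum_le_of_le _ fun j _ => norm_sum_le_of_le _ fun l _ => ?_
    rw [norm_mul, norm_mul, Complex.norm_real, Complex.norm_real, Real.norm_of_nonneg (hc j),
      Real.norm_of_nonneg (hc l)]
    exact mul_le_mul_of_nonneg_left (hL δ hδ hδ1 _).1 (mul_nonneg (hc j) (hc l))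
  refine h1.trans (le_of_eq ?_)
  have h2 : Real.log (1 / δ) = -Real.log δ := by rw [one_div, Real.log_inv]
  rw [h2, pow_two, Finset.sum_mul_sum]
  simp only [← Finset.sum_mul]
  ring

/-- the limit of the main term -/
lemma main_lim (hL : S_LZB) {d : ℝ → ℝ} (hd : Ad d) (k : ℕ) (x : ℝ) :
    Tendsto (fun T : ℝ => (((2 * d T) ^ ((k : ℝ) ^ 2) : ℝ) : ℂ) *
      Complex.exp (LM ![(k : ℂ), 0] ![0, (k : ℂ)] (hs (d T * x)) (d T))) atTop
      (𝓝 ((1 + I * x) ^ (-((k : ℂ) ^ 2)))) := by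
  have hx : (1 : ℂ) + I * x ≠ 0 := by
    intro h0
    have := congrArg Complex.re h0
    simp at this
  have h1 : Tendsto (fun T : ℝ => (1 : ℂ) + 2 * (d T : ℂ) * (1 + I * x)) atTop (𝓝[≠] 1) := by
    rw [tendsto_nhdsWithin_iff]
    constructor
    · have h2 : Tendsto (fun T : ℝ => (1 : ℂ) + 2 * (d T : ℂ) * (1 + I * x)) atTop
          (𝓝 ((1 : ℂ) + 2 * ((0 : ℝ) : ℂ) * (1 + I * x))) := by
        refine tendsto_const_nhds.add (Tendsto.mul_const _ (Tendsto.const_mul _ ?_))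
        exact (Complex.continuous_ofReal.tendsto 0).comp hd.t0
      simpa using h2
    · filter_upwards [hd.pos] with T hT
      rw [Set.mem_compl_iff, Set.mem_singleton_iff, add_eq_left]
      refine mul_ne_zero (mul_ne_zero two_ne_zero ?_) hx
      exact_mod_cast hT.ne'
  have h2 := riemannZeta_residue_one.comp h1
  have h3 : Tendsto (fun T : ℝ => (2 * (d T : ℂ)) * riemannZeta (1 + 2 * (d T : ℂ) * (1 + I * x)))
      atTop (𝓝 (1 + I * x)⁻¹) := by
    have h4 := h2.mul_const ((1 : ℂ) + I * x)⁻¹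
    rw [one_mul] at h4
    refine h4.congr fun T => ?_
    simp only [Function.comp_apply]
    field_simp
    ring
  have h5 := h3.pow (k ^ 2)
  have e1 : ((1 : ℂ) + I * x)⁻¹ ^ (k ^ 2) = (1 + I * x) ^ (-((k : ℂ) ^ 2)) := by
    rw [Complex.cpow_neg, inv_pow]
    congr 1
    rw [← Complex.cpow_natCast]
    push_cast
    rfl
  rw [e1] at h5
  refine h5.congr' ?_
  filter_upwards [hd.pos, (Ev.of_le (d := 1 / 16) (by norm_num)).app hd] with T hT hT2
  rw [LM_eq, Complex.exp_nat_mul, (hL (d T) hT hT2 _).2]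
  have e2 : ((2 * d T) ^ ((k : ℝ) ^ 2) : ℝ) = (2 * d T) ^ (k ^ 2) := by
    rw [← Real.rpow_natCast (2 * d T) (k ^ 2)]
    push_cast
    rfl
  rw [e2]
  push_cast
  rw [mul_pow]
  congr 3
  ring

theorem main (hJ : S_JM) (hP : S_POSV) (hL : S_LZB) (hC : S_CONV) (hA : S_AV0) : S_KS := by
  intro d hd k x V hkV
  set u : ℝ := V - k with hu
  have hu0 : 0 < u := by rw [hu]; linarith
  have hk0 : (0 : ℝ) ≤ k := Nat.cast_nonneg k
  have hV0 : 0 < V := by linarith
  set R : ℝ := k + u + 1 with hR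
  have hR0 : 0 < R := by positivity
  obtain ⟨_, CP, _, hCP0, hCP⟩ := hP 2 R hR0.le
  set D : ℝ := 2 * k * V + 1 with hD
  have hD0 : 0 < D := by positivity
  set W : ℝ → ℂ := fun T => (((2 * d T) ^ ((k : ℝ) ^ 2) : ℝ) : ℂ) *
      Complex.exp (LM ![(k : ℂ), 0] ![0, (k : ℂ)] (hs (d T * x)) (d T)) with hW
  set W0 : ℂ := (1 + I * x) ^ (-((k : ℂ) ^ 2)) with hW0
  have hWl : Tendsto W atTop (𝓝 W0) := main_lim hL hd k x
  set a : ℝ → ℂ := fun T => aV ![(k : ℂ), 0] ![0, (k : ℂ)] (hs (d T * x)) with ha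
  have hal : Tendsto a atTop (𝓝 (aC k)) := by
    have h1 : Tendsto (fun T => hs (d T * x)) atTop (𝓝 (fun _ => (0 : ℝ))) := by
      rw [tendsto_pi_nhds]
      have h0 : Tendsto (fun T => d T * x) atTop (𝓝 0) := by
        have := hd.t0.mul_const x
        rwa [zero_mul] at this
      intro j
      fin_cases j
      · exact h0
      · have := h0.neg
        rwa [neg_zero] at this
    have h2 := ((hC 2).tendsto ((![(k : ℂ), 0], ![0, (k : ℂ)], fun _ => (0 : ℝ)) :
      (Fin 2 → ℂ) × (Fin 2 → ℂ) × (Fin 2 → ℝ))).comp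
      ((tendsto_const_nhds (x := (![(k : ℂ), 0] : Fin 2 → ℂ))).prodMk_nhds
        ((tendsto_const_nhds (x := (![0, (k : ℂ)] : Fin 2 → ℂ))).prodMk_nhds h1))
    have h3 := hA 2 ![(k : ℂ), 0] ![0, (k : ℂ)] (by simp [Fin.sum_univ_two])
    have h4 : ∑ j, (![(k : ℂ), 0] : Fin 2 → ℂ) j = k := by simp [Fin.sum_univ_two]
    rw [h4] at h3
    simp only [h3] at h2
    exact h2
  have hlim := hal.mul hWl
  refine Tendsto.congr_dist hlim ?_
  rw [Metric.tendsto_nhds]
  intro ε hε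
  set A : ℝ := ‖W0‖ + 1 with hAd
  have hA0 : 0 < A := by positivity
  set ε' : ℝ := min 1 (ε / (4 * A)) with hε'
  have hε'0 : 0 < ε' := lt_min one_pos (by positivity)
  have g1 := (hJ 2 R D hR0 hD0 ε' hε'0).app hd
  have g2 := (Ev.small (C := 2 ^ ((k : ℝ) ^ 2 + 2 * u * V) * (2 * (CP + 1))) (c := u ^ 2) (e := ε / 4)
    (by positivity) (by positivity)).app hd
  have g2' := (Ev.small (C := 2 ^ ((k : ℝ) ^ 2 - 2 * k * V)) (c := (k : ℝ) ^ 2 + 1) (e := ε / 4)
    (by positivity) (by positivity)).app hd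
  have g3 := (Ev.of_le (d := 1 / 16) (by norm_num)).app hd
  have g6 : ∀ᶠ T in atTop, ‖W T‖ < A := hWl.norm.eventually_lt_const (by rw [hAd]; linarith)
  have g7 : ∀ᶠ T : ℝ in atTop, |x| ≤ T ^ ((1:ℝ) / 2) :=
    (tendsto_rpow_atTop (by norm_num : (0:ℝ) < 1 / 2)).eventually_ge_atTop _
  filter_upwards [g1, g2, g2', g3, hd.pos, g6, g7, eventually_gt_atTop 0] with T g1 g2 g2' g3 g4 g6 g7 hT
  set δ : ℝ := d T with hδ
  set h : Fin 2 → ℝ := hs (δ * x) with hh
  have hx1 : |δ * x| ≤ T ^ ((1:ℝ) / 2) := by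
    rw [abs_mul, abs_of_pos g4]
    have := abs_nonneg x
    nlinarith
  obtain ⟨N, n1, n2, n3, n4, n5⟩ := g1 h (fun j => by
    fin_cases j
    · exact hx1
    · show |-(δ * x)| ≤ _
      rw [abs_neg]
      exact hx1)
  set E : Set ℝ := {t : ℝ | t ∈ Set.Icc 0 T ∧ mz δ (t + δ * x) ≤ (2 * δ) ^ (-V) ∧
    mz δ (t - δ * x) ≤ (2 * δ) ^ (-V)} with hE
  have hEm : MeasurableSet E := by
    refine measurableSet_Icc.inter (MeasurableSet.inter ?_ ?_)
    · exact measurableSet_le ((cont g3).comp (continuous_id.add continuous_const)).measurable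
        measurable_const
    · exact measurableSet_le ((cont g3).comp (continuous_id.sub continuous_const)).measurable
        measurable_const
  have hE2 : ∀ t ∈ E, ∀ j, mz δ (t + h j) ≤ (2 * δ) ^ (-V) := by
    intro t ht j
    fin_cases j
    · exact ht.2.1
    · have := ht.2.2
      rwa [sub_eq_add_neg] at this
  have hE3 : ∀ t ∈ Set.Icc 0 T, t ∉ E → ∃ j, (2 * δ) ^ (-V) < mz δ (t + h j) := by
    intro t ht htE
    by_contra hcon
    push Not at hcon
    refine htE ⟨ht, hcon 0, ?_⟩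
    have := hcon 1
    rw [sub_eq_add_neg]
    exact this
  set F : ℝ → ℂ := fun t => riemannZeta (1 / 2 + δ + I * (δ * x) + I * t) ^ k *
    riemannZeta (1 / 2 + δ + I * (δ * x) - I * t) ^ k with hF
  have hFeq : ∀ t, F t = ∏ j, ZZ (riemannZeta (pw δ (t + h j))) ((k : ℂ) / 2) (ns k j) := by
    intro t
    have := F_eq k δ (δ * x) t
    push_cast at this
    exact this
  have hFe2 : ∀ t, F t = riemannZeta (pw δ (t + δ * x)) ^ k *
      ((starRingEnd ℂ) (riemannZeta (pw δ (t + -(δ * x))))) ^ k := by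
    intro t
    have e1 := eq_l δ (δ * x) t
    have e2 := conj_r δ (δ * x) t
    push_cast at e1 e2
    rw [hF]
    simp only
    rw [e1, e2]
  have hFn : ∀ t, ‖F t‖ = ∏ j, mz δ (t + h j) ^ k := by
    intro t
    rw [hFe2, norm_mul, norm_pow, norm_pow, RCLike.norm_conj, Fin.prod_univ_two]
    rfl
  have hFc : Continuous F := by
    have c1 : Continuous fun t : ℝ => riemannZeta (pw δ (t + δ * x)) :=
      (contZ g3).comp (continuous_id.add (continuous_const (y := δ * x)))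
    have c2 : Continuous fun t : ℝ => riemannZeta (pw δ (t + -(δ * x))) :=
      (contZ g3).comp (continuous_id.add (continuous_const (y := -(δ * x))))
    have c3 := (c1.pow k).mul ((Complex.continuous_conj.comp c2).pow k)
    exact c3.congr fun t => (hFe2 t).symm
  set c : Fin 2 → Fin 2 → ℝ := fun i j => k / 2 + if j = i then u else 0 with hc
  have hc0 : ∀ i j, 0 ≤ c i j := by
    intro i j
    rw [hc]
    simp only
    split_ifs <;> positivity
  have hc1 : ∀ i j, ‖((c i j : ℝ) : ℂ)‖ ≤ R := by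
    intro i j
    rw [Complex.norm_real, Real.norm_of_nonneg (hc0 i j), hc, hR]
    simp only
    split_ifs <;> linarith
  have hcs : ∀ i, ∑ j, c i j = k + u := by
    intro i
    rw [hc]
    simp only
    rw [Finset.sum_add_distrib, Finset.sum_ite_eq', Finset.sum_const, Finset.card_univ,
      Fintype.card_fin]
    simp
    ring
  set G : Fin 2 → ℝ → ℝ := fun i t => ∏ j, mz δ (t + h j) ^ (2 * c i j) with hG
  have hG0 : ∀ i t, 0 ≤ G i t := fun i t =>
    Finset.prod_nonneg fun j _ => Real.rpow_nonneg (mz_nn _ _) _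
  have hGe : ∀ i, ∀ t ∈ N, G i t = (∏ j, mz δ (t + h j) ^ k) * mz δ (t + h i) ^ (2 * u) := by
    intro i t ht
    have hp : ∀ j, 0 < mz δ (t + h j) := fun j => norm_pos_iff.2 (n4 t ht j)
    have e1 : ∀ j, mz δ (t + h j) ^ (2 * c i j) = mz δ (t + h j) ^ k *
        (if j = i then mz δ (t + h i) ^ (2 * u) else 1) := by
      intro j
      have e2 : 2 * c i j = k + 2 * (if j = i then u else 0) := by rw [hc]; ring
      rw [e2, Real.rpow_add (hp j), Real.rpow_natCast]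
      split_ifs with hj
      · rw [hj]
      · rw [mul_zero, Real.rpow_zero]
    rw [hG]
    simp only
    rw [Finset.prod_congr rfl fun j _ => e1 j, Finset.prod_mul_distrib, Finset.prod_ite_eq']
    simp
  have h2δ : 0 < 2 * δ := by positivity
  have hδV : 0 < (2 * δ) ^ (-V) := Real.rpow_pos_of_pos h2δ _
  have htr := trunc (F := F) (G := G) (N := N) (E := E) (T := T)
    (a := (2 * δ) ^ (2 * u * V)) (b := ((2 * δ) ^ (-V)) ^ (2 * k)) (v := δ ^ D * T) n1 n2 hEm
    (fun t ht => ht.1) hG0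
    (Real.rpow_nonneg h2δ.le _) (by positivity) (by positivity) hFc
    (fun i => contG (hc0 i) h g3) (fun t ht => by
      rw [hFn]
      calc ∏ j, mz δ (t + h j) ^ k ≤ ∏ _j : Fin 2, ((2 * δ) ^ (-V)) ^ k :=
            Finset.prod_le_prod (fun j _ => pow_nonneg (mz_nn _ _) _) fun j _ =>
              pow_le_pow_left₀ (mz_nn _ _) (hE2 t ht j) k
        _ = _ := by rw [Finset.prod_const, Finset.card_univ, Fintype.card_fin, ← pow_mul, mul_comm k 2])
    (fun t ht => by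
      obtain ⟨i, hi⟩ := hE3 t (n2 ht.1) ht.2
      rw [hFn]
      have p0 : 0 ≤ ∏ j, mz δ (t + h j) ^ k := Finset.prod_nonneg fun j _ => pow_nonneg (mz_nn _ _) _
      have p1 : 1 ≤ (2 * δ) ^ (2 * u * V) * mz δ (t + h i) ^ (2 * u) := by
        have e1 : (2 * δ) ^ (2 * u * V) * ((2 * δ) ^ (-V)) ^ (2 * u) = 1 := by
          rw [← Real.rpow_mul h2δ.le, ← Real.rpow_add h2δ]
          have : 2 * u * V + -V * (2 * u) = 0 := by ring
          rw [this, Real.rpow_zero]
        rw [← e1]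
        refine mul_le_mul_of_nonneg_left ?_ (Real.rpow_nonneg h2δ.le _)
        exact Real.rpow_le_rpow hδV.le hi.le (by positivity)
      calc ∏ j, mz δ (t + h j) ^ k ≤ (∏ j, mz δ (t + h j) ^ k) *
            ((2 * δ) ^ (2 * u * V) * mz δ (t + h i) ^ (2 * u)) := le_mul_of_one_le_right p0 p1
        _ = (2 * δ) ^ (2 * u * V) * G i t := by rw [hGe i t ht.1]; ring
        _ ≤ (2 * δ) ^ (2 * u * V) * ∑ i, G i t := by
            refine mul_le_mul_of_nonneg_left ?_ (Real.rpow_nonneg h2δ.le _)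
            exact Finset.single_le_sum (fun i _ => hG0 i t) (Finset.mem_univ i)) n3
  -- the moments of order a little larger
  have hGi : ∀ i, ∫ t in N, G i t ≤ δ ^ (-((k + u) ^ 2)) * ((CP + 1) * T) := by
    intro i
    have q1 := n5 (fun j => ((c i j : ℝ) : ℂ)) (fun _ => 0) (hc1 i) (fun j => by simp [hR0.le])
    have q2 := int_real (c i) h δ N
    rw [q2, sp_zero, sm_zero] at q1
    have q3 := (hCP h).1 (fun j => ((c i j : ℝ) : ℂ)) (fun j => ((c i j : ℝ) : ℂ)) (hc1 i) (hc1 i)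
    have q4 := LM_le hL (hc0 i) h g4 g3
    rw [hcs i] at q4
    set Lm : ℂ := LM (fun j => ((c i j : ℝ) : ℂ)) (fun j => ((c i j : ℝ) : ℂ)) h δ with hLm
    set Av : ℂ := aV (fun j => ((c i j : ℝ) : ℂ)) (fun j => ((c i j : ℝ) : ℂ)) h with hAv
    have q5 : ‖Complex.exp (-Lm) * ((∫ t in N, G i t : ℝ) : ℂ)‖ ≤ (CP + 1) * T := by
      have e : Complex.exp (-Lm) * ((∫ t in N, G i t : ℝ) : ℂ) =
          (Complex.exp (-Lm) * ((∫ t in N, G i t : ℝ) : ℂ) - T * Av) + T * Av := by ring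
      rw [e]
      refine (norm_add_le _ _).trans ?_
      have q6 : ‖(T : ℂ) * Av‖ ≤ T * CP := by
        rw [norm_mul, Complex.norm_real, Real.norm_of_nonneg hT.le]
        exact mul_le_mul_of_nonneg_left q3 hT.le
      have q7 : ε' * T ≤ 1 * T := mul_le_mul_of_nonneg_right (min_le_left _ _) hT.le
      linarith
    have q6 : ‖((∫ t in N, G i t : ℝ) : ℂ)‖ ≤ δ ^ (-((k + u) ^ 2)) * ((CP + 1) * T) := by
      have e : ((∫ t in N, G i t : ℝ) : ℂ) =
          Complex.exp Lm * (Complex.exp (-Lm) * ((∫ t in N, G i t : ℝ) : ℂ)) := by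
        rw [← mul_assoc, ← Complex.exp_add, add_neg_cancel, Complex.exp_zero, one_mul]
      rw [e, norm_mul]
      exact mul_le_mul q4 q5 (norm_nonneg _) (Real.rpow_nonneg g4.le _)
    rw [Complex.norm_real] at q6
    exact le_trans (le_abs_self _) q6
  have hmain := n5 (fun _ => (k : ℂ) / 2) (ns k) (fun j => by
      rw [norm_div, Complex.norm_natCast, Complex.norm_ofNat, hR]
      linarith) (fun j => by
    fin_cases j
    · show |(((k : ℤ) : ℤ) : ℝ)| ≤ R
      rw [Int.cast_natCast, abs_of_nonneg hk0, hR]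
      linarith
    · show |((-(k : ℤ) : ℤ) : ℝ)| ≤ R
      rw [Int.cast_neg, abs_neg, Int.cast_natCast, abs_of_nonneg hk0, hR]
      linarith)
  rw [sp_eq, sm_eq] at hmain
  simp only [← hFeq] at hmain
  set IE : ℂ := ∫ t in E, F t with hIE
  set IN : ℂ := ∫ t in N, F t with hIN
  set P : ℝ := (2 * δ) ^ ((k : ℝ) ^ 2) with hPd
  have hP0 : 0 < P := Real.rpow_pos_of_pos h2δ _
  -- the errors
  have r1 : P * ((2 * δ) ^ (2 * u * V) * ∑ i, ∫ t in N, G i t) ≤ ε / 4 * T := by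
    have r2 : ∑ i, ∫ t in N, G i t ≤ 2 * (δ ^ (-((k + u) ^ 2)) * ((CP + 1) * T)) := by
      rw [Fin.sum_univ_two]
      linarith [hGi 0, hGi 1]
    calc P * ((2 * δ) ^ (2 * u * V) * ∑ i, ∫ t in N, G i t) ≤
        P * ((2 * δ) ^ (2 * u * V) * (2 * (δ ^ (-((k + u) ^ 2)) * ((CP + 1) * T)))) := by gcongr
      _ = ((2 * δ) ^ ((k : ℝ) ^ 2 + 2 * u * V) * δ ^ (-((k + u) ^ 2))) * (2 * (CP + 1)) * T := by
          rw [Real.rpow_add h2δ, hPd]
          ring
      _ = (2 ^ ((k : ℝ) ^ 2 + 2 * u * V) * (2 * (CP + 1)) * δ ^ (u ^ 2)) * T := by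
          rw [Real.mul_rpow (by norm_num) g4.le, mul_assoc (2 ^ ((k : ℝ) ^ 2 + 2 * u * V)),
            ← Real.rpow_add g4]
          have e : (k : ℝ) ^ 2 + 2 * u * V + -((k + u) ^ 2) = u ^ 2 := by
            rw [hu]; ring
          rw [e]
          ring
      _ ≤ ε / 4 * T := mul_le_mul_of_nonneg_right g2 hT.le
  have r4 : P * (((2 * δ) ^ (-V)) ^ (2 * k) * (δ ^ D * T)) ≤ ε / 4 * T := by
    have e1 : ((2 * δ) ^ (-V)) ^ (2 * k) = (2 * δ) ^ (-(2 * k * V)) := by
      rw [← Real.rpow_natCast, ← Real.rpow_mul h2δ.le]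
      congr 1
      push_cast
      ring
    calc P * (((2 * δ) ^ (-V)) ^ (2 * k) * (δ ^ D * T)) =
        ((2 * δ) ^ ((k : ℝ) ^ 2 - 2 * k * V) * δ ^ D) * T := by
          rw [e1, sub_eq_add_neg, Real.rpow_add h2δ, hPd]
          ring
      _ = (2 ^ ((k : ℝ) ^ 2 - 2 * k * V) * δ ^ ((k : ℝ) ^ 2 + 1)) * T := by
          rw [Real.mul_rpow (by norm_num) g4.le, mul_assoc (2 ^ ((k : ℝ) ^ 2 - 2 * k * V)),
            ← Real.rpow_add g4]
          congr 3
          rw [hD]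
          ring
      _ ≤ ε / 4 * T := mul_le_mul_of_nonneg_right g2' hT.le
  have r5 : ‖(P : ℂ) * (IE - IN)‖ ≤ ε / 4 * T + ε / 4 * T := by
    rw [norm_mul, Complex.norm_real, Real.norm_of_nonneg hP0.le]
    refine (mul_le_mul_of_nonneg_left htr hP0.le).trans ?_
    rw [mul_add]
    exact add_le_add r1 r4
  have r6 : ‖(P : ℂ) * IN - T * (a T * W T)‖ ≤ ε / 4 * T := by
    set Lm : ℂ := LM ![(k : ℂ), 0] ![0, (k : ℂ)] h δ with hLm
    have e : (P : ℂ) * IN - T * (a T * W T) =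
        W T * (Complex.exp (-Lm) * IN - T * a T) := by
      have e1 : W T = P * Complex.exp Lm := rfl
      have e2 : Complex.exp Lm * Complex.exp (-Lm) = 1 := by
        rw [← Complex.exp_add, add_neg_cancel, Complex.exp_zero]
      rw [e1]
      linear_combination (-(P : ℂ) * IN) * e2
    rw [e, norm_mul]
    have h5 : ‖Complex.exp (-Lm) * IN - T * a T‖ ≤ ε' * T := hmain
    calc ‖W T‖ * ‖Complex.exp (-Lm) * IN - T * a T‖ ≤ A * (ε / (4 * A) * T) :=
          mul_le_mul g6.le (h5.trans (mul_le_mul_of_nonneg_right (min_le_right _ _) hT.le))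
            (norm_nonneg _) hA0.le
      _ = ε / 4 * T := by field_simp
  rw [Real.dist_0_eq_abs, abs_of_nonneg dist_nonneg, dist_comm, dist_eq_norm]
  have e : (((2 * δ) ^ ((k : ℝ) ^ 2) * (1 / T) : ℝ) : ℂ) * IE - a T * W T =
      ((1 / T : ℝ) : ℂ) * ((P : ℂ) * (IE - IN) + ((P : ℂ) * IN - T * (a T * W T))) := by
    have hT0 : (T : ℂ) ≠ 0 := by exact_mod_cast hT.ne'
    rw [← hPd]
    push_cast
    field_simp
    ring
  rw [e, norm_mul, Complex.norm_real, Real.norm_of_nonneg (by positivity)]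
  calc 1 / T * ‖(P : ℂ) * (IE - IN) + ((P : ℂ) * IN - T * (a T * W T))‖ ≤
      1 / T * (ε / 4 * T + ε / 4 * T + ε / 4 * T) :=
        mul_le_mul_of_nonneg_left ((norm_add_le _ _).trans (add_le_add r5 r6)) (by positivity)
    _ = 3 * (ε / 4) := by field_simp; ring
    _ < ε := by linarith

end Pool.Agent.N748.MJ.KS
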