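import Pool.Agent.N438.MJ.Tr
import Pool.Agent.N438.MJ.Tau
import Pool.Agent.N748.MG.DIA1

set_option autoImplicit false

/-! Project MJ, part SRF: shifted moments of all orders, the full diagonal series. Author: helper438. -/

namespace Pool.Agent.N748.MJ.SRF

open Finset Filter MeasureTheory Topology Complex
open Pool.Agent.N748.MG Pool.Agent.N748.MJ
open Pool.Agent.N438.MJ.Tr Pool.Agent.N438.MJ.Tau

/-- the diagonal series is at most a power -/
lemma ser_bound (hB : S_BND) (m : ℕ) (R : ℝ) (hR : 0 ≤ R) : ∃ C : ℝ, 0 < C ∧ ∀ δ : ℝ, 0 < δ → δ ≤ 1 / 16 →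
    ∀ (s r : Fin m → ℂ) (h : Fin m → ℝ), (∀ j, ‖s j‖ ≤ R) → (∀ j, ‖r j‖ ≤ R) →
    ‖∑' q : ℕ, dV s h q * (starRingEnd ℂ) (dV (cj r) h q) * (((q:ℝ) ^ (-(1 + 2 * δ)) : ℝ) : ℂ)‖ ≤ δ ^ (-C) := by
  obtain ⟨k0, hk0⟩ := hB m R hR
  set c : ℝ := (4 : ℝ) ^ k0 * (5 / 4) with hc
  have hc0 : 0 < c := by positivity
  set A : ℝ := Real.exp (8 * DIA1.b0 k0) with hA
  have hA0 : 0 < A := Real.exp_pos _
  obtain ⟨n, hn⟩ := pow_unbounded_of_one_lt A (show (1:ℝ) < 16 by norm_num)
  refine ⟨c + n, by positivity, ?_⟩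
  intro δ hδ hδ1 s r h' hs hr
  have hcr : ∀ j, ‖cj r j‖ ≤ R := by
    intro j
    unfold cj
    rw [RCLike.norm_conj]
    exact hr j
  set rr : ℕ → ℝ := fun n => ‖dS (k0 : ℂ) n‖ ^ 2 * (n : ℝ) ^ (-(1 + 2 * δ)) with hrr
  have hk : ‖(k0 : ℂ)‖ ≤ k0 := by rw [Complex.norm_natCast]
  obtain ⟨hg, hg'⟩ := DIA1.gg_series hk (η := 2 * δ) (by linarith) (by linarith)
  set u : ℕ → ℂ := fun n =>
    dV s h' n * (starRingEnd ℂ) (dV (cj r) h' n) * (((n:ℝ) ^ (-(1 + 2 * δ)) : ℝ) : ℂ) with hu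
  have hur : ∀ n, ‖u n‖ ≤ DIA1.gg (k0 : ℂ) (2 * δ) n := by
    intro n
    refine le_trans ?_ ((DIA1.ff_norm (k0 : ℂ) δ n).symm.le.trans (DIA1.ff_le_gg (k0 : ℂ) δ n))
    rw [hu]
    simp only
    rw [norm_mul, norm_mul, RCLike.norm_conj, Complex.norm_real,
      Real.norm_of_nonneg (by positivity : (0:ℝ) ≤ (n:ℝ) ^ (-(1 + 2 * δ))), pow_two]
    have h2 := (hk0 s h' hs).2 n
    have h3 := (hk0 (cj r) h' hcr).2 n
    gcongr
  refine (tsum_of_norm_bounded hg.hasSum hur).trans (hg'.trans ?_)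
  have e1 : 2 / (2 * δ) = δ⁻¹ := by field_simp
  rw [← hA, ← hc, e1, Real.inv_rpow hδ.le, ← Real.rpow_neg hδ.le, neg_add, Real.rpow_add hδ, mul_comm]
  refine mul_le_mul_of_nonneg_left (hn.le.trans ?_) (Real.rpow_nonneg hδ.le _)
  rw [Real.rpow_neg hδ.le, Real.rpow_natCast, ← inv_pow]
  refine pow_le_pow_left₀ (by norm_num) ?_ n
  rw [le_inv_comm₀ (by norm_num) hδ]
  linarith

/-- the exponents `n` -/
def nn (k : ℕ) : Fin (k + k) → ℤ := Fin.append (fun _ => 1) (fun _ => -1)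

lemma nn_l {k : ℕ} (i : Fin k) : nn k (Fin.castAdd k i) = 1 := by rw [nn, Fin.append_left]
lemma nn_r {k : ℕ} (i : Fin k) : nn k (Fin.natAdd k i) = -1 := by rw [nn, Fin.append_right]

lemma conj_r {k : ℕ} (b : Fin k → ℝ) (δ t : ℝ) (i : Fin k) :
    riemannZeta (1 / 2 + δ - (t + b i) * I) = (starRingEnd ℂ) (riemannZeta (pw δ (t + b i))) := by
  rw [← riemannZeta_conj]
  congr 1
  unfold pw
  simp [Complex.ext_iff]

lemma ZP_eq {k : ℕ} (a b : Fin k → ℝ) (δ t : ℝ) :
    ZP a b δ t = ∏ j, ZZ (riemannZeta (pw δ (t + Fin.append a b j))) (1 / 2) (nn k j) := by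
  rw [Fin.prod_univ_add]
  have e1 : ∀ i : Fin k, ZZ (riemannZeta (pw δ (t + Fin.append a b (Fin.castAdd k i)))) (1 / 2)
      (nn k (Fin.castAdd k i)) = riemannZeta (1 / 2 + δ + (t + a i) * I) := by
    intro i
    have := ZZ_pos (riemannZeta (pw δ (t + Fin.append a b (Fin.castAdd k i)))) 1
    rw [nn_l]
    simp only [Nat.cast_one, pow_one] at this
    rw [this, Fin.append_left]
    unfold pw
    push_cast
    rfl
  have e2 : ∀ i : Fin k, ZZ (riemannZeta (pw δ (t + Fin.append a b (Fin.natAdd k i)))) (1 / 2)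
      (nn k (Fin.natAdd k i)) = riemannZeta (1 / 2 + δ - (t + b i) * I) := by
    intro i
    have := ZZ_neg (riemannZeta (pw δ (t + Fin.append a b (Fin.natAdd k i)))) 1
    rw [nn_r]
    simp only [Nat.cast_one, pow_one] at this
    rw [this, Fin.append_right, conj_r b]
  simp only [e1, e2]
  unfold ZP
  rw [Finset.prod_mul_distrib]

lemma castAdd_inj (k : ℕ) : Function.Injective (Fin.castAdd k : Fin k → Fin (k + k)) :=
  Fin.castAdd_injective k k

lemma natAdd_inj (k : ℕ) : Function.Injective (Fin.natAdd k : Fin k → Fin (k + k)) :=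
  Fin.natAdd_injective k k

lemma sp_l {k : ℕ} (i : Fin k) : sp (fun _ => 1 / 2) (nn k) (Fin.castAdd k i) = 1 := by
  unfold sp
  rw [nn_l]
  norm_num

lemma sp_r {k : ℕ} (i : Fin k) : sp (fun _ => 1 / 2) (nn k) (Fin.natAdd k i) = 0 := by
  unfold sp
  rw [nn_r]
  norm_num

lemma sm_l {k : ℕ} (i : Fin k) : cj (sm (fun _ => 1 / 2) (nn k)) (Fin.castAdd k i) = 0 := by
  unfold cj sm
  rw [nn_l]
  norm_num

lemma sm_r {k : ℕ} (i : Fin k) : cj (sm (fun _ => 1 / 2) (nn k)) (Fin.natAdd k i) = 1 := by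
  unfold cj sm
  rw [nn_r]
  norm_num

lemma ZS_eq {k : ℕ} (a b : Fin k → ℝ) {δ : ℝ} (hδ : 0 < δ) :
    ZS a b (1 / 2 + δ) = ∑' q : ℕ, dV (sp (fun _ => 1 / 2) (nn k)) (Fin.append a b) q *
      (starRingEnd ℂ) (dV (cj (sm (fun _ => 1 / 2) (nn k))) (Fin.append a b) q) *
      (((q:ℝ) ^ (-(1 + 2 * δ)) : ℝ) : ℂ) := by
  unfold ZS
  refine tsum_congr fun q => ?_
  have e0 : -(2 * (1 / 2 + δ)) = -(1 + 2 * δ) := by ring
  rw [e0]
  rcases eq_or_ne q 0 with rfl | hq
  · have : (((0 : ℕ) : ℝ)) ^ (-(1 + 2 * δ)) = 0 := by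
      rw [Nat.cast_zero, Real.zero_rpow (by linarith)]
    rw [this]
    simp
  · have h1 := dV_tau (castAdd_inj k) (s := sp (fun _ => 1 / 2) (nn k)) sp_l (fun j hj => by
      induction j using Fin.addCases with
      | left i => exact absurd ⟨i, rfl⟩ hj
      | right i => exact sp_r i) (Fin.append a b) hq
    have h2 := dV_tau (natAdd_inj k) (s := cj (sm (fun _ => 1 / 2) (nn k))) sm_r (fun j hj => by
      induction j using Fin.addCases with
      | left i => exact sm_l i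
      | right i => exact absurd ⟨i, rfl⟩ hj) (Fin.append a b) hq
    rw [h1, h2, conj_tau]
    simp only [Fin.append_left, Fin.append_right]
    ring

theorem main (hF : S_JMF) (hB : S_BND) (_h1 : S_DIA1) : S_SRF := by
  intro k D hD
  obtain ⟨C0, hC0, hser⟩ := ser_bound hB (k + k) 1 zero_le_one
  refine ⟨C0 + D + 2, fun V hV d hd a b hab => ?_⟩
  have hV0 : 0 < V := by linarith
  set D' : ℝ := 2 * k * V + D + 1 with hD'
  have hkV : 0 ≤ 2 * k * V := by positivity
  have hD'0 : 0 < D' := by linarith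
  have g1 := (hF (k + k) 1 D' one_pos hD'0).app hd
  have g2 := (Ev.small (C := 4 * k + 2) (c := 1) (e := 1) one_pos one_pos).app hd
  have g3 := (Ev.of_le (d := 1 / 16) (by norm_num)).app hd
  filter_upwards [g1, g2, g3, hd.pos, hab, eventually_gt_atTop 0] with T g1 g2 g3 g4 g5 hT
  set δ : ℝ := d T with hδ
  rw [Real.rpow_one] at g2
  set h : Fin (k + k) → ℝ := Fin.append (a T) (b T) with hh
  obtain ⟨N, n1, n2, n3, n4, n5⟩ := g1 h (fun j => by
    induction j using Fin.addCases with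
    | left i => rw [hh, Fin.append_left]; exact (g5 i).1
    | right i => rw [hh, Fin.append_right]; exact (g5 i).2)
  set E : Set ℝ := {t : ℝ | t ∈ Set.Icc 0 T ∧
    ∀ j, mz δ (t + a T j) ≤ δ ^ (-V) ∧ mz δ (t + b T j) ≤ δ ^ (-V)} with hE
  have hEm : MeasurableSet E := by
    have e : E = Set.Icc 0 T ∩ ⋂ j, ({t : ℝ | mz δ (t + a T j) ≤ δ ^ (-V)} ∩
        {t : ℝ | mz δ (t + b T j) ≤ δ ^ (-V)}) := by
      ext t
      simp [hE]
    rw [e]
    have hm : ∀ x : ℝ, MeasurableSet {t : ℝ | mz δ (t + x) ≤ δ ^ (-V)} := fun x =>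
      measurableSet_le ((cont g3).comp (continuous_id.add continuous_const)).measurable
        measurable_const
    exact measurableSet_Icc.inter (MeasurableSet.iInter fun j => (hm _).inter (hm _))
  have hE2 : ∀ t ∈ E, ∀ j, mz δ (t + h j) ≤ δ ^ (-V) := by
    intro t ht j
    induction j using Fin.addCases with
    | left i => rw [hh, Fin.append_left]; exact (ht.2 i).1
    | right i => rw [hh, Fin.append_right]; exact (ht.2 i).2
  have hE3 : ∀ t ∈ Set.Icc 0 T, t ∉ E → ∃ j, δ ^ (-V) < mz δ (t + h j) := by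
    intro t ht htE
    by_contra hcon
    push Not at hcon
    refine htE ⟨ht, fun j => ⟨?_, ?_⟩⟩
    · have := hcon (Fin.castAdd k j)
      rwa [hh, Fin.append_left] at this
    · have := hcon (Fin.natAdd k j)
      rwa [hh, Fin.append_right] at this
  have hFeq : ∀ t, ZP (a T) (b T) δ t = ∏ j, ZZ (riemannZeta (pw δ (t + h j))) (1 / 2) (nn k j) :=
    fun t => ZP_eq _ _ _ _
  have hFn : ∀ t, ‖ZP (a T) (b T) δ t‖ = ∏ j, mz δ (t + h j) := by
    intro t
    unfold ZP
    rw [hh, Fin.prod_univ_add, norm_prod, ← Finset.prod_mul_distrib]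
    refine Finset.prod_congr rfl fun i _ => ?_
    rw [norm_mul, conj_r (b T), RCLike.norm_conj, Fin.append_left, Fin.append_right]
    unfold mz
    congr 2
    unfold pw
    push_cast
    rfl
  have hFc : Continuous fun t => ZP (a T) (b T) δ t := by
    unfold ZP
    refine continuous_finsetProd _ fun j _ => ?_
    have c1 : Continuous fun t : ℝ => riemannZeta (1 / 2 + δ + (t + a T j) * I) := by
      have := (contZ g3).comp (continuous_id.add (continuous_const (y := a T j)))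
      refine this.congr fun t => ?_
      simp only [Function.comp_apply, Pi.add_apply, id_eq, pw]
      push_cast
      rfl
    have c2 : Continuous fun t : ℝ => riemannZeta (1 / 2 + δ - (t + b T j) * I) := by
      have := Complex.continuous_conj.comp
        ((contZ g3).comp (continuous_id.add (continuous_const (y := b T j))))
      refine this.congr fun t => ?_
      exact (conj_r (b T) δ t j).symm
    exact c1.mul c2
  set c : Fin (k + k) → Fin (k + k) → ℝ := fun i j => if j = i then 1 else 1 / 2 with hc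
  have hc0 : ∀ i j, 0 ≤ c i j := by
    intro i j
    rw [hc]
    simp only
    split_ifs <;> norm_num
  have hc1 : ∀ i j, ‖((c i j : ℝ) : ℂ)‖ ≤ 1 := by
    intro i j
    rw [Complex.norm_real, Real.norm_of_nonneg (hc0 i j), hc]
    simp only
    split_ifs <;> norm_num
  set G : Fin (k + k) → ℝ → ℝ := fun i t => ∏ j, mz δ (t + h j) ^ (2 * c i j) with hG
  have hG0 : ∀ i t, 0 ≤ G i t := fun i t =>
    Finset.prod_nonneg fun j _ => Real.rpow_nonneg (mz_nn _ _) _
  have hGe : ∀ i t, G i t = (∏ j, mz δ (t + h j)) * mz δ (t + h i) := by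
    intro i t
    have e1 : ∀ j, mz δ (t + h j) ^ (2 * c i j) = mz δ (t + h j) *
        (if j = i then mz δ (t + h i) else 1) := by
      intro j
      rw [hc]
      simp only
      split_ifs with hj
      · rw [hj, mul_one, Real.rpow_two, pow_two]
      · rw [mul_one_div_cancel (two_ne_zero), Real.rpow_one, mul_one]
    rw [hG]
    simp only
    rw [Finset.prod_congr rfl fun j _ => e1 j, Finset.prod_mul_distrib, Finset.prod_ite_eq']
    simp
  have hδV : 0 < δ ^ (-V) := Real.rpow_pos_of_pos g4 _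
  have htr := trunc (F := fun t => ZP (a T) (b T) δ t) (G := G) (N := N) (E := E) (T := T)
    (a := δ ^ V) (b := (δ ^ (-V)) ^ (k + k)) (v := δ ^ D' * T) n1 n2 hEm (fun t ht => ht.1) hG0
    (Real.rpow_nonneg g4.le _) (by positivity) (by positivity) hFc
    (fun i => contG (hc0 i) h g3) (fun t ht => by
      show ‖ZP (a T) (b T) δ t‖ ≤ _
      rw [hFn]
      calc ∏ j, mz δ (t + h j) ≤ ∏ _j : Fin (k + k), δ ^ (-V) :=
            Finset.prod_le_prod (fun j _ => mz_nn _ _) fun j _ => hE2 t ht j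
        _ = _ := by rw [Finset.prod_const, Finset.card_univ, Fintype.card_fin])
    (fun t ht => by
      show ‖ZP (a T) (b T) δ t‖ ≤ _
      obtain ⟨i, hi⟩ := hE3 t (n2 ht.1) ht.2
      rw [hFn]
      have p0 : 0 ≤ ∏ j, mz δ (t + h j) := Finset.prod_nonneg fun j _ => mz_nn _ _
      have p1 : 1 ≤ δ ^ V * mz δ (t + h i) := by
        have : δ ^ V * δ ^ (-V) = 1 := by
          rw [← Real.rpow_add g4, add_neg_cancel, Real.rpow_zero]
        rw [← this]
        exact mul_le_mul_of_nonneg_left hi.le (Real.rpow_nonneg g4.le _)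
      calc ∏ j, mz δ (t + h j) ≤ (∏ j, mz δ (t + h j)) * (δ ^ V * mz δ (t + h i)) :=
            le_mul_of_one_le_right p0 p1
        _ = δ ^ V * G i t := by rw [hGe]; ring
        _ ≤ δ ^ V * ∑ i, G i t := by
            refine mul_le_mul_of_nonneg_left ?_ (Real.rpow_nonneg g4.le _)
            exact Finset.single_le_sum (fun i _ => hG0 i t) (Finset.mem_univ i)) n3
  -- the moments of order a little larger
  have hGi : ∀ i, ∫ t in N, G i t ≤ 2 * δ ^ (-C0) * T := by
    intro i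
    have q1 := n5 (fun j => ((c i j : ℝ) : ℂ)) (fun _ => 0) (hc1 i) (fun j => by simp)
    have q2 := int_real (c i) h δ N
    rw [q2, sp_zero, sm_zero] at q1
    have q3 := hser δ g4 g3 (fun j => ((c i j : ℝ) : ℂ)) (fun j => ((c i j : ℝ) : ℂ)) h (hc1 i) (hc1 i)
    set Sr : ℂ := ∑' q : ℕ, dV (fun j => ((c i j : ℝ) : ℂ)) h q * (starRingEnd ℂ)
      (dV (cj fun j => ((c i j : ℝ) : ℂ)) h q) * (((q:ℝ) ^ (-(1 + 2 * δ)) : ℝ) : ℂ) with hSr
    have q4 : ‖((∫ t in N, G i t : ℝ) : ℂ)‖ ≤ δ ^ D' * T + T * δ ^ (-C0) := by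
      have e : ((∫ t in N, G i t : ℝ) : ℂ) =
          (((∫ t in N, G i t : ℝ) : ℂ) - T * Sr) + T * Sr := by ring
      rw [e]
      refine (norm_add_le _ _).trans (add_le_add q1 ?_)
      rw [norm_mul, Complex.norm_real, Real.norm_of_nonneg hT.le]
      exact mul_le_mul_of_nonneg_left q3 hT.le
    have q5 : δ ^ D' ≤ δ ^ (-C0) :=
      Real.rpow_le_rpow_of_exponent_ge g4 (by linarith) (by linarith)
    rw [Complex.norm_real] at q4
    have q6 := le_trans (le_abs_self _) q4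
    have q7 := mul_le_mul_of_nonneg_right q5 hT.le
    linarith
  have hmain := n5 (fun _ => 1 / 2) (nn k) (fun j => by norm_num) (fun j => by
    induction j using Fin.addCases with
    | left i => rw [nn_l]; norm_num
    | right i => rw [nn_r]; norm_num)
  rw [hh, ← ZS_eq (a T) (b T) g4, ← hh] at hmain
  simp only [← hFeq] at hmain
  set IE : ℂ := ∫ t in E, ZP (a T) (b T) δ t with hIE
  set IN : ℂ := ∫ t in N, ZP (a T) (b T) δ t with hIN
  set Z : ℂ := ZS (a T) (b T) (1 / 2 + δ) with hZ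
  -- the three errors
  have hδ1 : δ ≤ 1 := by linarith
  have r1 : δ ^ V * ∑ i, ∫ t in N, G i t ≤ 4 * k * δ ^ (D + 1) * T := by
    have r2 : ∑ i, ∫ t in N, G i t ≤ ((k + k : ℕ) : ℝ) * (2 * δ ^ (-C0) * T) := by
      refine (Finset.sum_le_card_nsmul _ _ _ fun i _ => hGi i).trans (le_of_eq ?_)
      rw [Finset.card_univ, Fintype.card_fin, nsmul_eq_mul]
    have r3 : δ ^ V * δ ^ (-C0) ≤ δ ^ (D + 1) := by
      rw [← Real.rpow_add g4]
      exact Real.rpow_le_rpow_of_exponent_ge g4 hδ1 (by linarith)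
    calc δ ^ V * ∑ i, ∫ t in N, G i t ≤ δ ^ V * (((k + k : ℕ) : ℝ) * (2 * δ ^ (-C0) * T)) :=
          mul_le_mul_of_nonneg_left r2 (Real.rpow_nonneg g4.le _)
      _ = 4 * k * T * (δ ^ V * δ ^ (-C0)) := by push_cast; ring
      _ ≤ 4 * k * T * δ ^ (D + 1) := mul_le_mul_of_nonneg_left r3 (by positivity)
      _ = _ := by ring
  have r4 : (δ ^ (-V)) ^ (k + k) * (δ ^ D' * T) = δ ^ (D + 1) * T := by
    rw [← Real.rpow_natCast, ← Real.rpow_mul g4.le, ← mul_assoc, ← Real.rpow_add g4]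
    congr 2
    rw [hD']
    push_cast
    ring
  have r5 : δ ^ D' * T ≤ δ ^ (D + 1) * T :=
    mul_le_mul_of_nonneg_right (Real.rpow_le_rpow_of_exponent_ge g4 hδ1 (by linarith)) hT.le
  have r6 : ‖IE - T * Z‖ ≤ (4 * k + 2) * δ ^ (D + 1) * T := by
    have e : IE - T * Z = (IE - IN) + (IN - T * Z) := by ring
    rw [e]
    refine (norm_add_le _ _).trans ?_
    have h5 : ‖IE - IN‖ ≤ 4 * k * δ ^ (D + 1) * T + δ ^ (D + 1) * T := by
      refine htr.trans ?_
      rw [r4]
      linarith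
    linarith
  have hT0 : (T : ℂ) ≠ 0 := by exact_mod_cast hT.ne'
  have e : ((1 / T : ℝ) : ℂ) * IE - Z = ((1 / T : ℝ) : ℂ) * (IE - T * Z) := by
    push_cast
    field_simp
  rw [e, norm_mul, Complex.norm_real, Real.norm_of_nonneg (by positivity)]
  calc 1 / T * ‖IE - T * Z‖ ≤ 1 / T * ((4 * k + 2) * δ ^ (D + 1) * T) :=
        mul_le_mul_of_nonneg_left r6 (by positivity)
    _ = (4 * k + 2) * δ * δ ^ D := by
        rw [Real.rpow_add g4, Real.rpow_one]
        field_simp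
    _ ≤ 1 * δ ^ D := mul_le_mul_of_nonneg_right g2 (Real.rpow_nonneg g4.le _)
    _ = δ ^ D := one_mul _

end Pool.Agent.N748.MJ.SRF
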