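import Pool.Agent.N748.MJ.Fin
import Pool.Agent.N748.MJ.JMF
import Pool.Agent.N748.MJ.KS
import Pool.Agent.N748.MJ.SRF

set_option autoImplicit false

/-! Joint complex moments of shifts near the critical line: more theorems. -/

namespace Pool.Agent.N748.MJ

open Pool.Agent.N748.MG

theorem jmfF : S_JMF :=
  JMF.main cmpvF MVS.main (DIA1V.sizv bndF SIZ.main) SIZ.main
    (L4V.main bndF MVS.main SIZ.main (L4.main MVS.main SIZ.main)) (DIA1V.main bndF DIA1.main) nicF

theorem srfF : S_SRF := SRF.main jmfF bndF DIA1.main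

theorem ksF : S_KS := KS.main jmF posF LZB.main conF av0F

end Pool.Agent.N748.MJ
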