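import Pool.Agent.N748.MJ.Fin

set_option autoImplicit false

/-! The arithmetic factor for real exponents as a product of real numbers. -/

namespace Pool.Agent.N748.MJ

open Finset Filter MeasureTheory Topology Complex
open Pool.Agent.N748.MG

variable {m : ℕ}

/-- the coefficients of `∏ (1 - x q^(-i h_j))^(-k_j)` -/
noncomputable def cR (k h : Fin m → ℝ) (q n : ℕ) : ℂ :=
  ∑ μ ∈ Finset.piAntidiag (Finset.univ : Finset (Fin m)) n,
    ∏ j, (((∏ i ∈ Finset.range (μ j), (k j + i) / ((i : ℝ) + 1) : ℝ) : ℂ) * (q : ℂ) ^ (-((μ j * h j : ℝ) * I)))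

/-- the local factor -/
noncomputable def gR (k h : Fin m → ℝ) (p : ℕ) : ℝ :=
  (∏ j, ∏ l, ‖1 - (p : ℂ) ^ (-(1 + ((h j - h l : ℝ) : ℂ) * I))‖ ^ (k j * k l)) *
    ∑' n : ℕ, ‖cR k h p n‖ ^ 2 * (1 / (p : ℝ)) ^ n

/-- the arithmetic factor -/
noncomputable def aR (k h : Fin m → ℝ) : ℝ := ∏' p : Nat.Primes, gR k h p

lemma cR_eq (k h : Fin m → ℝ) (q n : ℕ) : cR k h q n = lV (fun j => (k j : ℂ)) h q n := by
  unfold cR lV
  refine Finset.sum_congr rfl fun μ _ => Finset.prod_congr rfl fun j _ => ?_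
  congr 1
  unfold lC
  push_cast
  rfl

lemma cj_real (k : Fin m → ℝ) : cj (fun j => (k j : ℂ)) = fun j => (k j : ℂ) := by
  funext j
  unfold cj
  exact Complex.conj_ofReal _

lemma gR_eq (k h : Fin m → ℝ) (p : ℕ) (hp : p.Prime) :
    gV (fun j => (k j : ℂ)) (fun j => (k j : ℂ)) h 0 p = ((gR k h p : ℝ) : ℂ) ∧ 0 < gR k h p := by
  obtain ⟨R, hR0, hR⟩ : ∃ R : ℝ, 0 ≤ R ∧ ∀ j, |k j| ≤ R :=
    ⟨∑ j, |k j|, Finset.sum_nonneg fun _ _ => abs_nonneg _, fun j =>
      Finset.single_le_sum (f := fun j => |k j|) (fun _ _ => abs_nonneg _) (Finset.mem_univ j)⟩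
  obtain ⟨k0, hk0⟩ := bndF m R hR0
  obtain ⟨g, hg, hgV⟩ := POSV.real_loc hR0 (fun s h hs => (hk0 s h hs).1) h hR hp
  have hg0 : 0 < g := lt_of_lt_of_le (Real.exp_pos _) hg
  have h1 : gR k h p = ‖gV (fun j => (k j : ℂ)) (fun j => (k j : ℂ)) h 0 p‖ := by
    rw [POSV.gV_eq, norm_mul]
    unfold gR
    congr 1
    · rw [norm_prod]
      refine Finset.prod_congr rfl fun j _ => ?_
      rw [norm_prod]
      refine Finset.prod_congr rfl fun l _ => ?_
      rw [← Complex.ofReal_mul, Complex.norm_cpow_real]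
      congr 2
      unfold POSV.bs POSV.pu
      congr 2
      norm_num
    · have h2 : POSV.SV (fun j => (k j : ℂ)) (fun j => (k j : ℂ)) h p =
          ((∑' n : ℕ, ‖cR k h p n‖ ^ 2 * (1 / (p : ℝ)) ^ n : ℝ) : ℂ) := by
        unfold POSV.SV
        rw [Complex.ofReal_tsum]
        refine tsum_congr fun n => ?_
        rw [cj_real, POSV.xp, Complex.mul_conj, Complex.normSq_eq_norm_sq, cR_eq]
        push_cast
        ring
      rw [h2, Complex.norm_real, Real.norm_of_nonneg]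
      exact tsum_nonneg fun n => by positivity
  have h2 : gR k h p = g := by rw [h1, hgV, Complex.norm_real, Real.norm_of_nonneg hg0.le]
  exact ⟨by rw [hgV, h2], by rw [h2]; exact hg0⟩

theorem aR_eq (k h : Fin m → ℝ) : (aV (fun j => (k j : ℂ)) (fun j => (k j : ℂ)) h).re = aR k h ∧ 0 < aR k h := by
  obtain ⟨R, hR0, hR⟩ : ∃ R : ℝ, 0 ≤ R ∧ ∀ j, |k j| ≤ R :=
    ⟨∑ j, |k j|, Finset.sum_nonneg fun _ _ => abs_nonneg _, fun j =>
      Finset.single_le_sum (f := fun j => |k j|) (fun _ _ => abs_nonneg _) (Finset.mem_univ j)⟩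
  have hRc : ∀ j, ‖((k j : ℝ) : ℂ)‖ ≤ R := fun j => by
    rw [Complex.norm_real]; exact hR j
  obtain ⟨C, hC0, hC⟩ := gvbF m R hR0
  have hs : Summable fun p : Nat.Primes => gV (fun j => (k j : ℂ)) (fun j => (k j : ℂ)) h 0 p - 1 :=
    Summable.of_norm_bounded (POSV.sum_px C) fun p =>
      (hC _ _ h hRc hRc p p.2 0 le_rfl zero_le_one).1
  have hm := (Complex.multipliable_one_add_of_summable hs).hasProd
  rw [← POSV.aV_eq] at hm
  have h1 : HasProd (fun p : Nat.Primes => gR k h p)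
      (aV (fun j => (k j : ℂ)) (fun j => (k j : ℂ)) h).re := by
    have h2 := (Complex.continuous_re.tendsto _).comp hm
    refine h2.congr fun S => ?_
    simp only [Function.comp]
    have h3 : ∏ p ∈ S, (1 + (gV (fun j => (k j : ℂ)) (fun j => (k j : ℂ)) h 0 (p:ℕ) - 1)) =
        ((∏ p ∈ S, gR k h (p:ℕ) : ℝ) : ℂ) := by
      push_cast
      refine Finset.prod_congr rfl fun p _ => ?_
      rw [add_sub_cancel, (gR_eq k h p p.2).1]
    rw [h3, Complex.ofReal_re]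
  have h4 : aR k h = (aV (fun j => (k j : ℂ)) (fun j => (k j : ℂ)) h).re := h1.tprod_eq
  refine ⟨h4.symm, ?_⟩
  rw [h4]
  obtain ⟨c, C2, hc, _, hb⟩ := posF m R hR0
  obtain ⟨a, ha, hea⟩ := (hb h).2 k hR
  rw [hea, Complex.ofReal_re]
  linarith

end Pool.Agent.N748.MJ
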