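import Pool.Agent.N748.MG.Stm2

set_option autoImplicit false

/-!
# Joint complex moments of shifts near the critical line outside tiny sets: statements (over Mathlib only)

`m` shifts `h j`, exponents `b j` (complex) and `n j` (integers): the moments of
`∏ |ζ(w + i h_j)|^(2 b_j) (ζ/|ζ|)^(n_j)`, `w = 1/2 + δ + i t`; put `s_j = b_j + n_j/2`, `r_j = b_j - n_j/2`.
-/

namespace Pool.Agent.N748.MJ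

open Finset Filter MeasureTheory Topology Complex
open Pool.Agent.N748.MG

/-! ### definitions -/

/-- the coefficient of `x^k` in `∏_j (1 - x q^(-i h_j))^(-s_j)` -/
noncomputable def lV {m : ℕ} (s : Fin m → ℂ) (h : Fin m → ℝ) (q k : ℕ) : ℂ :=
  ∑ μ ∈ Finset.piAntidiag (Finset.univ : Finset (Fin m)) k, ∏ j, lC (s j) (μ j) * (q : ℂ) ^ (-((μ j * h j : ℝ) * I))

/-- the coefficients of `∏_j ζ(w + i h_j)^(s_j)` -/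
noncomputable def dV {m : ℕ} (s : Fin m → ℂ) (h : Fin m → ℝ) (n : ℕ) : ℂ :=
  ∏ p ∈ n.primeFactors, lV s h p (n.factorization p)

/-- the truncation of `∏_j ζ(w + i h_j)^(s_j)` -/
noncomputable def AV {m : ℕ} (s : Fin m → ℂ) (h : Fin m → ℝ) (y : ℝ) (K : ℕ) (w : ℂ) : ℂ :=
  ∑ n ∈ FS y K, dV s h n * (n:ℂ) ^ (-w)

/-- the conjugate exponents -/
noncomputable def cj {m : ℕ} (r : Fin m → ℂ) : Fin m → ℂ := fun j => (starRingEnd ℂ) (r j)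

/-- `|z|^(2b) (z/|z|)^n` -/
noncomputable def ZZ (z b : ℂ) (n : ℤ) : ℂ := ((‖z‖ : ℝ) : ℂ) ^ (2 * b) * (z / (‖z‖ : ℝ)) ^ n

/-- the logarithm of zeta at `σ + i u`, `σ > 1` -/
noncomputable def LZ (σ u : ℝ) : ℂ := ∑' p : Nat.Primes, -Complex.log (1 - ((p:ℕ):ℂ) ^ (-((σ:ℂ) + u * I)))

/-- the logarithm of the main term -/
noncomputable def LM {m : ℕ} (s r : Fin m → ℂ) (h : Fin m → ℝ) (δ : ℝ) : ℂ :=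
  ∑ j, ∑ l, s j * r l * LZ (1 + 2 * δ) (h j - h l)

/-- the local factors -/
noncomputable def gV {m : ℕ} (s r : Fin m → ℂ) (h : Fin m → ℝ) (δ : ℝ) (p : ℕ) : ℂ :=
  (∏ j, ∏ l, (1 - (p:ℂ) ^ (-(((1 + 2 * δ : ℝ) : ℂ) + ((h j - h l : ℝ) : ℂ) * I))) ^ (s j * r l)) *
    ∑' k : ℕ, lV s h p k * (starRingEnd ℂ) (lV (cj r) h p k) * (((p:ℝ) ^ (-(1 + 2 * δ)) : ℝ) : ℂ) ^ k

/-- the arithmetic factor -/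
noncomputable def aV {m : ℕ} (s r : Fin m → ℂ) (h : Fin m → ℝ) : ℂ := ∏' p : Nat.Primes, gV s r h 0 p

/-- `b + n/2` -/
noncomputable def sp {m : ℕ} (b : Fin m → ℂ) (n : Fin m → ℤ) : Fin m → ℂ := fun j => b j + (n j : ℂ) / 2

/-- `b - n/2` -/
noncomputable def sm {m : ℕ} (b : Fin m → ℂ) (n : Fin m → ℤ) : Fin m → ℂ := fun j => b j - (n j : ℂ) / 2

/-! ### the parts -/

/-- (BND) bound of the coefficients -/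
def S_BND : Prop := ∀ (m : ℕ) (R : ℝ), 0 ≤ R → ∃ k0 : ℕ, ∀ (s : Fin m → ℂ) (h : Fin m → ℝ), (∀ j, ‖s j‖ ≤ R) →
  (∀ q k : ℕ, 1 ≤ q → ‖lV s h q k‖ ≤ ‖lC (k0 : ℂ) k‖) ∧ ∀ n : ℕ, ‖dV s h n‖ ≤ ‖dS (k0 : ℂ) n‖

/-- (EULV) the truncation of the product -/
def S_EULV : Prop := ∀ (m : ℕ) (R : ℝ), 0 ≤ R → ∃ C : ℝ, 0 < C ∧ ∀ (y : ℝ) (K : ℕ) (w : ℂ) (s : Fin m → ℂ)
  (h : Fin m → ℝ) (a v : ℝ), 2 ≤ y → 1 / 2 ≤ w.re → 0 ≤ a → (∀ j, ‖s j‖ ≤ R) →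
  (∀ j, ‖∑ p ∈ PA y, (p:ℂ) ^ (-(w + h j * I))‖ ≤ a) → ∑ p ∈ PA y, 1 / (p:ℝ) ≤ v →
  ‖AV s h y K w - ∏ p ∈ PA y, ∏ j, (1 - (p:ℂ) ^ (-(w + h j * I))) ^ (-(s j))‖ ≤ (4 / 5) ^ K * Real.exp (C * (a + v + 1))

/-- (CMPV) pointwise comparison -/
def S_CMPV : Prop := ∀ (m : ℕ) (R : ℝ), 0 ≤ R → ∃ C : ℝ, 0 < C ∧ ∀ (y : ℝ) (K : ℕ) (w : ℂ) (h : Fin m → ℝ)
  (a v e : ℝ), 2 ≤ y → 1 / 2 ≤ w.re → 0 ≤ a → (∀ j, ‖∑ p ∈ PA y, (p:ℂ) ^ (-(w + h j * I))‖ ≤ a) →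
  ∑ p ∈ PA y, 1 / (p:ℝ) ≤ v → 0 < e →
  (∀ j, ‖riemannZeta (w + h j * I) * AS (-1) y K (w + h j * I) - 1‖ ≤ e) →
  (4 / 5) ^ K * Real.exp (C * (a + v + 1)) ≤ e → e * Real.exp (C * (a + v + 1)) ≤ 1 →
  ∀ (b : Fin m → ℂ) (n : Fin m → ℤ), (∀ j, ‖b j‖ ≤ R) → (∀ j, |((n j : ℤ) : ℝ)| ≤ R) →
  ‖(∏ j, ZZ (riemannZeta (w + h j * I)) (b j) (n j)) -
    AV (sp b n) h y K w * (starRingEnd ℂ) (AV (cj (sm b n)) h y K w)‖ ≤ e * Real.exp (C * (a + v + 1))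

/-- (SIZV) sizes -/
def S_SIZV : Prop := ∀ (m : ℕ) (R : ℝ), 0 ≤ R → ∃ C : ℝ, 0 < C ∧ ∀ y : ℝ, 2 ≤ y → ∀ K : ℕ,
  ∀ (s : Fin m → ℂ) (h : Fin m → ℝ), (∀ j, ‖s j‖ ≤ R) →
  ∑ n ∈ FS y K, ‖dV s h n‖ ≤ Real.exp (C * ((K + 1) * Real.log y))

/-- (L4V) the fourth moments of the polynomials -/
def S_L4V : Prop := ∀ (m : ℕ) (R : ℝ), 0 ≤ R → ∃ C : ℝ, 0 < C ∧ ∀ (y : ℝ) (K : ℕ) (δ X : ℝ), 2 ≤ y → 0 < δ →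
  δ ≤ 1 / 16 → 0 < X → C * ((K + 1) * Real.log y) ≤ Real.log X → ∀ (s : Fin m → ℂ) (h : Fin m → ℝ), (∀ j, ‖s j‖ ≤ R) →
  ∫ t in (0:ℝ)..X, ‖AV s h y K (pw δ t)‖ ^ 4 ≤ X * δ ^ (-C)

/-- (DIA1V) the diagonal terms, tails -/
def S_DIA1V : Prop := ∀ (m : ℕ) (R D : ℝ), 0 ≤ R → 0 < D → ∃ C δ0 : ℝ, 0 < C ∧ 0 < δ0 ∧ ∀ δ : ℝ, 0 < δ → δ ≤ δ0 →
  ∀ (y : ℝ) (K : ℕ), 2 ≤ y → C * Real.log (1 / δ) ≤ δ * Real.log y → C * Real.log (1 / δ) ≤ K →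
  ∀ (s r : Fin m → ℂ) (h : Fin m → ℝ), (∀ j, ‖s j‖ ≤ R) → (∀ j, ‖r j‖ ≤ R) →
  ‖(∑ n ∈ FS y K, dV s h n * (starRingEnd ℂ) (dV (cj r) h n) * (((n:ℝ) ^ (-(1 + 2 * δ)) : ℝ) : ℂ)) -
    ∑' n : ℕ, dV s h n * (starRingEnd ℂ) (dV (cj r) h n) * (((n:ℝ) ^ (-(1 + 2 * δ)) : ℝ) : ℂ)‖ ≤ δ ^ D

/-- (LZB) the logarithm of zeta -/
def S_LZB : Prop := ∀ δ : ℝ, 0 < δ → δ ≤ 1 / 16 → ∀ u : ℝ, ‖LZ (1 + 2 * δ) u‖ ≤ Real.log (1 / δ) ∧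
  Complex.exp (LZ (1 + 2 * δ) u) = riemannZeta (((1 + 2 * δ : ℝ) : ℂ) + u * I)

/-- (GVB) the local factors -/
def S_GVB : Prop := ∀ (m : ℕ) (R : ℝ), 0 ≤ R → ∃ C : ℝ, 0 < C ∧ ∀ (s r : Fin m → ℂ) (h : Fin m → ℝ),
  (∀ j, ‖s j‖ ≤ R) → (∀ j, ‖r j‖ ≤ R) → ∀ p : ℕ, p.Prime → ∀ δ : ℝ, 0 ≤ δ → δ ≤ 1 →
  ‖gV s r h δ p - 1‖ ≤ C / (p:ℝ) ^ 2 ∧ ‖gV s r h δ p - gV s r h 0 p‖ ≤ C * (δ * Real.log p)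

/-- (DIA2V) the diagonal terms, asymptotics -/
def S_DIA2V : Prop := ∀ (m : ℕ) (R : ℝ), 0 ≤ R → ∀ ε : ℝ, 0 < ε → ∃ δ0 : ℝ, 0 < δ0 ∧ ∀ δ : ℝ, 0 < δ → δ ≤ δ0 →
  ∀ (s r : Fin m → ℂ) (h : Fin m → ℝ), (∀ j, ‖s j‖ ≤ R) → (∀ j, ‖r j‖ ≤ R) →
  ‖Complex.exp (-(LM s r h δ)) *
    (∑' n : ℕ, dV s h n * (starRingEnd ℂ) (dV (cj r) h n) * (((n:ℝ) ^ (-(1 + 2 * δ)) : ℝ) : ℂ)) - aV s r h‖ ≤ ε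

/-- (POSV) bounds of the arithmetic factor -/
def S_POSV : Prop := ∀ (m : ℕ) (R : ℝ), 0 ≤ R → ∃ c C : ℝ, 0 < c ∧ 0 < C ∧ ∀ h : Fin m → ℝ,
  (∀ s r : Fin m → ℂ, (∀ j, ‖s j‖ ≤ R) → (∀ j, ‖r j‖ ≤ R) → ‖aV s r h‖ ≤ C) ∧
  ∀ k : Fin m → ℝ, (∀ j, |k j| ≤ R) → ∃ a : ℝ, c ≤ a ∧ aV (fun j => (k j : ℂ)) (fun j => (k j : ℂ)) h = a

/-- (CONV) continuity of the arithmetic factor -/
def S_CONV : Prop := ∀ m : ℕ, Continuous fun q : (Fin m → ℂ) × (Fin m → ℂ) × (Fin m → ℝ) => aV q.1 q.2.1 q.2.2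

/-- (AV0) no shifts -/
def S_AV0 : Prop := ∀ (m : ℕ) (s r : Fin m → ℂ), ∑ j, s j = ∑ j, r j → aV s r (fun _ => 0) = aC (∑ j, s j)

/-! ### the results -/

/-- (JM) joint complex moments outside tiny sets -/
def S_JM : Prop := ∀ (m : ℕ) (R D : ℝ), 0 < R → 0 < D → ∀ ε : ℝ, 0 < ε → Ev fun X δ =>
  ∀ h : Fin m → ℝ, (∀ j, |h j| ≤ X ^ ((1:ℝ) / 2)) →
  ∃ N : Set ℝ, MeasurableSet N ∧ N ⊆ Set.Icc 0 X ∧ volume (Set.Icc 0 X \ N) ≤ ENNReal.ofReal (δ ^ D * X) ∧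
    (∀ t ∈ N, ∀ j, riemannZeta (pw δ (t + h j)) ≠ 0) ∧
    ∀ (b : Fin m → ℂ) (n : Fin m → ℤ), (∀ j, ‖b j‖ ≤ R) → (∀ j, |((n j : ℤ) : ℝ)| ≤ R) →
    ‖Complex.exp (-(LM (sp b n) (sm b n) h δ)) * (∫ t in N, ∏ j, ZZ (riemannZeta (pw δ (t + h j))) (b j) (n j)) -
      X * aV (sp b n) (sm b n) h‖ ≤ ε * X

/-- (SM) shifted moments of all orders -/
def S_SM : Prop := ∀ d : ℝ → ℝ, Ad d → ∀ (m : ℕ) (k : Fin m → ℝ) (V : ℝ), (∀ j, 0 < k j) → ∑ j, k j < V →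
  ∀ h : ℝ → Fin m → ℝ, (∀ᶠ T : ℝ in atTop, ∀ j, |h T j| ≤ T ^ ((1:ℝ) / 2)) →
  Tendsto (fun T : ℝ => ((1 / T) *
    ∫ t in {t : ℝ | t ∈ Set.Icc 0 T ∧ ∀ j, mz (d T) (t + h T j) ≤ (2 * d T) ^ (-V)}, ∏ j, mz (d T) (t + h T j) ^ (2 * k j)) /
    ((aV (fun j => (k j : ℂ)) (fun j => (k j : ℂ)) (h T)).re *
      ∏ j, ∏ l, ‖riemannZeta (((1 + 2 * d T : ℝ) : ℂ) + ((h T j - h T l : ℝ) : ℂ) * I)‖ ^ (k j * k l))) atTop (𝓝 1)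

/-- (KO) shifts of the order of the distance to the line -/
def S_KO : Prop := ∀ d : ℝ → ℝ, Ad d → ∀ (m : ℕ) (k x : Fin m → ℝ) (V : ℝ), (∀ j, 0 < k j) → ∑ j, k j < V →
  Tendsto (fun T : ℝ => (2 * d T) ^ ((∑ j, k j) ^ 2) * ((1 / T) *
    ∫ t in {t : ℝ | t ∈ Set.Icc 0 T ∧ ∀ j, mz (d T) (t + d T * x j) ≤ (2 * d T) ^ (-V)},
      ∏ j, mz (d T) (t + d T * x j) ^ (2 * k j))) atTop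
    (𝓝 ((aC ((∑ j, k j : ℝ) : ℂ)).re * ∏ j, ∏ l, (1 + ((x j - x l) / 2) ^ 2) ^ (-(k j * k l / 2))))

/-- (LLT2) the local limit lemma in the complex plane -/
def S_LLT2 : Prop := ∀ (ν : ℝ → Measure ℂ) (Λ : ℝ → ℝ) (g : ℤ → ℝ → ℂ),
  (∀ᶠ T in atTop, IsFiniteMeasure (ν T) ∧ ν T {0} = 0) → Tendsto Λ atTop atTop → (∀ n, Continuous (g n)) → g 0 0 = 1 →
  (∀ (n : ℤ) (R : ℝ), 0 < R → ∀ ε : ℝ, 0 < ε → ∀ᶠ T in atTop, ∀ ξ : ℝ, |ξ| ≤ R →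
    ‖(∫ z, ((‖z‖ : ℝ) : ℂ) ^ ((ξ : ℂ) * I) * (z / (‖z‖ : ℝ)) ^ n ∂(ν T)) -
      g n ξ * Real.exp (-((ξ ^ 2 + (n:ℝ) ^ 2) * Λ T / 4))‖ ≤ ε * Real.exp (-((ξ ^ 2 + (n:ℝ) ^ 2) * Λ T / 4))) →
  ∀ h : ℂ → ℝ, Measurable h → (∃ S : Set ℂ, volume S = 0 ∧ ∀ z, z ≠ 0 → z ∉ S → ContinuousAt h z) →
    (∃ C : ℝ, ∀ z, z ≠ 0 → |h z| * (1 + Real.log ‖z‖ ^ 2) ≤ C) →
    Tendsto (fun T => Real.sqrt (Real.pi * Λ T) * ∫ z, h z ∂(ν T)) atTop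
      (𝓝 (1 / (2 * Real.pi) * ∫ z : ℂ, ‖z‖ ^ (-2 : ℝ) * h z))

/-- (LD2) the law of zeta, with its argument, at the large deviation scales -/
def S_LD2 : Prop := ∀ d : ℝ → ℝ, Ad d → ∀ V : ℝ, ∀ h : ℂ → ℝ, Measurable h →
  (∃ S : Set ℂ, volume S = 0 ∧ ∀ z, z ≠ 0 → z ∉ S → ContinuousAt h z) → (∃ C : ℝ, ∀ z, |h z| ≤ C) →
  (∃ C : ℝ, ∀ z, z ≠ 0 → |h z| * (1 + Real.log ‖z‖ ^ 2) ≤ C * ‖z‖ ^ (2 * V)) →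
  Tendsto (fun T : ℝ => Real.sqrt (Real.pi * Real.log (1 / (2 * d T))) * (2 * d T) ^ (-(V ^ 2)) *
    ((1 / T) * ∫ t in (0:ℝ)..T, h ((((2 * d T) ^ V : ℝ) : ℂ) * riemannZeta (pw (d T) t)))) atTop
    (𝓝 ((aC V).re / (2 * Real.pi) * ∫ z : ℂ, ‖z‖ ^ (-(2 * V) - 2) * h z))

end Pool.Agent.N748.MJ
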