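import Pool.Agent.N748.MJ.Stm

set_option autoImplicit false

/-!
# Joint complex moments of shifts near the critical line: the full main term, and consequences (statements)
-/

namespace Pool.Agent.N748.MJ

open Finset Filter MeasureTheory Topology Complex
open Pool.Agent.N748.MG

/-- (JMF) joint complex moments outside tiny sets, the full main term -/
def S_JMF : Prop := ∀ (m : ℕ) (R D : ℝ), 0 < R → 0 < D → Ev fun X δ =>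
  ∀ h : Fin m → ℝ, (∀ j, |h j| ≤ X ^ ((1:ℝ) / 2)) →
  ∃ N : Set ℝ, MeasurableSet N ∧ N ⊆ Set.Icc 0 X ∧ volume (Set.Icc 0 X \ N) ≤ ENNReal.ofReal (δ ^ D * X) ∧
    (∀ t ∈ N, ∀ j, riemannZeta (pw δ (t + h j)) ≠ 0) ∧
    ∀ (b : Fin m → ℂ) (n : Fin m → ℤ), (∀ j, ‖b j‖ ≤ R) → (∀ j, |((n j : ℤ) : ℝ)| ≤ R) →
    ‖(∫ t in N, ∏ j, ZZ (riemannZeta (pw δ (t + h j))) (b j) (n j)) -
      X * ∑' q : ℕ, dV (sp b n) h q * (starRingEnd ℂ) (dV (cj (sm b n)) h q) * (((q:ℝ) ^ (-(1 + 2 * δ)) : ℝ) : ℂ)‖ ≤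
      δ ^ D * X

/-- `τ_l(n)`: the sum over the factorisations `n = d_1 ... d_k` of `∏ d_j^(l_j)` -/
noncomputable def tau {k : ℕ} (l : Fin k → ℂ) (n : ℕ) : ℂ := ∑ e ∈ Nat.finMulAntidiag k n, ∏ j, ((e j : ℕ) : ℂ) ^ (l j)

/-- the diagonal series `∑ τ_(ib)(n) τ_(-ia)(n) n^(-2σ)` -/
noncomputable def ZS {k : ℕ} (a b : Fin k → ℝ) (σ : ℝ) : ℂ :=
  ∑' n : ℕ, tau (fun j => I * (b j : ℂ)) n * tau (fun j => -(I * (a j : ℂ))) n * (((n:ℝ) ^ (-(2 * σ)) : ℝ) : ℂ)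

/-- the product of the shifted zeta values at distance `δ` from the critical line -/
noncomputable def ZP {k : ℕ} (a b : Fin k → ℝ) (δ t : ℝ) : ℂ :=
  ∏ j, riemannZeta (1 / 2 + δ + (t + a j) * I) * riemannZeta (1 / 2 + δ - (t + b j) * I)

/-- (SRF) the shifted moments of zeta of all orders equal the diagonal series, up to any power of `d` -/
def S_SRF : Prop := ∀ (k : ℕ) (D : ℝ), 0 < D → ∃ V0 : ℝ, ∀ V : ℝ, V0 ≤ V → ∀ d : ℝ → ℝ, Ad d → ∀ a b : ℝ → Fin k → ℝ,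
  (∀ᶠ T : ℝ in atTop, ∀ j, |a T j| ≤ T ^ ((1:ℝ) / 2) ∧ |b T j| ≤ T ^ ((1:ℝ) / 2)) →
  ∀ᶠ T : ℝ in atTop, ‖((1 / T : ℝ) : ℂ) * (∫ t in {t : ℝ | t ∈ Set.Icc 0 T ∧
    ∀ j, mz (d T) (t + a T j) ≤ d T ^ (-V) ∧ mz (d T) (t + b T j) ≤ d T ^ (-V)}, ZP (a T) (b T) (d T) t) -
    ZS (a T) (b T) (1 / 2 + d T)‖ ≤ d T ^ D

/-- (KS) the moments with two shifts proportional to the distance to the line -/
def S_KS : Prop := ∀ d : ℝ → ℝ, Ad d → ∀ (k : ℕ) (x V : ℝ), (k:ℝ) < V →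
  Tendsto (fun T : ℝ => (((2 * d T) ^ ((k:ℝ) ^ 2) * (1 / T) : ℝ) : ℂ) *
    ∫ t in {t : ℝ | t ∈ Set.Icc 0 T ∧ mz (d T) (t + d T * x) ≤ (2 * d T) ^ (-V) ∧ mz (d T) (t - d T * x) ≤ (2 * d T) ^ (-V)},
      riemannZeta (1 / 2 + d T + I * (d T * x) + I * t) ^ k * riemannZeta (1 / 2 + d T + I * (d T * x) - I * t) ^ k) atTop
    (𝓝 (aC k * (1 + I * x) ^ (-((k:ℂ) ^ 2))))

end Pool.Agent.N748.MJ
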